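import Pool.Agent.SCT.ArL
import Pool.Agent.Helper19.Sec.Global

/-!
SCT module ARITH: the arithmetic consequences of a section.

Proof.  `B` = maximum of `2`, `natAbs` of the leading coefficient of `P = ∏ F j` and the bound of
`exists_sep_bound` (`Helper19/Sec/Global.lean`).  Given a section (`HasSection P d`), unfold, take
`s = s0.toData`; as in `no_section`: `IsAlgClosed Ω`, `Algebra.IsAlgebraic K Ω` from
`IsAlgClosure K Ω`.  With `f = P.map (ℤ → ℚ)`, `c = d`: `exists_sqrt_prod` for `S = rts (F j)`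
(a set of even cardinality, `card_rts`; `F j` divides `P`, so it is separable and its roots are
roots of `P`) gives `r j`, `exists_b` gives `b j`, `e j`; then `arith_local` for every prime `q > B`.
`d ≠ 0` as it is squarefree.
-/

set_option linter.dupNamespace false

namespace Pool.Agent.SCT

open Polynomial Pool.Agent.Helper36 Pool.Agent.Helper19.Sec

variable {ι : Type} [Fintype ι] [DecidableEq ι]

private theorem aeval_map_aux {E : Type*} [Field E] {inst : Algebra ℚ E} (P : ℤ[X]) (z : E) :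
    aeval z (P.map (Int.castRingHom ℚ)) = aeval z P := by
  rw [aeval_def, aeval_def, eval₂_map]
  congr 1
  exact RingHom.ext_int _ _

theorem arith (F : ι → ℤ[X]) (heven : ∀ j, Even (F j).natDegree)
    (h6 : 6 ≤ (∏ j, F j).natDegree) (hsepQ : ((∏ j, F j).map (Int.castRingHom ℚ)).Separable) :
    ∃ B : ℕ, 2 ≤ B ∧ ∀ d : ℤ, Squarefree d → HasSection (∏ j, F j) d →
      ∃ e : ι → ℤ, (∀ j, Squarefree (e j)) ∧ ∀ q : ℕ, q.Prime → B < q →
        (¬ (q : ℤ) ∣ d → ∀ j, ¬ (q : ℤ) ∣ e j) ∧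
        ((q : ℤ) ∣ d → ∃ i : ι, (q : ℤ) ∣ e i ∧ (∀ j, j ≠ i → ¬ (q : ℤ) ∣ e j) ∧
          ∃ z : ι → ℤˣ, z ∈ pat F i q ∧ ∀ j, j ≠ i → jacobiSym (e j) q = ((z j : ℤˣ) : ℤ)) := by
  classical
  obtain ⟨N, hN⟩ := exists_sep_bound (∏ j, F j) hsepQ
  set P : ℤ[X] := ∏ j, F j with hP
  have hP0 : P ≠ 0 := by
    intro h0
    rw [h0, natDegree_zero] at h6
    omega
  have hlead : P.leadingCoeff ≠ 0 := leadingCoeff_ne_zero.mpr hP0
  refine ⟨N + P.leadingCoeff.natAbs + 2, by omega, ?_⟩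
  rintro d hd ⟨K, Ω, _, _, _, _, _, _, _, x, y, hx, hxy, ⟨s0⟩⟩
  have hclosed : IsAlgClosed Ω := IsAlgClosure.isAlgClosed K
  have halg : Algebra.IsAlgebraic K Ω := IsAlgClosure.isAlgebraic
  let s : SectionData ℚ K Ω := s0.toData
  have hdvd : ∀ j, F j ∣ P := fun j => Finset.dvd_prod_of_mem F (Finset.mem_univ j)
  have hF0 : ∀ j, F j ≠ 0 := fun j h0 => hP0 (zero_dvd_iff.mp (h0 ▸ hdvd j))
  have hsepj : ∀ j, ((F j).map (Int.castRingHom ℚ)).Separable := fun j =>
    hsepQ.of_dvd (Polynomial.map_dvd _ (hdvd j))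
  have hd0 : (d : ℚ) ≠ 0 := by exact_mod_cast hd.ne_zero
  have hxy' : algebraMap ℚ K (d : ℚ) * y ^ 2 = aeval x (P.map (Int.castRingHom ℚ)) := by
    have h1 : aeval x (P.map (Int.castRingHom ℚ)) = aeval x P := aeval_map_aux P x
    rw [h1, ← hxy, map_intCast]
  have hcard : ∀ j, Even (rts (algebraicClosure ℚ Ω) (F j)).card := by
    intro j
    rw [card_rts (hsepj j)]
    exact heven j
  have hr : ∀ j, ∃ r : univCover ℚ K Ω, r ^ 2 = ∏ θ ∈ rts (algebraicClosure ℚ Ω) (F j),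
      (algebraMap K (univCover ℚ K Ω) x - incl ℚ K Ω θ) := by
    intro j
    refine exists_sqrt_prod (P.map (Int.castRingHom ℚ)) hsepQ (d : ℚ) hd0 x y hx hxy' _ ?_ (hcard j)
    intro θ hθ
    have h1 : aeval θ (F j) = 0 := (mem_rts (hF0 j) θ).mp hθ
    obtain ⟨g, hg⟩ := hdvd j
    have h2 : aeval θ P = 0 := by rw [hg, map_mul, h1, zero_mul]
    exact (aeval_map_aux P θ).trans h2
  choose r hr using hr
  have hb : ∀ j, ∃ (b : algebraicClosure ℚ Ω) (e : ℤ), Squarefree e ∧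
      b ^ 2 = (e : algebraicClosure ℚ Ω) ∧ ∀ σ, s.act σ (incl ℚ K Ω b * r j) =
        incl ℚ K Ω b * r j := by
    intro j
    refine exists_b s x hx (rts (algebraicClosure ℚ Ω) (F j)) ?_ (r j) (hr j)
    intro σ θ hθ
    rw [mem_rts (hF0 j)] at hθ ⊢
    have h1 := Polynomial.aeval_algHom_apply
      (RingHom.toIntAlgHom (σ : algebraicClosure ℚ Ω →+* algebraicClosure ℚ Ω)) θ (F j)
    rw [hθ, map_zero] at h1
    exact h1
  choose b e hesq hbe hfix using hb
  refine ⟨e, hesq, fun q hq hBq => ?_⟩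
  have hq2 : q ≠ 2 := by omega
  have hl : ¬ (q : ℤ) ∣ P.leadingCoeff := by
    intro hdvd
    have h1 := Int.natAbs_dvd_natAbs.mpr hdvd
    rw [Int.natAbs_natCast] at h1
    have h2 := Nat.le_of_dvd (Int.natAbs_pos.mpr hlead) h1
    omega
  exact arith_local s F heven h6 hsepQ q hq hq2 hl (hN q hq (by omega)) d hd x y hx hxy e hesq b hbe
    r hr hfix

end Pool.Agent.SCT
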