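import Pool.Agent.SCT.Defs

/-!
SCT module SQF: from squarefree integers to all integers.

Proof.  Let `T n = #{d0 ∈ 𝒯 : |d0| ≤ n}`, `M = |b| N`.  If `b * d = d0 * t^2`, `d ≠ 0`, `|d| ≤ N`,
then `t ≠ 0`, we may take `t ≥ 1`, `t^2 ≤ M` and `|d0| ≤ M / t^2`, and `d` is determined by
`(d0, t)`; so the number is at most `∑_{1 ≤ t ≤ sqrt M} T(⌊M / t^2⌋)` (`sqf_count`).
With `n = ⌊M / t^2⌋ ≥ 1`: `M ≤ 2 n t^2`, `log M ≤ log (2 n) + 2 log t ≤ log (2 n) (1 + 3 log t)`, and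
`T n (log (2 n))^δ ≤ C2 n` (`sqf_T`), so `(log M)^δ T n ≤ C2 (M / t^2) (1 + 3 log t)^δ
≤ C2 (1 + 6 δ)^δ M t^(-3/2)`; the series converges.
-/

set_option linter.dupNamespace false

namespace Pool.Agent.SCT

open Finset

theorem sqf_T (𝒯 : Set ℤ) (C δ : ℝ) (hC : 0 ≤ C) (hδ : 0 < δ)
    (h : ∀ N : ℕ, 2 ≤ N → (({d : ℤ | d ∈ 𝒯 ∧ |d| ≤ N}.ncard : ℕ) : ℝ) ≤ C * N / (Real.log N) ^ δ)
    (n : ℕ) (hn : 1 ≤ n) :
    (({d : ℤ | d ∈ 𝒯 ∧ |d| ≤ n}.ncard : ℕ) : ℝ) * (Real.log (2 * n)) ^ δ ≤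
      (2 ^ δ * C + 3) * n := by
  have hn0 : (0 : ℝ) < n := by exact_mod_cast hn
  rcases Nat.lt_or_ge n 2 with h2 | h2
  · have hn1 : n = 1 := by omega
    subst hn1
    have h3 : {d : ℤ | d ∈ 𝒯 ∧ |d| ≤ ((1 : ℕ) : ℤ)}.ncard ≤ 3 := by
      have h4 : {d : ℤ | d ∈ 𝒯 ∧ |d| ≤ ((1 : ℕ) : ℤ)} ⊆ ((Finset.Icc (-1 : ℤ) 1 : Finset ℤ) : Set ℤ) := by
        intro d hd
        simp only [Set.mem_setOf_eq, Nat.cast_one, abs_le] at hd
        rw [Finset.mem_coe, Finset.mem_Icc]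
        exact hd.2
      have h5 := Set.ncard_le_ncard h4 (Finset.finite_toSet _)
      rw [Set.ncard_coe_finset] at h5
      exact h5.trans (by decide)
    have h4 : (Real.log (2 * ((1 : ℕ) : ℝ))) ^ δ ≤ 1 := by
      apply Real.rpow_le_one
      · apply Real.log_nonneg; norm_num
      · have := Real.log_two_lt_d9
        norm_num
        linarith
      · exact hδ.le
    have h5 : (({d : ℤ | d ∈ 𝒯 ∧ |d| ≤ ((1 : ℕ) : ℤ)}.ncard : ℕ) : ℝ) ≤ 3 := by exact_mod_cast h3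
    have h6 : 0 ≤ (Real.log (2 * ((1 : ℕ) : ℝ))) ^ δ := Real.rpow_nonneg (by
      apply Real.log_nonneg; norm_num) _
    calc (({d : ℤ | d ∈ 𝒯 ∧ |d| ≤ ((1 : ℕ) : ℤ)}.ncard : ℕ) : ℝ) *
          (Real.log (2 * ((1 : ℕ) : ℝ))) ^ δ ≤ 3 * 1 := mul_le_mul h5 h4 h6 (by norm_num)
      _ ≤ (2 ^ δ * C + 3) * ((1 : ℕ) : ℝ) := by
        have : 0 ≤ (2 : ℝ) ^ δ * C := by positivity
        push_cast
        linarith
  · have hn2 : (2 : ℝ) ≤ n := by exact_mod_cast h2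
    have hlog : 0 < Real.log n := Real.log_pos (by linarith)
    have h3 := h n h2
    have h4 : (Real.log (2 * n)) ^ δ ≤ 2 ^ δ * (Real.log n) ^ δ := by
      rw [← Real.mul_rpow (by norm_num) hlog.le]
      apply Real.rpow_le_rpow
      · apply Real.log_nonneg; linarith
      · have h5 : Real.log (2 * n) ≤ Real.log ((n : ℝ) ^ 2) := by
          apply Real.log_le_log (by positivity)
          nlinarith
        rw [Real.log_pow] at h5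
        exact_mod_cast h5
      · exact hδ.le
    have h5 : 0 < (Real.log n) ^ δ := Real.rpow_pos_of_pos hlog _
    calc (({d : ℤ | d ∈ 𝒯 ∧ |d| ≤ n}.ncard : ℕ) : ℝ) * (Real.log (2 * n)) ^ δ
        ≤ (C * n / (Real.log n) ^ δ) * (2 ^ δ * (Real.log n) ^ δ) :=
          mul_le_mul h3 h4 (Real.rpow_nonneg (Real.log_nonneg (by linarith)) _) (by positivity)
      _ = 2 ^ δ * C * n := by field_simp
      _ ≤ (2 ^ δ * C + 3) * n := by
        have : (2 ^ δ * C + 3) * (n : ℝ) = 2 ^ δ * C * n + 3 * n := by ring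
        linarith

theorem sqf_count (𝒯 : Set ℤ) (b : ℤ) (hb : b ≠ 0) (N : ℕ) :
    {d : ℤ | d ≠ 0 ∧ |d| ≤ N ∧ ∃ d0 ∈ 𝒯, ∃ t : ℤ, b * d = d0 * t ^ 2}.ncard ≤
      ∑ t ∈ Icc 1 (Nat.sqrt (b.natAbs * N)),
        {d : ℤ | d ∈ 𝒯 ∧ |d| ≤ ((b.natAbs * N / t ^ 2 : ℕ) : ℤ)}.ncard := by
  classical
  set M := b.natAbs * N with hM
  set D : ℕ → Finset ℤ := fun t =>
    (Icc (-(M : ℤ)) M).filter (fun d => d ∈ 𝒯 ∧ |d| ≤ ((M / t ^ 2 : ℕ) : ℤ)) with hD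
  set Bt : ℕ → Finset ℤ := fun t =>
    (Icc (-(N : ℤ)) N).filter (fun d => ∃ d0 ∈ 𝒯, |d0| ≤ ((M / t ^ 2 : ℕ) : ℤ) ∧
      b * d = d0 * (t : ℤ) ^ 2) with hBt
  have hDcard : ∀ t, (D t).card =
      {d : ℤ | d ∈ 𝒯 ∧ |d| ≤ ((M / t ^ 2 : ℕ) : ℤ)}.ncard := by
    intro t
    rw [← Set.ncard_coe_finset]
    congr 1
    ext d
    simp only [hD, coe_filter, mem_Icc, Set.mem_setOf_eq]
    constructor
    · exact fun h => h.2
    · intro h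
      refine ⟨?_, h⟩
      have h1 : ((M / t ^ 2 : ℕ) : ℤ) ≤ M := by exact_mod_cast Nat.div_le_self _ _
      have h2 := h.2.trans h1
      rw [abs_le] at h2
      exact h2
  have hBcard : ∀ t ∈ Icc 1 (Nat.sqrt M), (Bt t).card ≤ (D t).card := by
    intro t ht
    rw [mem_Icc] at ht
    have ht0 : (0 : ℤ) < (t : ℤ) ^ 2 := by
      have : (0 : ℤ) < t := by exact_mod_cast ht.1
      positivity
    refine card_le_card_of_injOn (fun d => b * d / (t : ℤ) ^ 2) ?_ ?_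
    · intro d hd
      simp only [hBt, coe_filter, mem_Icc, Set.mem_setOf_eq] at hd
      obtain ⟨_, d0, hd0, hd1, hd2⟩ := hd
      have e : b * d / (t : ℤ) ^ 2 = d0 := by
        rw [hd2]; exact Int.mul_ediv_cancel _ ht0.ne'
      simp only [hD, coe_filter, mem_Icc, Set.mem_setOf_eq, e]
      refine ⟨?_, hd0, hd1⟩
      have h1 : ((M / t ^ 2 : ℕ) : ℤ) ≤ M := by exact_mod_cast Nat.div_le_self _ _
      have h2 := hd1.trans h1
      rw [abs_le] at h2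
      exact h2
    · intro d hd d' hd' hdd
      simp only [hBt, coe_filter, mem_Icc, Set.mem_setOf_eq] at hd hd'
      obtain ⟨_, d0, hd0, hd1, hd2⟩ := hd
      obtain ⟨_, d0', hd0', hd1', hd2'⟩ := hd'
      simp only at hdd
      rw [hd2, hd2', Int.mul_ediv_cancel _ ht0.ne', Int.mul_ediv_cancel _ ht0.ne'] at hdd
      rw [← hdd, ← hd2] at hd2'
      exact (mul_left_cancel₀ hb hd2').symm
  have hsub : {d : ℤ | d ≠ 0 ∧ |d| ≤ N ∧ ∃ d0 ∈ 𝒯, ∃ t : ℤ, b * d = d0 * t ^ 2} ⊆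
      (((Icc 1 (Nat.sqrt M)).biUnion Bt : Finset ℤ) : Set ℤ) := by
    intro d hd
    obtain ⟨hd0, hdN, d0, hd0T, t, ht⟩ := hd
    have ht' : b * d = d0 * ((t.natAbs : ℕ) : ℤ) ^ 2 := by
      rw [ht]
      congr 1
      rw [Int.natCast_natAbs, sq_abs]
    have hbd : b * d ≠ 0 := mul_ne_zero hb hd0
    have hd00 : d0 ≠ 0 := by
      intro h0; rw [ht, h0, zero_mul] at hbd; exact hbd rfl
    have htn0 : t.natAbs ≠ 0 := by
      intro h0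
      rw [Int.natAbs_eq_zero] at h0
      rw [ht, h0] at hbd
      apply hbd; ring
    have habs : d0.natAbs * t.natAbs ^ 2 = b.natAbs * d.natAbs := by
      have := congrArg Int.natAbs ht'
      rw [Int.natAbs_mul, Int.natAbs_mul, Int.natAbs_pow, Int.natAbs_natCast] at this
      exact this.symm
    have hdN' : d.natAbs ≤ N := by
      rw [Int.abs_eq_natAbs] at hdN
      exact_mod_cast hdN
    have hle : d0.natAbs * t.natAbs ^ 2 ≤ M := by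
      rw [habs, hM]; exact Nat.mul_le_mul_left _ hdN'
    have ht2 : t.natAbs ^ 2 ≤ M := by
      have h1 : 1 ≤ d0.natAbs := Int.natAbs_pos.2 hd00
      calc t.natAbs ^ 2 = 1 * t.natAbs ^ 2 := by ring
        _ ≤ d0.natAbs * t.natAbs ^ 2 := Nat.mul_le_mul_right _ h1
        _ ≤ M := hle
    simp only [mem_coe, mem_biUnion, mem_Icc]
    refine ⟨t.natAbs, ⟨by omega, ?_⟩, ?_⟩
    · rw [Nat.le_sqrt']; exact ht2
    · simp only [hBt, mem_filter, mem_Icc]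
      refine ⟨abs_le.1 hdN, d0, hd0T, ?_, ht'⟩
      rw [Int.abs_eq_natAbs]
      have : d0.natAbs ≤ M / t.natAbs ^ 2 :=
        (Nat.le_div_iff_mul_le (by positivity)).2 hle
      exact_mod_cast this
  calc {d : ℤ | d ≠ 0 ∧ |d| ≤ N ∧ ∃ d0 ∈ 𝒯, ∃ t : ℤ, b * d = d0 * t ^ 2}.ncard
      ≤ ((((Icc 1 (Nat.sqrt M)).biUnion Bt : Finset ℤ) : Set ℤ)).ncard :=
        Set.ncard_le_ncard hsub (Finset.finite_toSet _)
    _ = ((Icc 1 (Nat.sqrt M)).biUnion Bt).card := Set.ncard_coe_finset _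
    _ ≤ ∑ t ∈ Icc 1 (Nat.sqrt M), (Bt t).card := card_biUnion_le
    _ ≤ ∑ t ∈ Icc 1 (Nat.sqrt M), (D t).card := sum_le_sum hBcard
    _ = _ := sum_congr rfl fun t _ => hDcard t

theorem sqfree_to_all (𝒯 : Set ℤ) (C δ : ℝ) (hC : 0 ≤ C) (hδ : 0 < δ)
    (h : ∀ N : ℕ, 2 ≤ N → (({d : ℤ | d ∈ 𝒯 ∧ |d| ≤ N}.ncard : ℕ) : ℝ) ≤ C * N / (Real.log N) ^ δ)
    (b : ℤ) (hb : b ≠ 0) :
    ∃ C' : ℝ, 0 ≤ C' ∧ ∀ N : ℕ, 2 ≤ N →
      (({d : ℤ | d ≠ 0 ∧ |d| ≤ N ∧ ∃ d0 ∈ 𝒯, ∃ t : ℤ, b * d = d0 * t ^ 2}.ncard : ℕ) : ℝ) ≤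
        C' * N / (Real.log N) ^ δ := by
  have hsum : Summable (fun t : ℕ => 1 / (t : ℝ) ^ ((3 : ℝ) / 2)) :=
    Real.summable_one_div_nat_rpow.2 (by norm_num)
  set Sg := ∑' t : ℕ, 1 / (t : ℝ) ^ ((3 : ℝ) / 2) with hSg
  have hSg0 : 0 ≤ Sg := tsum_nonneg fun t => by positivity
  set C2 : ℝ := 2 ^ δ * C + 3 with hC2
  have hC20 : 0 ≤ C2 := by positivity
  refine ⟨C2 * (1 + 6 * δ) ^ δ * Sg * b.natAbs, by positivity, fun N hN => ?_⟩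
  set M := b.natAbs * N with hM
  have hb1 : 1 ≤ b.natAbs := Int.natAbs_pos.2 hb
  have hNM : N ≤ M := by rw [hM]; exact Nat.le_mul_of_pos_left N hb1
  have hN0 : (0 : ℝ) < N := by exact_mod_cast (by omega : 0 < N)
  have hM0 : (0 : ℝ) < M := by exact_mod_cast (by omega : 0 < M)
  have hlogN : 0 < Real.log N := Real.log_pos (by exact_mod_cast (by omega : 1 < N))
  have hlogM : Real.log N ≤ Real.log M := Real.log_le_log hN0 (by exact_mod_cast hNM)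
  have hlogM0 : 0 < Real.log M := lt_of_lt_of_le hlogN hlogM
  have hLM : 0 < (Real.log M) ^ δ := Real.rpow_pos_of_pos hlogM0 _
  have hLN : 0 < (Real.log N) ^ δ := Real.rpow_pos_of_pos hlogN _
  have hcount : (({d : ℤ | d ≠ 0 ∧ |d| ≤ N ∧ ∃ d0 ∈ 𝒯, ∃ t : ℤ, b * d = d0 * t ^ 2}.ncard : ℕ) : ℝ)
      ≤ ∑ t ∈ Icc 1 (Nat.sqrt M),
        (({d : ℤ | d ∈ 𝒯 ∧ |d| ≤ ((M / t ^ 2 : ℕ) : ℤ)}.ncard : ℕ) : ℝ) := by
    exact_mod_cast sqf_count 𝒯 b hb N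
  -- the bound for one `t`
  have hterm : ∀ t ∈ Icc 1 (Nat.sqrt M),
      (({d : ℤ | d ∈ 𝒯 ∧ |d| ≤ ((M / t ^ 2 : ℕ) : ℤ)}.ncard : ℕ) : ℝ) ≤
        C2 * (1 + 6 * δ) ^ δ * M / (Real.log M) ^ δ * (1 / (t : ℝ) ^ ((3 : ℝ) / 2)) := by
    intro t ht
    rw [mem_Icc] at ht
    have ht0 : (0 : ℝ) < t := by exact_mod_cast ht.1
    have ht1 : (1 : ℝ) ≤ t := by exact_mod_cast ht.1
    have ht2 : t ^ 2 ≤ M := Nat.le_sqrt'.1 ht.2
    set n := M / t ^ 2 with hn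
    have hn1 : 1 ≤ n := (Nat.le_div_iff_mul_le (by have := ht.1; positivity)).2 (by omega)
    have hn0 : (0 : ℝ) < n := by exact_mod_cast hn1
    have hn1' : (1 : ℝ) ≤ n := by exact_mod_cast hn1
    have h1 := sqf_T 𝒯 C δ hC hδ h n hn1
    have hMn : M < t ^ 2 * (n + 1) := by
      rw [hn]; exact Nat.lt_mul_div_succ M (by have := ht.1; positivity)
    have hMn' : (M : ℝ) ≤ (2 * n) * t ^ 2 := by
      have : M ≤ (2 * n) * t ^ 2 := by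
        have : t ^ 2 * (n + 1) ≤ t ^ 2 * (2 * n) := Nat.mul_le_mul_left _ (by omega)
        calc M ≤ t ^ 2 * (n + 1) := hMn.le
          _ ≤ t ^ 2 * (2 * n) := this
          _ = (2 * n) * t ^ 2 := by ring
      exact_mod_cast this
    have hnt : (n : ℝ) ≤ M / (t : ℝ) ^ 2 := by
      rw [le_div_iff₀ (by positivity)]
      exact_mod_cast Nat.div_mul_le_self M (t ^ 2)
    have hlogt : 0 ≤ Real.log t := Real.log_nonneg ht1
    have hlog2 : (2 : ℝ) / 3 ≤ Real.log 2 := by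
      have := Real.log_two_gt_d9
      linarith
    have hlog2n : Real.log 2 ≤ Real.log (2 * n) :=
      Real.log_le_log (by norm_num) (by linarith)
    have hlogM' : Real.log M ≤ Real.log (2 * n) * (1 + 3 * Real.log t) := by
      have h2 : Real.log M ≤ Real.log ((2 * n) * t ^ 2) := Real.log_le_log hM0 hMn'
      rw [Real.log_mul (by positivity) (by positivity), Real.log_pow] at h2
      push_cast at h2
      nlinarith
    have hε : 1 + 3 * Real.log t ≤ (1 + 6 * δ) * (t : ℝ) ^ (1 / (2 * δ)) := by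
      have h2 := Real.log_le_rpow_div ht0.le (show 0 < 1 / (2 * δ) by positivity)
      have h3 : 1 ≤ (t : ℝ) ^ (1 / (2 * δ)) := Real.one_le_rpow ht1 (by positivity)
      have h4 : (t : ℝ) ^ (1 / (2 * δ)) / (1 / (2 * δ)) = 2 * δ * (t : ℝ) ^ (1 / (2 * δ)) := by
        field_simp
      rw [h4] at h2
      linarith
    have hpow : (1 + 3 * Real.log t) ^ δ ≤ (1 + 6 * δ) ^ δ * (t : ℝ) ^ ((1 : ℝ) / 2) := by
      calc (1 + 3 * Real.log t) ^ δ ≤ ((1 + 6 * δ) * (t : ℝ) ^ (1 / (2 * δ))) ^ δ :=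
            Real.rpow_le_rpow (by positivity) hε hδ.le
        _ = (1 + 6 * δ) ^ δ * (t : ℝ) ^ ((1 : ℝ) / 2) := by
            rw [Real.mul_rpow (by positivity) (by positivity), ← Real.rpow_mul ht0.le]
            congr 2
            field_simp
    have hM2 : (Real.log M) ^ δ ≤ (Real.log (2 * n)) ^ δ *
        ((1 + 6 * δ) ^ δ * (t : ℝ) ^ ((1 : ℝ) / 2)) := by
      calc (Real.log M) ^ δ ≤ (Real.log (2 * n) * (1 + 3 * Real.log t)) ^ δ :=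
            Real.rpow_le_rpow hlogM0.le hlogM' hδ.le
        _ = (Real.log (2 * n)) ^ δ * (1 + 3 * Real.log t) ^ δ :=
            Real.mul_rpow (by linarith) (by positivity)
        _ ≤ _ := mul_le_mul_of_nonneg_left hpow (Real.rpow_nonneg (by linarith) _)
    have ht32 : (t : ℝ) ^ ((3 : ℝ) / 2) * (t : ℝ) ^ ((1 : ℝ) / 2) = (t : ℝ) ^ 2 := by
      rw [← Real.rpow_add ht0, ← Real.rpow_natCast]
      norm_num
    have h5 : (({d : ℤ | d ∈ 𝒯 ∧ |d| ≤ (n : ℤ)}.ncard : ℕ) : ℝ) * (Real.log M) ^ δ ≤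
        C2 * (1 + 6 * δ) ^ δ * M * (1 / (t : ℝ) ^ ((3 : ℝ) / 2)) := by
      calc (({d : ℤ | d ∈ 𝒯 ∧ |d| ≤ (n : ℤ)}.ncard : ℕ) : ℝ) * (Real.log M) ^ δ
          ≤ (({d : ℤ | d ∈ 𝒯 ∧ |d| ≤ (n : ℤ)}.ncard : ℕ) : ℝ) * ((Real.log (2 * n)) ^ δ *
            ((1 + 6 * δ) ^ δ * (t : ℝ) ^ ((1 : ℝ) / 2))) :=
            mul_le_mul_of_nonneg_left hM2 (Nat.cast_nonneg _)
        _ = ((({d : ℤ | d ∈ 𝒯 ∧ |d| ≤ (n : ℤ)}.ncard : ℕ) : ℝ) * (Real.log (2 * n)) ^ δ) *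
            ((1 + 6 * δ) ^ δ * (t : ℝ) ^ ((1 : ℝ) / 2)) := by ring
        _ ≤ (C2 * n) * ((1 + 6 * δ) ^ δ * (t : ℝ) ^ ((1 : ℝ) / 2)) :=
            mul_le_mul_of_nonneg_right h1 (by positivity)
        _ ≤ (C2 * (M / (t : ℝ) ^ 2)) * ((1 + 6 * δ) ^ δ * (t : ℝ) ^ ((1 : ℝ) / 2)) := by
            refine mul_le_mul_of_nonneg_right ?_ (by positivity)
            exact mul_le_mul_of_nonneg_left hnt hC20
        _ = C2 * (1 + 6 * δ) ^ δ * M * (1 / (t : ℝ) ^ ((3 : ℝ) / 2)) := by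
            rw [← ht32]
            have h6 : (t : ℝ) ^ ((3 : ℝ) / 2) ≠ 0 := by positivity
            have h7 : (t : ℝ) ^ ((1 : ℝ) / 2) ≠ 0 := by positivity
            field_simp
    have h6 : C2 * (1 + 6 * δ) ^ δ * M / (Real.log M) ^ δ * (1 / (t : ℝ) ^ ((3 : ℝ) / 2)) =
        (C2 * (1 + 6 * δ) ^ δ * M * (1 / (t : ℝ) ^ ((3 : ℝ) / 2))) / (Real.log M) ^ δ := by
      ring
    rw [h6, le_div_iff₀ hLM]
    exact h5
  have hfin : ∑ t ∈ Icc 1 (Nat.sqrt M), (1 / (t : ℝ) ^ ((3 : ℝ) / 2)) ≤ Sg :=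
    hsum.sum_le_tsum _ (fun t _ => by positivity)
  calc (({d : ℤ | d ≠ 0 ∧ |d| ≤ N ∧ ∃ d0 ∈ 𝒯, ∃ t : ℤ, b * d = d0 * t ^ 2}.ncard : ℕ) : ℝ)
      ≤ ∑ t ∈ Icc 1 (Nat.sqrt M),
        C2 * (1 + 6 * δ) ^ δ * M / (Real.log M) ^ δ * (1 / (t : ℝ) ^ ((3 : ℝ) / 2)) :=
        hcount.trans (sum_le_sum hterm)
    _ = C2 * (1 + 6 * δ) ^ δ * M / (Real.log M) ^ δ *
        ∑ t ∈ Icc 1 (Nat.sqrt M), (1 / (t : ℝ) ^ ((3 : ℝ) / 2)) := by rw [mul_sum]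
    _ ≤ C2 * (1 + 6 * δ) ^ δ * M / (Real.log M) ^ δ * Sg :=
        mul_le_mul_of_nonneg_left hfin (by positivity)
    _ ≤ C2 * (1 + 6 * δ) ^ δ * M / (Real.log N) ^ δ * Sg := by
        refine mul_le_mul_of_nonneg_right ?_ hSg0
        refine div_le_div_of_nonneg_left (by positivity) hLN ?_
        exact Real.rpow_le_rpow hlogN.le hlogM hδ.le
    _ = C2 * (1 + 6 * δ) ^ δ * Sg * b.natAbs * N / (Real.log N) ^ δ := by
        have : (M : ℝ) = b.natAbs * N := by rw [hM]; push_cast; ring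
        rw [this]
        ring

end Pool.Agent.SCT
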