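import Pool.Agent.Helper19.Sec.Local

/-!
SCT module QLOC: Frobenius and inertia elements at an odd prime `q` of `ℚ`.

* `exists_local_int`: build the localization `A` of `ℤ` at `q` exactly as in the proof of
  `no_section_int` (`Pool/Agent/Helper19/Sec/Rat.lean`), whose residue field has `q` elements
  (`ZMod q ≃ ResidueField A` there), and apply `exists_local` (`Gal.lean`) with `ϖ = q` and a
  square root `s` of `q`; if `t ^ 2 = q` then `t = ± s`, so `τ t = - t`.  `v z ≤ 1` for `z : ℤ` and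
  `v q < 1` are given; if `q ∤ z` then `z` is a unit of `A`, so `v z = 1` (both `z` and the inverse
  have value `≤ 1`).
* `int_rep`: `v (z^q - z) < 1` by `hl.hφ`; so the residue of `z` is a root of `X^q - X`, and
  `mem_range_of_pow_card` (`Local.lean`) with the ring homomorphism `ZMod q → residue field of V`
  (`ZMod.lift`, or the characteristic is `q`; exists because `v q < 1`) gives an integer `a`.
* `isSquare_of`: take `a` with `v (z - a) < 1`; then `v (a^2 - g) < 1`, so `q ∣ a^2 - g`.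
* `tau_sqrt_unit`: `v b = 1` and `IsLoc.fix_root` with exponent one.
* `tau_sqrt_ram`: `e = q u`, `t^2 = q`; `(b / t)^2 = u`, so `τ (b/t) = b/t` and `τ b = - b`.
-/

set_option linter.dupNamespace false

namespace Pool.Agent.SCT

open Pool.Agent.Helper19.Sec

variable {E : Type*} [Field E] [Algebra ℚ E] [IsAlgClosure ℚ E]

/-- Frobenius lift and inertia element at `q` -/
structure LocAt (q : ℕ) (V : ValuationSubring E) (φ τ : E ≃ₐ[ℚ] E) : Prop where
  isLoc : IsLoc V.valuation (φ : E →+* E) (τ : E →+* E) q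
  le_one : ∀ z : ℤ, V.valuation (z : E) ≤ 1
  lt_iff : ∀ z : ℤ, V.valuation (z : E) < 1 ↔ (q : ℤ) ∣ z
  ram : ∀ t : E, t ^ 2 = (q : E) → τ t = -t

theorem exists_local_int (q : ℕ) (hq : q.Prime) (hq2 : q ≠ 2) :
    ∃ (V : ValuationSubring E) (φ τ : E ≃ₐ[ℚ] E), LocAt q V φ τ := by
  have hclosed : IsAlgClosed E := IsAlgClosure.isAlgClosed ℚ
  have hqf : Fact q.Prime := ⟨hq⟩
  let P : Ideal ℤ := Ideal.span {(q : ℤ)}
  have hpZ : Prime (q : ℤ) := Nat.prime_iff_prime_int.mp hq
  have hP0 : P ≠ ⊥ := by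
    rw [Ne, Ideal.span_singleton_eq_bot]
    exact hpZ.ne_zero
  have hPprime : P.IsPrime := (Ideal.span_singleton_prime hpZ.ne_zero).mpr hpZ
  have hPmax : P.IsMaximal := hPprime.isMaximal hP0
  let A := Localization.AtPrime P
  have hmemP : ∀ z : ℤ, z ∈ P ↔ (q : ℤ) ∣ z := fun z => Ideal.mem_span_singleton
  have hle : P.primeCompl ≤ nonZeroDivisors ℤ := P.primeCompl_le_nonZeroDivisors
  let _ : Algebra A ℚ := (IsLocalization.lift (M := P.primeCompl) (S := A)
    (g := Int.castRingHom ℚ) (by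
      intro z
      have : (z : ℤ) ≠ 0 := nonZeroDivisors.ne_zero (hle z.2)
      simpa using this)).toAlgebra
  have htow : ∀ z : ℤ, algebraMap ℤ ℚ z = algebraMap A ℚ (algebraMap ℤ A z) := by
    intro z
    rw [RingHom.algebraMap_toAlgebra (R := A) (S := ℚ), IsLocalization.lift_eq]
    rfl
  have htower := IsScalarTower.of_algebraMap_eq (R := ℤ) (S := A) (A := ℚ) htow
  have hfrac : IsFractionRing A ℚ :=
    IsFractionRing.isFractionRing_of_isLocalization P.primeCompl A ℚ hle
  have hdom : IsDomain A := IsLocalization.isDomain_localization hle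
  have hdvr : IsDiscreteValuationRing A :=
    IsLocalization.AtPrime.isDiscreteValuationRing_of_dedekind_domain ℤ hP0 A
  -- the residue field
  let e0 : (ℤ ⧸ P) ≃+* IsLocalRing.ResidueField A := IsLocalization.AtPrime.equivQuotMaximalIdeal P A
  let e1 : (ℤ ⧸ P) ≃+* ZMod q := Int.quotientSpanNatEquivZMod q
  let e : ZMod q ≃+* IsLocalRing.ResidueField A := e1.symm.trans e0
  have hfin : Finite (IsLocalRing.ResidueField A) := Finite.of_equiv _ e.toEquiv
  have hcard : Nat.card (IsLocalRing.ResidueField A) = q := by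
    rw [← Nat.card_congr e.toEquiv, Nat.card_zmod]
  have hunit : ∀ z : ℤ, ¬ (q : ℤ) ∣ z → IsUnit (algebraMap ℤ A z) := by
    intro z hz
    exact IsLocalization.map_units A (⟨z, fun h => hz ((hmemP z).mp h)⟩ : P.primeCompl)
  have h2 : IsUnit (2 : A) := by
    have := hunit 2 (by
      intro h
      have h3 : q ∣ 2 := by exact_mod_cast h
      exact hq2 ((Nat.prime_dvd_prime_iff_eq hq Nat.prime_two).mp h3))
    simpa using this
  have hirr : Irreducible (algebraMap ℤ A (q : ℤ)) := by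
    rw [IsDiscreteValuationRing.irreducible_iff_uniformizer,
      ← IsLocalization.AtPrime.map_eq_maximalIdeal P A, Ideal.map_span, Set.image_singleton]
  have hjz : ∀ z : ℤ, algebraMap ℚ E (algebraMap A ℚ (algebraMap ℤ A z)) = (z : E) := by
    intro z
    rw [← htow, eq_intCast (algebraMap ℤ ℚ), map_intCast]
  obtain ⟨s, hs⟩ := IsAlgClosed.exists_pow_nat_eq
    (algebraMap ℚ E (algebraMap A ℚ (algebraMap ℤ A (q : ℤ)))) (n := 2) (by norm_num)
  obtain ⟨V, φ, τ, hl, hA, hϖ1, hτs⟩ := exists_local h2 (algebraMap ℤ A (q : ℤ)) hirr s hs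
  rw [hcard] at hl
  have hle1 : ∀ z : ℤ, V.valuation (z : E) ≤ 1 := by
    intro z
    rw [← hjz]
    exact hA _
  have hq1 : V.valuation ((q : ℤ) : E) < 1 := by
    rw [← hjz]
    exact hϖ1
  refine ⟨V, φ, τ, hl, hle1, fun z => ⟨fun hz => ?_, fun hz => ?_⟩, fun t ht => ?_⟩
  · by_contra hnz
    obtain ⟨w, hw⟩ := hunit z hnz
    have h3 : V.valuation (algebraMap ℚ E (algebraMap A ℚ ((w⁻¹ : Aˣ) : A))) ≤ 1 := hA _
    have h4 : (z : E) * algebraMap ℚ E (algebraMap A ℚ ((w⁻¹ : Aˣ) : A)) = 1 := by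
      rw [← hjz, ← map_mul, ← map_mul, ← hw, Units.mul_inv, map_one, map_one]
    have h5 : V.valuation (z : E) * V.valuation (algebraMap ℚ E (algebraMap A ℚ ((w⁻¹ : Aˣ) : A)))
        = 1 := by
      rw [← map_mul, h4, map_one]
    have h6 : V.valuation (z : E) * V.valuation (algebraMap ℚ E (algebraMap A ℚ ((w⁻¹ : Aˣ) : A)))
        < 1 := by
      calc V.valuation (z : E) * V.valuation (algebraMap ℚ E (algebraMap A ℚ ((w⁻¹ : Aˣ) : A)))
          ≤ V.valuation (z : E) * 1 := by gcongr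
        _ < 1 := by rw [mul_one]; exact hz
    rw [h5] at h6
    exact lt_irrefl _ h6
  · obtain ⟨w, rfl⟩ := hz
    rw [Int.cast_mul, map_mul]
    calc V.valuation ((q : ℤ) : E) * V.valuation (w : E) ≤ V.valuation ((q : ℤ) : E) * 1 := by
          gcongr
          exact hle1 w
      _ < 1 := by rw [mul_one]; exact hq1
  · have h3 : t ^ 2 = s ^ 2 := by
      rw [hs, hjz, ht]
      simp
    rcases sq_eq_sq_iff_eq_or_eq_neg.mp h3 with h4 | h4
    · rw [h4, hτs]
    · rw [h4, map_neg, hτs]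

variable {q : ℕ} {V : ValuationSubring E} {φ τ : E ≃ₐ[ℚ] E}

theorem int_rep (hq : q.Prime) (h : LocAt q V φ τ) (z : E) (hz : V.valuation z ≤ 1)
    (hφ : φ z = z) : ∃ a : ℤ, V.valuation (z - a) < 1 := by
  have hqf : Fact q.Prime := ⟨hq⟩
  -- the ring homomorphism `ZMod q → residue field`
  have hV : ∀ z : E, V.valuation z ≤ 1 → z ∈ V := fun z hz => (V.valuation_le_one_iff _).mp hz
  have hint : ∀ m : ℤ, (((m : ℤ) : V) : E) = (m : E) := fun m => by simp
  have hres0 : ∀ m : ℤ, (IsLocalRing.residue V) (m : V) = 0 ↔ (q : ℤ) ∣ m := by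
    intro m
    rw [IsLocalRing.residue_eq_zero_iff, ValuationSubring.valuation_lt_one_iff]
    rw [show (((m : ℤ) : V) : E) = (m : E) from hint m]
    exact h.lt_iff m
  have hchar : CharP (IsLocalRing.ResidueField V) q := by
    refine ⟨fun n => ?_⟩
    have h1 := hres0 (n : ℤ)
    rw [map_intCast, Int.cast_natCast] at h1
    rw [h1]
    exact Int.natCast_dvd_natCast
  let j : ZMod q →+* IsLocalRing.ResidueField V := ZMod.castHom dvd_rfl _
  let zV : V := ⟨z, hV z hz⟩
  have h3 : (IsLocalRing.residue V zV) ^ Nat.card (ZMod q) = IsLocalRing.residue V zV := by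
    rw [Nat.card_zmod, ← map_pow, ← sub_eq_zero, ← map_sub, IsLocalRing.residue_eq_zero_iff,
      ValuationSubring.valuation_lt_one_iff]
    have h4 := h.isLoc.hφ z hz
    have h5 : ((zV ^ q - zV : V) : E) = z ^ q - z := rfl
    have h6 : (φ : E →+* E) z = z := hφ
    rw [h6] at h4
    rw [h5, Valuation.map_sub_swap]
    exact h4
  obtain ⟨a, ha⟩ := mem_range_of_pow_card j (IsLocalRing.residue V zV) h3
  obtain ⟨m, hm⟩ := ZMod.intCast_surjective a
  refine ⟨m, ?_⟩
  have h4 : IsLocalRing.residue V (zV - (m : V)) = 0 := by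
    rw [map_sub, ← ha, ← hm, map_intCast, map_intCast, sub_self]
  rw [IsLocalRing.residue_eq_zero_iff, ValuationSubring.valuation_lt_one_iff] at h4
  have h5 : ((zV - (m : V) : V) : E) = z - m := by
    rw [← hint m]
    rfl
  rw [h5] at h4
  exact h4

theorem isSquare_of (hq : q.Prime) (h : LocAt q V φ τ) (z : E) (hz : V.valuation z ≤ 1)
    (hφ : φ z = z) (g : ℤ) (hg : V.valuation (z ^ 2 - g) < 1) : IsSquare (g : ZMod q) := by
  obtain ⟨a, ha⟩ := int_rep hq h z hz hφ
  have h1 : V.valuation (((a ^ 2 - g : ℤ)) : E) < 1 := by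
    have h2 : (((a ^ 2 - g : ℤ)) : E) = (z ^ 2 - g) - (z - a) * (z + a) := by
      push_cast
      ring
    rw [h2]
    refine Valuation.map_sub_lt _ hg ?_
    rw [map_mul]
    have h3 : V.valuation (z + a) ≤ 1 := Valuation.map_add_le _ hz (h.le_one a)
    calc V.valuation (z - a) * V.valuation (z + a) ≤ V.valuation (z - a) * 1 := by gcongr
      _ < 1 := by rw [mul_one]; exact ha
  have h4 := (h.lt_iff _).mp h1
  rw [← ZMod.intCast_zmod_eq_zero_iff_dvd] at h4
  refine ⟨(a : ZMod q), ?_⟩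
  push_cast at h4
  rw [← sq]
  exact (sub_eq_zero.mp h4).symm

lemma val_eq_one_of (h : LocAt q V φ τ) {z : ℤ} (hz : ¬ (q : ℤ) ∣ z) :
    V.valuation (z : E) = 1 :=
  le_antisymm (h.le_one z) (not_lt.mp (fun h1 => hz ((h.lt_iff z).mp h1)))

theorem tau_sqrt_unit (h : LocAt q V φ τ) (b : E) (e : ℤ) (hb : b ^ 2 = (e : E))
    (he : ¬ (q : ℤ) ∣ e) : τ b = b := by
  have h1 : V.valuation b = 1 := by
    have h2 : V.valuation b ^ 2 = 1 := by
      rw [← map_pow, hb, val_eq_one_of h he]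
    exact (pow_eq_one_iff_of_nonneg zero_le (by norm_num)).mp h2
  refine h.isLoc.fix_root 1 h1 ?_
  show τ (b ^ 2 ^ 1) = b ^ 2 ^ 1
  rw [pow_one, hb]
  exact map_intCast τ e

theorem tau_sqrt_ram (h : LocAt q V φ τ) (b : E) (u : ℤ) (hb : b ^ 2 = ((q * u : ℤ) : E))
    (hu : ¬ (q : ℤ) ∣ u) : τ b = -b := by
  have hclosed : IsAlgClosed E := IsAlgClosure.isAlgClosed ℚ
  have : CharZero E := charZero_of_injective_algebraMap (algebraMap ℚ E).injective
  obtain ⟨t, ht⟩ := IsAlgClosed.exists_pow_nat_eq (q : E) (n := 2) (by norm_num)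
  have hq0 : (q : E) ≠ 0 := by
    intro h0
    have h1 : V.valuation ((1 : ℤ) : E) = 1 := by simp
    have h2 : q = 0 := by exact_mod_cast h0
    apply hu
    subst h2
    have h3 : (0 : ℤ) ∣ 0 := dvd_rfl
    have h4 := h.isLoc.two_le
    omega
  have ht0 : t ≠ 0 := by
    rintro rfl
    rw [zero_pow (by norm_num)] at ht
    exact hq0 ht.symm
  have h1 : (b / t) ^ 2 = (u : E) := by
    rw [div_pow, hb, ht]
    push_cast
    field_simp
  have h2 := tau_sqrt_unit h (b / t) u h1 hu
  have h3 := h.ram t ht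
  have h4 : b = b / t * t := by rw [div_mul_cancel₀ _ ht0]
  calc τ b = τ (b / t * t) := by rw [← h4]
    _ = τ (b / t) * τ t := map_mul _ _ _
    _ = -(b / t * t) := by rw [h2, h3]; ring
    _ = -b := by rw [← h4]

end Pool.Agent.SCT
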