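import Pool.Agent.Helper19.Sec.Fixed

/-!
SCT module CLS: the classes of roots at an inertia element.

This is the proof of `exists_fixed_root` (`Pool/Agent/Helper19/Sec/Fixed.lean`) with more
information kept.  Put `e θ := fr.ρ τ (R θ) = R θ`, `R θ ^ 2 = (x - θs)(x - θ)`, as there;
`hpair : (e θ ↔ e θ') ↔ fr.ρ τ r = r`, the four roots property `h4` and the invariance `hP` under `φ`
are proved there and do not use the hypothesis `hτc`; `hodd` uses it.
* ramified case (`τ w = - w`): both classes `{e}`, `{¬ e}` have odd cardinality and one of them is a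
  singleton `{θ0}` (otherwise both have at least two elements, contradiction to `h4`), fixed by
  `φ` (proof of `comb`: this is `key` there, which proves it for the element of the singleton class;
  copy it).  All other roots are in the other class, so `hpair` gives `τ r ≠ r`, and `τ r = ± r`.
* unramified case (`τ w = w`): the same computation shows that both classes have even cardinality,
  and one of them is empty (otherwise both have at least two elements), so `e θ ↔ e θ'` for all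
  roots and `hpair` gives `τ r = r`.
-/

set_option linter.dupNamespace false

namespace Pool.Agent.SCT

open Polynomial Pool.Agent.Helper36 Pool.Agent.Helper19.Sec

variable {k K Ω : Type*} [Field k] [Field K] [Field Ω] [Algebra k K] [Algebra K Ω] [Algebra k Ω]
  [IsScalarTower k K Ω] [CharZero k] [Algebra.IsAlgebraic K Ω] [IsAlgClosed Ω]

private theorem comb2 {α : Type*} [DecidableEq α] (Θ : Finset α)
    (heven : Even Θ.card) (e : α → Prop) [DecidablePred e]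
    (h4 : ∀ θ₁ ∈ Θ, ∀ θ₂ ∈ Θ, ∀ θ₃ ∈ Θ, ∀ θ₄ ∈ Θ, θ₁ ≠ θ₂ → θ₃ ≠ θ₄ → θ₁ ≠ θ₃ → θ₁ ≠ θ₄ →
      θ₂ ≠ θ₃ → θ₂ ≠ θ₄ → (e θ₁ ↔ e θ₂) → (e θ₃ ↔ e θ₄) → (e θ₁ ↔ e θ₃)) :
    ¬ (1 < (Θ.filter e).card ∧ 1 < (Θ.filter (fun θ => ¬ e θ)).card) := by
  rintro ⟨hA2, hB2⟩
  obtain ⟨a, ha, b, hb, hab⟩ := Finset.one_lt_card.mp hA2
  obtain ⟨c, hc, d, hd, hcd⟩ := Finset.one_lt_card.mp hB2
  rw [Finset.mem_filter] at ha hb hc hd
  have hne : ∀ {s t : α}, e s → ¬ e t → s ≠ t := by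
    rintro s t hs ht rfl
    exact ht hs
  have := h4 a ha.1 b hb.1 c hc.1 d hd.1 hab hcd (hne ha.2 hc.2) (hne ha.2 hd.2) (hne hb.2 hc.2)
    (hne hb.2 hd.2) (by tauto) (by tauto)
  exact hc.2 (this.mp ha.2)

private theorem comb_odd {α : Type*} [DecidableEq α] (Θ : Finset α) (hcard : 6 ≤ Θ.card)
    (heven : Even Θ.card) (e : α → Prop) [DecidablePred e] (hodd : Odd (Θ.filter e).card)
    (h4 : ∀ θ₁ ∈ Θ, ∀ θ₂ ∈ Θ, ∀ θ₃ ∈ Θ, ∀ θ₄ ∈ Θ, θ₁ ≠ θ₂ → θ₃ ≠ θ₄ → θ₁ ≠ θ₃ → θ₁ ≠ θ₄ →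
      θ₂ ≠ θ₃ → θ₂ ≠ θ₄ → (e θ₁ ↔ e θ₂) → (e θ₃ ↔ e θ₄) → (e θ₁ ↔ e θ₃))
    (φ : α → α) (hφ : ∀ θ ∈ Θ, φ θ ∈ Θ) (hinj : Set.InjOn φ Θ)
    (hP : ∀ θ ∈ Θ, ∀ θ' ∈ Θ, (e θ ↔ e θ') → (e (φ θ) ↔ e (φ θ'))) :
    ∃ θ0 ∈ Θ, φ θ0 = θ0 ∧ ∀ θ ∈ Θ, θ ≠ θ0 → ¬ (e θ0 ↔ e θ) := by
  -- general statement for a predicate whose class is a singleton
  have key : ∀ (d : α → Prop) [DecidablePred d], (∀ θ, d θ ↔ e θ) ∨ (∀ θ, d θ ↔ ¬ e θ) →
      (Θ.filter d).card = 1 → ∃ θ0 ∈ Θ, φ θ0 = θ0 ∧ ∀ θ ∈ Θ, θ ≠ θ0 → ¬ (e θ0 ↔ e θ) := by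
    intro d _ hd h1
    have hPd : ∀ θ ∈ Θ, ∀ θ' ∈ Θ, (d θ ↔ d θ') → (d (φ θ) ↔ d (φ θ')) := by
      intro θ hθ θ' hθ' h
      have := hP θ hθ θ' hθ'
      rcases hd with hd | hd
      · simp only [hd] at h ⊢
        exact this h
      · simp only [hd] at h ⊢
        tauto
    obtain ⟨θ0, hθ0⟩ := Finset.card_eq_one.mp h1
    have hθ0Θ : θ0 ∈ Θ ∧ d θ0 := by
      have : θ0 ∈ Θ.filter d := by rw [hθ0]; exact Finset.mem_singleton_self _
      exact Finset.mem_filter.mp this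
    have huniq : ∀ θ ∈ Θ, d θ → θ = θ0 := by
      intro θ hθ hdθ
      have : θ ∈ Θ.filter d := Finset.mem_filter.mpr ⟨hθ, hdθ⟩
      rw [hθ0] at this
      exact Finset.mem_singleton.mp this
    set T := Θ.filter (fun θ => ¬ d θ) with hT
    have hTcard : T.card + 1 = Θ.card := by
      rw [hT, ← h1, add_comm]
      exact Finset.card_filter_add_card_filter_not (s := Θ) d
    have himg : ∀ t ∈ T, φ t ∈ T := by
      intro t ht
      rw [hT, Finset.mem_filter] at ht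
      rw [hT, Finset.mem_filter]
      refine ⟨hφ t ht.1, fun hdφ => ?_⟩
      -- all elements of `T` are mapped to `θ0`
      have h2 : ∀ t' ∈ T, φ t' = θ0 := by
        intro t' ht'
        rw [hT, Finset.mem_filter] at ht'
        apply huniq _ (hφ t' ht'.1)
        exact (hPd t ht.1 t' ht'.1 (by tauto)).mp hdφ
      have h3 : T.card ≤ 1 := by
        rw [Finset.card_le_one]
        intro x hx y hy
        have hx' := (Finset.mem_filter.mp hx).1
        have hy' := (Finset.mem_filter.mp hy).1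
        exact hinj hx' hy' ((h2 x hx).trans (h2 y hy).symm)
      omega
    refine ⟨θ0, hθ0Θ.1, ?_, ?_⟩
    · apply huniq _ (hφ θ0 hθ0Θ.1)
      by_contra hnd
      have h5 : φ θ0 ∈ T := Finset.mem_filter.mpr ⟨hφ θ0 hθ0Θ.1, hnd⟩
      have hTT : T.image φ = T := by
        apply Finset.eq_of_subset_of_card_le
        · intro w hw
          obtain ⟨t, ht, rfl⟩ := Finset.mem_image.mp hw
          exact himg t ht
        · rw [Finset.card_image_of_injOn]
          exact hinj.mono (fun t ht => (Finset.mem_filter.mp ht).1)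
      rw [← hTT] at h5
      obtain ⟨t, ht, hte⟩ := Finset.mem_image.mp h5
      have ht' := Finset.mem_filter.mp ht
      have := hinj ht'.1 hθ0Θ.1 hte
      exact ht'.2 (this ▸ hθ0Θ.2)
    · intro θ hθ hne hiff
      apply hne
      apply huniq θ hθ
      have h5 := hθ0Θ.2
      rcases hd with hd | hd
      · rw [hd] at h5 ⊢
        exact hiff.mp h5
      · rw [hd] at h5 ⊢
        exact fun h => h5 (hiff.mpr h)
  have hsum := Finset.card_filter_add_card_filter_not (s := Θ) e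
  have hodd' : Odd (Θ.filter (fun θ => ¬ e θ)).card := by
    rw [Nat.even_iff] at heven
    rw [Nat.odd_iff] at hodd ⊢
    omega
  by_cases hA : (Θ.filter e).card = 1
  · exact key e (Or.inl fun _ => Iff.rfl) hA
  by_cases hB : (Θ.filter (fun θ => ¬ e θ)).card = 1
  · exact key (fun θ => ¬ e θ) (Or.inr fun _ => Iff.rfl) hB
  exfalso
  refine comb2 Θ heven e h4 ⟨?_, ?_⟩
  · rcases hodd with ⟨n, hn⟩
    omega
  · rcases hodd' with ⟨n, hn⟩
    omega

private theorem comb_even {α : Type*} [DecidableEq α] (Θ : Finset α)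
    (heven : Even Θ.card) (e : α → Prop) [DecidablePred e] (hev : Even (Θ.filter e).card)
    (h4 : ∀ θ₁ ∈ Θ, ∀ θ₂ ∈ Θ, ∀ θ₃ ∈ Θ, ∀ θ₄ ∈ Θ, θ₁ ≠ θ₂ → θ₃ ≠ θ₄ → θ₁ ≠ θ₃ → θ₁ ≠ θ₄ →
      θ₂ ≠ θ₃ → θ₂ ≠ θ₄ → (e θ₁ ↔ e θ₂) → (e θ₃ ↔ e θ₄) → (e θ₁ ↔ e θ₃)) :
    ∀ θ ∈ Θ, ∀ θ' ∈ Θ, (e θ ↔ e θ') := by
  have hsum := Finset.card_filter_add_card_filter_not (s := Θ) e
  have hev' : Even (Θ.filter (fun θ => ¬ e θ)).card := by
    rw [Nat.even_iff] at heven hev ⊢
    omega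
  have h2 := comb2 Θ heven e h4
  have h3 : (Θ.filter e).card = 0 ∨ (Θ.filter (fun θ => ¬ e θ)).card = 0 := by
    rcases hev with ⟨n, hn⟩
    rcases hev' with ⟨n', hn'⟩
    by_contra hcon
    push Not at hcon
    apply h2
    constructor <;> omega
  intro θ hθ θ' hθ'
  rcases h3 with h3 | h3
  · rw [Finset.card_eq_zero, Finset.filter_eq_empty_iff] at h3
    exact ⟨fun h => absurd h (h3 hθ), fun h => absurd h (h3 hθ')⟩
  · rw [Finset.card_eq_zero, Finset.filter_eq_empty_iff] at h3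
    exact ⟨fun _ => not_not.mp (h3 hθ'), fun _ => not_not.mp (h3 hθ)⟩

theorem classes (s : SectionData k K Ω) {Γ₀ : Type*} [LinearOrderedCommGroupWithZero Γ₀]
    {v : Valuation (algebraicClosure k Ω) Γ₀}
    {φ τ : algebraicClosure k Ω ≃ₐ[k] algebraicClosure k Ω} {q : ℕ}
    (hl : IsLoc v (φ : algebraicClosure k Ω →+* algebraicClosure k Ω)
      (τ : algebraicClosure k Ω →+* algebraicClosure k Ω) q)
    (f : k[X]) (hf : f.Separable) (heven : Even f.natDegree) (h6 : 6 ≤ f.natDegree) (c : k)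
    (hc : c ≠ 0) (x y : K) (hx : Transcendental k x)
    (hxy : algebraMap k K c * y ^ 2 = aeval x f)
    (hint : ∀ θ : algebraicClosure k Ω, aeval θ f = 0 → v θ ≤ 1)
    (hsep : ∀ θ θ' : algebraicClosure k Ω, aeval θ f = 0 → aeval θ' f = 0 → θ ≠ θ' →
      v (θ - θ') = 1) :
    ((∀ w : algebraicClosure k Ω,
        w ^ 2 = algebraMap k (algebraicClosure k Ω) (c / f.leadingCoeff) → τ w = -w) →
      ∃ θ0 : algebraicClosure k Ω, aeval θ0 f = 0 ∧ φ θ0 = θ0 ∧
        ∀ θ : algebraicClosure k Ω, aeval θ f = 0 → θ ≠ θ0 → ∀ r : univCover k K Ω,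
          r ^ 2 = (algebraMap K (univCover k K Ω) x - incl k K Ω θ0) *
            (algebraMap K (univCover k K Ω) x - incl k K Ω θ) → s.act τ r = -r) ∧
    ((∀ w : algebraicClosure k Ω,
        w ^ 2 = algebraMap k (algebraicClosure k Ω) (c / f.leadingCoeff) → τ w = w) →
      ∀ θ θ' : algebraicClosure k Ω, aeval θ f = 0 → aeval θ' f = 0 → ∀ r : univCover k K Ω,
          r ^ 2 = (algebraMap K (univCover k K Ω) x - incl k K Ω θ) *
            (algebraMap K (univCover k K Ω) x - incl k K Ω θ') → s.act τ r = r) := by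
  classical
  let fr := frameOf s
  have hfrι : fr.ι = incl k K Ω := rfl
  set xM : (univCover k K Ω) := algebraMap K (univCover k K Ω) x with hxM
  have hxr : xM ∉ Set.range fr.ι := by
    rintro ⟨e, he⟩
    have h1 : (e : Ω) = algebraMap K Ω x := congrArg Subtype.val he
    have h2 : IsAlgebraic k (algebraMap K Ω x) := by
      rw [← h1]
      exact mem_algebraicClosure_iff.mp e.2
    exact hx ((isAlgebraic_algebraMap_iff (algebraMap K Ω).injective).mp h2)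
  have hxfix : ∀ σ, fr.ρ σ xM = xM := fun σ => act_alg s σ x
  have hxne : ∀ e : (algebraicClosure k Ω), xM - fr.ι e ≠ 0 := fun e h0 => hxr ⟨e, (sub_eq_zero.mp h0).symm⟩
  -- the roots
  have hf0 : f ≠ 0 := by
    rintro rfl
    rw [natDegree_zero] at h6
    omega
  have hτroot : ∀ θ : (algebraicClosure k Ω), aeval θ f = 0 → τ θ = θ := by
    intro θ hθ
    by_contra hne
    have h1 : aeval (τ θ) f = 0 := by rw [aeval_algHom_apply, hθ, map_zero]
    have h2 := hsep (τ θ) θ h1 hθ hne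
    exact absurd (hl.hτ θ (hint θ hθ)) (by
      show ¬ v (τ θ - θ) < 1
      rw [h2]
      exact lt_irrefl _)
  have hφroot : ∀ θ : (algebraicClosure k Ω), aeval θ f = 0 → aeval (φ θ) f = 0 := by
    intro θ hθ
    rw [aeval_algHom_apply, hθ, map_zero]
  set fE : (algebraicClosure k Ω)[X] := f.map (algebraMap k (algebraicClosure k Ω)) with hfE
  have hfE0 : fE ≠ 0 := Polynomial.map_ne_zero hf0
  set Θ : Finset (algebraicClosure k Ω) := fE.roots.toFinset with hΘ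
  have hmemΘ : ∀ θ : (algebraicClosure k Ω), θ ∈ Θ ↔ aeval θ f = 0 := by
    intro θ
    rw [hΘ, Multiset.mem_toFinset, mem_roots hfE0, IsRoot.def, hfE, eval_map_algebraMap]
  have hsplits : fE.Splits := IsAlgClosed.splits fE
  have hnodup : fE.roots.Nodup := nodup_roots (hf.map)
  have hcard : Θ.card = f.natDegree := by
    rw [hΘ, Multiset.toFinset_card_of_nodup hnodup, ← hsplits.natDegree_eq_card_roots, hfE,
      natDegree_map]
  have hfx : fr.ι (algebraMap k (algebraicClosure k Ω) f.leadingCoeff) * ∏ θ ∈ Θ, (xM - fr.ι θ) =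
      eval₂ fr.ι xM fE := by
    have h1 := hsplits.eq_prod_roots
    conv_rhs => rw [h1]
    rw [eval₂_mul, eval₂_C, ← coe_eval₂RingHom, map_multiset_prod, Multiset.map_map]
    congr 1
    · rw [hfE, leadingCoeff_map]
    · rw [Finset.prod_eq_multiset_prod, hΘ, Multiset.toFinset_val, hnodup.dedup]
      congr 1
      apply Multiset.map_congr rfl
      intro w _
      simp [coe_eval₂RingHom]
  have hfx2 : eval₂ fr.ι xM fE = fr.ι (algebraMap k (algebraicClosure k Ω) c) * (algebraMap K (univCover k K Ω) y) ^ 2 := by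
    have hcomp : fr.ι.comp (algebraMap k (algebraicClosure k Ω)) = (algebraMap K (univCover k K Ω)).comp (algebraMap k K) := by
      apply RingHom.ext
      intro e
      apply Subtype.ext
      exact IsScalarTower.algebraMap_apply k K Ω e
    rw [hfE, eval₂_map, hcomp, ← hom_eval₂, ← map_pow, ← RingHom.comp_apply, hcomp,
      RingHom.comp_apply, ← map_mul, hxy]
    rfl
  have hlead : f.leadingCoeff ≠ 0 := leadingCoeff_ne_zero.mpr hf0
  have hleadM : fr.ι (algebraMap k (algebraicClosure k Ω) f.leadingCoeff) ≠ 0 := by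
    rw [_root_.map_ne_zero, _root_.map_ne_zero]
    exact hlead
  have hprodx : ∏ θ ∈ Θ, (xM - fr.ι θ) =
      fr.ι (algebraMap k (algebraicClosure k Ω) (c / f.leadingCoeff)) * (algebraMap K (univCover k K Ω) y) ^ 2 := by
    apply mul_left_cancel₀ hleadM
    rw [hfx, hfx2, ← mul_assoc, ← map_mul, ← map_mul, mul_div_cancel₀ _ hlead]
  -- square roots
  have hsqrt : ∀ θ θ' : (algebraicClosure k Ω), aeval θ f = 0 → aeval θ' f = 0 → ∃ r : (univCover k K Ω),
      r ^ 2 = (xM - fr.ι θ) * (xM - fr.ι θ') := by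
    intro θ θ' hθ hθ'
    obtain ⟨r, -, hr, -⟩ := exists_sqrt f hf c hc x y hx hxy ⊥ (bot_unram (k := k)).1 bot_unram.2
      θ θ' hθ hθ'
    exact ⟨r, hr⟩
  have hpm : ∀ (θ θ' : (algebraicClosure k Ω)) (r : (univCover k K Ω)), aeval θ f = 0 → aeval θ' f = 0 →
      r ^ 2 = (xM - fr.ι θ) * (xM - fr.ι θ') → fr.ρ τ r = r ∨ fr.ρ τ r = -r := by
    intro θ θ' r hθ hθ' hr
    apply sq_eq_sq_iff_eq_or_eq_neg.mp
    rw [← map_pow, hr, map_mul, map_sub, map_sub, fr.semilin, fr.semilin, hxfix, hτroot θ hθ,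
      hτroot θ' hθ']
  -- a base root
  obtain ⟨θs, hθs⟩ : ∃ θs : (algebraicClosure k Ω), aeval θs f = 0 := by
    have : 0 < Θ.card := by rw [hcard]; omega
    obtain ⟨θ, hθ⟩ := Finset.card_pos.mp this
    exact ⟨θ, (hmemΘ θ).mp hθ⟩
  have hex : ∀ θ : (algebraicClosure k Ω), ∃ r : (univCover k K Ω), aeval θ f = 0 → r ^ 2 = (xM - fr.ι θs) * (xM - fr.ι θ) := by
    intro θ
    by_cases h : aeval θ f = 0
    · obtain ⟨r, hr⟩ := hsqrt θs θ hθs h
      exact ⟨r, fun _ => hr⟩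
    · exact ⟨0, fun h' => absurd h' h⟩
  choose R hR using hex
  have hR0 : ∀ θ : (algebraicClosure k Ω), aeval θ f = 0 → R θ ≠ 0 := by
    intro θ hθ h0
    have h1 := hR θ hθ
    rw [h0, zero_pow (by norm_num)] at h1
    exact mul_ne_zero (hxne _) (hxne _) h1.symm
  let e : (algebraicClosure k Ω) → Prop := fun θ => fr.ρ τ (R θ) = R θ
  have hchar2 : (2 : (univCover k K Ω)) ≠ 0 := by
    have h1 : CharZero K := charZero_of_injective_algebraMap (algebraMap k K).injective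
    have h2 : CharZero (univCover k K Ω) :=
      charZero_of_injective_algebraMap (algebraMap K (univCover k K Ω)).injective
    exact two_ne_zero
  have hneg : ∀ z : (univCover k K Ω), z ≠ 0 → -z ≠ z := by
    intro z hz h
    have h1 : (2 : (univCover k K Ω)) * z = 0 := by linear_combination (-1 : (univCover k K Ω)) * h
    rcases mul_eq_zero.mp h1 with h2 | h2
    · exact hchar2 h2
    · exact hz h2
  have hnote : ∀ θ : (algebraicClosure k Ω), aeval θ f = 0 → ¬ e θ → fr.ρ τ (R θ) = - R θ := by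
    intro θ hθ hne
    rcases hpm θs θ (R θ) hθs hθ (hR θ hθ) with h | h
    · exact absurd h hne
    · exact h
  -- the relation for a pair of roots
  have hpair : ∀ (θ θ' : (algebraicClosure k Ω)) (r : (univCover k K Ω)), aeval θ f = 0 → aeval θ' f = 0 →
      r ^ 2 = (xM - fr.ι θ) * (xM - fr.ι θ') → ((e θ ↔ e θ') ↔ fr.ρ τ r = r) := by
    intro θ θ' r hθ hθ' hr
    set w : (univCover k K Ω) := R θ * R θ' / (xM - fr.ι θs) with hw
    have hw2 : w ^ 2 = r ^ 2 := by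
      rw [hw, div_pow, mul_pow, hR θ hθ, hR θ' hθ', hr]
      have := hxne θs
      field_simp
    have hw0 : w ≠ 0 := div_ne_zero (mul_ne_zero (hR0 θ hθ) (hR0 θ' hθ')) (hxne θs)
    have hτw : fr.ρ τ w = w ↔ fr.ρ τ r = r := by
      rcases sq_eq_sq_iff_eq_or_eq_neg.mp hw2 with h | h
      · rw [h]
      · rw [h, map_neg, neg_inj]
    rw [← hτw]
    have hτx : fr.ρ τ (xM - fr.ι θs) = xM - fr.ι θs := by
      rw [map_sub, fr.semilin, hxfix, hτroot θs hθs]
    by_cases h1 : e θ <;> by_cases h2 : e θ'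
    · have h1' : fr.ρ τ (R θ) = R θ := h1
      have h2' : fr.ρ τ (R θ') = R θ' := h2
      have : fr.ρ τ w = w := by rw [hw, map_div₀, map_mul, h1', h2', hτx]
      exact ⟨fun _ => this, fun _ => ⟨fun _ => h2, fun _ => h1⟩⟩
    · have h1' : fr.ρ τ (R θ) = R θ := h1
      have h2' := hnote θ' hθ' h2
      have : fr.ρ τ w = -w := by
        rw [hw, map_div₀, map_mul, h1', h2', hτx]
        ring
      rw [this]
      exact ⟨fun h => absurd (h.mp h1) h2, fun h => absurd h (hneg w hw0)⟩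
    · have h1' := hnote θ hθ h1
      have h2' : fr.ρ τ (R θ') = R θ' := h2
      have : fr.ρ τ w = -w := by
        rw [hw, map_div₀, map_mul, h1', h2', hτx]
        ring
      rw [this]
      exact ⟨fun h => absurd (h.mpr h2) h1, fun h => absurd h (hneg w hw0)⟩
    · have h1' := hnote θ hθ h1
      have h2' := hnote θ' hθ' h2
      have : fr.ρ τ w = w := by
        rw [hw, map_div₀, map_mul, h1', h2', hτx]
        ring
      exact ⟨fun _ => this, fun _ => ⟨fun h => absurd h h1, fun h => absurd h h2⟩⟩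
  -- parity
  have hy0 : algebraMap K (univCover k K Ω) y ≠ 0 := by
    intro h0
    have h1 : ∏ θ ∈ Θ, (xM - fr.ι θ) ≠ 0 := Finset.prod_ne_zero_iff.mpr fun θ _ => hxne θ
    rw [hprodx, h0] at h1
    exact h1 (by simp)
  obtain ⟨w, hw⟩ := IsAlgClosed.exists_pow_nat_eq
    (algebraMap k (algebraicClosure k Ω) (c / f.leadingCoeff)) (n := 2) (by norm_num)
  have hw0 : w ≠ 0 := by
    rintro rfl
    rw [zero_pow (by norm_num)] at hw
    exact (by
      rw [_root_.map_ne_zero]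
      exact div_ne_zero hc hlead : algebraMap k (algebraicClosure k Ω) (c / f.leadingCoeff) ≠ 0) hw.symm
  have heven0 := heven
  obtain ⟨m, hm⟩ := heven
  have hPi2 : (∏ θ ∈ Θ, R θ) ^ 2 = ((xM - fr.ι θs) ^ m * fr.ι w * algebraMap K (univCover k K Ω) y) ^ 2 := by
    have h1 : ∀ θ ∈ Θ, R θ ^ 2 = (xM - fr.ι θs) * (xM - fr.ι θ) := fun θ hθ =>
      hR θ ((hmemΘ θ).mp hθ)
    rw [← Finset.prod_pow, Finset.prod_congr rfl h1, Finset.prod_mul_distrib, Finset.prod_const,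
      hcard, hm, hprodx, ← hw, map_pow]
    ring
  have hτw2 : fr.ρ τ (algebraMap K (univCover k K Ω) y) = algebraMap K (univCover k K Ω) y :=
    act_alg s τ y
  have hPi0 : ∏ θ ∈ Θ, R θ ≠ 0 :=
    Finset.prod_ne_zero_iff.mpr fun θ hθ => hR0 θ ((hmemΘ θ).mp hθ)
  have hτprod : fr.ρ τ (∏ θ ∈ Θ, R θ) = (-1) ^ (Θ.filter (fun θ => ¬ e θ)).card *
      ∏ θ ∈ Θ, R θ := by
    rw [map_prod]
    have h2 : ∀ θ ∈ Θ, fr.ρ τ (R θ) = (if ¬ e θ then (-1 : (univCover k K Ω)) else 1) * R θ := by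
      intro θ hθ
      by_cases h3 : e θ
      · rw [if_neg (not_not.mpr h3), one_mul]
        exact h3
      · rw [if_pos h3, hnote θ ((hmemΘ θ).mp hθ) h3]
        ring
    rw [Finset.prod_congr rfl h2, Finset.prod_mul_distrib, Finset.prod_ite, Finset.prod_const,
      Finset.prod_const_one, mul_one]
  have hsum := Finset.card_filter_add_card_filter_not (s := Θ) e
  have heven' : Even Θ.card := ⟨m, by rw [hcard, hm]⟩
  have h4 : ∀ θ₁ ∈ Θ, ∀ θ₂ ∈ Θ, ∀ θ₃ ∈ Θ, ∀ θ₄ ∈ Θ, θ₁ ≠ θ₂ → θ₃ ≠ θ₄ → θ₁ ≠ θ₃ → θ₁ ≠ θ₄ →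
      θ₂ ≠ θ₃ → θ₂ ≠ θ₄ → (e θ₁ ↔ e θ₂) → (e θ₃ ↔ e θ₄) → (e θ₁ ↔ e θ₃) := by
    intro θ₁ t1 θ₂ t2 θ₃ t3 θ₄ t4 n12 n34 n13 n14 n23 n24 e12 e34
    rw [hmemΘ] at t1 t2 t3 t4
    obtain ⟨r12, L1, hr12, -, hr12L, hθ1L, hθ2L, hfin1, hun1⟩ :=
      exists_sqrt f hf c hc x y hx hxy ⊥ (bot_unram (k := k)).1 bot_unram.2 θ₁ θ₂ t1 t2
    obtain ⟨r34, L2, hr34, hL12, hr34L, hθ3L, hθ4L, hfin2, hun2⟩ :=
      exists_sqrt f hf c hc x y hx hxy L1 hfin1 hun1 θ₃ θ₄ t3 t4
    obtain ⟨r13, hr13⟩ := hsqrt θ₁ θ₃ t1 t3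
    rw [hpair θ₁ θ₃ r13 t1 t3 hr13]
    have hτ12 := (hpair θ₁ θ₂ r12 t1 t2 hr12).mp e12
    have hτ34 := (hpair θ₃ θ₄ r34 t3 t4 hr34).mp e34
    refine four_roots_frame fr xM hxr hxfix hl θ₁ θ₂ θ₃ θ₄ (hint _ t1) (hsep _ _ t1 t2 n12)
      (hsep _ _ t1 t3 n13) (hsep _ _ t1 t4 n14) (hsep _ _ t2 t3 n23) (hsep _ _ t2 t4 n24)
      (hsep _ _ t3 t4 n34) (hτroot _ t1) (hτroot _ t2) (hτroot _ t3) (hτroot _ t4) r12 r34 r13
      hr12 hr34 hr13 hτ12 hτ34 ?_
    rintro a b c X Y hab hbc hca hXY ⟨κ, hX, hY⟩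
    obtain ⟨L3, hL23, hκL, hfin3, hun3⟩ := unram_adjoin_const L2 hfin2 hun2 (κ : Ω)
      (mem_algebraicClosure_iff.mp κ.2)
    have hxL : algebraMap K Ω x ∈ L3 := L3.algebraMap_mem x
    have hθ1L3 : (θ₁ : Ω) ∈ L3 := hL23 (hL12 hθ1L)
    have hden : algebraMap K Ω x - (θ₁ : Ω) ∈ L3 := L3.sub_mem hxL hθ1L3
    refine rootProp_univCover a b c hab hbc hca X Y hXY L3 hfin3 hun3 ?_ ?_
    · rw [hX]
      exact L3.div_mem hκL hden
    · rw [hY, pow_two]
      exact L3.div_mem (L3.mul_mem hκL (L3.mul_mem (hL23 (hL12 hr12L)) (hL23 hr34L)))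
        (L3.mul_mem hden hden)
  refine ⟨fun hτc => ?_, fun hτc => ?_⟩
  · have hτw := hτc w hw
    have hτPi : fr.ρ τ (∏ θ ∈ Θ, R θ) = - ∏ θ ∈ Θ, R θ := by
      have h1 : fr.ρ τ ((xM - fr.ι θs) ^ m * fr.ι w * algebraMap K (univCover k K Ω) y) =
          - ((xM - fr.ι θs) ^ m * fr.ι w * algebraMap K (univCover k K Ω) y) := by
        rw [map_mul, map_mul, map_pow, map_sub, fr.semilin, fr.semilin, hxfix, hτroot θs hθs,
          hτw2, hτw, map_neg]
        ring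
      rcases sq_eq_sq_iff_eq_or_eq_neg.mp hPi2 with h | h
      · rw [h, h1]
      · rw [h, map_neg, h1]
    have hodd : Odd (Θ.filter (fun θ => ¬ e θ)).card := by
      by_contra hne
      rw [Nat.not_odd_iff_even] at hne
      rw [hne.neg_one_pow, one_mul, hτPi] at hτprod
      exact hneg _ hPi0 hτprod
    have hodd' : Odd (Θ.filter e).card := by
      rw [hcard, hm] at hsum
      rw [Nat.odd_iff] at hodd ⊢
      omega
    obtain ⟨θ0, hθ0, hφθ0, hθ0'⟩ := comb_odd Θ (by rw [hcard]; exact h6) heven' e hodd' h4 φ (by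
      intro θ hθ
      rw [hmemΘ] at hθ ⊢
      exact hφroot θ hθ)
      (φ.injective.injOn) (by
        intro θ hθ θ' hθ' h
        rw [hmemΘ] at hθ hθ'
        obtain ⟨r, hr⟩ := hsqrt θ θ' hθ hθ'
        have h1 := (hpair θ θ' r hθ hθ' hr).mp h
        have h2 : (fr.ρ φ r) ^ 2 = (xM - fr.ι (φ θ)) * (xM - fr.ι (φ θ')) := by
          rw [← map_pow, hr, map_mul, map_sub, map_sub, fr.semilin, fr.semilin, hxfix]
        rw [hpair (φ θ) (φ θ') (fr.ρ φ r) (hφroot θ hθ) (hφroot θ' hθ') h2]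
        exact phi_inv fr xM hxr hxfix hl θ θ' r hr (hτroot θ hθ) (hτroot θ' hθ')
          (hτroot _ (hφroot θ hθ)) (hτroot _ (hφroot θ' hθ')) h1)
    refine ⟨θ0, (hmemΘ θ0).mp hθ0, hφθ0, ?_⟩
    intro θ hθ hne r hr
    have h5 := hθ0' θ ((hmemΘ θ).mpr hθ) hne
    rw [hpair θ0 θ r ((hmemΘ θ0).mp hθ0) hθ hr] at h5
    exact (hpm θ0 θ r ((hmemΘ θ0).mp hθ0) hθ hr).resolve_left h5
  · have hτw := hτc w hw
    have hτPi : fr.ρ τ (∏ θ ∈ Θ, R θ) = ∏ θ ∈ Θ, R θ := by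
      have h1 : fr.ρ τ ((xM - fr.ι θs) ^ m * fr.ι w * algebraMap K (univCover k K Ω) y) =
          ((xM - fr.ι θs) ^ m * fr.ι w * algebraMap K (univCover k K Ω) y) := by
        rw [map_mul, map_mul, map_pow, map_sub, fr.semilin, fr.semilin, hxfix, hτroot θs hθs,
          hτw2, hτw]
      rcases sq_eq_sq_iff_eq_or_eq_neg.mp hPi2 with h | h
      · rw [h, h1]
      · rw [h, map_neg, h1]
    have hev : Even (Θ.filter (fun θ => ¬ e θ)).card := by
      by_contra hne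
      rw [Nat.not_even_iff_odd] at hne
      rw [hne.neg_one_pow, hτPi] at hτprod
      exact hneg _ hPi0 (by rw [neg_one_mul] at hτprod; exact hτprod.symm)
    have hev' : Even (Θ.filter e).card := by
      rw [hcard, hm] at hsum
      rw [Nat.even_iff] at hev ⊢
      omega
    intro θ θ' hθ hθ' r hr
    exact (hpair θ θ' r hθ hθ' hr).mp
      (comb_even Θ heven' e hev' h4 θ ((hmemΘ θ).mpr hθ) θ' ((hmemΘ θ').mpr hθ'))

end Pool.Agent.SCT
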