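import Pool.Agent.SCT.Uex
import Pool.Agent.SCT.Cls

/-!
SCT module EVNT: inertia and the square roots of the factors of even degree.

* `tau_root`: `τ` fixes the roots: `τ θ` is a root, and `v (τ θ - θ) < 1` (`hl.hτ`), so
  `τ θ = θ` by `hsep` (as in the proof of `exists_fixed_root`).
* `even_ram_tau`: let `S' = S \ {θ0}`.  For `θ ∈ S'` choose `m θ` with `m θ ^ 2 = (x - θ0)(x - θ)`
  (`exists_sqrt`); `T (m θ) = - m θ` by `hneg`.  If `θ0 ∉ S`: `∏_{S} m θ ^ 2 = (x - θ0)^(card S) r^2`,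
  so `r = ± ∏_{S} m θ / (x - θ0)^(card S / 2)`, and `T` fixes it (even number of signs).  If
  `θ0 ∈ S`: `∏_{S'} m θ ^ 2 = (x - θ0)^(card S') ∏_{S'} (x - θ) = (x - θ0)^(card S - 2) r^2`, so
  `r = ± ∏_{S'} m θ / (x - θ0)^(card S / 2 - 1)` and `T` changes its sign (`card S'` is odd).
  `T (x - θ0) = x - θ0` as `τ θ0 = θ0` and `s.act` fixes `K` (`act_alg`).
* `even_unr`: induction on the cardinality of `S`: write `S` as a union of pairs; `r = ±` product of
  square roots of the `(x - θ)(x - θ')`, all fixed by `s.act τ` (`exists_sqrt` gives them).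
-/

set_option linter.dupNamespace false

namespace Pool.Agent.SCT

open Polynomial Pool.Agent.Helper36 Pool.Agent.Helper19.Sec

variable {k K Ω : Type*} [Field k] [Field K] [Field Ω] [Algebra k K] [Algebra K Ω] [Algebra k Ω]
  [IsScalarTower k K Ω] [CharZero k] [Algebra.IsAlgebraic K Ω] [IsAlgClosed Ω]

theorem tau_root {Γ₀ : Type*} [LinearOrderedCommGroupWithZero Γ₀]
    {v : Valuation (algebraicClosure k Ω) Γ₀}
    {φ τ : algebraicClosure k Ω ≃ₐ[k] algebraicClosure k Ω} {q : ℕ}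
    (hl : IsLoc v (φ : algebraicClosure k Ω →+* algebraicClosure k Ω)
      (τ : algebraicClosure k Ω →+* algebraicClosure k Ω) q) (f : k[X])
    (hint : ∀ θ : algebraicClosure k Ω, aeval θ f = 0 → v θ ≤ 1)
    (hsep : ∀ θ θ' : algebraicClosure k Ω, aeval θ f = 0 → aeval θ' f = 0 → θ ≠ θ' →
      v (θ - θ') = 1) (θ : algebraicClosure k Ω) (h : aeval θ f = 0) : τ θ = θ := by
  by_contra hne
  have h1 : aeval (τ θ) f = 0 := by rw [aeval_algHom_apply, h, map_zero]
  have h2 := hsep (τ θ) θ h1 h hne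
  exact absurd (hl.hτ θ (hint θ h)) (by
    show ¬ v (τ θ - θ) < 1
    rw [h2]
    exact lt_irrefl _)

private lemma evn_core {U : Type*} [Field U] (T : U ≃+* U) {P D r e : U} (hP : P ^ 2 = (D * r) ^ 2)
    (hTD : T D = D) (hD : D ≠ 0) (hTP : T P = e * P) : T r = e * r := by
  rcases sq_eq_sq_iff_eq_or_eq_neg.mp hP with h | h
  · rw [h, map_mul, hTD] at hTP
    apply mul_left_cancel₀ hD
    rw [hTP]; ring
  · rw [h, map_neg, map_mul, hTD] at hTP
    apply mul_left_cancel₀ hD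
    have : D * T r = -(e * -(D * r)) := by rw [← hTP, neg_neg]
    rw [this]; ring

private lemma evn_B0 (x : K) (hx : Transcendental k x) (θ : algebraicClosure k Ω) :
    algebraMap K (univCover k K Ω) x - incl k K Ω θ ≠ 0 := by
  intro h0
  have h1 : (θ : Ω) = algebraMap K Ω x := congrArg Subtype.val (sub_eq_zero.mp h0).symm
  have h2 : IsAlgebraic k (algebraMap K Ω x) := by
    rw [← h1]
    exact mem_algebraicClosure_iff.mp θ.2
  exact hx ((isAlgebraic_algebraMap_iff (algebraMap K Ω).injective).mp h2)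

theorem even_ram_tau (s : SectionData k K Ω) (τ : algebraicClosure k Ω ≃ₐ[k] algebraicClosure k Ω)
    (f : k[X]) (hf : f.Separable) (c : k)
    (hc : c ≠ 0) (x y : K) (hx : Transcendental k x)
    (hxy : algebraMap k K c * y ^ 2 = aeval x f)
    (hτ : ∀ θ : algebraicClosure k Ω, aeval θ f = 0 → τ θ = θ)
    (θ0 : algebraicClosure k Ω) (h0 : aeval θ0 f = 0)
    (hneg : ∀ θ : algebraicClosure k Ω, aeval θ f = 0 → θ ≠ θ0 → ∀ r : univCover k K Ω,
      r ^ 2 = (algebraMap K (univCover k K Ω) x - incl k K Ω θ0) *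
        (algebraMap K (univCover k K Ω) x - incl k K Ω θ) → s.act τ r = -r)
    (S : Finset (algebraicClosure k Ω)) (hS : ∀ θ ∈ S, aeval θ f = 0)
    (hSeven : Even S.card) (r : univCover k K Ω)
    (hr : r ^ 2 = ∏ θ ∈ S, (algebraMap K (univCover k K Ω) x - incl k K Ω θ)) :
    (θ0 ∈ S → s.act τ r = -r) ∧ (θ0 ∉ S → s.act τ r = r) := by
  classical
  set B0 : univCover k K Ω := algebraMap K (univCover k K Ω) x - incl k K Ω θ0 with hB0
  have hB0ne : B0 ≠ 0 := evn_B0 x hx θ0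
  have hTB0 : s.act τ B0 = B0 := by
    rw [hB0, map_sub, act_alg, act_incl, hτ θ0 h0]
  have hex : ∀ θ : algebraicClosure k Ω, ∃ m : univCover k K Ω, aeval θ f = 0 →
      m ^ 2 = B0 * (algebraMap K (univCover k K Ω) x - incl k K Ω θ) := by
    intro θ
    by_cases hθ : aeval θ f = 0
    · obtain ⟨m, -, hm, -⟩ := exists_sqrt f hf c hc x y hx hxy ⊥ (bot_unram (k := k)).1
        bot_unram.2 θ0 θ h0 hθ
      exact ⟨m, fun _ => hm⟩
    · exact ⟨0, fun h => absurd h hθ⟩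
  choose m hm using hex
  have hmT : ∀ θ, aeval θ f = 0 → θ ≠ θ0 → s.act τ (m θ) = -m θ := fun θ hθ hne =>
    hneg θ hθ hne (m θ) (hm θ hθ)
  refine ⟨fun hmem => ?_, fun hnot => ?_⟩
  · obtain ⟨t, ht⟩ : ∃ t, S.card = 2 * t + 2 := by
      obtain ⟨t, ht⟩ := hSeven
      have hpos : 0 < S.card := Finset.card_pos.mpr ⟨θ0, hmem⟩
      exact ⟨t - 1, by omega⟩
    have hcard : (S.erase θ0).card = 2 * t + 1 := by
      rw [Finset.card_erase_of_mem hmem, ht]; rfl
    have hP : (∏ θ ∈ S.erase θ0, m θ) ^ 2 = (B0 ^ t * r) ^ 2 := by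
      rw [mul_pow, hr, ← Finset.prod_pow, ← Finset.mul_prod_erase S _ hmem]
      have h1 : ∏ θ ∈ S.erase θ0, m θ ^ 2 = ∏ θ ∈ S.erase θ0,
          (B0 * (algebraMap K (univCover k K Ω) x - incl k K Ω θ)) :=
        Finset.prod_congr rfl fun θ hθ => hm θ (hS θ (Finset.mem_of_mem_erase hθ))
      rw [h1, Finset.prod_mul_distrib, Finset.prod_const, hcard]
      ring
    have hTP : s.act τ (∏ θ ∈ S.erase θ0, m θ) = (-1) * ∏ θ ∈ S.erase θ0, m θ := by
      rw [map_prod]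
      have h1 : ∏ θ ∈ S.erase θ0, s.act τ (m θ) = ∏ θ ∈ S.erase θ0, ((-1) * m θ) :=
        Finset.prod_congr rfl fun θ hθ => by
          rw [hmT θ (hS θ (Finset.mem_of_mem_erase hθ)) (Finset.ne_of_mem_erase hθ), neg_one_mul]
      rw [h1, Finset.prod_mul_distrib, Finset.prod_const, hcard, pow_succ, pow_mul]
      simp
    have := evn_core (s.act τ) hP (by rw [map_pow, hTB0]) (pow_ne_zero _ hB0ne) hTP
    rwa [neg_one_mul] at this
  · obtain ⟨t, ht⟩ : ∃ t, S.card = 2 * t := by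
      obtain ⟨t, ht⟩ := hSeven
      exact ⟨t, by omega⟩
    have hP : (∏ θ ∈ S, m θ) ^ 2 = (B0 ^ t * r) ^ 2 := by
      rw [mul_pow, hr, ← Finset.prod_pow]
      have h1 : ∏ θ ∈ S, m θ ^ 2 = ∏ θ ∈ S,
          (B0 * (algebraMap K (univCover k K Ω) x - incl k K Ω θ)) :=
        Finset.prod_congr rfl fun θ hθ => hm θ (hS θ hθ)
      rw [h1, Finset.prod_mul_distrib, Finset.prod_const, ht]
      ring
    have hTP : s.act τ (∏ θ ∈ S, m θ) = 1 * ∏ θ ∈ S, m θ := by
      rw [map_prod]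
      have h1 : ∏ θ ∈ S, s.act τ (m θ) = ∏ θ ∈ S, ((-1) * m θ) :=
        Finset.prod_congr rfl fun θ hθ => by
          rw [hmT θ (hS θ hθ) (fun h => hnot (h ▸ hθ)), neg_one_mul]
      rw [h1, Finset.prod_mul_distrib, Finset.prod_const, ht, pow_mul]
      simp
    have := evn_core (s.act τ) hP (by rw [map_pow, hTB0]) (pow_ne_zero _ hB0ne) hTP
    rwa [one_mul] at this

theorem even_unr (s : SectionData k K Ω) (τ : algebraicClosure k Ω ≃ₐ[k] algebraicClosure k Ω)
    (f : k[X]) (hf : f.Separable) (c : k)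
    (hc : c ≠ 0) (x y : K) (hx : Transcendental k x)
    (hxy : algebraMap k K c * y ^ 2 = aeval x f)
    (hfix : ∀ θ θ' : algebraicClosure k Ω, aeval θ f = 0 → aeval θ' f = 0 →
      ∀ r : univCover k K Ω, r ^ 2 = (algebraMap K (univCover k K Ω) x - incl k K Ω θ) *
            (algebraMap K (univCover k K Ω) x - incl k K Ω θ') → s.act τ r = r)
    (S : Finset (algebraicClosure k Ω)) (hS : ∀ θ ∈ S, aeval θ f = 0)
    (hSeven : Even S.card) (r : univCover k K Ω)
    (hr : r ^ 2 = ∏ θ ∈ S, (algebraMap K (univCover k K Ω) x - incl k K Ω θ)) :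
    s.act τ r = r := by
  classical
  rcases S.eq_empty_or_nonempty with hemp | ⟨θ0, hθ0⟩
  · rw [hemp, Finset.prod_empty] at hr
    rcases (sq_eq_one_iff.mp hr) with h | h
    · rw [h, map_one]
    · rw [h, map_neg, map_one]
  have h0 := hS θ0 hθ0
  set B0 : univCover k K Ω := algebraMap K (univCover k K Ω) x - incl k K Ω θ0 with hB0
  have hB0ne : B0 ≠ 0 := evn_B0 x hx θ0
  have hTB0 : s.act τ B0 = B0 := hfix θ0 θ0 h0 h0 B0 (by rw [hB0]; ring)
  have hex : ∀ θ : algebraicClosure k Ω, ∃ m : univCover k K Ω, aeval θ f = 0 →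
      m ^ 2 = B0 * (algebraMap K (univCover k K Ω) x - incl k K Ω θ) := by
    intro θ
    by_cases hθ : aeval θ f = 0
    · obtain ⟨m, -, hm, -⟩ := exists_sqrt f hf c hc x y hx hxy ⊥ (bot_unram (k := k)).1
        bot_unram.2 θ0 θ h0 hθ
      exact ⟨m, fun _ => hm⟩
    · exact ⟨0, fun h => absurd h hθ⟩
  choose m hm using hex
  obtain ⟨t, ht⟩ : ∃ t, S.card = 2 * t := by
    obtain ⟨t, ht⟩ := hSeven
    exact ⟨t, by omega⟩
  have hP : (∏ θ ∈ S, m θ) ^ 2 = (B0 ^ t * r) ^ 2 := by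
    rw [mul_pow, hr, ← Finset.prod_pow]
    have h1 : ∏ θ ∈ S, m θ ^ 2 = ∏ θ ∈ S,
        (B0 * (algebraMap K (univCover k K Ω) x - incl k K Ω θ)) :=
      Finset.prod_congr rfl fun θ hθ => hm θ (hS θ hθ)
    rw [h1, Finset.prod_mul_distrib, Finset.prod_const, ht]
    ring
  have hTP : s.act τ (∏ θ ∈ S, m θ) = 1 * ∏ θ ∈ S, m θ := by
    rw [map_prod, one_mul]
    exact Finset.prod_congr rfl fun θ hθ => hfix θ0 θ h0 (hS θ hθ) (m θ) (hm θ (hS θ hθ))
  have := evn_core (s.act τ) hP (by rw [map_pow, hTB0]) (pow_ne_zero _ hB0ne) hTP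
  rwa [one_mul] at this

end Pool.Agent.SCT
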