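import Mathlib

/-!
SCT module CYC: a sign lemma for permutations.

Proof.  Write `E k a = ∏_{t < k} ε (φ^t a)`.  (1) `E (k*l) a = ∏_{i<l} E k (φ^(k i) a)`, and
`∏_{a ∈ S} E k a = (∏_{a ∈ S} ε a)^k` for `φ`-stable `S` (`φ` permutes `S`).
(2) Let `n = 2^a * b`, `b` odd, be the order of `φ`, `ψ = φ^b`.  Since `b` is odd,
`∏_S ε = ∏_S E b`; and `(ψ, E b)` satisfies the same hypothesis (`h` for the exponents `b k`), so we
may assume `φ^(2^a) = 1`.
(3) Then the number of fixed points of `φ` is odd (all other cycles have even length, for instance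
`Equiv.Perm.card_fixedPoints_modEq`), so there is a fixed point `c`.
(4) For `a ∈ S` not fixed, with exact period `2^t`, `t ≥ 1`: `a' = φ^(2^(t-1)) a ≠ a`,
`φ^(2^(t-1)) a' = a`, and `h` for `k = 2^(t-1)` and `(a, a', c)` gives `E (2^t) a = E k a * E k a' = 1`,
i.e. the product of `ε` over the cycle of `a` is `1`.  So the product over all nontrivial cycles in
`S` is `1` (`Finset.prod_partition` with `Equiv.Perm.SameCycle.setoid`, or induction on `S.card`
removing one cycle at a time, which is simpler: the set `S` minus the cycle of `a` is again stable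
and of even cardinality).
(5) If all elements of `S` are fixed: for `a ≠ b` in `S` there is a third fixed point `c` (the number
of fixed points is odd and at least `2`), and `h` with `k = 1` gives `ε a = ε b`; `S.card` is even, so
the product is `1`.
-/

set_option linter.dupNamespace false

namespace Pool.Agent.SCT

open Finset

variable {α : Type*} [Fintype α] [DecidableEq α]

/-- the product of `ε` along the first `k` steps -/
def CYCE (φ : Equiv.Perm α) (ε : α → ℤˣ) (k : ℕ) (a : α) : ℤˣ := ∏ t ∈ range k, ε ((φ ^ t) a)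

omit [Fintype α] [DecidableEq α] in
lemma CYCE_add (φ : Equiv.Perm α) (ε : α → ℤˣ) (k l : ℕ) (a : α) :
    CYCE φ ε (k + l) a = CYCE φ ε k a * CYCE φ ε l ((φ ^ k) a) := by
  unfold CYCE
  rw [Finset.prod_range_add]
  congr 1
  refine Finset.prod_congr rfl fun t _ => ?_
  congr 1
  rw [← Equiv.Perm.mul_apply, ← pow_add, add_comm]

omit [Fintype α] [DecidableEq α] in
lemma CYCE_mul (φ : Equiv.Perm α) (ε : α → ℤˣ) (b k : ℕ) (a : α) :
    CYCE φ ε (b * k) a = CYCE (φ ^ b) (CYCE φ ε b) k a := by
  induction k with
  | zero => simp [CYCE]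
  | succ k ih =>
    rw [Nat.mul_succ, CYCE_add, ih, pow_mul]
    exact (Finset.prod_range_succ (fun t => CYCE φ ε b (((φ ^ b) ^ t) a)) k).symm

omit [Fintype α] [DecidableEq α] in
lemma CYCstable_pow (φ : Equiv.Perm α) {S : Finset α} (hS : ∀ a ∈ S, φ a ∈ S) (t : ℕ) :
    ∀ a ∈ S, (φ ^ t) a ∈ S := by
  induction t with
  | zero => intro a ha; simpa using ha
  | succ t ih =>
    intro a ha
    rw [pow_succ', Equiv.Perm.mul_apply]
    exact hS _ (ih a ha)

omit [Fintype α] in
lemma CYCprod_pow (φ : Equiv.Perm α) (ε : α → ℤˣ) {S : Finset α} (hS : ∀ a ∈ S, φ a ∈ S) (t : ℕ) :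
    ∏ a ∈ S, ε ((φ ^ t) a) = ∏ a ∈ S, ε a := by
  have h1 : S.image (φ ^ t) = S := by
    apply Finset.eq_of_subset_of_card_le
    · intro x hx
      obtain ⟨a, ha, rfl⟩ := Finset.mem_image.1 hx
      exact CYCstable_pow φ hS t a ha
    · rw [Finset.card_image_of_injective _ (φ ^ t).injective]
  conv_rhs => rw [← h1]
  rw [Finset.prod_image (fun x _ y _ hxy => (φ ^ t).injective hxy)]

omit [Fintype α] in
lemma CYCprod_E (φ : Equiv.Perm α) (ε : α → ℤˣ) {S : Finset α} (hS : ∀ a ∈ S, φ a ∈ S) (k : ℕ) :
    ∏ a ∈ S, CYCE φ ε k a = (∏ a ∈ S, ε a) ^ k := by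
  unfold CYCE
  rw [Finset.prod_comm, Finset.prod_congr rfl (fun t _ => CYCprod_pow φ ε hS t),
    Finset.prod_const, Finset.card_range]

/-- the hypothesis on `(φ, ε)` -/
def CYCH (φ : Equiv.Perm α) (ε : α → ℤˣ) : Prop :=
  ∀ k : ℕ, 0 < k → ∀ a b c : α, a ≠ b → a ≠ c → b ≠ c → (φ ^ k) c = c →
      (((φ ^ k) a = a ∧ (φ ^ k) b = b) ∨ ((φ ^ k) a = b ∧ (φ ^ k) b = a)) →
      CYCE φ ε k a * CYCE φ ε k b = 1

lemma CYCfix_odd (φ : Equiv.Perm α) (hodd : Odd (Fintype.card α)) (n : ℕ) (hn : φ ^ (2 ^ n) = 1) :
    Odd (univ.filter (fun c => φ c = c)).card := by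
  have h2 : Fact (Nat.Prime 2) := ⟨Nat.prime_two⟩
  let f : Function.End α := (φ : α → α)
  have hf : f ^ 2 ^ n = 1 := by
    have h3 : ∀ m : ℕ, (f ^ m : Function.End α) = ((φ ^ m : Equiv.Perm α) : α → α) := by
      intro m
      induction m with
      | zero => rfl
      | succ m ih =>
        rw [pow_succ, ih, pow_succ]
        rfl
    rw [h3, hn]
    rfl
  have h4 := Equiv.Perm.card_fixedPoints_modEq (f := f) (p := 2) (n := n) hf
  have h5 : Fintype.card (Function.fixedPoints f) = (univ.filter (fun c => φ c = c)).card := by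
    rw [← Fintype.card_subtype]
    apply Fintype.card_congr
    exact Equiv.refl _
  rw [h5] at h4
  rw [Nat.odd_iff] at hodd ⊢
  have h6 : Fintype.card α % 2 = (univ.filter (fun c => φ c = c)).card % 2 := h4
  omega

/-- the case of a permutation whose order is a power of two -/
lemma CYCtwo (φ : Equiv.Perm α) (hodd : Odd (Fintype.card α)) (ε : α → ℤˣ) (n : ℕ)
    (hn : φ ^ (2 ^ n) = 1) (h : CYCH φ ε) (S : Finset α) (hS : ∀ a ∈ S, φ a ∈ S)
    (heven : Even S.card) : ∏ a ∈ S, ε a = 1 := by
  have hfix := CYCfix_odd φ hodd n hn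
  obtain ⟨c, hc⟩ : ∃ c, φ c = c := by
    have h1 : 0 < (univ.filter (fun c => φ c = c)).card := hfix.pos
    obtain ⟨c, hc⟩ := Finset.card_pos.1 h1
    exact ⟨c, (Finset.mem_filter.1 hc).2⟩
  induction S using Finset.strongInduction with
  | H S ih =>
    by_cases hall : ∀ a ∈ S, φ a = a
    · -- all elements are fixed
      rcases S.eq_empty_or_nonempty with h0 | ⟨a, ha⟩
      · rw [h0, Finset.prod_empty]
      · have h1 : ∀ b ∈ S, ε b = ε a := by
          intro b hb
          by_cases hab : a = b
          · rw [hab]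
          -- a third fixed point
          obtain ⟨d, hd1, hd2, hd3⟩ : ∃ d, φ d = d ∧ a ≠ d ∧ b ≠ d := by
            by_contra hcon
            push Not at hcon
            have h2 : (univ.filter (fun c => φ c = c)) = {a, b} := by
              ext x
              rw [Finset.mem_filter, Finset.mem_insert, Finset.mem_singleton]
              constructor
              · rintro ⟨_, hx⟩
                by_cases hxa : a = x
                · exact Or.inl hxa.symm
                · exact Or.inr (hcon x hx hxa).symm
              · rintro (rfl | rfl)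
                · exact ⟨mem_univ _, hall _ ha⟩
                · exact ⟨mem_univ _, hall _ hb⟩
            rw [h2, Finset.card_pair hab] at hfix
            exact (Nat.not_odd_iff_even.2 (by decide : Even 2)) hfix
          have h3 := h 1 Nat.one_pos a b d hab hd2 hd3 (by rw [pow_one]; exact hd1)
            (Or.inl ⟨by rw [pow_one]; exact hall a ha, by rw [pow_one]; exact hall b hb⟩)
          have h4 : ∀ x, CYCE φ ε 1 x = ε x := by
            intro x
            simp [CYCE]
          rw [h4, h4] at h3
          rcases Int.units_eq_one_or (ε a) with h5 | h5 <;>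
            rcases Int.units_eq_one_or (ε b) with h6 | h6 <;> rw [h5, h6] at h3 ⊢ <;>
            first | rfl | (exact absurd h3 (by decide))
        rw [Finset.prod_congr rfl h1, Finset.prod_const]
        obtain ⟨m, hm⟩ := heven
        rw [hm, pow_add, ← mul_pow, Int.units_mul_self, one_pow]
    · push Not at hall
      obtain ⟨a, ha, hfa⟩ := hall
      -- the cycle of `a`
      set m := Function.minimalPeriod (φ : α → α) a with hm
      have hper : Function.IsPeriodicPt (φ : α → α) (2 ^ n) a := by
        show (φ : α → α)^[2 ^ n] a = a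
        rw [Equiv.Perm.iterate_eq_pow, hn]
        rfl
      have hmdvd : m ∣ 2 ^ n := hper.minimalPeriod_dvd
      obtain ⟨t, _, ht⟩ := (Nat.dvd_prime_pow Nat.prime_two).1 hmdvd
      have ht0 : t ≠ 0 := by
        rintro rfl
        rw [pow_zero] at ht
        have h1 : Function.IsPeriodicPt (φ : α → α) m a := Function.isPeriodicPt_minimalPeriod _ _
        rw [ht] at h1
        exact hfa h1
      obtain ⟨u, rfl⟩ := Nat.exists_eq_succ_of_ne_zero ht0
      set k := 2 ^ u with hk
      have hm2 : m = k + k := by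
        rw [ht, hk, Nat.succ_eq_add_one, pow_succ]
        ring
      have hkpos : 0 < k := by positivity
      have hm_pow : (φ ^ m) a = a := by
        have h1 : Function.IsPeriodicPt (φ : α → α) m a := Function.isPeriodicPt_minimalPeriod _ _
        have h2 : (φ : α → α)^[m] a = a := h1
        rwa [Equiv.Perm.iterate_eq_pow] at h2
      have hinj : ∀ i < m, ∀ j < m, (φ ^ i) a = (φ ^ j) a → i = j := by
        intro i hi j hj hij
        apply Function.iterate_injOn_Iio_minimalPeriod (f := (φ : α → α)) (x := a) hi hj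
        show (φ : α → α)^[i] a = (φ : α → α)^[j] a
        rw [Equiv.Perm.iterate_eq_pow, Equiv.Perm.iterate_eq_pow]
        exact hij
      set O : Finset α := (range m).image (fun i => (φ ^ i) a) with hO
      have hOcard : O.card = m := by
        rw [hO, Finset.card_image_of_injOn, Finset.card_range]
        intro i hi j hj hij
        exact hinj i (Finset.mem_range.1 hi) j (Finset.mem_range.1 hj) hij
      have hOS : O ⊆ S := by
        intro x hx
        obtain ⟨i, _, rfl⟩ := Finset.mem_image.1 hx
        exact CYCstable_pow φ hS i a ha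
      have hOprod : ∏ x ∈ O, ε x = 1 := by
        rw [hO, Finset.prod_image (fun i hi j hj hij =>
          hinj i (Finset.mem_range.1 hi) j (Finset.mem_range.1 hj) hij)]
        show CYCE φ ε m a = 1
        rw [hm2, CYCE_add]
        have h1 : (φ ^ k) a ≠ a := by
          intro h2
          have h3 := hinj k (by omega) 0 (by omega) (by rw [h2]; rfl)
          omega
        have h2 : (φ ^ k) ((φ ^ k) a) = a := by
          rw [← Equiv.Perm.mul_apply, ← pow_add, ← hm2]
          exact hm_pow
        have hcpow : ∀ i : ℕ, (φ ^ i) c = c := by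
          intro i
          induction i with
          | zero => rfl
          | succ i ih' => rw [pow_succ', Equiv.Perm.mul_apply, ih', hc]
        apply h k hkpos a ((φ ^ k) a) c (Ne.symm h1)
        · rintro rfl
          exact hfa hc
        · intro h3
          apply h1
          rw [h3, hcpow] at h2
          rw [h3, h2]
        · exact hcpow k
        · exact Or.inr ⟨rfl, h2⟩
      have hSO : ∏ x ∈ S \ O, ε x = 1 := by
        apply ih (S \ O)
        · apply Finset.sdiff_ssubset hOS
          rw [← Finset.card_pos, hOcard]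
          omega
        · intro x hx
          rw [Finset.mem_sdiff] at hx ⊢
          refine ⟨hS x hx.1, ?_⟩
          intro hxO
          apply hx.2
          obtain ⟨i, hi, hi2⟩ := Finset.mem_image.1 hxO
          rw [Finset.mem_range] at hi
          rw [hO, Finset.mem_image]
          rcases Nat.eq_zero_or_pos i with h0 | h0
          · refine ⟨m - 1, Finset.mem_range.2 (by omega), ?_⟩
            apply φ.injective
            rw [← Equiv.Perm.mul_apply, ← pow_succ', Nat.sub_add_cancel (by omega), hm_pow, ← hi2, h0]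
            rfl
          · refine ⟨i - 1, Finset.mem_range.2 (by omega), ?_⟩
            apply φ.injective
            rw [← Equiv.Perm.mul_apply, ← pow_succ', Nat.sub_add_cancel h0]
            exact hi2
        · rw [Finset.card_sdiff_of_subset hOS, hOcard]
          rw [hm2]
          obtain ⟨s, hs⟩ := heven
          rw [hs]
          exact ⟨s - k, by omega⟩
      rw [← Finset.prod_sdiff hOS, hSO, hOprod, one_mul]

theorem cyc {α : Type*} [Fintype α] [DecidableEq α] (φ : Equiv.Perm α)
    (hodd : Odd (Fintype.card α)) (ε : α → ℤˣ)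
    (h : ∀ k : ℕ, 0 < k → ∀ a b c : α, a ≠ b → a ≠ c → b ≠ c → (φ ^ k) c = c →
      (((φ ^ k) a = a ∧ (φ ^ k) b = b) ∨ ((φ ^ k) a = b ∧ (φ ^ k) b = a)) →
      (∏ t ∈ range k, ε ((φ ^ t) a)) * (∏ t ∈ range k, ε ((φ ^ t) b)) = 1)
    (S : Finset α) (hS : ∀ a ∈ S, φ a ∈ S) (heven : Even S.card) : ∏ a ∈ S, ε a = 1 := by
  have hH : CYCH φ ε := h
  obtain ⟨n, b, hb, hord⟩ := Nat.exists_eq_two_pow_mul_odd (orderOf_pos φ).ne'
  have h1 : (φ ^ b) ^ (2 ^ n) = 1 := by
    rw [← pow_mul, mul_comm, ← hord, pow_orderOf_eq_one]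
  have hH' : CYCH (φ ^ b) (CYCE φ ε b) := by
    intro k hk x y z hxy hxz hyz hz hcase
    rw [← CYCE_mul, ← CYCE_mul]
    apply hH (b * k) (Nat.mul_pos hb.pos hk) x y z hxy hxz hyz
    · rw [pow_mul]
      exact hz
    · rw [pow_mul]
      exact hcase
  have h2 := CYCtwo (φ ^ b) hodd (CYCE φ ε b) n h1 hH' S (CYCstable_pow φ hS b) heven
  rw [CYCprod_E φ ε hS b] at h2
  rcases Int.units_eq_one_or (∏ a ∈ S, ε a) with h3 | h3
  · exact h3
  · rw [h3, hb.neg_one_pow] at h2
    rw [h3, h2]

end Pool.Agent.SCT
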