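import Mathlib

/-!
SCT: sign algebra for the module PAIR.
-/

set_option linter.dupNamespace false

namespace Pool.Agent.SCT

variable {M : Type*} [Field M]

/-- `T` changes the sign of the square roots of `(a + b)(a + c)` -/
def NegR (T : M ≃+* M) (a b c : M) : Prop := ∀ u : M, u ^ 2 = (a + b) * (a + c) → T u = -u

/-- `T` fixes the square roots of `(a + b)(a + c)` -/
def PosR (T : M ≃+* M) (a b c : M) : Prop := ∀ u : M, u ^ 2 = (a + b) * (a + c) → T u = u

/-- all three signs are negative -/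
def Good3 (T : M ≃+* M) (a b c : M) : Prop := NegR T a b c ∧ NegR T b a c ∧ NegR T c a b

/-- hypotheses of the sign lemma -/
structure TriData (T : M ≃+* M) (A B C : M) : Prop where
  two : (2 : M) ≠ 0
  nAB : A ≠ B
  nAC : A ≠ C
  nBC : B ≠ C
  hA : ∀ z, z ^ 2 = A → T z = -z
  hB : ∀ z, z ^ 2 = B → T z = -z
  hC : ∀ z, z ^ 2 = C → T z = -z
  ex : ∀ a b c, a ^ 2 = A → b ^ 2 = B → c ^ 2 = C → (∃ u : M, u ^ 2 = (a + b) * (a + c)) ∧
    (∃ u : M, u ^ 2 = (b + a) * (b + c)) ∧ (∃ u : M, u ^ 2 = (c + a) * (c + b))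
  dBA : ∀ z, z ^ 2 = B - A → T z = z
  dCA : ∀ z, z ^ 2 = C - A → T z = z
  dAB : ∀ z, z ^ 2 = A - B → T z = z
  dCB : ∀ z, z ^ 2 = C - B → T z = z
  dAC : ∀ z, z ^ 2 = A - C → T z = z
  dBC : ∀ z, z ^ 2 = B - C → T z = z
  pA : ∀ z, z ^ 2 = (B - A) * (C - A) → T z = z
  pB : ∀ z, z ^ 2 = (A - B) * (C - B) → T z = z
  pC : ∀ z, z ^ 2 = (A - C) * (B - C) → T z = z

namespace TriData

variable {T : M ≃+* M} {A B C : M}

/-- exchange of the first two arguments -/
lemma swap12 (h : TriData T A B C) : TriData T B A C where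
  two := h.two
  nAB := h.nAB.symm
  nAC := h.nBC
  nBC := h.nAC
  hA := h.hB
  hB := h.hA
  hC := h.hC
  ex := fun a b c ha hb hc => by
    obtain ⟨h1, h2, h3⟩ := h.ex b a c hb ha hc
    refine ⟨h2, h1, ?_⟩
    obtain ⟨u, hu⟩ := h3
    exact ⟨u, by rw [hu]; ring⟩
  dBA := h.dAB
  dCA := h.dCB
  dAB := h.dBA
  dCB := h.dCA
  dAC := h.dBC
  dBC := h.dAC
  pA := h.pB
  pB := h.pA
  pC := fun z hz => h.pC z (by rw [hz]; ring)

/-- exchange of the last two arguments -/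
lemma swap23 (h : TriData T A B C) : TriData T A C B where
  two := h.two
  nAB := h.nAC
  nAC := h.nAB
  nBC := h.nBC.symm
  hA := h.hA
  hB := h.hC
  hC := h.hB
  ex := fun a b c ha hb hc => by
    obtain ⟨⟨u, h1⟩, ⟨u2, h2⟩, ⟨u3, h3⟩⟩ := h.ex a c b ha hc hb
    exact ⟨⟨u, by rw [h1]; ring⟩, ⟨u3, by rw [h3]⟩, ⟨u2, by rw [h2]⟩⟩
  dBA := h.dCA
  dCA := h.dBA
  dAB := h.dAC
  dCB := h.dBC
  dAC := h.dAB
  dBC := h.dCB
  pA := fun z hz => h.pA z (by rw [hz]; ring)
  pB := h.pC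
  pC := h.pB

lemma add_ne (h : TriData T A B C) {a b : M} (ha : a ^ 2 = A) (hb : b ^ 2 = B) : a + b ≠ 0 := by
  intro h0
  apply h.nAB
  have : a = -b := eq_neg_of_add_eq_zero_left h0
  rw [← ha, ← hb, this]
  ring

lemma neg_sq {z Z : M} (hz : z ^ 2 = Z) : (-z) ^ 2 = Z := by rw [neg_pow, hz]; ring

lemma dich (h : TriData T A B C) {a b c : M} (ha : a ^ 2 = A) (hb : b ^ 2 = B) (hc : c ^ 2 = C) :
    NegR T a b c ∨ PosR T a b c := by
  obtain ⟨u0, hu0⟩ := (h.ex a b c ha hb hc).1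
  have hT : (T u0) ^ 2 = u0 ^ 2 := by
    rw [← map_pow, hu0, map_mul, map_add, map_add, h.hA a ha, h.hB b hb, h.hC c hc]
    ring
  have hall : ∀ u : M, u ^ 2 = (a + b) * (a + c) → u = u0 ∨ u = -u0 := fun u hu =>
    sq_eq_sq_iff_eq_or_eq_neg.mp (hu.trans hu0.symm)
  rcases sq_eq_sq_iff_eq_or_eq_neg.mp hT with h1 | h1
  · right
    intro u hu
    rcases hall u hu with rfl | rfl
    · exact h1
    · rw [map_neg, h1]
  · left
    intro u hu
    rcases hall u hu with rfl | rfl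
    · exact h1
    · rw [map_neg, h1]

/-- flipping the sign of the first argument does not change its own sign -/
lemma flip_self (h : TriData T A B C) {a b c : M} (ha : a ^ 2 = A) (hb : b ^ 2 = B)
    (hc : c ^ 2 = C) (hn : NegR T a b c) : NegR T (-a) b c := by
  intro u' hu'
  obtain ⟨u, hu⟩ := (h.ex a b c ha hb hc).1
  have hu0 : u ≠ 0 := by
    rintro rfl
    rw [zero_pow two_ne_zero] at hu
    exact mul_ne_zero (h.add_ne ha hb) (h.swap23.add_ne ha hc) hu.symm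
  have h1 : T (u * u') = u * u' := by
    apply h.pA
    rw [mul_pow, hu, hu', ← ha, ← hb, ← hc]
    ring
  rw [map_mul, hn u hu] at h1
  have h2 : u * (T u' + u') = 0 := by linear_combination -h1
  rcases mul_eq_zero.mp h2 with h3 | h3
  · exact absurd h3 hu0
  · exact eq_neg_of_add_eq_zero_left h3

/-- flipping the sign of `a` changes the sign of `b` -/
lemma flip_other (h : TriData T A B C) {a b c : M} (ha : a ^ 2 = A) (hb : b ^ 2 = B)
    (hc : c ^ 2 = C) {u u' : M} (hu : u ^ 2 = (b + a) * (b + c))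
    (hu' : u' ^ 2 = (b + -a) * (b + c)) : T (u * u') = -(u * u') := by
  have hbc : b + c ≠ 0 := h.swap12.swap23.add_ne hb hc
  have h1 : T (u * u' / (b + c)) = u * u' / (b + c) := by
    apply h.dBA
    rw [div_pow, mul_pow, hu, hu', ← ha, ← hb]
    field_simp
    ring
  have h2 : T (b + c) = -(b + c) := by
    rw [map_add, h.hB b hb, h.hC c hc]
    ring
  rw [map_div₀, h2] at h1
  field_simp at h1
  linear_combination -h1

lemma flip_other_ne (h : TriData T A B C) {a b c : M} (ha : a ^ 2 = A) (hb : b ^ 2 = B)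
    (hc : c ^ 2 = C) {u : M} (hu : u ^ 2 = (b + a) * (b + c)) : u ≠ 0 := by
  rintro rfl
  rw [zero_pow two_ne_zero] at hu
  exact mul_ne_zero (h.swap12.add_ne hb ha) (h.swap12.swap23.add_ne hb hc) hu.symm

lemma flip_pos (h : TriData T A B C) {a b c : M} (ha : a ^ 2 = A) (hb : b ^ 2 = B)
    (hc : c ^ 2 = C) (hp : PosR T b a c) : NegR T b (-a) c := by
  intro u' hu'
  obtain ⟨u, hu⟩ := (h.ex a b c ha hb hc).2.1
  have h1 := h.flip_other ha hb hc hu hu'
  have hu0 := h.flip_other_ne ha hb hc hu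
  rw [map_mul, hp u hu] at h1
  have h2 : u * (T u' + u') = 0 := by linear_combination h1
  rcases mul_eq_zero.mp h2 with h3 | h3
  · exact absurd h3 hu0
  · exact eq_neg_of_add_eq_zero_left h3

lemma flip_conflict (h : TriData T A B C) {a b c : M} (ha : a ^ 2 = A) (hb : b ^ 2 = B)
    (hc : c ^ 2 = C) (hn : NegR T b a c) (hn' : NegR T b (-a) c) : False := by
  obtain ⟨u, hu⟩ := (h.ex a b c ha hb hc).2.1
  obtain ⟨u', hu'⟩ := (h.ex (-a) b c (neg_sq ha) hb hc).2.1
  have h1 := h.flip_other ha hb hc hu hu'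
  rw [map_mul, hn u hu, hn' u' hu'] at h1
  have h2 : (2 : M) * (u * u') = 0 := by linear_combination h1
  rcases mul_eq_zero.mp h2 with h3 | h3
  · exact h.two h3
  · exact mul_ne_zero (h.flip_other_ne ha hb hc hu)
      (h.flip_other_ne (neg_sq ha) hb hc hu') h3

/-- the product of the three signs is `-1` -/
lemma prod_sign (h : TriData T A B C) {a b c : M} (ha : a ^ 2 = A) (hb : b ^ 2 = B)
    (hc : c ^ 2 = C) {u1 u2 u3 : M} (h1 : u1 ^ 2 = (a + b) * (a + c))
    (h2 : u2 ^ 2 = (b + a) * (b + c)) (h3 : u3 ^ 2 = (c + a) * (c + b)) :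
    T (u1 * u2 * u3) = -(u1 * u2 * u3) := by
  set Q : M := (a + b) * (b + c) * (a + c) with hQ
  have hsq : (u1 * u2 * u3) ^ 2 = Q ^ 2 := by
    rw [mul_pow, mul_pow, h1, h2, h3, hQ]
    ring
  have hTQ : T Q = -Q := by
    rw [hQ]
    simp only [map_mul, map_add, h.hA a ha, h.hB b hb, h.hC c hc]
    ring
  rcases sq_eq_sq_iff_eq_or_eq_neg.mp hsq with h4 | h4
  · rw [h4, hTQ]
  · rw [h4, map_neg, hTQ]

theorem pattern (h : TriData T A B C) {a b c : M} (ha : a ^ 2 = A) (hb : b ^ 2 = B)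
    (hc : c ^ 2 = C) : Good3 T a b c ∨ (NegR T a b c ∧ PosR T b a c ∧ PosR T c a b) ∨
      (PosR T a b c ∧ NegR T b a c ∧ PosR T c a b) ∨
      (PosR T a b c ∧ PosR T b a c ∧ NegR T c a b) := by
  obtain ⟨⟨u1, h1⟩, ⟨u2, h2⟩, ⟨u3, h3⟩⟩ := h.ex a b c ha hb hc
  have hprod := h.prod_sign ha hb hc h1 h2 h3
  have n1 : u1 ≠ 0 := h.swap12.flip_other_ne hb ha hc h1
  have n2 : u2 ≠ 0 := h.flip_other_ne ha hb hc h2
  have n3 : u3 ≠ 0 := h.swap23.flip_other_ne ha hc hb h3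
  have hne : (2 : M) * (u1 * u2 * u3) ≠ 0 :=
    mul_ne_zero h.two (mul_ne_zero (mul_ne_zero n1 n2) n3)
  have d1 := h.dich ha hb hc
  have d2 := h.swap12.dich hb ha hc
  have d3 := (h.swap23.swap12).dich hc ha hb
  rw [map_mul, map_mul] at hprod
  rcases d1 with d1 | d1 <;> rcases d2 with d2 | d2 <;> rcases d3 with d3 | d3
  · exact Or.inl ⟨d1, d2, d3⟩
  · exfalso
    rw [d1 u1 h1, d2 u2 h2, d3 u3 h3] at hprod
    exact hne (by linear_combination hprod)
  · exfalso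
    rw [d1 u1 h1, d2 u2 h2, d3 u3 h3] at hprod
    exact hne (by linear_combination hprod)
  · exact Or.inr (Or.inl ⟨d1, d2, d3⟩)
  · exfalso
    rw [d1 u1 h1, d2 u2 h2, d3 u3 h3] at hprod
    exact hne (by linear_combination hprod)
  · exact Or.inr (Or.inr (Or.inl ⟨d1, d2, d3⟩))
  · exact Or.inr (Or.inr (Or.inr ⟨d1, d2, d3⟩))
  · exfalso
    rw [d1 u1 h1, d2 u2 h2, d3 u3 h3] at hprod
    exact hne (by linear_combination hprod)

lemma negR_comm {a b c : M} (h : NegR T a b c) : NegR T a c b := fun u hu =>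
  h u (by rw [hu]; ring)

lemma posR_comm {a b c : M} (h : PosR T a b c) : PosR T a c b := fun u hu =>
  h u (by rw [hu]; ring)

lemma negR_neg {a b c : M} (h : NegR T a b c) : NegR T (-a) (-b) (-c) := fun u hu =>
  h u (by rw [hu]; ring)

lemma good_neg {a b c : M} (h : Good3 T a b c) : Good3 T (-a) (-b) (-c) :=
  ⟨negR_neg h.1, negR_neg h.2.1, negR_neg h.2.2⟩

/-- existence of a good choice of signs -/
theorem exists_good (h : TriData T A B C) {a b c : M} (ha : a ^ 2 = A) (hb : b ^ 2 = B)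
    (hc : c ^ 2 = C) : ∃ a' b' c' : M, a' ^ 2 = A ∧ b' ^ 2 = B ∧ c' ^ 2 = C ∧
      Good3 T a' b' c' := by
  rcases h.pattern ha hb hc with h1 | ⟨h1, h2, h3⟩ | ⟨h1, h2, h3⟩ | ⟨h1, h2, h3⟩
  · exact ⟨a, b, c, ha, hb, hc, h1⟩
  · refine ⟨-a, b, c, neg_sq ha, hb, hc, h.flip_self ha hb hc h1, h.flip_pos ha hb hc h2, ?_⟩
    exact h.swap23.flip_pos ha hc hb h3
  · refine ⟨a, -b, c, ha, neg_sq hb, hc, ?_, ?_, ?_⟩
    · exact h.swap12.flip_pos hb ha hc h1
    · exact h.swap12.flip_self hb ha hc h2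
    · exact negR_comm (h.swap12.swap23.flip_pos hb hc ha (posR_comm h3))
  · refine ⟨a, b, -c, ha, hb, neg_sq hc, ?_, ?_, ?_⟩
    · exact negR_comm (h.swap23.swap12.flip_pos hc ha hb (posR_comm h1))
    · exact negR_comm (h.swap12.swap23.swap12.flip_pos hc hb ha (posR_comm h2))
    · exact h.swap23.swap12.flip_self hc ha hb h3

/-- uniqueness of the good choice up to a common sign -/
theorem unique_good (h : TriData T A B C) {a b c a' b' c' : M} (ha : a ^ 2 = A) (hb : b ^ 2 = B)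
    (hc : c ^ 2 = C) (ha' : a' ^ 2 = A) (hb' : b' ^ 2 = B) (hc' : c' ^ 2 = C)
    (hg : Good3 T a b c) (hg' : Good3 T a' b' c') : b' * c' = b * c := by
  have f1 : ¬ Good3 T (-a) b c := fun hg1 => h.flip_conflict ha hb hc hg.2.1 hg1.2.1
  have f2 : ¬ Good3 T a (-b) c := fun hg1 => h.swap12.flip_conflict hb ha hc hg.1 hg1.1
  have f3 : ¬ Good3 T a b (-c) := fun hg1 =>
    h.swap23.swap12.flip_conflict hc ha hb (negR_comm hg.1) (negR_comm hg1.1)
  rcases sq_eq_sq_iff_eq_or_eq_neg.mp (ha'.trans ha.symm) with rfl | rfl <;>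
    rcases sq_eq_sq_iff_eq_or_eq_neg.mp (hb'.trans hb.symm) with rfl | rfl <;>
    rcases sq_eq_sq_iff_eq_or_eq_neg.mp (hc'.trans hc.symm) with rfl | rfl
  · rfl
  · exact absurd hg' f3
  · exact absurd hg' f2
  · exfalso
    apply f1
    have := good_neg hg'
    simpa using this
  · exact absurd hg' f1
  · exfalso
    apply f2
    have := good_neg hg'
    simpa using this
  · exfalso
    apply f3
    have := good_neg hg'
    simpa using this
  · ring

end TriData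

end Pool.Agent.SCT
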