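import Pool.Agent.SCT.Wild
import Pool.Agent.SCT.Signs

/-!
SCT module PAIR: the action of the Frobenius lift on the square root of `(x - r1)(x - r2)`.

Notation: `X = 1 / (x - ι θ0)`, `e i = 1 / (r i - θ0)` (`v (e i) = 1`, distinct modulo `v`), and
`X - ι (e i) = - (x - ι (r i)) / ((x - ι θ0) (ι (r i) - ι θ0))`.
Step 1.  Choose `κ i : E` with `κ i ^ 2 = -1 / (r i - θ0)` (`v (κ i) = 1`, so `τ (κ i) = κ i` by
`IsLoc.fix_root` with exponent `1`) and put `s i = ι (κ i) m i / (x - ι θ0)`; so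
`s i ^ 2 = X - ι (e i)` and `T s i = - s i`, `T = fr.ρ τ`.
Step 2.  For signs `γ i = ±1` let `a i = γ i s i`, and let `u i` be a square root of
`(a i + a j)(a i + a k)` (`hu`; nonzero because `(a i + a j)(a i - a j) = ι (e j - e i) ≠ 0`).
`T u i ^ 2 = u i ^ 2`, so `T u i = ν i u i`, `ν i = ±1` (independent of the choice of `u i`).
* `ν 0 ν 1 ν 2 = -1`: `u 0 u 1 u 2 = ± (a 0 + a 1)(a 1 + a 2)(a 0 + a 2)`, and `T` changes its sign.
* changing the sign of `a i` does not change `ν i`: `(u i u i')^2 = ι ((e j - e i)(e k - e i))`, a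
  constant whose square roots are fixed by `τ` (unit); and it changes `ν j` (`j ≠ i`):
  `(u j u j')^2 = ι (e i - e j) (a j + a k)^2` and `T (a j + a k) = - (a j + a k)`.
* changing all three signs changes nothing.
So exactly one of the four classes of sign choices modulo the global sign (the *good* one) has
`ν = (-1, -1, -1)`.
Step 3.  Frobenius invariance.  Let `F = fr.ρ φ`, `π` the permutation of `{0,1,2}` with
`φ (r i) = r (π i)`, `π 0 = 0`.  If `a` is good, then `i ↦ F (a (π⁻¹ i))` is a good choice (it is a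
choice: its square is `X - ι (e i)` as `F X = X`).  For this we need `T (F u) = - F u` for
`u = u i`, i.e. `fr.ρ τ' u = - u`, `τ' = φ⁻¹ τ φ`.  Now `τ = σ τ'^q` with `σ` wild (`wild`):
`fr.ρ σ (s i) = s i`: let `b i` be as in `descend_root` (applied to `m i`, then multiply by
constants), so `ι (b i) m i` is fixed by all elements fixing `θ0`, `r i`; `σ` fixes `θ0`, `r i`
(`τ` does, and `τ'` does because `φ` permutes the `r i` and fixes `θ0`); `wild_sign` gives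
`fr.ρ σ (m i) = m i`, `σ (b i) = b i`; `σ (κ i) = κ i` (`κ i ^ 2` is fixed by `σ`, and
`v (σ κ - κ) < v κ`).  Similarly for `u i`: by `Pool.Agent.Helper36.descent` over the field
`F1 = k(θ0, r i, b i, κ i; i = 0,1,2)` (every element of the fixer of `F1` fixes all `s i`, hence
`u i ^ 2`, hence maps `u i` to `± u i`) there is `b' ≠ 0` with `ι b' * u i` fixed by the fixer of
`F1`, which contains `σ`; `wild_sign` gives `fr.ρ σ (u i) = u i`.  So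
`fr.ρ τ (s i) = fr.ρ (τ'^q) (s i)`, `fr.ρ τ (u i) = fr.ρ (τ'^q) (u i)`.  `fr.ρ τ' (s i) = ± s i`
(`τ'` fixes `e i`, `X`), and as its `q`-th power is `- s i`, the sign is `-` for all `i`; so
`fr.ρ τ' (u i) = ± u i`, and the `q`-th power being `- u i`, the sign is `-` (`a` good).  Done.
Step 4.  By uniqueness `F (a i) = ε a (π i)` with one sign `ε`; so `F (a 1 a 2) = a 1 a 2`, in
both cases for `π`.  `a 1 a 2 = ± ι(κ 1 κ 2) m 1 m 2 / (x - ι θ0)^2`, and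
`w = ± m 1 m 2 / (x - ι θ0)`; `δ0 = 1/(κ 1 κ 2)` satisfies `δ0^2 = (θ0 - r1)(θ0 - r2)`, so
`δ = ± δ0`, and `w = ± ι δ (x - ι θ0) a 1 a 2`; `F (x - ι θ0) = x - ι θ0`.  Hence
`F w = ι (φ δ / δ) w`.
-/

set_option linter.dupNamespace false

namespace Pool.Agent.SCT

open Pool.Agent.Helper19.Sec

variable {k E M Γ₀ : Type*} [Field k] [Field E] [Field M] [Algebra k E] [IsGalois k E]
  [IsAlgClosed E] [CharZero E] [LinearOrderedCommGroupWithZero Γ₀]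

omit [IsAlgClosed E] [CharZero E] in
/-- Kummer descent for an element whose square is fixed -/
lemma kdescent (fr : Frame k E M) {z : M} (hz : z ≠ 0) (S : Finset E)
    (h : ∀ σ : E ≃ₐ[k] E, (∀ e ∈ S, σ e = e) → fr.ρ σ z = z ∨ fr.ρ σ z = -z) :
    ∃ b : E, b ≠ 0 ∧ ∀ σ : E ≃ₐ[k] E, (∀ e ∈ S, σ e = e) →
      fr.ρ σ (fr.ι b * z) = fr.ι b * z := by
  obtain ⟨F, hF, hFfix⟩ := fr.cont z
  have hfin : FiniteDimensional k (IntermediateField.adjoin k (S : Set E)) :=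
    IntermediateField.finiteDimensional_adjoin fun z _ =>
      (Algebra.IsAlgebraic.isAlgebraic z).isIntegral
  have hfin2 : FiniteDimensional k
      (IntermediateField.adjoin k (S : Set E) ⊔ F : IntermediateField k E) :=
    IntermediateField.finiteDimensional_sup _ _
  obtain ⟨b, hb0, hb⟩ := Pool.Agent.Helper36.descent (ρ := fr.ρ) fr.semilin
    (IntermediateField.adjoin k (S : Set E)) (IntermediateField.adjoin k (S : Set E) ⊔ F)
    le_sup_left hz (by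
      intro σ hσ
      apply hFfix
      rw [IntermediateField.mem_fixingSubgroup_iff] at hσ ⊢
      exact fun z hz => hσ z ((le_sup_right : F ≤ _ ⊔ F) hz)) (by
      intro σ hσ
      rw [mem_fixing_adjoin] at hσ
      rcases h σ (fun e he => hσ e (Finset.mem_coe.mpr he)) with h2 | h2
      · exact ⟨1, by rw [map_one, one_mul, h2]⟩
      · exact ⟨-1, by rw [map_neg, map_one, h2]; ring⟩)
  refine ⟨b, hb0, fun σ h1 => hb σ ?_⟩
  rw [mem_fixing_adjoin]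
  intro z hz
  exact h1 z (Finset.mem_coe.mp hz)

omit [IsGalois k E] [CharZero E] in
/-- square roots of units fixed by `τ` are fixed by `τ` -/
lemma sqrt_fix (fr : Frame k E M) {v : Valuation E Γ₀} {φ τ : E ≃ₐ[k] E} {q : ℕ}
    (hl : IsLoc v (φ : E →+* E) (τ : E →+* E) q) {g : E} (hg : v g = 1) (hτ : τ g = g) (z : M)
    (hz : z ^ 2 = fr.ι g) : fr.ρ τ z = z := by
  obtain ⟨w, rfl⟩ := root_mem_range fr.ι two_ne_zero hz
  have hw : w ^ 2 = g := fr.ι.injective (by rw [map_pow, hz])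
  have hv : v w = 1 := by
    have h1 : v w ^ 2 = 1 := by rw [← map_pow, hw, hg]
    exact (pow_eq_one_iff_of_nonneg zero_le (by norm_num)).mp h1
  rw [fr.semilin]
  congr 1
  refine hl.fix_root 1 hv ?_
  show τ (w ^ 2 ^ 1) = w ^ 2 ^ 1
  rw [pow_one, hw, hτ]

/-- an odd power of a ring automorphism changing the sign up to sign -/
lemma odd_pow_pm (T : M ≃+* M) {q : ℕ} (hq : Odd q) {z : M} (h : T z = z ∨ T z = -z) :
    (T ^ q) z = T z := by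
  have h2 : (T ^ 2) z = z := by
    have : (T ^ 2) z = T (T z) := by rw [pow_two]; rfl
    rw [this]
    rcases h with h | h
    · rw [h, h]
    · rw [h, map_neg, h, neg_neg]
  obtain ⟨n, rfl⟩ := hq
  induction n with
  | zero => simp
  | succ n ih =>
    have h3 : T ^ (2 * (n + 1) + 1) = T ^ (2 * n + 1) * T ^ 2 := by
      rw [← pow_add]
      congr 1
    have h4 : (T ^ (2 * (n + 1) + 1)) z = (T ^ (2 * n + 1)) ((T ^ 2) z) := by rw [h3]; rfl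
    rw [h4, h2, ih]

theorem pair (fr : Frame k E M) (x : M) (hx : x ∉ Set.range fr.ι) (hxfix : ∀ σ, fr.ρ σ x = x)
    {v : Valuation E Γ₀} {φ τ : E ≃ₐ[k] E} {q : ℕ}
    (hl : IsLoc v (φ : E →+* E) (τ : E →+* E) q) (θ0 r0 r1 r2 : E)
    (hφ0 : φ θ0 = θ0) (hφr0 : φ r0 = r0) (hφr : (φ r1 = r1 ∧ φ r2 = r2) ∨ (φ r1 = r2 ∧ φ r2 = r1))
    (hτ0 : τ θ0 = θ0) (hτr0 : τ r0 = r0) (hτr1 : τ r1 = r1) (hτr2 : τ r2 = r2)
    (h00 : v (r0 - θ0) = 1) (h10 : v (r1 - θ0) = 1) (h20 : v (r2 - θ0) = 1)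
    (h01 : v (r0 - r1) = 1) (h02 : v (r0 - r2) = 1) (h12 : v (r1 - r2) = 1)
    (m0 m1 m2 : M) (hm0 : m0 ^ 2 = (x - fr.ι θ0) * (x - fr.ι r0))
    (hm1 : m1 ^ 2 = (x - fr.ι θ0) * (x - fr.ι r1)) (hm2 : m2 ^ 2 = (x - fr.ι θ0) * (x - fr.ι r2))
    (hT0 : fr.ρ τ m0 = -m0) (hT1 : fr.ρ τ m1 = -m1) (hT2 : fr.ρ τ m2 = -m2)
    (hu : ∀ a b c : M, a ^ 2 = 1 / (x - fr.ι θ0) - fr.ι (1 / (r0 - θ0)) →
      b ^ 2 = 1 / (x - fr.ι θ0) - fr.ι (1 / (r1 - θ0)) →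
      c ^ 2 = 1 / (x - fr.ι θ0) - fr.ι (1 / (r2 - θ0)) →
      (∃ u : M, u ^ 2 = (a + b) * (a + c)) ∧ (∃ u : M, u ^ 2 = (b + a) * (b + c)) ∧
        (∃ u : M, u ^ 2 = (c + a) * (c + b)))
    (w : M) (hw : w ^ 2 = (x - fr.ι r1) * (x - fr.ι r2))
    (δ : E) (hδ : δ ^ 2 = (θ0 - r1) * (θ0 - r2)) :
    fr.ρ φ w = fr.ι (φ δ / δ) * w := by
  classical
  have hne : ∀ e : E, x - fr.ι e ≠ 0 := fun e h0 => hx ⟨e, (sub_eq_zero.mp h0).symm⟩
  have hι : ∀ {e : E}, e ≠ 0 → fr.ι e ≠ 0 := fun h => by rwa [_root_.map_ne_zero]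
  have hv0 : ∀ {e : E}, v e = 1 → e ≠ 0 := by
    rintro e h rfl
    rw [map_zero] at h
    exact zero_ne_one h
  have n0 := hv0 h00
  have n1 := hv0 h10
  have n2 := hv0 h20
  have n01 := hv0 h01
  have n02 := hv0 h02
  have n12 := hv0 h12
  have hx0 := hne θ0
  -- the squares
  set A : M := 1 / (x - fr.ι θ0) - fr.ι (1 / (r0 - θ0)) with hA
  set B : M := 1 / (x - fr.ι θ0) - fr.ι (1 / (r1 - θ0)) with hB
  set C : M := 1 / (x - fr.ι θ0) - fr.ι (1 / (r2 - θ0)) with hC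
  have hform : ∀ {r : E}, r - θ0 ≠ 0 → 1 / (x - fr.ι θ0) - fr.ι (1 / (r - θ0)) =
      -(x - fr.ι r) / ((x - fr.ι θ0) * fr.ι (r - θ0)) := by
    intro r hr
    have h1 : fr.ι (r - θ0) ≠ 0 := hι hr
    rw [map_div₀, map_one]
    field_simp
    rw [map_sub]
    ring
  have hnz : ∀ {r : E}, r - θ0 ≠ 0 → 1 / (x - fr.ι θ0) - fr.ι (1 / (r - θ0)) ≠ 0 := by
    intro r hr
    rw [hform hr]
    exact div_ne_zero (neg_ne_zero.mpr (hne r)) (mul_ne_zero hx0 (hι hr))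
  have hfixsq : ∀ {r : E}, ∀ σ : E ≃ₐ[k] E, σ θ0 = θ0 → ∀ r', σ r = r' →
      fr.ρ σ (1 / (x - fr.ι θ0) - fr.ι (1 / (r - θ0))) =
        1 / (x - fr.ι θ0) - fr.ι (1 / (r' - θ0)) := by
    rintro r σ h1 r' rfl
    rw [map_sub, map_div₀, map_one, map_sub, fr.semilin, fr.semilin, hxfix, map_div₀, map_one,
      map_sub, h1]
  -- `τ` changes the signs
  have hneg : ∀ {r : E} {m : M}, v (r - θ0) = 1 → τ r = r → m ^ 2 = (x - fr.ι θ0) * (x - fr.ι r) →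
      fr.ρ τ m = -m → ∀ z : M, z ^ 2 = 1 / (x - fr.ι θ0) - fr.ι (1 / (r - θ0)) →
      fr.ρ τ z = -z := by
    intro r m hv hτr hm hTm z hz
    have hr0 := hv0 hv
    have hm0 : m ≠ 0 := by
      rintro rfl
      rw [zero_pow two_ne_zero] at hm
      exact mul_ne_zero hx0 (hne r) hm.symm
    have h1 : fr.ρ τ (z * (x - fr.ι θ0) / m) = z * (x - fr.ι θ0) / m := by
      refine sqrt_fix fr hl (g := -1 / (r - θ0)) ?_ ?_ _ ?_
      · rw [map_div₀, Valuation.map_neg, map_one, hv, div_one]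
      · rw [map_div₀, map_neg, map_one, map_sub, hτr, hτ0]
      · rw [div_pow, mul_pow, hz, hform hr0, hm, map_div₀, map_neg, map_one]
        have h2 := hι hr0
        have h3 := hne r
        field_simp
    rw [map_div₀, map_mul, map_sub, fr.semilin, hxfix, hτ0, hTm] at h1
    field_simp at h1
    linear_combination -h1
  -- differences
  have hdiff : ∀ {r r' : E}, v (r - θ0) = 1 → v (r' - θ0) = 1 → v (r - r') = 1 →
      ∃ g : E, v g = 1 ∧ (τ r = r → τ r' = r' → τ g = g) ∧ fr.ι g =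
        (1 / (x - fr.ι θ0) - fr.ι (1 / (r - θ0))) - (1 / (x - fr.ι θ0) - fr.ι (1 / (r' - θ0))) := by
    intro r r' h1 h2 h3
    refine ⟨1 / (r' - θ0) - 1 / (r - θ0), ?_, ?_, ?_⟩
    · have h4 : 1 / (r' - θ0) - 1 / (r - θ0) = (r - r') / ((r' - θ0) * (r - θ0)) := by
        have h5 := hv0 h1
        have h6 := hv0 h2
        field_simp
        ring
      rw [h4, map_div₀, map_mul, h1, h2, h3, mul_one, div_one]
    · intro h4 h5
      rw [map_sub, map_div₀, map_div₀, map_one, map_sub, map_sub, h4, h5, hτ0]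
    · rw [map_sub]
      ring
  have hsw : ∀ {a b : E}, v (a - b) = 1 → v (b - a) = 1 := fun h => by
    rwa [Valuation.map_sub_swap]
  obtain ⟨g01, hg01, ht01, he01⟩ := hdiff h00 h10 h01
  obtain ⟨g10, hg10, ht10, he10⟩ := hdiff h10 h00 (hsw h01)
  obtain ⟨g02, hg02, ht02, he02⟩ := hdiff h00 h20 h02
  obtain ⟨g20, hg20, ht20, he20⟩ := hdiff h20 h00 (hsw h02)
  obtain ⟨g12, hg12, ht12, he12⟩ := hdiff h10 h20 h12
  obtain ⟨g21, hg21, ht21, he21⟩ := hdiff h20 h10 (hsw h12)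
  have ht01' := ht01 hτr0 hτr1
  have ht10' := ht10 hτr1 hτr0
  have ht02' := ht02 hτr0 hτr2
  have ht20' := ht20 hτr2 hτr0
  have ht12' := ht12 hτr1 hτr2
  have ht21' := ht21 hτr2 hτr1
  have hchar2 : (2 : M) ≠ 0 := by
    have h1 : fr.ι (2 : E) ≠ 0 := hι two_ne_zero
    rwa [map_ofNat] at h1
  have hdne : ∀ {g : E} {P Q : M}, v g = 1 → fr.ι g = P - Q → P ≠ Q := by
    intro g P Q h1 h2 h3
    rw [h3, sub_self] at h2
    exact hι (hv0 h1) h2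
  have hprod : ∀ {g g' : E} {P Q : M}, v g = 1 → v g' = 1 → τ g = g → τ g' = g' →
      fr.ι g = P → fr.ι g' = Q → ∀ z : M, z ^ 2 = P * Q → fr.ρ τ z = z := by
    intro g g' P Q h1 h2 h3 h4 h5 h6 z hz
    refine sqrt_fix fr hl (g := g * g') ?_ ?_ z ?_
    · rw [map_mul, h1, h2, mul_one]
    · rw [map_mul, h3, h4]
    · rw [hz, map_mul, h5, h6]
  have hD : TriData (fr.ρ τ) A B C :=
    { two := hchar2
      nAB := hdne hg01 he01
      nAC := hdne hg02 he02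
      nBC := hdne hg12 he12
      hA := hneg h00 hτr0 hm0 hT0
      hB := hneg h10 hτr1 hm1 hT1
      hC := hneg h20 hτr2 hm2 hT2
      ex := hu
      dBA := fun z hz => sqrt_fix fr hl hg10 ht10' z (by rw [hz, he10])
      dCA := fun z hz => sqrt_fix fr hl hg20 ht20' z (by rw [hz, he20])
      dAB := fun z hz => sqrt_fix fr hl hg01 ht01' z (by rw [hz, he01])
      dCB := fun z hz => sqrt_fix fr hl hg21 ht21' z (by rw [hz, he21])
      dAC := fun z hz => sqrt_fix fr hl hg02 ht02' z (by rw [hz, he02])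
      dBC := fun z hz => sqrt_fix fr hl hg12 ht12' z (by rw [hz, he12])
      pA := hprod hg10 hg20 ht10' ht20' he10 he20
      pB := hprod hg01 hg21 ht01' ht21' he01 he21
      pC := hprod hg02 hg12 ht02' ht12' he02 he12 }
  -- square roots of `A`, `B`, `C` exist
  have hexroot : ∀ {r : E} {m : M}, r - θ0 ≠ 0 → m ^ 2 = (x - fr.ι θ0) * (x - fr.ι r) →
      ∃ z : M, z ^ 2 = 1 / (x - fr.ι θ0) - fr.ι (1 / (r - θ0)) := by
    intro r m hr hm
    obtain ⟨κ, hκ⟩ := IsAlgClosed.exists_pow_nat_eq (-1 / (r - θ0)) (n := 2) (by norm_num)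
    refine ⟨fr.ι κ * m / (x - fr.ι θ0), ?_⟩
    rw [div_pow, mul_pow, ← map_pow, hκ, hm, hform hr, map_div₀, map_neg, map_one]
    have h2 := hι hr
    field_simp
  obtain ⟨a0, ha0⟩ := hexroot n0 hm0
  obtain ⟨b0, hb0⟩ := hexroot n1 hm1
  obtain ⟨c0, hc0⟩ := hexroot n2 hm2
  obtain ⟨a, b, c, ha, hb, hc, hgood⟩ := hD.exists_good ha0 hb0 hc0
  -- the wild element
  set τ' : E ≃ₐ[k] E := φ⁻¹ * τ * φ with hτ'
  set σ : E ≃ₐ[k] E := τ * (τ' ^ q)⁻¹ with hσ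
  have hwild : ∀ z : E, z ≠ 0 → v (σ z - z) < v z := wild hl
  have hconj : ∀ z z' : E, φ z = z' → τ z' = z' → τ' z = z := by
    rintro z z' rfl h2
    show φ⁻¹ (τ (φ z)) = z
    rw [h2]
    exact φ.symm_apply_apply z
  have hτ'0 : τ' θ0 = θ0 := hconj _ _ hφ0 hτ0
  have hτ'r0 : τ' r0 = r0 := hconj _ _ hφr0 hτr0
  have hτ'r1 : τ' r1 = r1 := by
    rcases hφr with ⟨h1, -⟩ | ⟨h1, -⟩
    · exact hconj _ _ h1 hτr1
    · exact hconj _ _ h1 hτr2
  have hτ'r2 : τ' r2 = r2 := by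
    rcases hφr with ⟨-, h1⟩ | ⟨-, h1⟩
    · exact hconj _ _ h1 hτr2
    · exact hconj _ _ h1 hτr1
  have hσfix : ∀ z : E, τ z = z → τ' z = z → σ z = z := by
    intro z h1 h2
    have h3 : τ' ∈ MulAction.stabilizer (E ≃ₐ[k] E) z := h2
    have h4 : τ ∈ MulAction.stabilizer (E ≃ₐ[k] E) z := h1
    have h5 : σ ∈ MulAction.stabilizer (E ≃ₐ[k] E) z :=
      Subgroup.mul_mem _ h4 (Subgroup.inv_mem _ (Subgroup.pow_mem _ h3 q))
    exact h5
  have hσ0 := hσfix _ hτ0 hτ'0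
  have hσr0 := hσfix _ hτr0 hτ'r0
  have hσr1 := hσfix _ hτr1 hτ'r1
  have hσr2 := hσfix _ hτr2 hτ'r2
  -- square roots of `A`, `B`, `C` are fixed by `σ`
  have hwroot : ∀ {r : E} {z : M}, r - θ0 ≠ 0 → σ r = r →
      z ^ 2 = 1 / (x - fr.ι θ0) - fr.ι (1 / (r - θ0)) →
      fr.ρ σ z = z ∧ ∃ β : E, σ β = β ∧ ∀ s : E ≃ₐ[k] E, s θ0 = θ0 → s r = r → s β = β →
        fr.ρ s z = z := by
    intro r z hr hσr hz
    have hz0 : z ≠ 0 := by
      rintro rfl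
      rw [zero_pow two_ne_zero] at hz
      exact hnz hr hz.symm
    have hpm : ∀ s : E ≃ₐ[k] E, s θ0 = θ0 → s r = r → fr.ρ s z = z ∨ fr.ρ s z = -z := by
      intro s hs0 hsr
      apply sq_eq_sq_iff_eq_or_eq_neg.mp
      rw [← map_pow, hz, hfixsq s hs0 r hsr]
    obtain ⟨β, hβ0, hβ⟩ := kdescent fr hz0 {θ0, r} (by
      intro s hs
      exact hpm s (hs _ (by simp)) (hs _ (by simp)))
    have h1 := wild_sign fr hl.v2 hwild hz0 hβ0 (hβ σ (by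
      intro e he
      simp only [Finset.mem_insert, Finset.mem_singleton] at he
      rcases he with rfl | rfl
      · exact hσ0
      · exact hσr)) (hpm σ hσ0 hσr)
    refine ⟨h1.1, β, h1.2, ?_⟩
    intro s hs0 hsr hsβ
    have h2 := hβ s (by
      intro e he
      simp only [Finset.mem_insert, Finset.mem_singleton] at he
      rcases he with rfl | rfl
      · exact hs0
      · exact hsr)
    rw [map_mul, fr.semilin, hsβ] at h2
    exact mul_left_cancel₀ (hι hβ0) h2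
  -- transfer from `τ` to `τ'`
  have htransfer : ∀ z : M, fr.ρ σ z = z → (fr.ρ τ' z = z ∨ fr.ρ τ' z = -z) →
      fr.ρ τ' z = fr.ρ τ z := by
    intro z h1 h2
    have h3 : τ = σ * τ' ^ q := by rw [hσ, inv_mul_cancel_right]
    have h4 : fr.ρ τ z = fr.ρ σ ((fr.ρ τ' ^ q) z) := by
      conv_lhs => rw [h3, map_mul, map_pow]
      rfl
    rw [h4, odd_pow_pm (fr.ρ τ') (q_odd hl) h2]
    rcases h2 with h2 | h2
    · rw [h2, h1]
    · rw [h2, map_neg, h1]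
  have hτ'neg : ∀ {r : E} {z : M}, r - θ0 ≠ 0 → σ r = r → τ' r = r →
      z ^ 2 = 1 / (x - fr.ι θ0) - fr.ι (1 / (r - θ0)) → fr.ρ τ z = -z → fr.ρ τ' z = -z := by
    intro r z hr hσr hτ'r hz hTz
    rw [← hTz]
    apply htransfer z (hwroot hr hσr hz).1
    apply sq_eq_sq_iff_eq_or_eq_neg.mp
    rw [← map_pow, hz, hfixsq τ' hτ'0 r hτ'r]
  -- the same for the square roots of `(z1 + z2)(z1 + z3)`
  have hτ'u : ∀ {s1 s2 s3 : E} {z1 z2 z3 u : M}, s1 - θ0 ≠ 0 → s2 - θ0 ≠ 0 → s3 - θ0 ≠ 0 →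
      σ s1 = s1 → σ s2 = s2 → σ s3 = s3 → τ' s1 = s1 → τ' s2 = s2 → τ' s3 = s3 →
      z1 ^ 2 = 1 / (x - fr.ι θ0) - fr.ι (1 / (s1 - θ0)) →
      z2 ^ 2 = 1 / (x - fr.ι θ0) - fr.ι (1 / (s2 - θ0)) →
      z3 ^ 2 = 1 / (x - fr.ι θ0) - fr.ι (1 / (s3 - θ0)) →
      fr.ρ τ z1 = -z1 → fr.ρ τ z2 = -z2 → fr.ρ τ z3 = -z3 → u ≠ 0 →
      u ^ 2 = (z1 + z2) * (z1 + z3) → fr.ρ τ u = -u → fr.ρ τ' u = -u := by
    intro s1 s2 s3 z1 z2 z3 u p1 p2 p3 q1 q2 q3 t1 t2 t3 hz1 hz2 hz3 T1 T2 T3 hu0 hu2 hTu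
    obtain ⟨-, β1, hβ1, hf1⟩ := hwroot p1 q1 hz1
    obtain ⟨-, β2, hβ2, hf2⟩ := hwroot p2 q2 hz2
    obtain ⟨-, β3, hβ3, hf3⟩ := hwroot p3 q3 hz3
    have hpm : ∀ s : E ≃ₐ[k] E, (∀ e ∈ ({θ0, s1, s2, s3, β1, β2, β3} : Finset E), s e = e) →
        fr.ρ s u = u ∨ fr.ρ s u = -u := by
      intro s hs
      have e0 : s θ0 = θ0 := hs _ (by simp)
      apply sq_eq_sq_iff_eq_or_eq_neg.mp
      rw [← map_pow, hu2, map_mul, map_add, map_add, hf1 s e0 (hs _ (by simp)) (hs _ (by simp)),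
        hf2 s e0 (hs _ (by simp)) (hs _ (by simp)), hf3 s e0 (hs _ (by simp)) (hs _ (by simp))]
    obtain ⟨γ, hγ0, hγ⟩ := kdescent fr hu0 _ hpm
    have hσS : ∀ e ∈ ({θ0, s1, s2, s3, β1, β2, β3} : Finset E), σ e = e := by
      intro e he
      simp only [Finset.mem_insert, Finset.mem_singleton] at he
      rcases he with rfl | rfl | rfl | rfl | rfl | rfl | rfl <;> assumption
    have hσu := (wild_sign fr hl.v2 hwild hu0 hγ0 (hγ σ hσS) (hpm σ hσS)).1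
    rw [← hTu]
    apply htransfer u hσu
    apply sq_eq_sq_iff_eq_or_eq_neg.mp
    rw [← map_pow, hu2, map_mul, map_add, map_add, hτ'neg p1 q1 t1 hz1 T1, hτ'neg p2 q2 t2 hz2 T2,
      hτ'neg p3 q3 t3 hz3 T3]
    ring
  -- transport by Frobenius
  have hTF : ∀ u : M, fr.ρ τ' u = -u → fr.ρ τ (fr.ρ φ u) = -(fr.ρ φ u) := by
    intro u h1
    have h2 : fr.ρ τ (fr.ρ φ u) = fr.ρ φ (fr.ρ τ' u) := by
      have h3 : τ * φ = φ * τ' := by
        rw [hτ']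
        group
      have h4 := congrArg (fun s => fr.ρ s u) h3
      simp only [map_mul] at h4
      rw [← map_mul fr.ρ] at h4
      simpa using h4
    rw [h2, h1, map_neg]
  have hFroot : ∀ {r r' : E} {z : M}, φ r = r' →
      z ^ 2 = 1 / (x - fr.ι θ0) - fr.ι (1 / (r - θ0)) →
      (fr.ρ φ z) ^ 2 = 1 / (x - fr.ι θ0) - fr.ι (1 / (r' - θ0)) := by
    intro r r' z h1 h2
    rw [← map_pow, h2, hfixsq φ hφ0 r' h1]
  have hTa := hD.hA a ha
  have hTb := hD.hB b hb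
  have hTc := hD.hC c hc
  have hFneg : ∀ {s1 s2 s3 : E} {z1 z2 z3 : M}, s1 - θ0 ≠ 0 → s2 - θ0 ≠ 0 → s3 - θ0 ≠ 0 →
      σ s1 = s1 → σ s2 = s2 → σ s3 = s3 → τ' s1 = s1 → τ' s2 = s2 → τ' s3 = s3 →
      z1 ^ 2 = 1 / (x - fr.ι θ0) - fr.ι (1 / (s1 - θ0)) →
      z2 ^ 2 = 1 / (x - fr.ι θ0) - fr.ι (1 / (s2 - θ0)) →
      z3 ^ 2 = 1 / (x - fr.ι θ0) - fr.ι (1 / (s3 - θ0)) →
      fr.ρ τ z1 = -z1 → fr.ρ τ z2 = -z2 → fr.ρ τ z3 = -z3 → z1 + z2 ≠ 0 → z1 + z3 ≠ 0 →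
      NegR (fr.ρ τ) z1 z2 z3 → NegR (fr.ρ τ) (fr.ρ φ z1) (fr.ρ φ z2) (fr.ρ φ z3) := by
    intro s1 s2 s3 z1 z2 z3 p1 p2 p3 q1 q2 q3 t1 t2 t3 hz1 hz2 hz3 T1 T2 T3 w1 w2 hN u hu2
    set u0 : M := (fr.ρ φ).symm u with hu0
    have hφu : fr.ρ φ u0 = u := (fr.ρ φ).apply_symm_apply u
    have h1 : u0 ^ 2 = (z1 + z2) * (z1 + z3) := by
      apply (fr.ρ φ).injective
      rw [map_pow, hφu, hu2, map_mul, map_add, map_add]
    have h2 : u0 ≠ 0 := by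
      intro h3
      rw [h3, zero_pow two_ne_zero] at h1
      exact mul_ne_zero w1 w2 h1.symm
    rw [← hφu]
    exact hTF u0 (hτ'u p1 p2 p3 q1 q2 q3 t1 t2 t3 hz1 hz2 hz3 T1 T2 T3 h2 h1 (hN u0 h1))
  have hab : a + b ≠ 0 := hD.add_ne ha hb
  have hac : a + c ≠ 0 := hD.swap23.add_ne ha hc
  have hbc : b + c ≠ 0 := hD.swap12.swap23.add_ne hb hc
  have hba : b + a ≠ 0 := by rwa [add_comm]
  have hca : c + a ≠ 0 := by rwa [add_comm]
  have hcb : c + b ≠ 0 := by rwa [add_comm]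
  have hF1 : NegR (fr.ρ τ) (fr.ρ φ a) (fr.ρ φ b) (fr.ρ φ c) :=
    hFneg n0 n1 n2 hσr0 hσr1 hσr2 hτ'r0 hτ'r1 hτ'r2 ha hb hc hTa hTb hTc hab hac hgood.1
  have hF2 : NegR (fr.ρ τ) (fr.ρ φ b) (fr.ρ φ a) (fr.ρ φ c) :=
    hFneg n1 n0 n2 hσr1 hσr0 hσr2 hτ'r1 hτ'r0 hτ'r2 hb ha hc hTb hTa hTc hba hbc hgood.2.1
  have hF3 : NegR (fr.ρ τ) (fr.ρ φ c) (fr.ρ φ a) (fr.ρ φ b) :=
    hFneg n2 n0 n1 hσr2 hσr0 hσr1 hτ'r2 hτ'r0 hτ'r1 hc ha hb hTc hTa hTb hca hcb hgood.2.2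
  have hFbc : fr.ρ φ (b * c) = b * c := by
    rw [map_mul]
    rcases hφr with ⟨h1, h2⟩ | ⟨h1, h2⟩
    · exact hD.unique_good ha hb hc (hFroot hφr0 ha) (hFroot h1 hb) (hFroot h2 hc) hgood
        ⟨hF1, hF2, hF3⟩
    · rw [mul_comm]
      exact hD.unique_good ha hb hc (hFroot hφr0 ha) (hFroot h2 hc) (hFroot h1 hb) hgood
        ⟨TriData.negR_comm hF1, hF3, hF2⟩
  -- conclusion
  have hδ0 : δ ≠ 0 := by
    rintro rfl
    rw [zero_pow two_ne_zero] at hδ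
    have h1 : (θ0 - r1) * (θ0 - r2) = (r1 - θ0) * (r2 - θ0) := by ring
    rw [h1] at hδ
    exact mul_ne_zero n1 n2 hδ.symm
  have hwsq : w ^ 2 = (b * c * (x - fr.ι θ0) * fr.ι δ) ^ 2 := by
    rw [hw, mul_pow, mul_pow, mul_pow, hb, hc, hB, hC, hform n1, hform n2, ← map_pow, hδ]
    have h1 : (θ0 - r1) * (θ0 - r2) = (r1 - θ0) * (r2 - θ0) := by ring
    have h3 := hι n1
    have h4 := hι n2
    rw [h1, map_mul]
    field_simp
  have hFw : fr.ρ φ (b * c * (x - fr.ι θ0) * fr.ι δ) =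
      fr.ι (φ δ / δ) * (b * c * (x - fr.ι θ0) * fr.ι δ) := by
    have h1 := hι hδ0
    rw [map_mul (fr.ρ φ) (b * c * (x - fr.ι θ0)), map_mul (fr.ρ φ) (b * c), hFbc, map_sub,
      fr.semilin, fr.semilin, hxfix, hφ0, map_div₀]
    field_simp
  rcases sq_eq_sq_iff_eq_or_eq_neg.mp hwsq with h1 | h1
  · rw [h1, hFw]
  · rw [h1, map_neg, hFw]
    ring

end Pool.Agent.SCT
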