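import Pool.Agent.SCT.EvnT
import Pool.Agent.SCT.Pair
import Pool.Agent.SCT.Cyc

/-!
SCT module EVNF: Frobenius and the square roots of the factors of even degree.

Notation: `X = 1/(x - θ0)`, `Θ'` = the set of roots of `f` other than `θ0` (a `Fintype` of odd
cardinality, because `f` is separable of even degree and `algebraicClosure k Ω` is algebraically
closed), permuted by `φ` (`φ θ0 = θ0`).  For `θ ∈ Θ'` choose `m θ` with `m θ ^ 2 = (x - θ0)(x - θ)`
(`exists_sqrt`; `s.act τ (m θ) = - m θ` by `hneg`), a constant `κ θ` with `κ θ ^ 2 = -1/(θ - θ0)`, and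
`t θ = ι (κ θ) m θ / (x - ι θ0)`, so `t θ ^ 2 = X - ι (1/(θ - θ0))`.
`F = s.act φ`: `F (t θ) ^ 2 = X - ι (1/(φ θ - θ0)) = t (φ θ) ^ 2`, so `F (t θ) = ε θ t (φ θ)`,
`ε θ = ±1` (a map `Θ' → ℤˣ`), and `s.act (φ^k) (t θ) = (∏_{i<k} ε (φ^i θ)) t (φ^k θ)` by induction.
For `k > 0` and three different roots `a, b, c` in `Θ'` with `φ^k c = c` and `φ^k` fixing or exchanging
`a, b`, apply `pair` to `(φ^k, τ)` (`hl.pow k`, with `q^k`, as in the proof of
`four_roots_frame`), `r0 = c`, `r1 = a`, `r2 = b`, `w = m a m b / (x - θ0)`, `δ = 1/(κ a κ b)`: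
`s.act (φ^k) w = ι (φ^k δ / δ) w`, i.e. `s.act (φ^k) (t a t b) = t a t b`; the hypothesis `hu` of
`pair` is `exists_u` (three times, with permuted arguments).  As `{φ^k a, φ^k b} = {a, b}` this says
`(∏_{i<k} ε (φ^i a)) (∏_{i<k} ε (φ^i b)) = 1`.  So `cyc` applies to `Θ'` and the stable even set
`S ⊆ Θ'`: `∏_{θ ∈ S} ε θ = 1`, and `F` fixes `P := ∏_{θ ∈ S} t θ` (`φ` permutes `S`).  Finally
`P^2 = ∏_{θ ∈ S} -(x - θ)/((x - θ0)(θ - θ0)) = r^2 / ((x - θ0)^(card S) ι(δ)^2)` (even number of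
factors), so `r = ± P ι δ (x - ι θ0)^(card S / 2)` and `F r = ι (φ δ / δ) r`.
`s.act` is `(frameOf s).ρ`.
-/

set_option linter.dupNamespace false

namespace Pool.Agent.SCT

open Polynomial Pool.Agent.Helper36 Pool.Agent.Helper19.Sec

variable {k K Ω : Type*} [Field k] [Field K] [Field Ω] [Algebra k K] [Algebra K Ω] [Algebra k Ω]
  [IsScalarTower k K Ω] [CharZero k] [Algebra.IsAlgebraic K Ω] [IsAlgClosed Ω]

theorem even_ram_phi (s : SectionData k K Ω) {Γ₀ : Type*} [LinearOrderedCommGroupWithZero Γ₀]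
    {v : Valuation (algebraicClosure k Ω) Γ₀}
    {φ τ : algebraicClosure k Ω ≃ₐ[k] algebraicClosure k Ω} {q : ℕ}
    (hl : IsLoc v (φ : algebraicClosure k Ω →+* algebraicClosure k Ω)
      (τ : algebraicClosure k Ω →+* algebraicClosure k Ω) q)
    (f : k[X]) (hf : f.Separable) (heven : Even f.natDegree) (c : k)
    (hc : c ≠ 0) (x y : K) (hx : Transcendental k x)
    (hxy : algebraMap k K c * y ^ 2 = aeval x f)
    (hint : ∀ θ : algebraicClosure k Ω, aeval θ f = 0 → v θ ≤ 1)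
    (hsep : ∀ θ θ' : algebraicClosure k Ω, aeval θ f = 0 → aeval θ' f = 0 → θ ≠ θ' →
      v (θ - θ') = 1)
    (θ0 : algebraicClosure k Ω) (h0 : aeval θ0 f = 0) (hφ0 : φ θ0 = θ0)
    (hneg : ∀ θ : algebraicClosure k Ω, aeval θ f = 0 → θ ≠ θ0 → ∀ r : univCover k K Ω,
      r ^ 2 = (algebraMap K (univCover k K Ω) x - incl k K Ω θ0) *
        (algebraMap K (univCover k K Ω) x - incl k K Ω θ) → s.act τ r = -r)
    (S : Finset (algebraicClosure k Ω)) (hS : ∀ θ ∈ S, aeval θ f = 0) (hSφ : ∀ θ ∈ S, φ θ ∈ S)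
    (hSeven : Even S.card) (hθ0 : θ0 ∉ S) (r : univCover k K Ω)
    (hr : r ^ 2 = ∏ θ ∈ S, (algebraMap K (univCover k K Ω) x - incl k K Ω θ))
    (δ : algebraicClosure k Ω) (hδ : δ ^ 2 = ∏ θ ∈ S, (θ0 - θ)) :
    s.act φ r = incl k K Ω (φ δ / δ) * r := by
  classical
  let fr := frameOf s
  have hfrι : fr.ι = incl k K Ω := rfl
  have hfrρ : fr.ρ = s.act := rfl
  set xM : (univCover k K Ω) := algebraMap K (univCover k K Ω) x with hxM
  have hxr : xM ∉ Set.range fr.ι := by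
    rintro ⟨e, he⟩
    have h1 : (e : Ω) = algebraMap K Ω x := congrArg Subtype.val he
    have h2 : IsAlgebraic k (algebraMap K Ω x) := by
      rw [← h1]
      exact mem_algebraicClosure_iff.mp e.2
    exact hx ((isAlgebraic_algebraMap_iff (algebraMap K Ω).injective).mp h2)
  have hxfix : ∀ σ, fr.ρ σ xM = xM := fun σ => act_alg s σ x
  have hxne : ∀ e : (algebraicClosure k Ω), xM - fr.ι e ≠ 0 :=
    fun e h0 => hxr ⟨e, (sub_eq_zero.mp h0).symm⟩
  have hτroot : ∀ θ : (algebraicClosure k Ω), aeval θ f = 0 → τ θ = θ :=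
    fun θ h => tau_root hl f hint hsep θ h
  have hcz : CharZero K := charZero_of_injective_algebraMap (algebraMap k K).injective
  have hczM : CharZero (univCover k K Ω) :=
    charZero_of_injective_algebraMap (algebraMap K (univCover k K Ω)).injective
  have hf0 : f ≠ 0 := hf.ne_zero
  have hφiff : ∀ θ : (algebraicClosure k Ω), aeval (φ θ) f = 0 ↔ aeval θ f = 0 := by
    intro θ
    rw [aeval_algHom_apply, map_eq_zero_iff φ φ.injective]
  -- the roots
  set fE : (algebraicClosure k Ω)[X] := f.map (algebraMap k (algebraicClosure k Ω)) with hfE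
  have hfE0 : fE ≠ 0 := Polynomial.map_ne_zero hf0
  set Θ : Finset (algebraicClosure k Ω) := fE.roots.toFinset with hΘ
  have hmemΘ : ∀ θ : (algebraicClosure k Ω), θ ∈ Θ ↔ aeval θ f = 0 := by
    intro θ
    rw [hΘ, Multiset.mem_toFinset, mem_roots hfE0, IsRoot.def, hfE, eval_map_algebraMap]
  have hsplits : fE.Splits := IsAlgClosed.splits fE
  have hnodup : fE.roots.Nodup := nodup_roots (hf.map)
  have hcard : Θ.card = f.natDegree := by
    rw [hΘ, Multiset.toFinset_card_of_nodup hnodup, ← hsplits.natDegree_eq_card_roots, hfE,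
      natDegree_map]
  set Θ' : Finset (algebraicClosure k Ω) := Θ.erase θ0 with hΘ'
  have hmemΘ' : ∀ θ : (algebraicClosure k Ω), θ ∈ Θ' ↔ θ ≠ θ0 ∧ aeval θ f = 0 := by
    intro θ
    rw [hΘ', Finset.mem_erase, hmemΘ]
  have hφmem : ∀ θ : (algebraicClosure k Ω), φ θ ∈ Θ' ↔ θ ∈ Θ' := by
    intro θ
    rw [hmemΘ', hmemΘ', hφiff]
    refine and_congr_left fun _ => not_congr ?_
    constructor
    · intro h
      exact φ.injective (h.trans hφ0.symm)
    · rintro rfl
      exact hφ0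
  have hodd : Odd (Fintype.card Θ') := by
    rw [Fintype.card_coe, hΘ', Finset.card_erase_of_mem ((hmemΘ θ0).mpr h0), hcard]
    have hpos : 0 < f.natDegree := by
      rw [← hcard]
      exact Finset.card_pos.mpr ⟨θ0, (hmemΘ θ0).mpr h0⟩
    obtain ⟨m, hm⟩ := heven
    exact ⟨m - 1, by omega⟩
  let π : Equiv.Perm Θ' := Equiv.Perm.subtypePerm φ.toEquiv (fun θ => hφmem θ)
  have hπ : ∀ a : Θ', ((π a : Θ') : algebraicClosure k Ω) = φ a := fun a => rfl
  have hπk : ∀ (j : ℕ) (a : Θ'), (((π ^ j) a : Θ') : algebraicClosure k Ω) = (φ ^ j) a := by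
    intro j
    induction j with
    | zero => intro a; rfl
    | succ j ih =>
      intro a
      rw [pow_succ', Equiv.Perm.mul_apply, hπ, ih, pow_succ']
      rfl
  have hroot : ∀ a : Θ', aeval (a : algebraicClosure k Ω) f = 0 := fun a => ((hmemΘ' a).mp a.2).2
  have hne0 : ∀ a : Θ', (a : algebraicClosure k Ω) ≠ θ0 := fun a => ((hmemΘ' a).mp a.2).1
  have hsub0 : ∀ a : Θ', (a : algebraicClosure k Ω) - θ0 ≠ 0 := fun a => sub_ne_zero.mpr (hne0 a)
  -- square roots
  have hsqrt : ∀ a : Θ', ∃ r : (univCover k K Ω), r ^ 2 = (xM - fr.ι θ0) * (xM - fr.ι a) := by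
    intro a
    obtain ⟨r, -, hr, -⟩ := exists_sqrt f hf c hc x y hx hxy ⊥ (bot_unram (k := k)).1 bot_unram.2
      θ0 a h0 (hroot a)
    exact ⟨r, hr⟩
  choose m hm using hsqrt
  have hTm : ∀ a : Θ', fr.ρ τ (m a) = -m a := fun a => hneg a (hroot a) (hne0 a) (m a) (hm a)
  have hκex : ∀ a : Θ', ∃ κ : algebraicClosure k Ω, κ ^ 2 = -1 / ((a : algebraicClosure k Ω) - θ0) :=
    fun a => IsAlgClosed.exists_pow_nat_eq _ (n := 2) (by norm_num)
  choose κ hκ using hκex
  have hκ0 : ∀ a, κ a ≠ 0 := by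
    intro a h
    have h1 := hκ a
    rw [h, zero_pow (by norm_num)] at h1
    exact div_ne_zero (neg_ne_zero.mpr one_ne_zero) (hsub0 a) h1.symm
  have hm0 : ∀ a, m a ≠ 0 := by
    intro a h
    have h1 := hm a
    rw [h, zero_pow (by norm_num)] at h1
    exact mul_ne_zero (hxne _) (hxne _) h1.symm
  have hι : ∀ {e : algebraicClosure k Ω}, e ≠ 0 → fr.ι e ≠ 0 := fun h => by rwa [_root_.map_ne_zero]
  set t : Θ' → univCover k K Ω := fun a => fr.ι (κ a) * m a / (xM - fr.ι θ0) with ht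
  have hx0 := hxne θ0
  have ht0 : ∀ a, t a ≠ 0 := fun a => div_ne_zero (mul_ne_zero (hι (hκ0 a)) (hm0 a)) hx0
  have ht2 : ∀ a, t a ^ 2 = 1 / (xM - fr.ι θ0) - fr.ι (1 / ((a : algebraicClosure k Ω) - θ0)) := by
    intro a
    have h1 : fr.ι (a : algebraicClosure k Ω) - fr.ι θ0 ≠ 0 := by
      rw [← map_sub]; exact hι (hsub0 a)
    rw [ht]
    simp only
    rw [div_pow, mul_pow, ← map_pow, hκ, hm, map_div₀, map_neg, map_one, map_div₀, map_one, map_sub]
    field_simp
    ring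
  have hφx : fr.ρ φ (xM - fr.ι θ0) = xM - fr.ι θ0 := by
    rw [map_sub, fr.semilin, hxfix, hφ0]
  -- the signs
  have hεex : ∀ a : Θ', ∃ ε : ℤˣ, fr.ρ φ (t a) = (((ε : ℤˣ) : ℤ) : univCover k K Ω) * t (π a) := by
    intro a
    have h1 : (fr.ρ φ (t a)) ^ 2 = (t (π a)) ^ 2 := by
      rw [← map_pow, ht2, ht2, map_sub, map_div₀, map_one, hφx, fr.semilin, map_div₀, map_one,
        map_sub, hφ0]
      rfl
    rcases sq_eq_sq_iff_eq_or_eq_neg.mp h1 with h2 | h2
    · exact ⟨1, by rw [h2]; simp⟩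
    · exact ⟨-1, by rw [h2]; simp⟩
  choose ε hε using hεex
  have hεk : ∀ (j : ℕ) (a : Θ'), fr.ρ (φ ^ j) (t a) =
      (((∏ i ∈ Finset.range j, ε ((π ^ i) a) : ℤˣ) : ℤ) : univCover k K Ω) * t ((π ^ j) a) := by
    intro j
    induction j with
    | zero =>
      intro a
      rw [pow_zero, map_one, Finset.prod_range_zero, pow_zero]
      simp
    | succ j ih =>
      intro a
      have h1 : fr.ρ (φ ^ (j + 1)) (t a) = fr.ρ φ (fr.ρ (φ ^ j) (t a)) := by
        rw [pow_succ', map_mul]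
        rfl
      rw [h1, ih, map_mul, map_intCast, hε, Finset.prod_range_succ, pow_succ' π j,
        Equiv.Perm.mul_apply]
      push_cast
      ring
  -- the hypothesis of the sign lemma
  have hcyc : ∀ j : ℕ, 0 < j → ∀ a b c : Θ', a ≠ b → a ≠ c → b ≠ c → (π ^ j) c = c →
      (((π ^ j) a = a ∧ (π ^ j) b = b) ∨ ((π ^ j) a = b ∧ (π ^ j) b = a)) →
      (∏ i ∈ Finset.range j, ε ((π ^ i) a)) * (∏ i ∈ Finset.range j, ε ((π ^ i) b)) = 1 := by
    intro j hj a b c' hab hac hbc hc' hor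
    have hl' : IsLoc v ((φ ^ j : algebraicClosure k Ω ≃ₐ[k] algebraicClosure k Ω) :
        algebraicClosure k Ω →+* algebraicClosure k Ω)
        (τ : algebraicClosure k Ω →+* algebraicClosure k Ω) (q ^ j) := by
      have h5 := hl.pow j hj
      have h6 : ∀ i : ℕ, ((φ ^ i : algebraicClosure k Ω ≃ₐ[k] algebraicClosure k Ω) :
          algebraicClosure k Ω →+* algebraicClosure k Ω) =
          (φ : algebraicClosure k Ω →+* algebraicClosure k Ω) ^ i := by
        intro i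
        induction i with
        | zero => rfl
        | succ i ih =>
          rw [pow_succ, pow_succ, ← ih]
          rfl
      rw [h6]
      exact h5
    have hne : ∀ {a b : Θ'}, a ≠ b → (a : algebraicClosure k Ω) ≠ b :=
      fun h h' => h (Subtype.ext h')
    have hφj0 : (φ ^ j) θ0 = θ0 := by
      have : ∀ i : ℕ, (φ ^ i) θ0 = θ0 := by
        intro i
        induction i with
        | zero => rfl
        | succ i ih =>
          rw [pow_succ]
          show (φ ^ i) (φ θ0) = θ0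
          rw [hφ0, ih]
      exact this j
    have hvv : ∀ a b : Θ', a ≠ b → v ((a : algebraicClosure k Ω) - b) = 1 :=
      fun a b h => hsep _ _ (hroot a) (hroot b) (hne h)
    have hv0 : ∀ a : Θ', v ((a : algebraicClosure k Ω) - θ0) = 1 :=
      fun a => hsep _ _ (hroot a) h0 (hne0 a)
    set w : univCover k K Ω := m a * m b / (xM - fr.ι θ0) with hw
    have hw2 : w ^ 2 = (xM - fr.ι a) * (xM - fr.ι b) := by
      rw [hw, div_pow, mul_pow, hm, hm]
      field_simp
    set δ' : algebraicClosure k Ω := 1 / (κ a * κ b) with hδ'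
    have hδ'2 : δ' ^ 2 = (θ0 - a) * (θ0 - b) := by
      have e1 := hsub0 a
      have e2 := hsub0 b
      rw [hδ', div_pow, mul_pow, hκ, hκ]
      field_simp
      ring
    have hδ'0 : δ' ≠ 0 := one_div_ne_zero (mul_ne_zero (hκ0 a) (hκ0 b))
    have hpair := pair fr xM hxr hxfix hl' θ0 c' a b hφj0 (by rw [← hπk, hc'])
      (by
        rcases hor with ⟨h1, h2⟩ | ⟨h1, h2⟩
        · left; rw [← hπk, ← hπk, h1, h2]; exact ⟨rfl, rfl⟩
        · right; rw [← hπk, ← hπk, h1, h2]; exact ⟨rfl, rfl⟩)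
      (hτroot θ0 h0) (hτroot _ (hroot c')) (hτroot _ (hroot a)) (hτroot _ (hroot b))
      (hv0 c') (hv0 a) (hv0 b) (hvv c' a hac.symm) (hvv c' b hbc.symm) (hvv a b hab)
      (m c') (m a) (m b) (hm c') (hm a) (hm b) (hTm c') (hTm a) (hTm b)
      (by
        intro u1 u2 u3 hu1 hu2 hu3
        refine ⟨?_, ?_, ?_⟩
        · exact exists_u f hf c hc x y hx hxy θ0 c' a b h0 (hroot c') (hroot a) (hroot b)
            (hne0 c') (hne0 a) (hne0 b) (hne hac.symm) (hne hbc.symm) u1 u2 u3 hu1 hu2 hu3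
        · exact exists_u f hf c hc x y hx hxy θ0 a c' b h0 (hroot a) (hroot c') (hroot b)
            (hne0 a) (hne0 c') (hne0 b) (hne hac) (hne hab) u2 u1 u3 hu2 hu1 hu3
        · exact exists_u f hf c hc x y hx hxy θ0 b c' a h0 (hroot b) (hroot c') (hroot a)
            (hne0 b) (hne0 c') (hne0 a) (hne hbc) (hne hab.symm) u3 u1 u2 hu3 hu1 hu2)
      w hw2 δ' hδ'2
    have hφδ0 : (φ ^ j) δ' ≠ 0 := by
      rw [Ne, map_eq_zero_iff (φ ^ j) (φ ^ j).injective]
      exact hδ'0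
    have htt : t a * t b = fr.ι (1 / δ') * w / (xM - fr.ι θ0) := by
      rw [ht, hw, hδ']
      simp only [one_div_one_div, map_mul]
      field_simp
    have hφjx : fr.ρ (φ ^ j) (xM - fr.ι θ0) = xM - fr.ι θ0 := by
      rw [map_sub, fr.semilin, hxfix, hφj0]
    have hF : fr.ρ (φ ^ j) (t a * t b) = t a * t b := by
      have hkey : (φ ^ j) (1 / δ') * ((φ ^ j) δ' / δ') = 1 / δ' := by
        rw [map_div₀, map_one]
        clear_value δ'
        field_simp
      rw [htt, map_div₀, map_mul, hφjx, fr.semilin, hpair, ← mul_assoc, ← map_mul, hkey]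
    rw [map_mul, hεk, hεk] at hF
    have hprod : (((∏ i ∈ Finset.range j, ε ((π ^ i) a)) * (∏ i ∈ Finset.range j, ε ((π ^ i) b)) :
        ℤˣ) : ℤ) = 1 := by
      have h1 : ((((∏ i ∈ Finset.range j, ε ((π ^ i) a)) *
          (∏ i ∈ Finset.range j, ε ((π ^ i) b)) : ℤˣ) : ℤ) : univCover k K Ω) * (t a * t b) =
          1 * (t a * t b) := by
        rw [Units.val_mul, Int.cast_mul, one_mul]
        rcases hor with ⟨h1, h2⟩ | ⟨h1, h2⟩
        · rw [h1, h2] at hF
          linear_combination hF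
        · rw [h1, h2] at hF
          linear_combination hF
      have h2 := mul_right_cancel₀ (mul_ne_zero (ht0 a) (ht0 b)) h1
      exact_mod_cast h2
    exact Units.ext hprod
  -- apply the sign lemma
  have hSΘ : ∀ θ ∈ S, θ ∈ Θ' := by
    intro θ hθ
    rw [hmemΘ']
    exact ⟨fun h => hθ0 (h ▸ hθ), hS θ hθ⟩
  set S' : Finset Θ' := S.subtype (fun θ => θ ∈ Θ') with hS'
  have hmemS' : ∀ a : Θ', a ∈ S' ↔ (a : algebraicClosure k Ω) ∈ S := by
    intro a
    rw [hS', Finset.mem_subtype]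
  have hcardS' : S'.card = S.card := by
    rw [hS', Finset.card_subtype, Finset.filter_true_of_mem hSΘ]
  have hstab : ∀ a ∈ S', π a ∈ S' := by
    intro a ha
    rw [hmemS'] at ha ⊢
    rw [hπ]
    exact hSφ _ ha
  have hε1 := cyc π hodd ε hcyc S' hstab (by rw [hcardS']; exact hSeven)
  set Pr : univCover k K Ω := ∏ a ∈ S', t a with hPr
  have hPr0 : Pr ≠ 0 := Finset.prod_ne_zero_iff.mpr fun a _ => ht0 a
  have hFPr : fr.ρ φ Pr = Pr := by
    have h1 : fr.ρ φ Pr = ∏ a ∈ S', ((((ε a : ℤˣ) : ℤ) : univCover k K Ω) * t (π a)) := by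
      rw [hPr, map_prod]
      exact Finset.prod_congr rfl fun a _ => hε a
    have h2 : ∏ a ∈ S', (((ε a : ℤˣ) : ℤ) : univCover k K Ω) = 1 := by
      have h3 := congrArg (fun z : ℤˣ => (((z : ℤˣ) : ℤ) : univCover k K Ω)) hε1
      simpa using h3
    have h4 : ∏ a ∈ S', t (π a) = Pr := by
      have h5 : S'.map π.toEmbedding = S' := by
        refine Finset.eq_of_subset_of_card_le ?_ (by rw [Finset.card_map])
        intro b hb
        obtain ⟨a, ha, rfl⟩ := Finset.mem_map.mp hb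
        exact hstab a ha
      rw [hPr]
      conv_rhs => rw [← h5]
      rw [Finset.prod_map]
      rfl
    rw [h1, Finset.prod_mul_distrib, h2, h4, one_mul]
  obtain ⟨n, hn⟩ := hSeven
  have hδ0 : δ ≠ 0 := by
    rintro rfl
    rw [zero_pow (by norm_num)] at hδ
    have : ∏ θ ∈ S, (θ0 - θ) ≠ 0 := by
      refine Finset.prod_ne_zero_iff.mpr fun θ hθ => ?_
      refine sub_ne_zero.mpr ?_
      rintro rfl
      exact hθ0 hθ
    exact this hδ.symm
  have hPr2 : Pr ^ 2 * (fr.ι δ * (xM - fr.ι θ0) ^ n) ^ 2 = r ^ 2 := by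
    have h1 : Pr ^ 2 = ∏ θ ∈ S, ((xM - fr.ι θ) / ((xM - fr.ι θ0) * fr.ι (θ0 - θ))) := by
      rw [hPr, ← Finset.prod_pow, ← Finset.prod_subtype_of_mem _ hSΘ]
      refine Finset.prod_congr rfl fun a _ => ?_
      have e1 : fr.ι (a : algebraicClosure k Ω) - fr.ι θ0 ≠ 0 := by
        rw [← map_sub]; exact hι (hsub0 a)
      have e2 : fr.ι θ0 - fr.ι (a : algebraicClosure k Ω) ≠ 0 := by
        rw [← neg_sub]; exact neg_ne_zero.mpr e1
      rw [ht2, map_div₀, map_one, map_sub, map_sub]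
      field_simp
      ring
    have hr' : r ^ 2 = ∏ θ ∈ S, (xM - fr.ι θ) := hr
    rw [h1, Finset.prod_div_distrib, Finset.prod_mul_distrib, Finset.prod_const, hn, ← map_prod,
      ← hδ, hr', map_pow]
    have e1 := hι hδ0
    field_simp
    ring
  have hr2 : r ^ 2 = (Pr * (fr.ι δ * (xM - fr.ι θ0) ^ n)) ^ 2 := by rw [mul_pow, hPr2]
  have hfin : fr.ρ φ (Pr * (fr.ι δ * (xM - fr.ι θ0) ^ n)) =
      fr.ι (φ δ / δ) * (Pr * (fr.ι δ * (xM - fr.ι θ0) ^ n)) := by
    rw [map_mul, map_mul, map_pow, hφx, hFPr, fr.semilin, map_div₀]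
    have e1 := hι hδ0
    field_simp
  show fr.ρ φ r = fr.ι (φ δ / δ) * r
  rcases sq_eq_sq_iff_eq_or_eq_neg.mp hr2 with h | h
  · rw [h, hfin]
  · rw [h, map_neg, hfin, mul_neg]

end Pool.Agent.SCT
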