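import Pool.Agent.SCT.Uex

/-!
SCT module GLOB: global descent of the square roots of the factors.

* `mem_rts`, `card_rts` (`E` algebraically closed of characteristic zero, `G.map` separable over
  `ℚ`), `prod_rts`: `G = lead ∏ (X - θ)` over `E`.
* `exists_b`: for every `σ`, `S` is `σ`-stable (`hS`), `s.act σ (x - ι θ) = x - ι (σ θ)`, so
  `s.act σ r ^ 2 = r ^ 2` and `s.act σ r = ± r`.  `Pool.Agent.Helper36.descent` with the bottom field
  (as in `descend_root` in `Helper19/Sec/Four.lean`) gives `b0 ≠ 0` with `ι b0 * r` fixed by all `σ`.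
  Then `b0^2` is fixed by all `σ` (`r^2` is fixed, `r ≠ 0` as `x` is transcendental), so `b0^2` is a
  nonzero rational number (`InfiniteGalois.mem_range_algebraMap_iff_fixed`), `= e * t^2` with a
  squarefree integer `e` and a nonzero rational `t`; take `b = b0 / t`.
-/

set_option linter.dupNamespace false

namespace Pool.Agent.SCT

open Polynomial Pool.Agent.Helper36 Pool.Agent.Helper19.Sec

open Classical in
/-- the set of the roots of an integral polynomial in a field -/
noncomputable def rts (E : Type*) [Field E] (G : ℤ[X]) : Finset E :=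
  (G.map (algebraMap ℤ E)).roots.toFinset

theorem mem_rts {E : Type*} [Field E] [CharZero E] {G : ℤ[X]} (hG : G ≠ 0) (θ : E) :
    θ ∈ rts E G ↔ aeval θ G = 0 := by
  classical
  have hinj : Function.Injective (algebraMap ℤ E) := by
    intro a b h
    simpa using h
  have h0 : G.map (algebraMap ℤ E) ≠ 0 := (Polynomial.map_ne_zero_iff hinj).mpr hG
  unfold rts
  rw [Multiset.mem_toFinset, mem_roots h0, IsRoot.def, eval_map_algebraMap]

private theorem sep_map {E : Type*} [Field E] [CharZero E] {G : ℤ[X]}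
    (hG : (G.map (Int.castRingHom ℚ)).Separable) : (G.map (algebraMap ℤ E)).Separable := by
  have h1 : G.map (algebraMap ℤ E) = (G.map (Int.castRingHom ℚ)).map (algebraMap ℚ E) := by
    rw [Polynomial.map_map]
    congr 1
    exact RingHom.ext_int _ _
  rw [h1]
  exact hG.map

theorem card_rts {E : Type*} [Field E] [CharZero E] [IsAlgClosed E] {G : ℤ[X]}
    (hG : (G.map (Int.castRingHom ℚ)).Separable) : (rts E G).card = G.natDegree := by
  classical
  have hinj : Function.Injective (algebraMap ℤ E) := by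
    intro a b h
    simpa using h
  have hnodup : (G.map (algebraMap ℤ E)).roots.Nodup := nodup_roots (sep_map hG)
  have hsplits : (G.map (algebraMap ℤ E)).Splits := IsAlgClosed.splits _
  unfold rts
  rw [Multiset.toFinset_card_of_nodup hnodup, ← hsplits.natDegree_eq_card_roots,
    natDegree_map_eq_of_injective hinj]

theorem prod_rts {E : Type*} [Field E] [CharZero E] [IsAlgClosed E] {G : ℤ[X]}
    (hG : (G.map (Int.castRingHom ℚ)).Separable) (z : E) :
    aeval z G = (G.leadingCoeff : E) * ∏ θ ∈ rts E G, (z - θ) := by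
  classical
  have hinj : Function.Injective (algebraMap ℤ E) := by
    intro a b h
    simpa using h
  have hnodup : (G.map (algebraMap ℤ E)).roots.Nodup := nodup_roots (sep_map hG)
  have hsplits : (G.map (algebraMap ℤ E)).Splits := IsAlgClosed.splits _
  have h1 := hsplits.eq_prod_roots
  rw [← eval_map_algebraMap]
  conv_lhs => rw [h1]
  rw [eval_mul, eval_C, eval_multiset_prod, Multiset.map_map, leadingCoeff_map_of_injective hinj]
  congr 1
  rw [Finset.prod_eq_multiset_prod]
  unfold rts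
  rw [Multiset.toFinset_val, hnodup.dedup]
  congr 1
  apply Multiset.map_congr rfl
  intro w _
  simp

private theorem exists_b0 {k K Ω : Type*} [Field k] [Field K] [Field Ω] [Algebra k K]
    [Algebra K Ω] [Algebra k Ω] [IsScalarTower k K Ω] [CharZero k] [Algebra.IsAlgebraic K Ω]
    [IsAlgClosed Ω] (s : SectionData k K Ω) (x : K) (hx : Transcendental k x)
    (S : Finset (algebraicClosure k Ω)) (hS0 : ∀ σ : algebraicClosure k Ω ≃+* algebraicClosure k Ω,
      ∀ θ ∈ S, σ θ ∈ S) (r : univCover k K Ω)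
    (hr : r ^ 2 = ∏ θ ∈ S, (algebraMap K (univCover k K Ω) x - incl k K Ω θ)) :
    ∃ b : algebraicClosure k Ω, b ≠ 0 ∧ (∃ q : k, algebraMap k (algebraicClosure k Ω) q = b ^ 2) ∧
      ∀ σ, s.act σ (incl k K Ω b * r) = incl k K Ω b * r := by
  classical
  have hS : ∀ σ : algebraicClosure k Ω ≃ₐ[k] algebraicClosure k Ω, ∀ θ ∈ S, σ θ ∈ S :=
    fun σ θ hθ => hS0 σ.toRingEquiv θ hθ
  set xM : univCover k K Ω := algebraMap K (univCover k K Ω) x with hxM
  have hxne : ∀ e : algebraicClosure k Ω, xM - incl k K Ω e ≠ 0 := by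
    intro e h0
    have h1 : (e : Ω) = algebraMap K Ω x := congrArg Subtype.val (sub_eq_zero.mp h0).symm
    have h2 : IsAlgebraic k (algebraMap K Ω x) := by
      rw [← h1]
      exact mem_algebraicClosure_iff.mp e.2
    exact hx ((isAlgebraic_algebraMap_iff (algebraMap K Ω).injective).mp h2)
  have hr2 : r ^ 2 ≠ 0 := by
    rw [hr]
    exact Finset.prod_ne_zero_iff.mpr fun θ _ => hxne θ
  have hr0 : r ≠ 0 := by
    rintro rfl
    exact hr2 (by simp)
  have hsq : ∀ σ, s.act σ (r ^ 2) = r ^ 2 := by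
    intro σ
    rw [hr, map_prod]
    refine Finset.prod_bij (fun θ _ => σ θ) (fun θ hθ => hS σ θ hθ)
      (fun a _ b _ h => σ.injective h) ?_ ?_
    · intro θ hθ
      exact ⟨σ⁻¹ θ, hS σ⁻¹ θ hθ, σ.apply_symm_apply θ⟩
    · intro θ _
      rw [map_sub, act_incl, act_alg]
  obtain ⟨F, hF, hFfix⟩ := act_cont s r
  obtain ⟨b0, hb00, hb0⟩ := Pool.Agent.Helper36.descent (ρ := s.act) (act_incl s)
    (⊥ : IntermediateField k (algebraicClosure k Ω)) F bot_le hr0 hFfix (by
      intro σ _
      have h1 : (s.act σ r) ^ 2 = r ^ 2 := by rw [← map_pow, hsq]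
      rcases sq_eq_sq_iff_eq_or_eq_neg.mp h1 with h2 | h2
      · exact ⟨1, by rw [map_one, one_mul, h2]⟩
      · exact ⟨-1, by rw [map_neg, map_one, h2]; ring⟩)
  have hfix0 : ∀ σ, s.act σ (incl k K Ω b0 * r) = incl k K Ω b0 * r := fun σ =>
    hb0 σ (by rw [IntermediateField.fixingSubgroup_bot]; exact Subgroup.mem_top _)
  have hb2 : ∀ σ : algebraicClosure k Ω ≃ₐ[k] algebraicClosure k Ω, σ (b0 ^ 2) = b0 ^ 2 := by
    intro σ
    have h1 : s.act σ ((incl k K Ω b0 * r) ^ 2) = (incl k K Ω b0 * r) ^ 2 := by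
      rw [map_pow, hfix0]
    rw [mul_pow, map_mul, hsq, ← map_pow, act_incl] at h1
    exact (incl k K Ω).injective (mul_right_cancel₀ hr2 h1)
  exact ⟨b0, hb00, (InfiniteGalois.mem_range_algebraMap_iff_fixed (b0 ^ 2)).mpr hb2, hfix0⟩

variable {K Ω : Type*} [Field K] [Field Ω] [Algebra ℚ K] [Algebra K Ω] [Algebra ℚ Ω]
  [IsScalarTower ℚ K Ω] [Algebra.IsAlgebraic K Ω] [IsAlgClosed Ω]

theorem exists_b (s : SectionData ℚ K Ω) (x : K) (hx : Transcendental ℚ x)
    (S : Finset (algebraicClosure ℚ Ω)) (hS : ∀ σ : algebraicClosure ℚ Ω ≃ₐ[ℚ] algebraicClosure ℚ Ω,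
      ∀ θ ∈ S, σ θ ∈ S) (r : univCover ℚ K Ω)
    (hr : r ^ 2 = ∏ θ ∈ S, (algebraMap K (univCover ℚ K Ω) x - incl ℚ K Ω θ)) :
    ∃ (b : algebraicClosure ℚ Ω) (e : ℤ), Squarefree e ∧ b ^ 2 = (e : algebraicClosure ℚ Ω) ∧
      ∀ σ, s.act σ (incl ℚ K Ω b * r) = incl ℚ K Ω b * r := by
  classical
  obtain ⟨b0, hb00, ⟨q, hq⟩, hfix0⟩ := exists_b0 s x hx S (by
    intro σ θ hθ
    exact hS (AlgEquiv.ofRingEquiv (f := σ) (fun q => by simp)) θ hθ) r hr
  rw [eq_ratCast] at hq
  have hq0 : q ≠ 0 := by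
    rintro rfl
    rw [Rat.cast_zero] at hq
    exact pow_ne_zero 2 hb00 hq.symm
  have hnum : q.num ≠ 0 := Rat.num_ne_zero.mpr hq0
  have hden : q.den ≠ 0 := q.den_nz
  have hN0 : 0 < (q.num * q.den).natAbs := by
    apply Int.natAbs_pos.mpr
    exact mul_ne_zero hnum (by exact_mod_cast hden)
  obtain ⟨a, t, ha, ht, hat, hasq⟩ := Nat.sq_mul_squarefree_of_pos hN0
  have hsign : q.num * q.den = (q.num * q.den).sign * (q.num * q.den).natAbs :=
    (Int.sign_mul_natAbs _).symm
  refine ⟨b0 * ((q.den : algebraicClosure ℚ Ω) / (t : algebraicClosure ℚ Ω)),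
    (q.num * q.den).sign * a, ?_, ?_, ?_⟩
  · rw [← Int.squarefree_natAbs, Int.natAbs_mul, Int.natAbs_sign_of_ne_zero
      (mul_ne_zero hnum (by exact_mod_cast hden)), one_mul, Int.natAbs_natCast]
    exact hasq
  · have ht0 : (t : algebraicClosure ℚ Ω) ≠ 0 := by exact_mod_cast ht.ne'
    have hd0 : (q.den : algebraicClosure ℚ Ω) ≠ 0 := by exact_mod_cast hden
    have h1 : (q.num : algebraicClosure ℚ Ω) * q.den =
        ((q.num * q.den).sign : ℤ) * ((t : algebraicClosure ℚ Ω) ^ 2 * a) := by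
      have h2 : (((q.num * q.den : ℤ)) : algebraicClosure ℚ Ω) =
          ((((q.num * q.den).sign * ((t ^ 2 * a : ℕ) : ℤ)) : ℤ) : algebraicClosure ℚ Ω) := by
        rw [hat]
        exact congrArg _ hsign
      push_cast at h2
      exact h2
    have h3 : b0 ^ 2 = (q.num : algebraicClosure ℚ Ω) / q.den := by
      rw [← hq]
      exact Rat.cast_def q
    rw [mul_pow, h3, div_pow]
    push_cast
    field_simp
    linear_combination h1
  · intro σ
    have h1 : incl ℚ K Ω (b0 * ((q.den : algebraicClosure ℚ Ω) / (t : algebraicClosure ℚ Ω))) * r =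
        ((q.den : univCover ℚ K Ω) / (t : univCover ℚ K Ω)) * (incl ℚ K Ω b0 * r) := by
      rw [map_mul, map_div₀, map_natCast, map_natCast]
      ring
    rw [h1, map_mul, map_div₀, map_natCast, map_natCast, hfix0]

end Pool.Agent.SCT
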