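import Pool.Agent.SCT.QLoc

/-!
SCT module QROOT: roots of integral polynomials at a good prime.

* `root_int`: `θ` is a root of `F`, whose leading coefficient is a unit at `V`
  (`V.valuation z = 1` for `q ∤ z`); a polynomial relation with unit leading coefficient forces
  `V.valuation θ ≤ 1` (`Rpm.val_le_one_of_root`, or as in `Helper19/Sec/Local.lean`).
* `root_sep`: separability modulo `q`: there are `a b : ℤ[X]` and an integer `m`, `q ∤ m`, with
  `a F + b F' = m + q (...)`; simplest: as in `Local.lean` (`hsepv`): if `v (θ - θ') < 1`, then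
  `F = (X - θ) g` over the valuation ring, `g(θ') = 0`, and the residue of `θ` is a double root of
  `F` modulo the maximal ideal, contradicting the separability of
  `(F.map (Int.castRingHom (ZMod q)))` mapped to the residue field.
* `root_mod`: `F(a) ≡ F(θ) = 0` modulo the maximal ideal of `V` (evaluate `F` at `a` and `θ`:
  `a - θ ∣ F(a) - F(θ)` with quotient of value `≤ 1`), and `V.valuation (F(a)) < 1 ↔ q ∣ F(a)`.
-/

set_option linter.dupNamespace false

namespace Pool.Agent.SCT

open Polynomial Pool.Agent.Helper19.Sec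

variable {E : Type*} [Field E] [Algebra ℚ E] [IsAlgClosure ℚ E] {q : ℕ}
  {V : ValuationSubring E} {φ τ : E ≃ₐ[ℚ] E}

private theorem val_lead (h : LocAt q V φ τ) {z : ℤ} (hl : ¬ (q : ℤ) ∣ z) :
    V.valuation (z : E) = 1 :=
  le_antisymm (h.le_one _) (not_lt.mp (mt (h.lt_iff _).mp hl))

private theorem aeval_V (F : ℤ[X]) (z : V) :
    (((F.map (Int.castRingHom V)).eval z : V) : E) = aeval (z : E) F := by
  have h1 : algebraMap V E ((F.map (Int.castRingHom V)).eval z) = aeval (z : E) F := by
    rw [eval_map, hom_eval₂, aeval_def]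
    have : (algebraMap V E).comp (Int.castRingHom V) = algebraMap ℤ E := RingHom.ext_int _ _
    rw [this]
    rfl
  exact h1

theorem root_int (h : LocAt q V φ τ) (F : ℤ[X]) (hl : ¬ (q : ℤ) ∣ F.leadingCoeff) (θ : E)
    (hθ : aeval θ F = 0) : V.valuation θ ≤ 1 := by
  have hu : IsUnit ((F.leadingCoeff : ℤ) : V) := by
    refine (V.valuation_eq_one_iff _).mpr ?_
    push_cast
    exact val_lead h hl
  obtain ⟨u, hu⟩ := hu
  have h4 : IsIntegral V θ := by
    refine ⟨C ((u⁻¹ : Vˣ) : V) * F.map (Int.castRingHom V), ?_, ?_⟩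
    · rw [Monic, leadingCoeff_mul, leadingCoeff_C, leadingCoeff_map_of_leadingCoeff_ne_zero]
      · have : (Int.castRingHom V) F.leadingCoeff = (u : V) := by rw [hu]; rfl
        rw [this]
        simp
      · have : (Int.castRingHom V) F.leadingCoeff = (u : V) := by rw [hu]; rfl
        rw [this]
        exact u.ne_zero
    · rw [eval₂_mul, eval₂_map]
      have : (algebraMap V E).comp (Int.castRingHom V) = algebraMap ℤ E := RingHom.ext_int _ _
      rw [this]
      have h2 : eval₂ (algebraMap ℤ E) θ F = 0 := hθ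
      rw [h2, mul_zero]
  obtain ⟨z, hz⟩ := IsIntegrallyClosed.isIntegral_iff.mp h4
  rw [← hz]
  exact (V.valuation_le_one_iff _).mpr z.2

theorem root_sep (hq : q.Prime) (h : LocAt q V φ τ) (F : ℤ[X]) (hl : ¬ (q : ℤ) ∣ F.leadingCoeff)
    (hs : (F.map (Int.castRingHom (ZMod q))).Separable) (θ θ' : E)
    (hθ : aeval θ F = 0) (hθ' : aeval θ' F = 0) (hne : θ ≠ θ') : V.valuation (θ - θ') = 1 := by
  have m1 : θ ∈ V := (V.valuation_le_one_iff _).mp (root_int h F hl θ hθ)
  have m2 : θ' ∈ V := (V.valuation_le_one_iff _).mp (root_int h F hl θ' hθ')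
  obtain ⟨t, ht⟩ : ∃ t : V, (t : E) = θ := ⟨⟨θ, m1⟩, rfl⟩
  obtain ⟨t', ht'⟩ : ∃ t : V, (t : E) = θ' := ⟨⟨θ', m2⟩, rfl⟩
  have htt : t - t' ≠ 0 := by
    intro h0
    apply hne
    rw [← ht, ← ht', sub_eq_zero.mp h0]
  have hle : V.valuation (θ - θ') ≤ 1 := (V.valuation_le_one_iff _).mpr (V.sub_mem m1 m2)
  by_contra hv
  have hlt : V.valuation (θ - θ') < 1 := lt_of_le_of_ne hle hv
  set FV : V[X] := F.map (Int.castRingHom V) with hFV
  have hr : FV.eval t = 0 := by
    apply Subtype.val_injective
    rw [hFV, aeval_V, ht, hθ]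
    rfl
  have hr' : FV.eval t' = 0 := by
    apply Subtype.val_injective
    rw [hFV, aeval_V, ht', hθ']
    rfl
  obtain ⟨g, hg⟩ := dvd_iff_isRoot.mpr hr
  have hg' : g.eval t' = 0 := by
    have h1 := hr'
    rw [hg, eval_mul, eval_sub, eval_X, eval_C] at h1
    rcases mul_eq_zero.mp h1 with h2 | h2
    · exact absurd (by rw [← neg_sub, h2, neg_zero]) htt
    · exact h2
  -- the residue field
  set κ := IsLocalRing.ResidueField V with hκ
  have hres0 : IsLocalRing.residue V (t - t') = 0 := by
    rw [IsLocalRing.residue_eq_zero_iff, IsLocalRing.mem_maximalIdeal]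
    intro hu
    have h1 := (V.valuation_eq_one_iff _).mp hu
    apply hv
    rw [← ht, ← ht']
    exact h1
  have hq0 : ((q : ℕ) : κ) = 0 := by
    have h1 : IsLocalRing.residue V ((q : ℕ) : V) = 0 := by
      rw [IsLocalRing.residue_eq_zero_iff, IsLocalRing.mem_maximalIdeal]
      intro hu
      have h1 := (V.valuation_eq_one_iff _).mp hu
      have h2 := (h.lt_iff q).mpr dvd_rfl
      have h3 : V.valuation (((q : ℤ) : E)) = 1 := by
        rw [← h1]
        congr 1
        push_cast
        rfl
      rw [h3] at h2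
      exact lt_irrefl _ h2
    rw [← h1, map_natCast]
  have hchar : CharP κ q := by
    obtain ⟨p, hp⟩ := CharP.exists κ
    have h1 : p ∣ q := (CharP.cast_eq_zero_iff κ p q).mp hq0
    rcases (Nat.dvd_prime hq).mp h1 with h2 | h2
    · subst h2
      exact absurd (CharP.cast_eq_zero κ 1) (by rw [Nat.cast_one]; exact one_ne_zero)
    · subst h2; exact hp
  have hsep : (FV.map (IsLocalRing.residue V)).Separable := by
    have h1 : FV.map (IsLocalRing.residue V) =
        (F.map (Int.castRingHom (ZMod q))).map (ZMod.castHom (dvd_refl q) κ) := by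
      rw [hFV, Polynomial.map_map, Polynomial.map_map]
      congr 1
      exact RingHom.ext_int _ _
    rw [h1]
    exact hs.map
  have hroot : (FV.map (IsLocalRing.residue V)).eval (IsLocalRing.residue V t') = 0 := by
    rw [eval_map, eval₂_at_apply, hr', map_zero]
  have h4 := hsep.eval₂_derivative_ne_zero (RingHom.id _) (x := IsLocalRing.residue V t')
    (by rw [eval₂_id]; exact hroot)
  rw [eval₂_id] at h4
  apply h4
  rw [derivative_map, eval_map, eval₂_at_apply, hg, derivative_mul, derivative_sub, derivative_X,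
    derivative_C, sub_zero, one_mul, eval_add, hg', zero_add, eval_mul, eval_sub, eval_X, eval_C,
    map_mul, ← neg_sub, map_neg, hres0, neg_zero, zero_mul]

theorem aeval_congr (h : LocAt q V φ τ) (G : ℤ[X]) (θ : E) (a : ℤ)
    (ha : V.valuation (θ - a) < 1) : V.valuation (aeval θ G - ((G.eval a : ℤ) : E)) < 1 := by
  have m1 : θ ∈ V := by
    have h1 : θ = (θ - a) + a := by ring
    rw [h1]
    exact V.add_mem _ _ ((V.valuation_le_one_iff _).mp ha.le)
      ((V.valuation_le_one_iff _).mp (h.le_one a))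
  obtain ⟨t, ht⟩ : ∃ t : V, (t : E) = θ := ⟨⟨θ, m1⟩, rfl⟩
  obtain ⟨w, hw⟩ := (G.map (Int.castRingHom V)).sub_dvd_eval_sub t (a : V)
  have h2 := congrArg (fun z : V => (z : E)) hw
  have h3 : (((G.map (Int.castRingHom V)).eval ((a : ℤ) : V) : V) : E) = ((G.eval a : ℤ) : E) := by
    have h5 : (G.map (Int.castRingHom V)).eval ((a : ℤ) : V) = ((G.eval a : ℤ) : V) := by
      have := eval_intCast_map (Int.castRingHom V) G a
      simpa using this
    rw [h5]
    push_cast
    rfl
  have h4 : ((((G.map (Int.castRingHom V)).eval t - (G.map (Int.castRingHom V)).eval ((a : ℤ) : V) :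
      V)) : E) = aeval θ G - ((G.eval a : ℤ) : E) := by
    rw [← h3, ← ht, ← aeval_V G t]
    rfl
  rw [← h4, h2]
  have h6 : (((t - (a : V)) * w : V) : E) = (θ - a) * (w : E) := by
    rw [← ht]
    push_cast
    rfl
  rw [h6, map_mul]
  calc V.valuation (θ - a) * V.valuation (w : E) ≤ V.valuation (θ - a) * 1 :=
        mul_le_mul_right ((V.valuation_le_one_iff _).mpr w.2) _
    _ < 1 := by rw [mul_one]; exact ha

theorem root_mod (h : LocAt q V φ τ) (F : ℤ[X]) (θ : E) (hθ : aeval θ F = 0) (a : ℤ)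
    (ha : V.valuation (θ - a) < 1) :
    (F.map (Int.castRingHom (ZMod q))).eval ((a : ℤ) : ZMod q) = 0 := by
  have h1 := aeval_congr h F θ a ha
  rw [hθ, zero_sub, Valuation.map_neg] at h1
  have h2 := (h.lt_iff _).mp h1
  have h3 := eval_intCast_map (Int.castRingHom (ZMod q)) F a
  rw [h3]
  exact (ZMod.intCast_zmod_eq_zero_iff_dvd _ _).mpr h2

end Pool.Agent.SCT
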