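import Pool.Agent.SCT.Defs
import Pool.Agent.SCT.Glob
import Pool.Agent.SCT.EvnF
import Pool.Agent.SCT.QRoot

/-!
SCT module ARL: the arithmetic consequences of a section at a good prime `q`.

Let `P = ∏ j, F j`, `f = P.map (ℤ → ℚ)`, `E = algebraicClosure ℚ Ω`, `LocAt q V φ τ` from
`exists_local_int`.  The roots of `f` in `E` are the roots of `P`; `root_int`, `root_sep` give
`hint`, `hsep` of `classes`, `even_ram_tau`, `even_ram_phi`; `tau_root`.
For `w : E`, `w^2 = d / lead P`: `(lead * w)^2 = d * lead`; so `τ w = w` if `q ∤ d`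
(`tau_sqrt_unit`) and `τ w = - w` if `q ∣ d` (`tau_sqrt_ram`, `d` is squarefree).
(1) `q ∤ d`: `classes` (second part) and `even_unr`: `s.act τ (r j) = r j`, so with `hfix` and
`act_incl`, `τ (b j) = b j`; if `q ∣ e j` then (squarefree) `tau_sqrt_ram` gives `τ (b j) = - b j`, so
`b j = 0`, contradiction (`e j ≠ 0`).
(2) `q ∣ d`: `classes` (first part) gives `θ0`; let `i` be an index with `θ0 ∈ rts (F i)` (`P(θ0) = 0`),
then `θ0 ∉ rts (F j)` for `j ≠ i` (`P` is separable).  `even_ram_tau`: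
`s.act τ (r i) = - r i`, so `τ (b i) = - b i` and `q ∣ e i` (`tau_sqrt_unit`); for `j ≠ i`,
`s.act τ (r j) = r j` and `q ∤ e j` as in (1).  Let `δ : E` with `δ^2 = ∏_{θ ∈ rts (F j)} (θ0 - θ)`;
`even_ram_phi` and `hfix j φ` give `φ (b j * δ) = b j * δ`.  Put `z = lead(F j) * b j * δ`; then
`z^2 = lead(F j) * e j * F j (θ0)` (`prod_rts`), `φ z = z`, `V z ≤ 1`.  `int_rep` for `θ0` gives an
integer `a`, `V(θ0 - a) < 1`, and `root_mod`: `F i (a) = 0` modulo `q`.  By `aeval_congr`,
`V(z^2 - g) < 1` for `g = lead(F j) * e j * F j (a)`, so `IsSquare (g : ZMod q)` (`isSquare_of`).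
`F j (a) ≠ 0` modulo `q` for `j ≠ i` (otherwise `a` is a double root of `P` modulo `q`), so
`g ≠ 0` modulo `q`, and `jacobiSym (e j) q = legendreSym q (e j)` is `1` iff
`lead(F j) F j(a)` is a square modulo `q`, i.e. equals `y j` for the element `y` of `patSet F i q`
attached to `t = a` (`y i = 1`).
-/

set_option linter.dupNamespace false

namespace Pool.Agent.SCT

open Polynomial Pool.Agent.Helper36 Pool.Agent.Helper19.Sec

attribute [-instance] DivisionRing.toRatAlgebra

variable {K Ω : Type*} [Field K] [Field Ω] [Algebra ℚ K] [Algebra K Ω] [Algebra ℚ Ω]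
  [IsScalarTower ℚ K Ω] [Algebra.IsAlgebraic K Ω] [IsAlgClosed Ω]
  {ι : Type} [Fintype ι] [DecidableEq ι]

theorem coprime_of_sep {R : Type*} [Field R] (g : ℤ →+* R) (F : ι → ℤ[X])
    (hs : ((∏ j, F j).map g).Separable) {i j : ι} (hij : j ≠ i) :
    IsCoprime ((F i).map g) ((F j).map g) := by
  rw [← Finset.mul_prod_erase Finset.univ F (Finset.mem_univ i), Polynomial.map_mul] at hs
  have h1 := hs.isCoprime
  refine IsCoprime.of_isCoprime_of_dvd_right h1 ?_
  exact Polynomial.map_dvd g (Finset.dvd_prod_of_mem F (Finset.mem_erase.2 ⟨hij, Finset.mem_univ j⟩))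

omit [DecidableEq ι] in
theorem sep_factor {R : Type*} [Field R] (g : ℤ →+* R) (F : ι → ℤ[X])
    (hs : ((∏ j, F j).map g).Separable) (i : ι) : ((F i).map g).Separable :=
  hs.of_dvd (Polynomial.map_dvd g (Finset.dvd_prod_of_mem F (Finset.mem_univ i)))

omit [IsAlgClosed Ω] in
/-- `x` is not a constant -/
theorem x_sub_ne (x : K) (hx : Transcendental ℚ x) (e : algebraicClosure ℚ Ω) :
    algebraMap K (univCover ℚ K Ω) x - incl ℚ K Ω e ≠ 0 := by
  intro h0
  have h1 : algebraMap K Ω x = (e : Ω) := congrArg Subtype.val (sub_eq_zero.1 h0)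
  have h2 : IsAlgebraic ℚ (algebraMap K Ω x) := by
    rw [h1]
    exact mem_algebraicClosure_iff.mp e.2
  exact hx ((isAlgebraic_algebraMap_iff (algebraMap K Ω).injective).mp h2)

omit [IsAlgClosed Ω] in
/-- the descended root and the signs -/
theorem act_fix_of {s : SectionData ℚ K Ω} {σ : algebraicClosure ℚ Ω ≃ₐ[ℚ] algebraicClosure ℚ Ω}
    {b κ : algebraicClosure ℚ Ω} {r : univCover ℚ K Ω} (hr0 : r ≠ 0)
    (hfix : s.act σ (incl ℚ K Ω b * r) = incl ℚ K Ω b * r)
    (h : s.act σ r = incl ℚ K Ω κ * r) : σ b * κ = b := by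
  rw [map_mul, act_incl, h, ← mul_assoc, ← map_mul] at hfix
  exact (incl ℚ K Ω).injective (mul_right_cancel₀ hr0 hfix)

section

variable {E : Type*} [Field E] [Algebra ℚ E] [IsAlgClosure ℚ E] {q : ℕ}
  {V : ValuationSubring E} {φ τ : E ≃ₐ[ℚ] E}

/-- the quadratic constant -/
theorem tau_const (hq : q.Prime) (h : LocAt q V φ τ) (d l : ℤ) (hd : Squarefree d)
    (hl : ¬ (q : ℤ) ∣ l) (w : E) (hw : w ^ 2 = algebraMap ℚ E ((d : ℚ) / (l : ℚ))) :
    (¬ (q : ℤ) ∣ d → τ w = w) ∧ ((q : ℤ) ∣ d → τ w = -w) := by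
  have hqi : Prime (q : ℤ) := Nat.prime_iff_prime_int.1 hq
  have hl0 : l ≠ 0 := fun h0 => hl (h0 ▸ dvd_zero _)
  have hlQ : (l : ℚ) ≠ 0 := Int.cast_ne_zero.2 hl0
  have hc : CharZero E := algebraRat.charZero E
  have hlE : (l : E) ≠ 0 := Int.cast_ne_zero.2 hl0
  have hw2 : ((l : E) * w) ^ 2 = ((d * l : ℤ) : E) := by
    rw [mul_pow, hw, map_div₀, map_intCast, map_intCast]
    push_cast
    field_simp
  have hτl : τ ((l : E) * w) = (l : E) * τ w := by rw [map_mul, map_intCast]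
  constructor
  · intro hqd
    have h1 := tau_sqrt_unit h _ _ hw2 (fun h0 => (hqi.dvd_or_dvd h0).elim hqd hl)
    rw [hτl] at h1
    exact mul_left_cancel₀ hlE h1
  · rintro ⟨u, hu⟩
    have hqu : ¬ (q : ℤ) ∣ u := by
      rintro ⟨t, ht⟩
      have h1 : (q : ℤ) * q ∣ d := ⟨t, by rw [hu, ht]; ring⟩
      exact hqi.not_isUnit (hd _ h1)
    have hw3 : ((l : E) * w) ^ 2 = ((q * (u * l) : ℤ) : E) := by
      rw [hw2, hu]
      push_cast
      ring
    have h1 := tau_sqrt_ram h _ _ hw3 (fun h0 => (hqi.dvd_or_dvd h0).elim hqu hl)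
    rw [hτl, ← mul_neg] at h1
    exact mul_left_cancel₀ hlE h1

/-- inertia and the square root of a squarefree integer -/
theorem tau_b (hq : q.Prime) (h : LocAt q V φ τ) (e : ℤ) (he : Squarefree e) (b : E)
    (hb : b ^ 2 = (e : E)) : (τ b = b → ¬ (q : ℤ) ∣ e) ∧ (τ b = -b → (q : ℤ) ∣ e) := by
  have hqi : Prime (q : ℤ) := Nat.prime_iff_prime_int.1 hq
  have hc : CharZero E := algebraRat.charZero E
  have he0 : e ≠ 0 := he.ne_zero
  have hb0 : b ≠ 0 := by
    rintro rfl
    rw [zero_pow (by norm_num)] at hb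
    exact he0 (Int.cast_eq_zero.1 hb.symm)
  have hbb : b ≠ -b := by
    intro h0
    have h1 : (2 : E) * b = 0 := by linear_combination h0
    rcases mul_eq_zero.1 h1 with h2 | h2
    · exact two_ne_zero h2
    · exact hb0 h2
  constructor
  · rintro h1 ⟨u, hu⟩
    have hqu : ¬ (q : ℤ) ∣ u := by
      rintro ⟨t, ht⟩
      have h1 : (q : ℤ) * q ∣ e := ⟨t, by rw [hu, ht]; ring⟩
      exact hqi.not_isUnit (he _ h1)
    have h2 := tau_sqrt_ram h b u (by rw [hb, hu]) hqu
    exact hbb (h1.symm.trans h2)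
  · intro h1
    by_contra h2
    have h3 := tau_sqrt_unit h b e hb h2
    exact hbb (h3.symm.trans h1)

end

theorem isSquare_iff_of_mul {R : Type*} [Field R] {u v : R} (hu : u ≠ 0) (hv : v ≠ 0)
    (h : IsSquare (u * v)) : IsSquare u ↔ IsSquare v := by
  obtain ⟨t, ht⟩ := h
  have key : ∀ a b : R, a ≠ 0 → a * b = t * t → IsSquare a → IsSquare b := by
    rintro a b ha hab ⟨c, hc⟩
    have hc0 : c ≠ 0 := by
      rintro rfl
      exact ha (by rw [hc, mul_zero])
    refine ⟨t / c, ?_⟩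
    have h1 : b = t * t / a := by
      rw [← hab]
      field_simp
    rw [h1, hc]
    field_simp
  exact ⟨key u v hu ht, key v u hv (by rw [mul_comm]; exact ht)⟩

theorem arith_local (s : SectionData ℚ K Ω) (F : ι → ℤ[X]) (heven : ∀ j, Even (F j).natDegree)
    (h6 : 6 ≤ (∏ j, F j).natDegree) (hsepQ : ((∏ j, F j).map (Int.castRingHom ℚ)).Separable)
    (q : ℕ) (hq : q.Prime) (hq2 : q ≠ 2) (hl : ¬ (q : ℤ) ∣ (∏ j, F j).leadingCoeff)
    (hsq : ((∏ j, F j).map (Int.castRingHom (ZMod q))).Separable) (d : ℤ) (hd : Squarefree d)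
    (x y : K) (hx : Transcendental ℚ x) (hxy : (d : K) * y ^ 2 = aeval x (∏ j, F j))
    (e : ι → ℤ) (he : ∀ j, Squarefree (e j)) (b : ι → algebraicClosure ℚ Ω)
    (hb : ∀ j, b j ^ 2 = (e j : algebraicClosure ℚ Ω)) (r : ι → univCover ℚ K Ω)
    (hr : ∀ j, r j ^ 2 = ∏ θ ∈ rts (algebraicClosure ℚ Ω) (F j),
      (algebraMap K (univCover ℚ K Ω) x - incl ℚ K Ω θ))
    (hfix : ∀ j, ∀ σ, s.act σ (incl ℚ K Ω (b j) * r j) = incl ℚ K Ω (b j) * r j) :
    (¬ (q : ℤ) ∣ d → ∀ j, ¬ (q : ℤ) ∣ e j) ∧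
    ((q : ℤ) ∣ d → ∃ i : ι, (q : ℤ) ∣ e i ∧ (∀ j, j ≠ i → ¬ (q : ℤ) ∣ e j) ∧
      ∃ z : ι → ℤˣ, z ∈ pat F i q ∧ ∀ j, j ≠ i → jacobiSym (e j) q = ((z j : ℤˣ) : ℤ)) := by
  classical
  have : Fact q.Prime := ⟨hq⟩
  set P : ℤ[X] := ∏ j, F j with hP
  set f : ℚ[X] := P.map (Int.castRingHom ℚ) with hf
  have hqi : Prime (q : ℤ) := Nat.prime_iff_prime_int.1 hq
  have hinj : Function.Injective (Int.castRingHom ℚ) := Int.cast_injective
  have hP0 : P ≠ 0 := by
    intro h0
    rw [h0, natDegree_zero] at h6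
    omega
  have hF0 : ∀ j, F j ≠ 0 := by
    intro j h0
    exact hP0 (Finset.prod_eq_zero (Finset.mem_univ j) h0)
  have hdegf : f.natDegree = P.natDegree := natDegree_map_eq_of_injective hinj P
  have hPeven : Even f.natDegree := by
    rw [hdegf, hP, natDegree_prod _ _ fun j _ => hF0 j]
    exact Finset.even_sum _ fun j _ => heven j
  have hleadf : f.leadingCoeff = (P.leadingCoeff : ℚ) := by
    rw [hf, leadingCoeff_map_of_injective hinj]
    rfl
  have hlP : P.leadingCoeff = ∏ j, (F j).leadingCoeff := leadingCoeff_prod _ _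
  have hlj : ∀ j, ¬ (q : ℤ) ∣ (F j).leadingCoeff := by
    intro j h0
    refine hl ?_
    rw [hlP]
    exact h0.trans (Finset.dvd_prod_of_mem _ (Finset.mem_univ j))
  -- evaluation
  have hae : ∀ (G : ℤ[X]) (θ : algebraicClosure ℚ Ω),
      aeval θ (G.map (Int.castRingHom ℚ)) = aeval θ G := by
    intro G θ
    rw [aeval_def, aeval_def, eval₂_map]
    congr 1
    exact RingHom.ext_int _ _
  have haeP : ∀ θ : algebraicClosure ℚ Ω, aeval θ P = ∏ j, aeval θ (F j) := fun θ => map_prod _ _ _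
  -- the local data
  obtain ⟨V, φ, τ, hloc⟩ := exists_local_int (E := algebraicClosure ℚ Ω) q hq hq2
  have hint : ∀ θ : algebraicClosure ℚ Ω, aeval θ f = 0 → V.valuation θ ≤ 1 := by
    intro θ hθ
    rw [hf, hae] at hθ
    exact root_int hloc P hl θ hθ
  have hsep : ∀ θ θ' : algebraicClosure ℚ Ω, aeval θ f = 0 → aeval θ' f = 0 → θ ≠ θ' →
      V.valuation (θ - θ') = 1 := by
    intro θ θ' hθ hθ' hne
    rw [hf, hae] at hθ hθ'
    exact root_sep hq hloc P hl hsq θ θ' hθ hθ' hne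
  have hτroot := tau_root hloc.isLoc f hint hsep
  have hd0 : (d : ℚ) ≠ 0 := Int.cast_ne_zero.2 hd.ne_zero
  have hxy' : algebraMap ℚ K (d : ℚ) * y ^ 2 = aeval x f := by
    rw [map_intCast, hxy, hf, aeval_def, aeval_def, eval₂_map]
    congr 1
    exact RingHom.ext_int _ _
  have hcl := classes s hloc.isLoc f hsepQ hPeven (by rw [hdegf]; exact h6) (d : ℚ) hd0 x y hx hxy'
    hint hsep
  have hconst : ∀ w : algebraicClosure ℚ Ω,
      w ^ 2 = algebraMap ℚ (algebraicClosure ℚ Ω) ((d : ℚ) / f.leadingCoeff) →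
      (¬ (q : ℤ) ∣ d → τ w = w) ∧ ((q : ℤ) ∣ d → τ w = -w) := by
    intro w hw
    rw [hleadf] at hw
    exact tau_const hq hloc d P.leadingCoeff hd hl w hw
  -- the sets of roots
  have hchE : CharZero (algebraicClosure ℚ Ω) := algebraRat.charZero _
  have hmem : ∀ j θ, θ ∈ rts (algebraicClosure ℚ Ω) (F j) ↔ aeval θ (F j) = 0 :=
    fun j θ => mem_rts (hF0 j) θ
  have hS : ∀ j, ∀ θ ∈ rts (algebraicClosure ℚ Ω) (F j), aeval θ f = 0 := by
    intro j θ hθ
    rw [hf, hae, haeP]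
    exact Finset.prod_eq_zero (Finset.mem_univ j) ((hmem j θ).1 hθ)
  have hSeven : ∀ j, Even (rts (algebraicClosure ℚ Ω) (F j)).card := by
    intro j
    rw [card_rts (sep_factor _ F hsepQ j)]
    exact heven j
  have hr0 : ∀ j, r j ≠ 0 := by
    intro j h0
    have h1 := hr j
    rw [h0, zero_pow (by norm_num)] at h1
    exact Finset.prod_ne_zero_iff.2 (fun θ _ => x_sub_ne x hx θ) h1.symm
  have hfix1 : ∀ j, s.act τ (r j) = r j → τ (b j) = b j := by
    intro j h1
    have := act_fix_of (κ := 1) (hr0 j) (hfix j τ) (by rw [map_one, one_mul]; exact h1)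
    rwa [mul_one] at this
  constructor
  · -- the unramified case
    intro hqd j
    have h1 := even_unr s τ f hsepQ (d : ℚ) hd0 x y hx hxy'
      (hcl.2 fun w hw => (hconst w hw).1 hqd) _ (hS j) (hSeven j) (r j) (hr j)
    exact (tau_b hq hloc (e j) (he j) (b j) (hb j)).1 (hfix1 j h1)
  · -- the ramified case
    intro hqd
    obtain ⟨θ0, h0, hφ0, hneg⟩ := hcl.1 fun w hw => (hconst w hw).2 hqd
    have h0P : ∏ j, aeval θ0 (F j) = 0 := by
      rw [← haeP, ← hae]
      exact h0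
    obtain ⟨i, -, hi⟩ := Finset.prod_eq_zero_iff.1 h0P
    have hθi : θ0 ∈ rts (algebraicClosure ℚ Ω) (F i) := (hmem i θ0).2 hi
    have hθj : ∀ j, j ≠ i → θ0 ∉ rts (algebraicClosure ℚ Ω) (F j) := by
      intro j hj hθ
      have h1 := (hmem j θ0).1 hθ
      obtain ⟨u, v, huv⟩ := coprime_of_sep (Int.castRingHom ℚ) F hsepQ hj
      have h2 := congrArg (aeval θ0) huv
      rw [map_add, map_mul, map_mul, hae, hae, hi, h1, mul_zero, mul_zero, add_zero, map_one] at h2
      exact zero_ne_one h2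
    have hτr : ∀ j, (θ0 ∈ rts (algebraicClosure ℚ Ω) (F j) → s.act τ (r j) = - r j) ∧
        (θ0 ∉ rts (algebraicClosure ℚ Ω) (F j) → s.act τ (r j) = r j) := fun j =>
      even_ram_tau s τ f hsepQ (d : ℚ) hd0 x y hx hxy' hτroot θ0 h0 hneg _ (hS j) (hSeven j)
        (r j) (hr j)
    have hej : ∀ j, j ≠ i → ¬ (q : ℤ) ∣ e j := fun j hj =>
      (tau_b hq hloc (e j) (he j) (b j) (hb j)).1 (hfix1 j ((hτr j).2 (hθj j hj)))
    refine ⟨i, ?_, hej, ?_⟩
    · refine (tau_b hq hloc (e i) (he i) (b i) (hb i)).2 ?_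
      have := act_fix_of (κ := -1) (hr0 i) (hfix i τ) (by
        rw [map_neg, map_one, neg_one_mul]
        exact (hτr i).1 hθi)
      rw [mul_neg, mul_one] at this
      exact neg_eq_iff_eq_neg.1 this
    -- the residue of the root
    obtain ⟨a, ha⟩ := int_rep hq hloc θ0 (hint θ0 h0) hφ0
    have hia := root_mod hloc (F i) θ0 hi a ha
    have hja : ∀ j, j ≠ i →
        ((F j).map (Int.castRingHom (ZMod q))).eval ((a : ℤ) : ZMod q) ≠ 0 := by
      intro j hj h1
      obtain ⟨u, v, huv⟩ := coprime_of_sep (Int.castRingHom (ZMod q)) F hsq hj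
      have h2 := congrArg (eval ((a : ℤ) : ZMod q)) huv
      rw [eval_add, eval_mul, eval_mul, hia, h1, mul_zero, mul_zero, add_zero, eval_one] at h2
      exact zero_ne_one h2
    have hevm : ∀ G : ℤ[X], ((G.map (Int.castRingHom (ZMod q))).eval ((a : ℤ) : ZMod q)) =
        ((G.eval a : ℤ) : ZMod q) := by
      intro G
      rw [eval_intCast_map]
      rfl
    -- squares
    have hsqr : ∀ j, j ≠ i → IsSquare (((((F j).leadingCoeff * (F j).eval a) * e j : ℤ)) : ZMod q) := by
      intro j hj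
      obtain ⟨δ, hδ⟩ := IsAlgClosed.exists_pow_nat_eq
        (∏ θ ∈ rts (algebraicClosure ℚ Ω) (F j), (θ0 - θ)) (n := 2) (by norm_num)
      have hδ0 : δ ≠ 0 := by
        rintro rfl
        rw [zero_pow (by norm_num)] at hδ
        obtain ⟨θ, hθ, hθ2⟩ := Finset.prod_eq_zero_iff.1 hδ.symm
        rw [sub_eq_zero] at hθ2
        exact hθj j hj (hθ2 ▸ hθ)
      have h1 := even_ram_phi s hloc.isLoc f hsepQ hPeven (d : ℚ) hd0 x y hx hxy' hint hsep θ0 h0
        hφ0 hneg _ (hS j) (fun θ hθ => by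
          rw [hmem] at hθ ⊢
          have h2 := congrArg φ hθ
          rw [map_zero] at h2
          rw [← h2, ← hae, ← hae, ← aeval_algHom_apply]) (hSeven j) (hθj j hj) (r j) (hr j) δ hδ
      have h2 := act_fix_of (hr0 j) (hfix j φ) h1
      have h3 : φ (b j * δ) = b j * δ := by
        rw [map_mul]
        calc φ (b j) * φ δ = (φ (b j) * (φ δ / δ)) * δ := by field_simp
          _ = b j * δ := by rw [h2]
      have hz1 : φ (((F j).leadingCoeff : algebraicClosure ℚ Ω) * (b j * δ)) =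
          ((F j).leadingCoeff : algebraicClosure ℚ Ω) * (b j * δ) := by
        rw [map_mul, h3, map_intCast]
      have hz2 : (((F j).leadingCoeff : algebraicClosure ℚ Ω) * (b j * δ)) ^ 2 =
          (((F j).leadingCoeff * e j : ℤ) : algebraicClosure ℚ Ω) * aeval θ0 (F j) := by
        rw [prod_rts (sep_factor _ F hsepQ j), mul_pow, mul_pow, hb, hδ]
        push_cast
        ring
      have hva := aeval_congr hloc (F j) θ0 a ha
      have hvaj : V.valuation (aeval θ0 (F j)) ≤ 1 := by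
        have h4 : aeval θ0 (F j) = (aeval θ0 (F j) - (((F j).eval a : ℤ) : algebraicClosure ℚ Ω)) +
            (((F j).eval a : ℤ) : algebraicClosure ℚ Ω) := by ring
        rw [h4]
        exact (V.valuation.map_add _ _).trans (max_le hva.le (hloc.le_one _))
      have hz3 : V.valuation (((F j).leadingCoeff : algebraicClosure ℚ Ω) * (b j * δ)) ≤ 1 := by
        have h5 : V.valuation (((F j).leadingCoeff : algebraicClosure ℚ Ω) * (b j * δ)) ^ 2 ≤ 1 := by
          rw [← map_pow, hz2, map_mul]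
          exact mul_le_one' (hloc.le_one _) hvaj
        exact (pow_le_one_iff_of_nonneg zero_le (by norm_num)).1 h5
      refine isSquare_of hq hloc _ hz3 hz1 _ ?_
      rw [hz2]
      have h6 : (((F j).leadingCoeff * e j : ℤ) : algebraicClosure ℚ Ω) * aeval θ0 (F j) -
          (((F j).leadingCoeff * (F j).eval a * e j : ℤ) : algebraicClosure ℚ Ω) =
          (((F j).leadingCoeff * e j : ℤ) : algebraicClosure ℚ Ω) *
          (aeval θ0 (F j) - (((F j).eval a : ℤ) : algebraicClosure ℚ Ω)) := by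
        push_cast
        ring
      rw [h6, map_mul]
      exact (mul_le_of_le_one_left' (hloc.le_one _)).trans_lt hva
    -- the pattern
    refine ⟨fun j => if j = i then 1 else if IsSquare (((F j).leadingCoeff : ZMod q) *
      ((F j).map (Int.castRingHom (ZMod q))).eval ((a : ℤ) : ZMod q)) then 1 else -1, ?_, ?_⟩
    · unfold pat
      rw [Set.Finite.mem_toFinset]
      refine ⟨((a : ℤ) : ZMod q), hia, fun j => ⟨fun hj => if_pos hj, fun hj => ?_⟩⟩
      dsimp only
      rw [if_neg hj]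
      by_cases h1 : IsSquare (((F j).leadingCoeff : ZMod q) *
        ((F j).map (Int.castRingHom (ZMod q))).eval ((a : ℤ) : ZMod q))
      · rw [if_pos h1]
        exact ⟨fun _ => h1, fun _ => rfl⟩
      · rw [if_neg h1]
        exact ⟨fun h2 => absurd h2 (by decide), fun h2 => absurd h2 h1⟩
    · intro j hj
      dsimp only
      rw [if_neg hj, ← jacobiSym.legendreSym.to_jacobiSym]
      have he1 : ((e j : ℤ) : ZMod q) ≠ 0 := by
        rw [Ne, ZMod.intCast_zmod_eq_zero_iff_dvd]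
        exact hej j hj
      have hl1 : (((F j).leadingCoeff : ℤ) : ZMod q) ≠ 0 := by
        rw [Ne, ZMod.intCast_zmod_eq_zero_iff_dvd]
        exact hlj j
      have hu : (((F j).leadingCoeff : ZMod q) *
        ((F j).map (Int.castRingHom (ZMod q))).eval ((a : ℤ) : ZMod q)) ≠ 0 :=
        mul_ne_zero hl1 (hja j hj)
      have hiff := isSquare_iff_of_mul hu he1 (by
        have := hsqr j hj
        rw [hevm]
        push_cast at this
        exact this)
      by_cases h1 : IsSquare (((F j).leadingCoeff : ZMod q) *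
        ((F j).map (Int.castRingHom (ZMod q))).eval ((a : ℤ) : ZMod q))
      · rw [if_pos h1, Units.val_one]
        exact (legendreSym.eq_one_iff q he1).2 (hiff.1 h1)
      · rw [if_neg h1, Units.val_neg, Units.val_one]
        exact (legendreSym.eq_neg_one_iff q).2 fun h2 => h1 (hiff.2 h2)

end Pool.Agent.SCT
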