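import Pool.Agent.SCT.Defs

/-!
SCT module DIV3: second moment of the ternary divisor function.

Proof.  Let `τ k n` be the number of `k`-tuples of positive integers with product `n`.  `τ 3` is
submultiplicative: `τ3 (a b) ≤ τ3 a * τ3 b` for all `a, b ≥ 1` (a factorisation `a b = x y z` gives
`x = x1 x2` with `x1 = gcd(x, a)`, ... ; or compare prime by prime: `C(α+β+2, 2) ≤ C(α+2, 2) C(β+2, 2)`).
Then `∑_{l ≤ L} τ3(l)^2 = ∑_{x y z ≤ L} τ3(x y z) ≤ ∑_{x y z ≤ L} τ3(x) τ3(y) τ3(z) = ∑_{l ≤ L} τ9(l)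
≤ ∑_{x1 ... x8 ≤ L} L / (x1 ... x8) ≤ L (1 + log L)^8` (`harmonic_le_one_add_log`).
Any other route to a bound of this shape is fine.
-/

set_option linter.dupNamespace false

namespace Pool.Agent.SCT

open Finset

/-- the number of factorisations `l = m₁ m₂ m₃` -/
def tau3 (l : ℕ) : ℕ :=
  ((l.divisors ×ˢ l.divisors ×ˢ l.divisors).filter (fun p => p.1 * p.2.1 * p.2.2 = l)).card

/-- the factorisations -/
private def dvF (l : ℕ) : Finset (ℕ × ℕ × ℕ) :=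
  (l.divisors ×ˢ l.divisors ×ˢ l.divisors).filter (fun p => p.1 * p.2.1 * p.2.2 = l)

private lemma dv_mem {l : ℕ} (hl : 0 < l) (p : ℕ × ℕ × ℕ) :
    p ∈ dvF l ↔ p.1 * p.2.1 * p.2.2 = l := by
  unfold dvF
  rw [mem_filter, mem_product, mem_product, Nat.mem_divisors, Nat.mem_divisors, Nat.mem_divisors]
  constructor
  · exact fun h => h.2
  · intro h
    refine ⟨⟨⟨?_, hl.ne'⟩, ⟨?_, hl.ne'⟩, ⟨?_, hl.ne'⟩⟩, h⟩
    · rw [← h, mul_assoc]; exact dvd_mul_right _ _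
    · rw [← h, mul_comm p.1, mul_assoc]; exact dvd_mul_right _ _
    · rw [← h]; exact dvd_mul_left _ _

private lemma dv_split {a b x y z : ℕ} (ha : 0 < a) (hb : 0 < b) (h : x * y * z = a * b) :
    ∃ x1 x2 y1 y2 z1 z2 : ℕ, x = x1 * x2 ∧ y = y1 * y2 ∧ z = z1 * z2 ∧ x1 * y1 * z1 = a ∧
      x2 * y2 * z2 = b := by
  have hab : 0 < a * b := Nat.mul_pos ha hb
  have hx : 0 < x := by
    rcases Nat.eq_zero_or_pos x with h0 | h0
    · rw [h0] at h; simp at h; omega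
    · exact h0
  have hy : 0 < y := by
    rcases Nat.eq_zero_or_pos y with h0 | h0
    · rw [h0] at h; simp at h; omega
    · exact h0
  set x1 := Nat.gcd x a with hx1
  have hx1p : 0 < x1 := Nat.gcd_pos_of_pos_left _ hx
  obtain ⟨x2, hx2⟩ : x1 ∣ x := Nat.gcd_dvd_left x a
  obtain ⟨a', ha'⟩ : x1 ∣ a := Nat.gcd_dvd_right x a
  have hcop1 : Nat.Coprime x2 a' := by
    have := Nat.coprime_div_gcd_div_gcd (m := x) (n := a) hx1p
    rw [← hx1] at this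
    have e1 : x / x1 = x2 := Nat.div_eq_of_eq_mul_right hx1p hx2
    have e2 : a / x1 = a' := Nat.div_eq_of_eq_mul_right hx1p ha'
    rwa [e1, e2] at this
  set y1 := Nat.gcd y a' with hy1
  have hy1p : 0 < y1 := Nat.gcd_pos_of_pos_left _ hy
  obtain ⟨y2, hy2⟩ : y1 ∣ y := Nat.gcd_dvd_left y a'
  obtain ⟨z1, hz1⟩ : y1 ∣ a' := Nat.gcd_dvd_right y a'
  have hcop2 : Nat.Coprime y2 z1 := by
    have := Nat.coprime_div_gcd_div_gcd (m := y) (n := a') hy1p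
    rw [← hy1] at this
    have e1 : y / y1 = y2 := Nat.div_eq_of_eq_mul_right hy1p hy2
    have e2 : a' / y1 = z1 := Nat.div_eq_of_eq_mul_right hy1p hz1
    rwa [e1, e2] at this
  have hz1p : 0 < z1 := by
    rcases Nat.eq_zero_or_pos z1 with h0 | h0
    · rw [h0, mul_zero] at hz1; rw [hz1, mul_zero] at ha'; omega
    · exact h0
  have heq : x2 * y2 * z = z1 * b := by
    have h1 : (x1 * y1) * (x2 * y2 * z) = (x1 * y1) * (z1 * b) := by
      calc (x1 * y1) * (x2 * y2 * z) = (x1 * x2) * (y1 * y2) * z := by ring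
        _ = x * y * z := by rw [← hx2, ← hy2]
        _ = a * b := h
        _ = x1 * (y1 * z1) * b := by rw [← hz1, ← ha']
        _ = (x1 * y1) * (z1 * b) := by ring
    exact Nat.eq_of_mul_eq_mul_left (Nat.mul_pos hx1p hy1p) h1
  have hcop : Nat.Coprime z1 (x2 * y2) := by
    refine Nat.Coprime.mul_right ?_ hcop2.symm
    exact (Nat.Coprime.coprime_dvd_right ⟨y1, by rw [hz1]; ring⟩ hcop1).symm
  have hdz : z1 ∣ z := by
    have : z1 ∣ x2 * y2 * z := ⟨b, heq⟩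
    exact hcop.dvd_of_dvd_mul_left this
  obtain ⟨z2, hz2⟩ := hdz
  refine ⟨x1, x2, y1, y2, z1, z2, hx2, hy2, hz2, ?_, ?_⟩
  · rw [mul_assoc, ← hz1, ← ha']
  · have h1 : z1 * (x2 * y2 * z2) = z1 * b := by
      rw [← heq, hz2]; ring
    exact Nat.eq_of_mul_eq_mul_left hz1p h1

private lemma dv_sub {a b : ℕ} (ha : 0 < a) (hb : 0 < b) : tau3 (a * b) ≤ tau3 a * tau3 b := by
  show (dvF (a * b)).card ≤ (dvF a).card * (dvF b).card
  rw [← card_product]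
  classical
  have hab : 0 < a * b := Nat.mul_pos ha hb
  have hsplit : ∀ p : ℕ × ℕ × ℕ, p ∈ dvF (a * b) → ∃ q : (ℕ × ℕ × ℕ) × (ℕ × ℕ × ℕ),
      q ∈ dvF a ×ˢ dvF b ∧ p = (q.1.1 * q.2.1, q.1.2.1 * q.2.2.1, q.1.2.2 * q.2.2.2) := by
    rintro ⟨x, y, z⟩ hp
    rw [dv_mem hab] at hp
    obtain ⟨x1, x2, y1, y2, z1, z2, h1, h2, h3, h4, h5⟩ := dv_split ha hb hp
    refine ⟨((x1, y1, z1), (x2, y2, z2)), ?_, ?_⟩
    · rw [mem_product, dv_mem ha, dv_mem hb]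
      exact ⟨h4, h5⟩
    · exact Prod.ext h1 (Prod.ext h2 h3)
  choose! f hf hf' using hsplit
  refine Finset.card_le_card_of_injOn f (fun p hp => hf p hp) ?_
  intro p hp q hq hpq
  rw [hf' p hp, hf' q hq, hpq]

private def dvBox (L : ℕ) : Finset (ℕ × ℕ × ℕ) := Icc 1 L ×ˢ Icc 1 L ×ˢ Icc 1 L

private lemma dv_mem_box {L : ℕ} {p : ℕ × ℕ × ℕ} :
    p ∈ dvBox L ↔ (1 ≤ p.1 ∧ p.1 ≤ L) ∧ (1 ≤ p.2.1 ∧ p.2.1 ≤ L) ∧ (1 ≤ p.2.2 ∧ p.2.2 ≤ L) := by
  unfold dvBox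
  rw [mem_product, mem_product, mem_Icc, mem_Icc, mem_Icc]

private lemma dv_fib (L : ℕ) (G : ℕ × ℕ × ℕ → ℝ) :
    ∑ l ∈ Icc 1 L, ∑ p ∈ dvF l, G p =
      ∑ p ∈ (dvBox L).filter (fun p => p.1 * p.2.1 * p.2.2 ≤ L), G p := by
  rw [← Finset.sum_fiberwise_of_maps_to (s := (dvBox L).filter
    (fun p => p.1 * p.2.1 * p.2.2 ≤ L)) (t := Icc 1 L) (g := fun p => p.1 * p.2.1 * p.2.2)]
  · refine Finset.sum_congr rfl (fun l hl => ?_)
    rw [mem_Icc] at hl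
    refine Finset.sum_congr ?_ (fun _ _ => rfl)
    ext p
    rw [dv_mem (by omega), mem_filter, mem_filter, dv_mem_box]
    constructor
    · intro h
      have hpos : 0 < p.1 * p.2.1 * p.2.2 := by omega
      have h3 : 0 < p.2.2 := Nat.pos_of_mul_pos_left hpos
      have h12 : 0 < p.1 * p.2.1 := Nat.pos_of_mul_pos_right hpos
      have h2 : 0 < p.2.1 := Nat.pos_of_mul_pos_left h12
      have h1 : 0 < p.1 := Nat.pos_of_mul_pos_right h12
      have hle : p.1 * p.2.1 * p.2.2 ≤ L := by omega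
      have e1 : p.1 ≤ p.1 * p.2.1 * p.2.2 := by
        rw [mul_assoc]; exact Nat.le_mul_of_pos_right _ (Nat.mul_pos h2 h3)
      have e2 : p.2.1 ≤ p.1 * p.2.1 * p.2.2 := by
        calc p.2.1 ≤ p.2.1 * (p.1 * p.2.2) := Nat.le_mul_of_pos_right _ (Nat.mul_pos h1 h3)
          _ = p.1 * p.2.1 * p.2.2 := by ring
      have e3 : p.2.2 ≤ p.1 * p.2.1 * p.2.2 := Nat.le_mul_of_pos_left _ h12
      exact ⟨⟨⟨⟨h1, by omega⟩, ⟨h2, by omega⟩, ⟨h3, by omega⟩⟩, hle⟩, h⟩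
    · exact fun h => h.2
  · intro p hp
    rw [mem_filter, dv_mem_box] at hp
    rw [mem_Icc]
    exact ⟨Nat.mul_pos (Nat.mul_pos hp.1.1.1 hp.1.2.1.1) hp.1.2.2.1, hp.2⟩

private lemma dv_harm (L : ℕ) (hL : 1 ≤ L) : ∑ m ∈ Icc 1 L, 1 / (m : ℝ) ≤ 1 + Real.log L := by
  have h := harmonic_le_one_add_log L
  have h2 : ((harmonic L : ℚ) : ℝ) = ∑ m ∈ Icc 1 L, 1 / (m : ℝ) := by
    rw [harmonic_eq_sum_Icc]
    push_cast
    refine Finset.sum_congr rfl (fun m _ => ?_)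
    rw [one_div]
  rwa [h2] at h

private lemma dv_log_nonneg (L : ℕ) : 0 ≤ 1 + Real.log L := by
  have := Real.log_natCast_nonneg L
  linarith

/-- (C) -/
private lemma dv_C (L : ℕ) (hL : 1 ≤ L) :
    ∑ m ∈ Icc 1 L, (tau3 m : ℝ) / m ≤ (1 + Real.log L) ^ 3 := by
  have h1 : ∀ m ∈ Icc 1 L, (tau3 m : ℝ) / m =
      ∑ p ∈ dvF m, 1 / (p.1 : ℝ) * (1 / (p.2.1 : ℝ) * (1 / (p.2.2 : ℝ))) := by
    intro m hm
    rw [mem_Icc] at hm
    have hm0 : 0 < m := by omega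
    have h2 : ∀ p ∈ dvF m, 1 / (p.1 : ℝ) * (1 / (p.2.1 : ℝ) * (1 / (p.2.2 : ℝ))) = 1 / (m : ℝ) := by
      intro p hp
      rw [dv_mem hm0] at hp
      rw [← hp]
      push_cast
      rw [one_div_mul_one_div, one_div_mul_one_div, mul_assoc]
    rw [Finset.sum_congr rfl h2, Finset.sum_const, nsmul_eq_mul, mul_one_div]
    rfl
  rw [Finset.sum_congr rfl h1, dv_fib]
  have h3 : ∑ p ∈ (dvBox L).filter (fun p => p.1 * p.2.1 * p.2.2 ≤ L),
      1 / (p.1 : ℝ) * (1 / (p.2.1 : ℝ) * (1 / (p.2.2 : ℝ))) ≤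
      ∑ p ∈ dvBox L, 1 / (p.1 : ℝ) * (1 / (p.2.1 : ℝ) * (1 / (p.2.2 : ℝ))) :=
    Finset.sum_le_sum_of_subset_of_nonneg (Finset.filter_subset _ _)
      (fun p _ _ => by positivity)
  refine h3.trans ?_
  have h4 : ∑ p ∈ dvBox L, 1 / (p.1 : ℝ) * (1 / (p.2.1 : ℝ) * (1 / (p.2.2 : ℝ))) =
      (∑ m ∈ Icc 1 L, 1 / (m : ℝ)) ^ 3 := by
    unfold dvBox
    rw [Finset.sum_product]
    simp_rw [← Finset.mul_sum]
    rw [← Finset.sum_mul, Finset.sum_product]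
    simp_rw [← Finset.mul_sum]
    rw [← Finset.sum_mul]
    ring
  rw [h4]
  exact pow_le_pow_left₀ (Finset.sum_nonneg (fun m _ => by positivity)) (dv_harm L hL) 3

/-- (D) -/
private lemma dv_D (N : ℕ) (hN : 1 ≤ N) :
    ∑ n ∈ Icc 1 N, (tau3 n : ℝ) ≤ N * (1 + Real.log N) ^ 2 := by
  have h1 : ∀ n ∈ Icc 1 N, (tau3 n : ℝ) = ∑ _p ∈ dvF n, (1 : ℝ) := by
    intro n _
    rw [Finset.sum_const, nsmul_eq_mul, mul_one]
    rfl
  rw [Finset.sum_congr rfl h1, dv_fib, Finset.sum_filter]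
  unfold dvBox
  rw [Finset.sum_product]
  have h2 : ∀ x ∈ Icc 1 N, ∑ q ∈ Icc 1 N ×ˢ Icc 1 N,
      (if x * q.1 * q.2 ≤ N then (1 : ℝ) else 0) ≤ N * (1 / (x : ℝ)) * (1 + Real.log N) := by
    intro x hx
    rw [mem_Icc] at hx
    rw [Finset.sum_product]
    have h3 : ∀ y ∈ Icc 1 N, ∑ z ∈ Icc 1 N, (if x * y * z ≤ N then (1 : ℝ) else 0) ≤
        N * (1 / (x : ℝ)) * (1 / (y : ℝ)) := by
      intro y hy
      rw [mem_Icc] at hy
      have hxy : 0 < x * y := Nat.mul_pos hx.1 hy.1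
      rw [← Finset.sum_filter, Finset.sum_const, nsmul_eq_mul, mul_one]
      have h4 : ((Icc 1 N).filter (fun z => x * y * z ≤ N)).card ≤ N / (x * y) := by
        have hsub : (Icc 1 N).filter (fun z => x * y * z ≤ N) ⊆ Icc 1 (N / (x * y)) := by
          intro z hz
          rw [mem_filter, mem_Icc] at hz
          rw [mem_Icc]
          refine ⟨hz.1.1, ?_⟩
          rw [Nat.le_div_iff_mul_le hxy, mul_comm]
          exact hz.2
        refine (Finset.card_le_card hsub).trans (le_of_eq ?_)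
        rw [Nat.card_Icc, Nat.add_sub_cancel]
      have h5 : (((Icc 1 N).filter (fun z => x * y * z ≤ N)).card : ℝ) ≤ (N : ℝ) / ((x * y : ℕ) : ℝ) :=
        le_trans (by exact_mod_cast h4) Nat.cast_div_le
      refine h5.trans (le_of_eq ?_)
      push_cast
      ring
    refine (Finset.sum_le_sum h3).trans ?_
    rw [← Finset.mul_sum]
    exact mul_le_mul_of_nonneg_left (dv_harm N hN) (by positivity)
  refine (Finset.sum_le_sum h2).trans ?_
  rw [← Finset.sum_mul, ← Finset.mul_sum]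
  have h6 := mul_le_mul_of_nonneg_left (dv_harm N hN) (Nat.cast_nonneg (α := ℝ) N)
  calc (N : ℝ) * (∑ i ∈ Icc 1 N, 1 / (i : ℝ)) * (1 + Real.log N)
      ≤ N * (1 + Real.log N) * (1 + Real.log N) :=
        mul_le_mul_of_nonneg_right h6 (dv_log_nonneg N)
    _ = N * (1 + Real.log N) ^ 2 := by ring

private lemma dv_inner (L x y : ℕ) (hx : 1 ≤ x) (hy : 1 ≤ y) :
    ∑ z ∈ Icc 1 L, (if x * y * z ≤ L then (tau3 z : ℝ) else 0) ≤
      L * (1 / (x : ℝ)) * (1 / (y : ℝ)) * (1 + Real.log L) ^ 2 := by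
  have hxy : 0 < x * y := Nat.mul_pos hx hy
  rw [← Finset.sum_filter]
  have hsub : (Icc 1 L).filter (fun z => x * y * z ≤ L) ⊆ Icc 1 (L / (x * y)) := by
    intro z hz
    rw [mem_filter, mem_Icc] at hz
    rw [mem_Icc]
    refine ⟨hz.1.1, ?_⟩
    rw [Nat.le_div_iff_mul_le hxy, mul_comm]
    exact hz.2
  have h1 : ∑ z ∈ (Icc 1 L).filter (fun z => x * y * z ≤ L), (tau3 z : ℝ) ≤
      ∑ z ∈ Icc 1 (L / (x * y)), (tau3 z : ℝ) :=
    Finset.sum_le_sum_of_subset_of_nonneg hsub (fun z _ _ => Nat.cast_nonneg _)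
  refine h1.trans ?_
  rcases Nat.eq_zero_or_pos (L / (x * y)) with h0 | h0
  · rw [h0]
    simp only [Finset.Icc_eq_empty_of_lt (by norm_num : (0 : ℕ) < 1), Finset.sum_empty]
    have := dv_log_nonneg L
    positivity
  · refine (dv_D _ h0).trans ?_
    have h2 : ((L / (x * y) : ℕ) : ℝ) ≤ (L : ℝ) * (1 / (x : ℝ)) * (1 / (y : ℝ)) := by
      refine (Nat.cast_div_le (α := ℝ)).trans (le_of_eq ?_)
      push_cast; ring
    have h3 : Real.log ((L / (x * y) : ℕ) : ℝ) ≤ Real.log L := by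
      refine Real.log_le_log (by exact_mod_cast h0) ?_
      exact_mod_cast Nat.div_le_self L (x * y)
    have h4 : (1 + Real.log ((L / (x * y) : ℕ) : ℝ)) ^ 2 ≤ (1 + Real.log L) ^ 2 :=
      pow_le_pow_left₀ (dv_log_nonneg _) (by linarith) 2
    exact mul_le_mul h2 h4 (by positivity) (by positivity)

theorem sum_tau3_sq (L : ℕ) (hL : 1 ≤ L) :
    ∑ l ∈ Icc 1 L, (tau3 l : ℝ) ^ 2 ≤ (L : ℝ) * (1 + Real.log L) ^ 8 := by
  have hlog := dv_log_nonneg L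
  have h1 : ∀ l ∈ Icc 1 L, (tau3 l : ℝ) ^ 2 =
      ∑ p ∈ dvF l, (tau3 (p.1 * p.2.1 * p.2.2) : ℝ) := by
    intro l hl
    rw [mem_Icc] at hl
    have h2 : ∀ p ∈ dvF l, (tau3 (p.1 * p.2.1 * p.2.2) : ℝ) = tau3 l := by
      intro p hp
      rw [dv_mem (by omega)] at hp
      rw [hp]
    rw [Finset.sum_congr rfl h2, Finset.sum_const, nsmul_eq_mul, sq]
    rfl
  rw [Finset.sum_congr rfl h1, dv_fib L (fun p => (tau3 (p.1 * p.2.1 * p.2.2) : ℝ))]
  have h3 : ∑ p ∈ (dvBox L).filter (fun p => p.1 * p.2.1 * p.2.2 ≤ L),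
      (tau3 (p.1 * p.2.1 * p.2.2) : ℝ) ≤
      ∑ p ∈ (dvBox L).filter (fun p => p.1 * p.2.1 * p.2.2 ≤ L),
        (tau3 p.1 : ℝ) * ((tau3 p.2.1 : ℝ) * (tau3 p.2.2 : ℝ)) := by
    refine Finset.sum_le_sum (fun p hp => ?_)
    rw [mem_filter, dv_mem_box] at hp
    have e1 := dv_sub (a := p.1 * p.2.1) (b := p.2.2) (Nat.mul_pos hp.1.1.1 hp.1.2.1.1)
      hp.1.2.2.1
    have e2 := dv_sub (a := p.1) (b := p.2.1) hp.1.1.1 hp.1.2.1.1
    have e3 : tau3 (p.1 * p.2.1 * p.2.2) ≤ tau3 p.1 * (tau3 p.2.1 * tau3 p.2.2) := by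
      refine e1.trans ?_
      rw [← mul_assoc]
      exact Nat.mul_le_mul_right _ e2
    exact_mod_cast e3
  refine h3.trans ?_
  rw [Finset.sum_filter]
  unfold dvBox
  rw [Finset.sum_product]
  have h4 : ∀ x ∈ Icc 1 L, ∑ q ∈ Icc 1 L ×ˢ Icc 1 L,
      (if x * q.1 * q.2 ≤ L then (tau3 x : ℝ) * ((tau3 q.1 : ℝ) * (tau3 q.2 : ℝ)) else 0) ≤
      (tau3 x : ℝ) / x * (L * (1 + Real.log L) ^ 5) := by
    intro x hx
    rw [mem_Icc] at hx
    rw [Finset.sum_product]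
    have h5 : ∀ y ∈ Icc 1 L, ∑ z ∈ Icc 1 L,
        (if x * y * z ≤ L then (tau3 x : ℝ) * ((tau3 y : ℝ) * (tau3 z : ℝ)) else 0) ≤
        (tau3 x : ℝ) / x * (L * (1 + Real.log L) ^ 2) * ((tau3 y : ℝ) / y) := by
      intro y hy
      rw [mem_Icc] at hy
      have h6 := mul_le_mul_of_nonneg_left (dv_inner L x y hx.1 hy.1)
        (by positivity : (0 : ℝ) ≤ (tau3 x : ℝ) * (tau3 y : ℝ))
      refine le_trans (le_of_eq ?_) (h6.trans (le_of_eq ?_))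
      · rw [Finset.mul_sum]
        refine Finset.sum_congr rfl (fun z _ => ?_)
        split_ifs
        · ring
        · ring
      · ring
    refine (Finset.sum_le_sum h5).trans ?_
    rw [← Finset.mul_sum]
    have h7 := mul_le_mul_of_nonneg_left (dv_C L hL)
      (by positivity : (0 : ℝ) ≤ (tau3 x : ℝ) / x * (L * (1 + Real.log L) ^ 2))
    refine h7.trans (le_of_eq ?_)
    ring
  refine (Finset.sum_le_sum h4).trans ?_
  rw [← Finset.sum_mul]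
  have h8 := mul_le_mul_of_nonneg_right (dv_C L hL)
    (by positivity : (0 : ℝ) ≤ (L : ℝ) * (1 + Real.log L) ^ 5)
  refine h8.trans (le_of_eq ?_)
  ring

end Pool.Agent.SCT
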