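import Pool.Agent.SCT.Complete
import Pool.Agent.SCT.Div3

/-!
SCT module BIL1: bilinear sums of Jacobi symbols, long variable on top.

Proof.  Put `z n = ∑_m α m (m/n)`, `B = ∑_n β n z n`, so `|B| ≤ ∑_{n ∈ S} |z n|`, `S` = odd
squarefree `n ≤ N`.  Hoelder (`inner_le_Lp_mul_Lq`, or `inv_mul_le`... or
`Finset.inner_mul_le_norm_mul_norm` twice; simplest: `pow_sum_div_card_le_sum_pow`) gives
`|B|^3 ≤ N^2 ∑_{n ∈ S} |z n|^3`, and `|z n|^3 = σ n * z n ^ 3` with `σ n = sign (z n)`.  Expand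
`z n ^ 3 = ∑_{m1, m2, m3} α m1 α m2 α m3 (m1 m2 m3 / n) = ∑_{l ≤ M^3} a l (l/n)`, where
`|a l| ≤ tau3 l`.  By Cauchy-Schwarz
`∑_n σ n z n ^ 3 = ∑_{l ≤ M^3} a l ∑_{n ∈ S} σ n (l/n)
  ≤ (∑_{l ≤ M^3} tau3(l)^2)^(1/2) (∑_{l ≤ M^3} (∑_{n ∈ S} σ n (l/n))^2)^(1/2)`.
The second sum is `∑_{n1, n2} σ σ ∑_{l ≤ M^3} (l / (n1 n2)) ≤ N M^3 + ∑_{n1 ≠ n2} n1 n2 ≤
N M^3 + N^4 ≤ 2 N M^3` (`complete_sum`, `N ≤ M`).  With `sum_tau3_sq`:
`|B|^3 ≤ N^2 (M^3 (1 + 3 log M)^8)^(1/2) (2 N M^3)^(1/2)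
  ≤ 2 N^(5/2) M^3 (1 + 3 log M)^4`, so `|B| ≤ C M N^(5/6) (1 + log M)^(4/3) ≤ C M N^(5/6) (1+log M)^2`.
-/

set_option linter.dupNamespace false

namespace Pool.Agent.SCT

open Finset

private theorem jac_abs_le (a : ℤ) (n : ℕ) : |((jacobiSym a n : ℤ) : ℝ)| ≤ 1 := by
  rcases jacobiSym.trichotomy a n with h | h | h <;> rw [h] <;> simp

private theorem gram {M3 N : ℕ} (hN : N ^ 3 ≤ M3) (σ : ℕ → ℝ) (hσ : ∀ n, |σ n| ≤ 1)
    (S : Finset ℕ) (hS : ∀ n ∈ S, n ∈ Icc 1 N ∧ Odd n ∧ Squarefree n) :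
    ∑ l ∈ Icc 1 M3, (∑ n ∈ S, σ n * ((jacobiSym (l : ℤ) n : ℤ) : ℝ)) ^ 2 ≤ 2 * N * M3 := by
  have hcard : (S.card : ℝ) ≤ N := by
    have : S.card ≤ (Icc 1 N).card := card_le_card (fun n hn => (hS n hn).1)
    rw [Nat.card_Icc, Nat.add_sub_cancel] at this
    exact_mod_cast this
  have h1 : ∑ l ∈ Icc 1 M3, (∑ n ∈ S, σ n * ((jacobiSym (l : ℤ) n : ℤ) : ℝ)) ^ 2 =
      ∑ n1 ∈ S, ∑ n2 ∈ S, σ n1 * σ n2 *
        ∑ l ∈ Icc 1 M3, ((jacobiSym (l : ℤ) (n1 * n2) : ℤ) : ℝ) := by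
    have h2 : ∀ l ∈ Icc 1 M3, (∑ n ∈ S, σ n * ((jacobiSym (l : ℤ) n : ℤ) : ℝ)) ^ 2 =
        ∑ n1 ∈ S, ∑ n2 ∈ S, σ n1 * σ n2 * ((jacobiSym (l : ℤ) (n1 * n2) : ℤ) : ℝ) := by
      intro l _
      rw [sq, sum_mul_sum]
      refine sum_congr rfl fun n1 h1 => sum_congr rfl fun n2 h2 => ?_
      have e1 : n1 ≠ 0 := by have := (mem_Icc.mp (hS n1 h1).1).1; omega
      have e2 : n2 ≠ 0 := by have := (mem_Icc.mp (hS n2 h2).1).1; omega
      haveI : NeZero n1 := ⟨e1⟩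
      haveI : NeZero n2 := ⟨e2⟩
      rw [jacobiSym.mul_right]
      push_cast
      ring
    rw [sum_congr rfl h2, sum_comm]
    refine sum_congr rfl fun n1 _ => ?_
    rw [sum_comm]
    refine sum_congr rfl fun n2 _ => ?_
    rw [mul_sum]
  rw [h1]
  have h3 : ∀ n1 ∈ S, ∀ n2 ∈ S, σ n1 * σ n2 *
        ∑ l ∈ Icc 1 M3, ((jacobiSym (l : ℤ) (n1 * n2) : ℤ) : ℝ) ≤
        (if n1 = n2 then (M3 : ℝ) else 0) + (N : ℝ) ^ 2 := by
    intro n1 hn1 n2 hn2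
    have hs1 : |σ n1 * σ n2| ≤ 1 := by
      rw [abs_mul]
      have a1 := hσ n1
      have a2 := hσ n2
      have a3 := abs_nonneg (σ n1)
      have a4 := abs_nonneg (σ n2)
      nlinarith
    refine (le_abs_self _).trans ?_
    rw [abs_mul]
    refine (mul_le_of_le_one_left (abs_nonneg _) hs1).trans ?_
    split_ifs with h
    · have : |∑ l ∈ Icc 1 M3, ((jacobiSym (l : ℤ) (n1 * n2) : ℤ) : ℝ)| ≤ M3 := by
        refine (abs_sum_le_sum_abs _ _).trans ?_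
        refine (sum_le_card_nsmul _ _ 1 (fun l _ => jac_abs_le _ _)).trans ?_
        rw [Nat.card_Icc, Nat.add_sub_cancel]
        simp
      have h0 : (0 : ℝ) ≤ (N : ℝ) ^ 2 := by positivity
      linarith
    · have h4 := complete_sum (hS n1 hn1).2.1 (hS n2 hn2).2.1 (hS n1 hn1).2.2 (hS n2 hn2).2.2 h M3
      have e1 : (n1 : ℝ) ≤ N := by exact_mod_cast (mem_Icc.mp (hS n1 hn1).1).2
      have e2 : (n2 : ℝ) ≤ N := by exact_mod_cast (mem_Icc.mp (hS n2 hn2).1).2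
      rw [zero_add]
      refine h4.trans ?_
      rw [sq]
      exact mul_le_mul e1 e2 (by positivity) (by positivity)
  refine (sum_le_sum fun n1 h1 => sum_le_sum fun n2 h2 => h3 n1 h1 n2 h2).trans ?_
  have h4 : ∑ n1 ∈ S, ∑ n2 ∈ S, ((if n1 = n2 then (M3 : ℝ) else 0) + (N : ℝ) ^ 2) =
      S.card * M3 + S.card * (S.card * (N : ℝ) ^ 2) := by
    simp only [sum_add_distrib, sum_const, nsmul_eq_mul]
    congr 1
    rw [sum_congr rfl (g := fun _ => (M3 : ℝ)) (fun n1 h1 => by rw [sum_ite_eq, if_pos h1])]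
    rw [sum_const, nsmul_eq_mul]
  rw [h4]
  have h5 : (N : ℝ) ^ 3 ≤ M3 := by exact_mod_cast hN
  have h6 : (0 : ℝ) ≤ S.card := by positivity
  have h7 : (S.card : ℝ) * M3 ≤ N * M3 := mul_le_mul_of_nonneg_right hcard (by positivity)
  have h8 : (S.card : ℝ) * (S.card * (N : ℝ) ^ 2) ≤ N * (N * (N : ℝ) ^ 2) :=
    mul_le_mul hcard (mul_le_mul_of_nonneg_right hcard (by positivity)) (by positivity)
      (by positivity)
  have h9 : (N : ℝ) * (N * (N : ℝ) ^ 2) ≤ N * M3 := by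
    have : (N : ℝ) * (N : ℝ) ^ 2 = (N : ℝ) ^ 3 := by ring
    rw [this]
    exact mul_le_mul_of_nonneg_left h5 (by positivity)
  linarith

private theorem cube_expand (M : ℕ) (α : ℕ → ℝ) (hα : ∀ m, |α m| ≤ 1) :
    ∃ a : ℕ → ℝ, (∀ l ∈ Icc 1 (M ^ 3), |a l| ≤ tau3 l) ∧ ∀ n : ℕ,
      (∑ m ∈ Icc 1 M, α m * ((jacobiSym (m : ℤ) n : ℤ) : ℝ)) ^ 3 =
        ∑ l ∈ Icc 1 (M ^ 3), a l * ((jacobiSym (l : ℤ) n : ℤ) : ℝ) := by
  classical
  set T : Finset (ℕ × ℕ × ℕ) := Icc 1 M ×ˢ Icc 1 M ×ˢ Icc 1 M with hT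
  have hmem : ∀ t ∈ T, (1 ≤ t.1 ∧ t.1 ≤ M) ∧ (1 ≤ t.2.1 ∧ t.2.1 ≤ M) ∧ (1 ≤ t.2.2 ∧ t.2.2 ≤ M) := by
    intro t ht
    rw [hT, mem_product, mem_product, mem_Icc, mem_Icc, mem_Icc] at ht
    exact ht
  refine ⟨fun l => ∑ t ∈ T.filter (fun t => t.1 * t.2.1 * t.2.2 = l), α t.1 * α t.2.1 * α t.2.2,
    ?_, ?_⟩
  · intro l hl
    have hl1 := (mem_Icc.mp hl).1
    refine (abs_sum_le_sum_abs _ _).trans ?_
    have h1 : ∀ t ∈ T.filter (fun t => t.1 * t.2.1 * t.2.2 = l), |α t.1 * α t.2.1 * α t.2.2| ≤ 1 := by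
      intro t _
      rw [abs_mul, abs_mul]
      have a1 := hα t.1
      have a2 := hα t.2.1
      have a3 := hα t.2.2
      have b1 := abs_nonneg (α t.1)
      have b2 := abs_nonneg (α t.2.1)
      have b3 := abs_nonneg (α t.2.2)
      calc |α t.1| * |α t.2.1| * |α t.2.2| ≤ 1 * 1 * 1 :=
            mul_le_mul (mul_le_mul a1 a2 b2 (by norm_num)) a3 b3 (by norm_num)
        _ = 1 := by norm_num
    refine (sum_le_card_nsmul _ _ 1 h1).trans ?_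
    rw [nsmul_eq_mul, mul_one]
    have : (T.filter (fun t => t.1 * t.2.1 * t.2.2 = l)).card ≤ tau3 l := by
      unfold tau3
      refine card_le_card ?_
      intro t ht
      rw [mem_filter] at ht ⊢
      refine ⟨?_, ht.2⟩
      rw [mem_product, mem_product, Nat.mem_divisors, Nat.mem_divisors, Nat.mem_divisors]
      have hl0 : l ≠ 0 := by omega
      refine ⟨⟨⟨t.2.1 * t.2.2, by rw [← ht.2]; ring⟩, hl0⟩,
        ⟨⟨t.1 * t.2.2, by rw [← ht.2]; ring⟩, hl0⟩,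
        ⟨⟨t.1 * t.2.1, by rw [← ht.2]; ring⟩, hl0⟩⟩
    exact_mod_cast this
  · intro n
    have h1 : (∑ m ∈ Icc 1 M, α m * ((jacobiSym (m : ℤ) n : ℤ) : ℝ)) ^ 3 =
        ∑ t ∈ T, α t.1 * α t.2.1 * α t.2.2 *
          ((jacobiSym ((t.1 * t.2.1 * t.2.2 : ℕ) : ℤ) n : ℤ) : ℝ) := by
      rw [hT, sum_product, pow_succ, sq, sum_mul_sum, sum_mul]
      refine sum_congr rfl fun m1 _ => ?_
      rw [sum_product, sum_mul]
      refine sum_congr rfl fun m2 _ => ?_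
      rw [mul_sum]
      refine sum_congr rfl fun m3 _ => ?_
      push_cast
      rw [jacobiSym.mul_left, jacobiSym.mul_left]
      push_cast
      ring
    rw [h1]
    have hmaps : ∀ t ∈ T, t.1 * t.2.1 * t.2.2 ∈ Icc 1 (M ^ 3) := by
      intro t ht
      obtain ⟨⟨a1, a2⟩, ⟨b1, b2⟩, ⟨c1, c2⟩⟩ := hmem t ht
      rw [mem_Icc]
      constructor
      · have : 0 < t.1 * t.2.1 * t.2.2 := by positivity
        omega
      · calc t.1 * t.2.1 * t.2.2 ≤ M * M * M := Nat.mul_le_mul (Nat.mul_le_mul a2 b2) c2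
          _ = M ^ 3 := by ring
    rw [← sum_fiberwise_of_maps_to hmaps]
    refine sum_congr rfl fun l _ => ?_
    rw [sum_mul]
    refine sum_congr rfl fun t ht => ?_
    rw [(mem_filter.mp ht).2]

private theorem inner_le_aux (S : Finset ℕ) (f : ℕ → ℝ) (hf : ∀ n ∈ S, 0 ≤ f n) :
    (∑ n ∈ S, f n) ^ 3 ≤ (S.card : ℝ) ^ 2 * ∑ n ∈ S, f n ^ 3 := by
  rcases S.eq_empty_or_nonempty with h | h
  · subst h; simp
  · have h1 := pow_sum_div_card_le_sum_pow (s := S) (f := f) hf 2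
    have h2 : (0 : ℝ) < (S.card : ℝ) ^ 2 := by
      have : (0 : ℝ) < S.card := by exact_mod_cast h.card_pos
      positivity
    rw [div_le_iff₀ h2] at h1
    norm_num at h1
    rw [mul_comm]
    exact h1

theorem bil1 : ∃ C : ℝ, 0 ≤ C ∧ ∀ M N : ℕ, 1 ≤ N → N ≤ M → ∀ α β : ℕ → ℝ,
    (∀ m, |α m| ≤ 1) → (∀ n, |β n| ≤ 1) → (∀ n, β n ≠ 0 → Odd n ∧ Squarefree n) →
    |∑ m ∈ Icc 1 M, ∑ n ∈ Icc 1 N, α m * β n * ((jacobiSym (m : ℤ) n : ℤ) : ℝ)| ≤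
      C * M * (N : ℝ) ^ ((5 : ℝ) / 6) * (1 + Real.log M) ^ 2 := by
  refine ⟨9, by norm_num, ?_⟩
  intro M N hN hNM α β hα hβ hβ0
  classical
  set z : ℕ → ℝ := fun n => ∑ m ∈ Icc 1 M, α m * ((jacobiSym (m : ℤ) n : ℤ) : ℝ) with hz
  set S : Finset ℕ := (Icc 1 N).filter (fun n => Odd n ∧ Squarefree n) with hS
  set B : ℝ := ∑ m ∈ Icc 1 M, ∑ n ∈ Icc 1 N, α m * β n * ((jacobiSym (m : ℤ) n : ℤ) : ℝ) with hB
  have hM : 1 ≤ M := hN.trans hNM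
  have hM0 : (0 : ℝ) < M := by exact_mod_cast hM
  have hN0 : (0 : ℝ) < N := by exact_mod_cast hN
  have hlog : 0 ≤ Real.log M := Real.log_nonneg (by exact_mod_cast hM)
  have hcard : (S.card : ℝ) ≤ N := by
    have : S.card ≤ (Icc 1 N).card := card_le_card (filter_subset _ _)
    rw [Nat.card_Icc, Nat.add_sub_cancel] at this
    exact_mod_cast this
  -- reduction to the sum of |z n|
  have h1 : |B| ≤ ∑ n ∈ S, |z n| := by
    have e1 : B = ∑ n ∈ Icc 1 N, β n * z n := by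
      rw [hB, sum_comm]
      refine sum_congr rfl fun n _ => ?_
      rw [hz, mul_sum]
      refine sum_congr rfl fun m _ => ?_
      ring
    have e2 : ∑ n ∈ Icc 1 N, β n * z n = ∑ n ∈ S, β n * z n := by
      rw [hS, sum_filter]
      refine sum_congr rfl fun n _ => ?_
      split_ifs with h
      · rfl
      · have : β n = 0 := by
          by_contra hne
          exact h (hβ0 n hne)
        rw [this, zero_mul]
    rw [e1, e2]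
    refine (abs_sum_le_sum_abs _ _).trans (sum_le_sum fun n _ => ?_)
    rw [abs_mul]
    exact mul_le_of_le_one_left (abs_nonneg _) (hβ n)
  set W : ℝ := ∑ n ∈ S, |z n| ^ 3 with hW
  have hW0 : 0 ≤ W := sum_nonneg fun n _ => by positivity
  have h2 : |B| ^ 3 ≤ (N : ℝ) ^ 2 * W := by
    have e1 : |B| ^ 3 ≤ (∑ n ∈ S, |z n|) ^ 3 := pow_le_pow_left₀ (abs_nonneg _) h1 3
    have e2 := inner_le_aux S (fun n => |z n|) (fun n _ => abs_nonneg _)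
    have e3 : (S.card : ℝ) ^ 2 * W ≤ (N : ℝ) ^ 2 * W :=
      mul_le_mul_of_nonneg_right (pow_le_pow_left₀ (by positivity) hcard 2) hW0
    exact (e1.trans e2).trans e3
  -- the cube
  obtain ⟨a, ha, hcube⟩ := cube_expand M α hα
  set σ : ℕ → ℝ := fun n => if 0 ≤ z n then 1 else -1 with hσ
  have hσ1 : ∀ n, |σ n| ≤ 1 := by
    intro n
    rw [hσ]
    simp only
    split_ifs <;> simp
  have hσz : ∀ n, |z n| ^ 3 = σ n * z n ^ 3 := by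
    intro n
    rw [hσ]
    simp only
    split_ifs with h
    · rw [abs_of_nonneg h, one_mul]
    · rw [abs_of_neg (not_le.mp h)]; ring
  have h3 : W = ∑ l ∈ Icc 1 (M ^ 3), a l * ∑ n ∈ S, σ n * ((jacobiSym (l : ℤ) n : ℤ) : ℝ) := by
    rw [hW, sum_congr rfl (fun n _ => hσz n)]
    have e1 : ∀ n ∈ S, σ n * z n ^ 3 =
        ∑ l ∈ Icc 1 (M ^ 3), σ n * (a l * ((jacobiSym (l : ℤ) n : ℤ) : ℝ)) := by
      intro n _
      rw [hz]
      simp only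
      rw [hcube n, mul_sum]
    rw [sum_congr rfl e1, sum_comm]
    refine sum_congr rfl fun l _ => ?_
    rw [mul_sum]
    refine sum_congr rfl fun n _ => ?_
    ring
  have h4 : W ^ 2 ≤ ((M : ℝ) ^ 3 * (1 + 3 * Real.log M) ^ 8) * (2 * N * (M : ℝ) ^ 3) := by
    rw [h3]
    refine (sum_mul_sq_le_sq_mul_sq _ _ _).trans ?_
    have e1 : ∑ l ∈ Icc 1 (M ^ 3), a l ^ 2 ≤ (M : ℝ) ^ 3 * (1 + 3 * Real.log M) ^ 8 := by
      have e2 := sum_tau3_sq (M ^ 3) (Nat.one_le_pow _ _ (by omega))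
      push_cast at e2
      rw [Real.log_pow] at e2
      push_cast at e2
      refine le_trans ?_ e2
      refine sum_le_sum fun l hl => ?_
      exact sq_le_sq' (by have := abs_le.mp (ha l hl); linarith [this.1])
        (abs_le.mp (ha l hl)).2
    have e3 := gram (M3 := M ^ 3) (N := N) (Nat.pow_le_pow_left hNM 3) σ hσ1 S
      (fun n hn => ⟨(mem_filter.mp hn).1, (mem_filter.mp hn).2.1, (mem_filter.mp hn).2.2⟩)
    push_cast at e3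
    exact mul_le_mul e1 e3 (sum_nonneg fun l _ => by positivity) (by positivity)
  have h5 : |B| ^ 6 ≤ 2 * (N : ℝ) ^ 5 * (M : ℝ) ^ 6 * (1 + 3 * Real.log M) ^ 8 := by
    have e1 : |B| ^ 6 = (|B| ^ 3) ^ 2 := by ring
    have e2 : (|B| ^ 3) ^ 2 ≤ ((N : ℝ) ^ 2 * W) ^ 2 := pow_le_pow_left₀ (by positivity) h2 2
    have e3 : ((N : ℝ) ^ 2 * W) ^ 2 = (N : ℝ) ^ 4 * W ^ 2 := by ring
    have e4 : (N : ℝ) ^ 4 * W ^ 2 ≤ (N : ℝ) ^ 4 *
        (((M : ℝ) ^ 3 * (1 + 3 * Real.log M) ^ 8) * (2 * N * (M : ℝ) ^ 3)) :=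
      mul_le_mul_of_nonneg_left h4 (by positivity)
    calc |B| ^ 6 = (|B| ^ 3) ^ 2 := e1
      _ ≤ ((N : ℝ) ^ 2 * W) ^ 2 := e2
      _ = (N : ℝ) ^ 4 * W ^ 2 := e3
      _ ≤ _ := e4
      _ = _ := by ring
  have h6 : (1 + 3 * Real.log M) ^ 8 ≤ 3 ^ 8 * (1 + Real.log M) ^ 12 := by
    have e1 : (1 + 3 * Real.log M) ^ 8 ≤ (3 * (1 + Real.log M)) ^ 8 :=
      pow_le_pow_left₀ (by positivity) (by linarith) 8
    have e2 : (1 + Real.log M) ^ 8 ≤ (1 + Real.log M) ^ 12 :=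
      pow_le_pow_right₀ (by linarith) (by norm_num)
    calc (1 + 3 * Real.log M) ^ 8 ≤ (3 * (1 + Real.log M)) ^ 8 := e1
      _ = 3 ^ 8 * (1 + Real.log M) ^ 8 := by ring
      _ ≤ _ := mul_le_mul_of_nonneg_left e2 (by norm_num)
  have hR : 0 ≤ 9 * (M : ℝ) * (N : ℝ) ^ ((5 : ℝ) / 6) * (1 + Real.log M) ^ 2 := by positivity
  refine le_of_pow_le_pow_left₀ (n := 6) (by norm_num) hR ?_
  have h7 : ((N : ℝ) ^ ((5 : ℝ) / 6)) ^ 6 = (N : ℝ) ^ 5 := by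
    rw [← Real.rpow_natCast, ← Real.rpow_mul hN0.le, ← Real.rpow_natCast]
    norm_num
  have h8 : (9 * (M : ℝ) * (N : ℝ) ^ ((5 : ℝ) / 6) * (1 + Real.log M) ^ 2) ^ 6 =
      9 ^ 6 * (M : ℝ) ^ 6 * (N : ℝ) ^ 5 * (1 + Real.log M) ^ 12 := by
    rw [mul_pow, mul_pow, mul_pow, h7]
    ring
  rw [h8]
  refine h5.trans ?_
  have h9 : 2 * (N : ℝ) ^ 5 * (M : ℝ) ^ 6 * (1 + 3 * Real.log M) ^ 8 ≤
      2 * (N : ℝ) ^ 5 * (M : ℝ) ^ 6 * (3 ^ 8 * (1 + Real.log M) ^ 12) :=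
    mul_le_mul_of_nonneg_left h6 (by positivity)
  refine h9.trans ?_
  have h10 : 0 ≤ (N : ℝ) ^ 5 * (M : ℝ) ^ 6 * (1 + Real.log M) ^ 12 := by positivity
  nlinarith

end Pool.Agent.SCT
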