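import Pool.Agent.SCT.Bil1

/-!
SCT module BIL2: bilinear sums of Jacobi symbols, both variables larger than `Z`.

Proof.  If `M ≤ Z` or `N ≤ Z`, the sum is zero (the supports are empty).  Otherwise `Z < M`, `Z < N`.
If `N ≤ M`: `bil1` and `N^(5/6) = N N^(-1/6) ≤ N Z^(-1/6)`.
If `M < N`: for odd `m`, `n` quadratic reciprocity (`jacobiSym.quadratic_reciprocity`, the version
with the sign) gives `(m/n) = (n/m)` unless `m ≡ n ≡ 3 mod 4`, and then `(m/n) = -(n/m)`, i.e.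
`(m/n) = (n/m) (1 - 2 [m ≡ 3] [n ≡ 3])`; so the sum is
`∑ β n α m (n/m) - 2 ∑ (β n [n ≡ 3]) (α m [m ≡ 3]) (n/m)`, and `bil1` with the roles exchanged
gives three times the bound.
-/

set_option linter.dupNamespace false

namespace Pool.Agent.SCT

open Finset

private theorem bil2_pow {N Z : ℕ} (hZ : 1 ≤ Z) (hZN : Z ≤ N) :
    (N : ℝ) ^ ((5 : ℝ) / 6) ≤ N * (Z : ℝ) ^ (-(1 : ℝ) / 6) := by
  have hZ0 : (0 : ℝ) < Z := by exact_mod_cast hZ
  have hN0 : (0 : ℝ) < N := lt_of_lt_of_le hZ0 (by exact_mod_cast hZN)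
  have h1 : (N : ℝ) ^ ((5 : ℝ) / 6) = N * (N : ℝ) ^ (-(1 : ℝ) / 6) := by
    conv_rhs => rw [← Real.rpow_one (N : ℝ)]
    rw [Real.rpow_one, ← Real.rpow_one_add' hN0.le (by norm_num)]
    norm_num
  rw [h1]
  apply mul_le_mul_of_nonneg_left _ hN0.le
  exact Real.rpow_le_rpow_of_nonpos hZ0 (by exact_mod_cast hZN) (by norm_num)

private theorem bil2_log {M N : ℕ} (hM : 1 ≤ M) (hN : 1 ≤ N) :
    (1 + Real.log M) ^ 2 ≤ (1 + Real.log (M * N)) ^ 2 := by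
  have hM1 : (1 : ℝ) ≤ M := by exact_mod_cast hM
  have hN1 : (1 : ℝ) ≤ N := by exact_mod_cast hN
  have h1 : 0 ≤ Real.log M := Real.log_nonneg hM1
  have h2 : 0 ≤ Real.log N := Real.log_nonneg hN1
  rw [Real.log_mul (by positivity) (by positivity)]
  apply pow_le_pow_left₀ (by positivity)
  linarith

private theorem bil2_recip {m n : ℕ} (hm : Odd m) (hn : Odd n) :
    ((jacobiSym (m : ℤ) n : ℤ) : ℝ) = ((jacobiSym (n : ℤ) m : ℤ) : ℝ)
      - 2 * ((if n % 4 = 3 then 1 else 0) * (if m % 4 = 3 then 1 else 0)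
        * ((jacobiSym (n : ℤ) m : ℤ) : ℝ)) := by
  have h := jacobiSym.quadratic_reciprocity_if (Nat.odd_iff.1 hm) (Nat.odd_iff.1 hn)
  rw [← h]
  by_cases h1 : m % 4 = 3
  · by_cases h2 : n % 4 = 3
    · rw [if_pos ⟨h1, h2⟩, if_pos h1, if_pos h2]
      push_cast
      ring
    · rw [if_neg (fun h3 => h2 h3.2), if_neg h2]
      ring
  · rw [if_neg (fun h3 => h1 h3.1), if_neg h1]
    ring

theorem bil2 : ∃ C : ℝ, 0 ≤ C ∧ ∀ M N Z : ℕ, 1 ≤ Z → ∀ α β : ℕ → ℝ,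
    (∀ m, |α m| ≤ 1) → (∀ n, |β n| ≤ 1) → (∀ m, α m ≠ 0 → Odd m ∧ Squarefree m ∧ Z < m) →
    (∀ n, β n ≠ 0 → Odd n ∧ Squarefree n ∧ Z < n) →
    |∑ m ∈ Icc 1 M, ∑ n ∈ Icc 1 N, α m * β n * ((jacobiSym (m : ℤ) n : ℤ) : ℝ)| ≤
      C * M * N * (Z : ℝ) ^ (-(1 : ℝ) / 6) * (1 + Real.log (M * N)) ^ 2 := by
  obtain ⟨C0, hC0, h⟩ := bil1
  refine ⟨3 * C0, by positivity, ?_⟩
  intro M N Z hZ α β hα hβ hα0 hβ0
  have hZ0 : (0 : ℝ) < Z := by exact_mod_cast hZ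
  have hR : 0 ≤ 3 * C0 * M * N * (Z : ℝ) ^ (-(1 : ℝ) / 6) * (1 + Real.log (M * N)) ^ 2 := by
    have := Real.rpow_nonneg hZ0.le (-(1 : ℝ) / 6)
    positivity
  rcases le_or_gt M Z with hMZ | hMZ
  · have h0 : ∑ m ∈ Icc 1 M, ∑ n ∈ Icc 1 N, α m * β n * ((jacobiSym (m : ℤ) n : ℤ) : ℝ) = 0 := by
      refine sum_eq_zero fun m hm => sum_eq_zero fun n _ => ?_
      have : α m = 0 := by
        by_contra hne
        have h1 := (hα0 m hne).2.2
        have h2 := (mem_Icc.1 hm).2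
        omega
      rw [this]
      ring
    rw [h0, abs_zero]
    exact hR
  rcases le_or_gt N Z with hNZ | hNZ
  · have h0 : ∑ m ∈ Icc 1 M, ∑ n ∈ Icc 1 N, α m * β n * ((jacobiSym (m : ℤ) n : ℤ) : ℝ) = 0 := by
      refine sum_eq_zero fun m _ => sum_eq_zero fun n hn => ?_
      have : β n = 0 := by
        by_contra hne
        have h1 := (hβ0 n hne).2.2
        have h2 := (mem_Icc.1 hn).2
        omega
      rw [this]
      ring
    rw [h0, abs_zero]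
    exact hR
  have hM1 : 1 ≤ M := by omega
  have hN1 : 1 ≤ N := by omega
  have hzp := Real.rpow_nonneg hZ0.le (-(1 : ℝ) / 6)
  rcases le_or_gt N M with hNM | hNM
  · refine (h M N hN1 hNM α β hα hβ (fun n hn => ⟨(hβ0 n hn).1, (hβ0 n hn).2.1⟩)).trans ?_
    have h1 : C0 * M * (N : ℝ) ^ ((5 : ℝ) / 6) * (1 + Real.log M) ^ 2
        ≤ C0 * M * (N * (Z : ℝ) ^ (-(1 : ℝ) / 6)) * (1 + Real.log (M * N)) ^ 2 := by
      apply mul_le_mul _ (bil2_log hM1 hN1) (by positivity) (by positivity)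
      exact mul_le_mul_of_nonneg_left (bil2_pow hZ hNZ.le) (by positivity)
    have h2 : 0 ≤ C0 * M * (N * (Z : ℝ) ^ (-(1 : ℝ) / 6)) * (1 + Real.log (M * N)) ^ 2 := by
      positivity
    have h3 : 3 * C0 * M * N * (Z : ℝ) ^ (-(1 : ℝ) / 6) * (1 + Real.log (M * N)) ^ 2
        = 3 * (C0 * M * (N * (Z : ℝ) ^ (-(1 : ℝ) / 6)) * (1 + Real.log (M * N)) ^ 2) := by ring
    rw [h3]
    linarith
  · -- reciprocity
    have hterm : ∀ m n : ℕ, α m * β n * ((jacobiSym (m : ℤ) n : ℤ) : ℝ)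
        = β n * α m * ((jacobiSym (n : ℤ) m : ℤ) : ℝ)
          - 2 * ((β n * (if n % 4 = 3 then 1 else 0)) * (α m * (if m % 4 = 3 then 1 else 0))
            * ((jacobiSym (n : ℤ) m : ℤ) : ℝ)) := by
      intro m n
      by_cases hm : α m = 0
      · rw [hm]; ring
      by_cases hn : β n = 0
      · rw [hn]; ring
      rw [bil2_recip (hα0 m hm).1 (hβ0 n hn).1]
      ring
    have hsum : ∑ m ∈ Icc 1 M, ∑ n ∈ Icc 1 N, α m * β n * ((jacobiSym (m : ℤ) n : ℤ) : ℝ)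
        = (∑ n ∈ Icc 1 N, ∑ m ∈ Icc 1 M, β n * α m * ((jacobiSym (n : ℤ) m : ℤ) : ℝ))
          - 2 * ∑ n ∈ Icc 1 N, ∑ m ∈ Icc 1 M, (β n * (if n % 4 = 3 then 1 else 0))
            * (α m * (if m % 4 = 3 then 1 else 0)) * ((jacobiSym (n : ℤ) m : ℤ) : ℝ) := by
      rw [sum_comm, mul_sum, ← sum_sub_distrib]
      refine sum_congr rfl fun n _ => ?_
      rw [mul_sum, ← sum_sub_distrib]
      exact sum_congr rfl fun m _ => hterm m n
    have hb : ∀ (γ : ℕ → ℝ), (∀ m, |γ m| ≤ 1) → ∀ m, |γ m * (if m % 4 = 3 then 1 else 0)| ≤ 1 := by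
      intro γ hγ m
      split_ifs
      · rw [mul_one]; exact hγ m
      · rw [mul_zero, abs_zero]; exact zero_le_one
    have e1 := h N M hM1 hNM.le β α hβ hα (fun n hn => ⟨(hα0 n hn).1, (hα0 n hn).2.1⟩)
    have e2 := h N M hM1 hNM.le (fun n => β n * (if n % 4 = 3 then 1 else 0))
      (fun m => α m * (if m % 4 = 3 then 1 else 0)) (hb β hβ) (hb α hα) (fun n hn => by
        have hne : α n ≠ 0 := left_ne_zero_of_mul hn
        exact ⟨(hα0 n hne).1, (hα0 n hne).2.1⟩)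
    have h1 : C0 * N * (M : ℝ) ^ ((5 : ℝ) / 6) * (1 + Real.log N) ^ 2
        ≤ C0 * N * (M * (Z : ℝ) ^ (-(1 : ℝ) / 6)) * (1 + Real.log (N * M)) ^ 2 := by
      apply mul_le_mul _ (bil2_log hN1 hM1) (by positivity) (by positivity)
      exact mul_le_mul_of_nonneg_left (bil2_pow hZ hMZ.le) (by positivity)
    have h3 : 3 * C0 * M * N * (Z : ℝ) ^ (-(1 : ℝ) / 6) * (1 + Real.log (M * N)) ^ 2
        = 3 * (C0 * N * (M * (Z : ℝ) ^ (-(1 : ℝ) / 6)) * (1 + Real.log (N * M)) ^ 2) := by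
      rw [mul_comm (M : ℝ) (N : ℝ)]
      ring
    rw [h3, hsum]
    refine (abs_sub _ _).trans ?_
    rw [abs_mul, abs_of_pos (by norm_num : (0 : ℝ) < 2)]
    linarith

end Pool.Agent.SCT
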