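import Pool.Agent.SCT.Defs
import Pool.Agent.SCT.SqField
import Pool.Agent.Helper19.Sec.Zeta

/-!
SCT module PAT2: the average number of patterns is less than one.

* `pat_den`: for every `i` let `K i` be the field of `nroots_le` for `F i`.  For large `q`:
  `(pat F i q).card ≤ nroots (F i) q ≤ rK (K i) q`, and if `rK L' q ≠ 0` then
  `(pat F i q).card ≤ 1 ≤ nroots (F i) q - 1`.  As `rK L' q ≤ [L' : ℚ]` (`rK_le` below),
  `(pat F i q).card ≤ rK (K i) q - rK L' q / [L' : ℚ]`, a nonnegative quantity.  Multiply by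
  `q^(-s)`, sum over the primes, use `rK_sum` (`Zeta.lean`) for `K i` and `L'`:
  `∑_{q ≤ Y} ≤ (1 - 1/[L' : ℚ]) log (1/(s-1)) + C0`, small primes contribute at most a constant
  (`(pat F i q).card ≤ 2^m`).  Take the maximum of the constants over `i`.
-/

set_option linter.dupNamespace false

namespace Pool.Agent.SCT

open Polynomial Finset Pool.Agent.Helper19.Sec

variable {ι : Type} [Fintype ι] [DecidableEq ι]

omit [DecidableEq ι] in
private lemma mem_pat {F : ι → ℤ[X]} {i : ι} {q : ℕ} {y : ι → ℤˣ} :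
    y ∈ pat F i q ↔ y ∈ patSet F i q := by
  unfold pat
  rw [Set.Finite.mem_toFinset]

private lemma card_pat_le (F : ι → ℤ[X]) (i : ι) (q : ℕ) (hq : q.Prime) :
    (pat F i q).card ≤ nroots (F i) q := by
  classical
  have : Fact q.Prime := ⟨hq⟩
  let g : {z : ZMod q // ((F i).map (Int.castRingHom (ZMod q))).eval z = 0} → (ι → ℤˣ) :=
    fun z j => if j = i then 1 else if IsSquare (((F j).leadingCoeff : ZMod q) *
      ((F j).map (Int.castRingHom (ZMod q))).eval z.1) then 1 else -1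
  have hsub : pat F i q ⊆ Finset.univ.image g := by
    intro y hy
    obtain ⟨t, ht, hyt⟩ := mem_pat.1 hy
    refine Finset.mem_image.2 ⟨⟨t, ht⟩, Finset.mem_univ _, ?_⟩
    funext j
    by_cases hj : j = i
    · simp only [g, if_pos hj]
      exact ((hyt j).1 hj).symm
    · by_cases hs : IsSquare (((F j).leadingCoeff : ZMod q) *
          ((F j).map (Int.castRingHom (ZMod q))).eval t)
      · simp only [g, if_neg hj, if_pos hs]
        exact (((hyt j).2 hj).2 hs).symm
      · simp only [g, if_neg hj, if_neg hs]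
        have h1 : y j ≠ 1 := fun h => hs (((hyt j).2 hj).1 h)
        rcases Int.units_eq_one_or (y j) with h | h
        · exact absurd h h1
        · exact h.symm
  calc (pat F i q).card ≤ (Finset.univ.image g).card := Finset.card_le_card hsub
    _ ≤ (Finset.univ : Finset {z : ZMod q //
        ((F i).map (Int.castRingHom (ZMod q))).eval z = 0}).card := Finset.card_image_le
    _ = nroots (F i) q := by
        unfold nroots
        rw [Nat.card_eq_fintype_card, Finset.card_univ]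

private lemma card_pat_le_one (F : ι → ℤ[X]) (i : ι) (q : ℕ)
    (h : ∀ t : ZMod q, ((F i).map (Int.castRingHom (ZMod q))).eval t = 0 → ∀ j, j ≠ i →
      IsSquare (((F j).leadingCoeff : ZMod q) *
        ((F j).map (Int.castRingHom (ZMod q))).eval t)) : (pat F i q).card ≤ 1 := by
  refine Finset.card_le_one.2 fun y hy y' hy' => ?_
  have key : ∀ y ∈ pat F i q, y = 1 := by
    intro y hy
    obtain ⟨t, ht, hyt⟩ := mem_pat.1 hy
    funext j
    by_cases hj : j = i
    · exact (hyt j).1 hj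
    · exact ((hyt j).2 hj).2 (h t ht j hj)
  rw [key y hy, key y' hy']

private lemma sum_le_tsum' {β : Type*} {f : β → ℝ} (hf : Summable f) (S : Finset β)
    (h : ∀ b, 0 ≤ f b) : ∑ b ∈ S, f b ≤ ∑' b, f b :=
  hf.sum_le_tsum S (fun b _ => h b)

/-- for a fixed index -/
private lemma pat_den_one (F : ι → ℤ[X]) (i : ι)
    (hirr : ∀ j, Irreducible ((F j).map (Int.castRingHom ℚ)))
    (L' : Type) [Field L'] [NumberField L'] (N2 n N3 : ℕ) (hn : 1 ≤ n)
    (hL : ∀ q : ℕ, q.Prime → N2 ≤ q → rK L' q ≠ 0 → ∀ i, 2 ≤ nroots (F i) q ∧ ∀ t : ZMod q,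
        ((F i).map (Int.castRingHom (ZMod q))).eval t = 0 → ∀ j, j ≠ i →
          IsSquare (((F j).leadingCoeff : ZMod q) *
            ((F j).map (Int.castRingHom (ZMod q))).eval t))
    (hL3 : ∀ q : ℕ, q.Prime → N3 ≤ q → rK L' q ≤ n) :
    ∃ C0 : ℝ, ∀ s : ℝ, 1 < s → s ≤ 2 → ∀ Y : ℕ,
      ∑ q ∈ (range (Y + 1)).filter Nat.Prime, ((pat F i q).card : ℝ) * (q : ℝ) ^ (-s) ≤
        (1 - 1 / (n : ℝ)) * Real.log (1 / (s - 1)) + C0 := by
  classical
  obtain ⟨K, _, _, N1, hK⟩ := nroots_le (F i) (hirr i)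
  obtain ⟨BK, hBK⟩ := rK_sum K
  obtain ⟨BL, hBL⟩ := rK_sum L'
  have hn0 : (0 : ℝ) < n := by exact_mod_cast hn
  set N : ℕ := max N1 (max N2 N3) with hN
  set M : ℝ := (Fintype.card (ι → ℤˣ) : ℝ) with hM
  let g : ℕ → ℝ := fun q => (rK K q : ℝ) - (rK L' q : ℝ) / n
  let D : ℕ → ℝ := fun q => if q < N then M + |g q| else 0
  have hD0 : ∀ q, 0 ≤ D q := by
    intro q
    simp only [D]
    split_ifs
    · positivity
    · exact le_rfl
  have hcard : ∀ q : ℕ, q.Prime → ((pat F i q).card : ℝ) ≤ g q + D q := by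
    intro q hq
    by_cases hqN : q < N
    · have h1 : ((pat F i q).card : ℝ) ≤ M := by
        rw [hM]
        exact_mod_cast Finset.card_le_univ _
      simp only [D, if_pos hqN]
      have := neg_abs_le (g q)
      linarith
    · simp only [D, if_neg hqN, add_zero]
      have hqN' : N ≤ q := not_lt.1 hqN
      have h1 : nroots (F i) q ≤ rK K q := hK q hq ((le_max_left _ _).trans hqN')
      have h2 : rK L' q ≤ n := hL3 q hq
        (((le_max_right _ _).trans (le_max_right _ _)).trans hqN')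
      have h3 := card_pat_le F i q hq
      simp only [g]
      by_cases hr : rK L' q = 0
      · rw [hr]
        simp only [Nat.cast_zero, zero_div, sub_zero]
        exact_mod_cast h3.trans h1
      · obtain ⟨h4, h5⟩ := hL q hq (((le_max_left _ _).trans (le_max_right _ _)).trans hqN') hr i
        have h6 := card_pat_le_one F i q h5
        have h7 : (rK L' q : ℝ) / n ≤ 1 := by
          rw [div_le_one hn0]
          exact_mod_cast h2
        have h8 : ((pat F i q).card : ℝ) + 1 ≤ rK K q := by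
          have : (pat F i q).card + 1 ≤ rK K q := by omega
          exact_mod_cast this
        linarith
  let T : Finset Nat.Primes := Finset.subtype Nat.Prime (range N)
  refine ⟨BK + BL / n + ∑ q ∈ T, D q, fun s hs hs2 Y => ?_⟩
  obtain ⟨sK, bK⟩ := hBK s hs hs2
  obtain ⟨sL, bL⟩ := hBL s hs hs2
  have hg : Summable (fun p : Nat.Primes => g p * ((p : ℕ) : ℝ) ^ (-s)) := by
    have := sK.sub (sL.div_const (n : ℝ))
    refine this.congr fun p => ?_
    simp only [g]
    ring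
  have hgs : ∑' p : Nat.Primes, g p * ((p : ℕ) : ℝ) ^ (-s) =
      (∑' p : Nat.Primes, (rK K p : ℝ) * ((p : ℕ) : ℝ) ^ (-s)) -
      (∑' p : Nat.Primes, (rK L' p : ℝ) * ((p : ℕ) : ℝ) ^ (-s)) / n := by
    rw [← tsum_div_const, ← sK.tsum_sub (sL.div_const (n : ℝ))]
    refine tsum_congr fun p => ?_
    simp only [g]
    ring
  have hDz : ∀ p ∉ T, D p * ((p : ℕ) : ℝ) ^ (-s) = 0 := by
    intro p hp
    have h1 : ¬ (p : ℕ) < N := fun h => hp (Finset.mem_subtype.2 (Finset.mem_range.2 h))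
    simp only [D, if_neg h1, zero_mul]
  have hDs : Summable (fun p : Nat.Primes => D p * ((p : ℕ) : ℝ) ^ (-s)) :=
    summable_of_ne_finset_zero hDz
  have hDt : ∑' p : Nat.Primes, D p * ((p : ℕ) : ℝ) ^ (-s) ≤ ∑ q ∈ T, D q := by
    rw [tsum_eq_sum hDz]
    refine Finset.sum_le_sum fun p _ => ?_
    refine mul_le_of_le_one_right (hD0 _) ?_
    exact Real.rpow_le_one_of_one_le_of_nonpos (by exact_mod_cast p.2.one_lt.le) (by linarith)
  have hnn : ∀ q : ℕ, q.Prime → 0 ≤ g q + D q := fun q hq =>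
    (Nat.cast_nonneg _).trans (hcard q hq)
  have h1 : ∑ q ∈ (range (Y + 1)).filter Nat.Prime, ((pat F i q).card : ℝ) * (q : ℝ) ^ (-s) ≤
      ∑ q ∈ (range (Y + 1)).filter Nat.Prime, (g q + D q) * (q : ℝ) ^ (-s) := by
    refine Finset.sum_le_sum fun q hq => ?_
    exact mul_le_mul_of_nonneg_right (hcard q (Finset.mem_filter.1 hq).2) (by positivity)
  have h2 : ∑ q ∈ (range (Y + 1)).filter Nat.Prime, (g q + D q) * (q : ℝ) ^ (-s) =
      ∑ p ∈ Finset.subtype Nat.Prime ((range (Y + 1)).filter Nat.Prime),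
        (g (p : ℕ) + D (p : ℕ)) * ((p : ℕ) : ℝ) ^ (-s) := by
    rw [Finset.sum_subtype_of_mem (fun q : ℕ => (g q + D q) * (q : ℝ) ^ (-s))
      (fun q hq => (Finset.mem_filter.1 hq).2)]
  have hgD : Summable (fun p : Nat.Primes => (g p + D p) * ((p : ℕ) : ℝ) ^ (-s)) := by
    refine (hg.add hDs).congr fun p => ?_
    ring
  have h3 : ∑ p ∈ Finset.subtype Nat.Prime ((range (Y + 1)).filter Nat.Prime),
        (g (p : ℕ) + D (p : ℕ)) * ((p : ℕ) : ℝ) ^ (-s) ≤
      ∑' p : Nat.Primes, (g p + D p) * ((p : ℕ) : ℝ) ^ (-s) :=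
    sum_le_tsum' hgD _ fun p => mul_nonneg (hnn p p.2) (by positivity)
  have h4 : ∑' p : Nat.Primes, (g p + D p) * ((p : ℕ) : ℝ) ^ (-s) =
      ∑' p : Nat.Primes, g p * ((p : ℕ) : ℝ) ^ (-s) +
      ∑' p : Nat.Primes, D p * ((p : ℕ) : ℝ) ^ (-s) := by
    rw [← hg.tsum_add hDs]
    exact tsum_congr fun p => by ring
  rw [abs_le] at bK bL
  have h5 : (Real.log (1 / (s - 1)) - BL) / n ≤
      (∑' p : Nat.Primes, (rK L' p : ℝ) * ((p : ℕ) : ℝ) ^ (-s)) / n :=
    div_le_div_of_nonneg_right (by linarith [bL.1]) hn0.le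
  have h6 : (1 - 1 / (n : ℝ)) * Real.log (1 / (s - 1)) =
      Real.log (1 / (s - 1)) - Real.log (1 / (s - 1)) / n := by ring
  rw [sub_div] at h5
  rw [h6]
  linarith [bK.2]

theorem pat_den (F : ι → ℤ[X]) (hirr : ∀ j, Irreducible ((F j).map (Int.castRingHom ℚ)))
    (hdeg : ∀ j, 2 ≤ (F j).natDegree) :
    ∃ δ C0 : ℝ, 0 < δ ∧ δ ≤ 1 ∧ ∀ i, ∀ s : ℝ, 1 < s → s ≤ 2 → ∀ Y : ℕ,
      ∑ q ∈ (range (Y + 1)).filter Nat.Prime, ((pat F i q).card : ℝ) * (q : ℝ) ^ (-s) ≤
        (1 - δ) * Real.log (1 / (s - 1)) + C0 := by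
  obtain ⟨L', _, _, N2, hL⟩ := sqField F hirr hdeg
  obtain ⟨n, N3, hn, hL3⟩ := rK_le L'
  have hone := fun i => pat_den_one F i hirr L' N2 n N3 hn hL hL3
  choose C hC using hone
  have hn0 : (0 : ℝ) < n := by exact_mod_cast hn
  refine ⟨1 / n, ∑ i, |C i|, by positivity, ?_, fun i s hs hs2 Y => ?_⟩
  · rw [div_le_one hn0]
    exact_mod_cast hn
  · have h1 := hC i s hs hs2 Y
    have h2 : C i ≤ ∑ i, |C i| := (le_abs_self _).trans
      (Finset.single_le_sum (f := fun i => |C i|) (fun i _ => abs_nonneg _) (Finset.mem_univ i))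
    linarith

end Pool.Agent.SCT
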