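import Pool.Agent.SCT.Defs
import Pool.Agent.Helper4.ST.PrimeSieve

/-!
SCT module CMP: incomplete sums of Jacobi symbols.

For `n1 ≠ n2` odd and squarefree, `l ↦ jacobiSym l (n1 n2)` is periodic modulo `n1 n2`, bounded by
one, and its sum over a period is zero: choose a prime `p` dividing exactly one of `n1`, `n2` (so
`p` exactly divides `n1 n2`; `p` is odd), and by CRT `b` with `(b/p) = -1`, `b ≡ 1` modulo
`n1 n2 / p`; then `jacobiSym b (n1 n2) = -1` and multiplication by `b` permutes the residues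
prime to `n1 n2` (all other residues contribute zero), so the sum equals its negative.
A similar statement for another argument is in `Pool/Agent/Helper4/ST/JacobiAvg.lean`
(`abs_sum_G_le`, `exists_jacobi_neg_one`).
-/

set_option linter.dupNamespace false

namespace Pool.Agent.SCT

open Finset
open scoped NumberTheorySymbols

/-- an integer with symbol `-1` modulo `p t`, `p` an odd prime not dividing `t` -/
theorem CMPexists_neg {p t : ℕ} (hp : p.Prime) (hp2 : p ≠ 2) (hpt : p.Coprime t) (ht : t ≠ 0) :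
    ∃ b : ℕ, J((b : ℤ) | p * t) = -1 := by
  have hpF : Fact p.Prime := ⟨hp⟩
  obtain ⟨u, hu⟩ : ∃ u : ZMod p, ¬ IsSquare u := by
    apply FiniteField.exists_nonsquare
    rw [ZMod.ringChar_zmod_n]
    exact hp2
  obtain ⟨r, hr1, hr2⟩ := Nat.chineseRemainder hpt u.val 1
  refine ⟨r, ?_⟩
  rw [jacobiSym.mul_right' _ hp.ne_zero ht]
  have h1 : J((r : ℤ) | p) = -1 := by
    rw [← jacobiSym.legendreSym.to_jacobiSym, legendreSym.eq_neg_one_iff]
    have h2 : (((r : ℕ) : ℤ) : ZMod p) = u := by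
      have h3 : ((r : ℕ) : ZMod p) = ((u.val : ℕ) : ZMod p) :=
        (ZMod.natCast_eq_natCast_iff _ _ _).2 hr1
      rw [Int.cast_natCast, h3, ZMod.natCast_zmod_val]
    rw [h2]
    exact hu
  have h2 : J((r : ℤ) | t) = 1 := by
    have h5 : ((r : ℕ) : ℤ) % (t : ℤ) = (1 : ℤ) % (t : ℤ) := by
      exact_mod_cast hr2
    rw [jacobiSym.mod_left' h5, jacobiSym.one_left]
  rw [h1, h2]
  norm_num

/-- splitting off a prime which divides the product exactly once -/
theorem CMPsplit {n1 n2 : ℕ} (hs1 : Squarefree n1) {p : ℕ} (hp : p.Prime) (h1 : p ∣ n1)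
    (h2 : ¬ p ∣ n2) : ∃ t, n1 * n2 = p * t ∧ p.Coprime t := by
  obtain ⟨k, rfl⟩ := h1
  refine ⟨k * n2, by ring, ?_⟩
  exact Nat.Coprime.mul_right (Nat.squarefree_mul_iff.1 hs1).1 ((Nat.Prime.coprime_iff_not_dvd hp).2 h2)

theorem complete_sum {n1 n2 : ℕ} (h1 : Odd n1) (h2 : Odd n2) (hs1 : Squarefree n1)
    (hs2 : Squarefree n2) (hne : n1 ≠ n2) (L : ℕ) :
    |∑ l ∈ Icc 1 L, ((jacobiSym (l : ℤ) (n1 * n2) : ℤ) : ℝ)| ≤ (n1 : ℝ) * n2 := by
  have hn1 : n1 ≠ 0 := by
    rintro rfl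
    simp at h1
  have hn2 : n2 ≠ 0 := by
    rintro rfl
    simp at h2
  have hN : NeZero (n1 * n2) := ⟨mul_ne_zero hn1 hn2⟩
  have hM1 : 1 < n1 * n2 := by
    by_contra hcon
    have h3 : n1 * n2 = 1 := by
      have := Nat.pos_of_ne_zero (mul_ne_zero hn1 hn2)
      omega
    have h4 := Nat.eq_one_of_mul_eq_one_right h3
    have h5 := Nat.eq_one_of_mul_eq_one_left h3
    omega
  -- an element with symbol -1
  obtain ⟨p, t, hp, hM, hcop⟩ : ∃ p t, p.Prime ∧ n1 * n2 = p * t ∧ p.Coprime t := by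
    have h3 : ¬ ∀ p, p.Prime → (p ∣ n1 ↔ p ∣ n2) := fun h => hne ((Nat.Squarefree.ext_iff hs1 hs2).2 h)
    push Not at h3
    obtain ⟨p, hp, h4⟩ := h3
    rcases h4 with ⟨h5, h6⟩ | ⟨h5, h6⟩
    · obtain ⟨t, ht, hc⟩ := CMPsplit hs1 hp h5 h6
      exact ⟨p, t, hp, ht, hc⟩
    · obtain ⟨t, ht, hc⟩ := CMPsplit hs2 hp h6 h5
      exact ⟨p, t, hp, by rw [mul_comm]; exact ht, hc⟩
  have hodd : Odd (n1 * n2) := h1.mul h2
  have hp2 : p ≠ 2 := by
    rintro rfl
    rw [hM] at hodd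
    exact (Nat.not_even_iff_odd.2 hodd) (even_iff_two_dvd.2 (dvd_mul_right 2 t))
  have ht0 : t ≠ 0 := by
    rintro rfl
    rw [mul_zero] at hM
    exact mul_ne_zero hn1 hn2 hM
  obtain ⟨b, hb⟩ := CMPexists_neg hp hp2 hcop ht0
  rw [← hM] at hb
  -- the periodic function
  set F : ZMod (n1 * n2) → ℂ := fun a => ((J((a.val : ℤ) | n1 * n2) : ℤ) : ℂ) with hF
  have hFn : ∀ l : ℕ, F (l : ZMod (n1 * n2)) = ((J((l : ℤ) | n1 * n2) : ℤ) : ℂ) := by
    intro l
    rw [hF]
    simp only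
    rw [ZMod.val_natCast]
    congr 1
    rw [jacobiSym.mod_left ((l : ℕ) : ℤ) (n1 * n2)]
    push_cast
    rfl
  have hunit : IsUnit (b : ZMod (n1 * n2)) := by
    rw [ZMod.isUnit_iff_coprime]
    by_contra h
    have h3 : ((b : ℤ)).gcd ((n1 * n2 : ℕ) : ℤ) ≠ 1 := by
      rw [Int.gcd_natCast_natCast]
      exact h
    have := jacobiSym.eq_zero_iff_not_coprime.2 h3
    rw [hb] at this
    norm_num at this
  obtain ⟨u, hu⟩ := hunit
  have hmul : ∀ a : ZMod (n1 * n2), F (a * u) = - F a := by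
    intro a
    have h3 : a * u = ((a.val * b : ℕ) : ZMod (n1 * n2)) := by
      push_cast
      rw [ZMod.natCast_zmod_val, hu]
    rw [h3, hFn]
    have h4 : F a = ((J((a.val : ℤ) | n1 * n2) : ℤ) : ℂ) := rfl
    rw [h4]
    push_cast
    rw [jacobiSym.mul_left, hb]
    push_cast
    ring
  have h0 : ∑ a : ZMod (n1 * n2), F a = 0 := by
    have h3 : ∑ a : ZMod (n1 * n2), F (a * u) = ∑ a : ZMod (n1 * n2), F a :=
      Equiv.sum_comp (Units.mulRight u) F
    rw [Finset.sum_congr rfl fun a _ => hmul a, Finset.sum_neg_distrib] at h3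
    have : (2 : ℂ) * ∑ a : ZMod (n1 * n2), F a = 0 := by linear_combination -h3
    simpa using this
  have hle : ∀ a, ‖F a‖ ≤ 1 := by
    intro a
    rw [hF]
    simp only
    rw [Complex.norm_intCast]
    rcases jacobiSym.trichotomy (a.val : ℤ) (n1 * n2) with h | h | h <;> rw [h] <;> norm_num
  have h3 := Pool.Agent.Helper4.ST.norm_sum_range_le F h0 hle (L + 1)
  have h4 : ∑ l ∈ range (L + 1), F (l : ZMod (n1 * n2)) =
      ((∑ l ∈ Icc 1 L, ((jacobiSym (l : ℤ) (n1 * n2) : ℤ) : ℝ) : ℝ) : ℂ) := by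
    rw [Finset.sum_congr rfl fun l _ => hFn l, Finset.sum_range_eq_add_Ico _ (by omega)]
    push_cast
    rw [jacobiSym.zero_left (by exact_mod_cast hM1)]
    have h5 : Ico 1 (L + 1) = Icc 1 L := by
      ext x
      simp only [mem_Ico, mem_Icc]
      omega
    rw [h5]
    push_cast
    ring
  rw [h4, Complex.norm_real, Real.norm_eq_abs] at h3
  push_cast at h3
  exact h3

end Pool.Agent.SCT
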