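import Mathlib

/-!
SCT module SPLIT: a sum over a product set, with two coordinates split off.

Proof.  `Finset.sum_sigma`/`Finset.sum_product'` and `Finset.sum_bij'` (or `Finset.sum_nbij'`): `D`
corresponds to `R = update (update D v0 1) w0 1`, `m = D w0`, `n = D v0`.
-/

set_option linter.dupNamespace false

namespace Pool.Agent.SCT

open Finset

/-- splitting off two variables -/
theorem split2 {W : Type} [Fintype W] [DecidableEq W] (s : W → Finset ℕ) (v0 w0 : W) (h : v0 ≠ w0)
    (F : (W → ℕ) → ℝ) :
    ∑ D ∈ Fintype.piFinset s, F D =
      ∑ R ∈ Fintype.piFinset (fun u => if u = v0 ∨ u = w0 then ({1} : Finset ℕ) else s u),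
        ∑ m ∈ s w0, ∑ n ∈ s v0, F (Function.update (Function.update R v0 n) w0 m) := by
  have h1 : ∀ R : W → ℕ, ∑ m ∈ s w0, ∑ n ∈ s v0, F (Function.update (Function.update R v0 n) w0 m)
      = ∑ x ∈ s w0 ×ˢ s v0, F (Function.update (Function.update R v0 x.2) w0 x.1) := by
    intro R
    rw [Finset.sum_product]
  simp only [h1]
  rw [← Finset.sum_product' (f := fun (R : W → ℕ) (x : ℕ × ℕ) =>
    F (Function.update (Function.update R v0 x.2) w0 x.1))]
  refine Finset.sum_nbij'
    (fun D => (Function.update (Function.update D v0 1) w0 1, D w0, D v0))
    (fun y => Function.update (Function.update y.1 v0 y.2.2) w0 y.2.1) ?_ ?_ ?_ ?_ ?_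
  · intro D hD
    rw [Fintype.mem_piFinset] at hD
    simp only [Finset.mem_product, Fintype.mem_piFinset]
    refine ⟨fun u => ?_, hD w0, hD v0⟩
    by_cases hu : u = w0
    · subst hu; simp
    · rw [Function.update_of_ne hu]
      by_cases hv : u = v0
      · subst hv; simp
      · rw [Function.update_of_ne hv]
        simp only [hu, hv, or_self, if_false]
        exact hD u
  · intro y hy
    simp only [Finset.mem_product, Fintype.mem_piFinset] at hy
    obtain ⟨h2, h3, h4⟩ := hy
    rw [Fintype.mem_piFinset]
    intro u
    by_cases hu : u = w0
    · subst hu; simpa using h3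
    · rw [Function.update_of_ne hu]
      by_cases hv : u = v0
      · subst hv; simpa using h4
      · rw [Function.update_of_ne hv]
        have := h2 u
        simpa only [hu, hv, or_self, if_false] using this
  · intro D _
    funext u
    by_cases hu : u = w0
    · subst hu; simp
    · simp only [Function.update_of_ne hu]
      by_cases hv : u = v0
      · subst hv; simp
      · simp only [Function.update_of_ne hv, Function.update_of_ne hu]
  · intro y hy
    simp only [Finset.mem_product, Fintype.mem_piFinset] at hy
    obtain ⟨h2, h3, h4⟩ := hy
    refine Prod.ext ?_ (Prod.ext ?_ ?_)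
    · funext u
      simp only
      by_cases hu : u = w0
      · subst hu
        have := h2 u
        simp only [or_true, if_true, Finset.mem_singleton] at this
        simp [this]
      · simp only [Function.update_of_ne hu]
        by_cases hv : u = v0
        · subst hv
          have := h2 u
          simp only [true_or, if_true, Finset.mem_singleton] at this
          simp [this]
        · simp only [Function.update_of_ne hv, Function.update_of_ne hu]
    · simp
    · simp [Function.update_of_ne h]
  · intro D _
    congr 1
    funext u
    by_cases hu : u = w0
    · subst hu; simp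
    · simp only [Function.update_of_ne hu]
      by_cases hv : u = v0
      · subst hv; simp
      · simp only [Function.update_of_ne hv, Function.update_of_ne hu]

end Pool.Agent.SCT
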