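import Pool.Agent.SCT.Sep
import Pool.Agent.SCT.Split
import Pool.Agent.SCT.Bil2

/-!
SCT module LNK: the contribution of a linked pair of large variables in a dyadic box.

Proof.  By symmetry (`Linked` is symmetric) let `w0.i ∈ v0.A`, `v0.i ∉ w0.A`; then
`i0 := v0.i ≠ j0 := w0.i` (`w0.i ∈ v0.A`, `v0.i ∉ v0.A`).
(1) Splitting (`split2`): every `D` is `update (update R v0 n) w0 m` with `R v0 = R w0 = 1`,
`n = D v0`, `m = D w0`.  The conditions `D ∈ vbox k`, `large Z D = U` become: conditions on `R`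
(for the other variables and the blocks `l ≠ i0, j0`), `Z < n`, `n ≤ 2^(k i0 + 1)`,
`2^(k i0) ≤ n * P < 2^(k i0 + 1)`, where `P = P(R) = ∏_{u.i = i0, u ≠ v0} R u`, and
`Z < m`, `m ≤ 2^(k j0 + 1)`, `2^(k j0) ≤ m * Q < 2^(k j0 + 1)`, `Q = ∏_{u.i = j0, u ≠ w0} R u`
(no condition involves both `m` and `n`).
(2) With `phi_sep`, for fixed `R` the sum over `m`, `n` is `Γ ∑_{m ≤ M} ∑_{n ≤ N} α m β n (m/n)`,
`α m = a m * [conditions on m]`, `β n = b n * [conditions on n]`,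
`M = 2^(k j0 + 1) / Q`, `N = 2^(k i0 + 1) / P` (natural division).  `Good` with `2 ≤ B` implies odd
and squarefree.  `bil2` bounds it by
`C M N Z^(-1/6) (1 + log (M N))^2 ≤ C 2^(k i0 + 1) 2^(k j0 + 1) / (P Q) Z^(-1/6) (1 + 2 ∑ k + 2)^2`.
(3) Sum over `R`: for a block `l ≠ i0, j0` use `1 ≤ 2^(k l + 1) / ∏_{u.i = l} R u`; hence the total is
at most `C ∏_l 2^(k l + 1) Z^(-1/6) (..)^2 ∑_R ∏_{u ≠ v0, w0} 1 / R u`, and
`∑_R ∏ 1 / R u ≤ ∏_u (∑_{1 ≤ n ≤ 2^(k u.i + 1)} 1/n) ≤ (1 + (1 + ∑ k) log 2)^|V|`.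
-/

set_option linter.dupNamespace false

namespace Pool.Agent.SCT

open Finset

variable {ι : Type} [Fintype ι] [DecidableEq ι]

theorem blk_update (R : Idx ι → ℕ) (v0 : Idx ι) (n : ℕ) (h : R v0 = 1) (i : ι) :
    blk (Function.update R v0 n) i = (if v0.i = i then n else 1) * blk R i := by
  unfold blk
  split_ifs with hi
  · have hm : v0 ∈ univ.filter (fun v : Idx ι => v.i = i) := by
      rw [mem_filter]
      exact ⟨mem_univ _, hi⟩
    rw [prod_update_of_mem hm, ← mul_prod_erase _ R hm, h, one_mul, sdiff_singleton_eq_erase]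
  · have hm : v0 ∉ univ.filter (fun v : Idx ι => v.i = i) := by
      rw [mem_filter]
      exact fun h => hi h.2
    rw [prod_update_of_notMem hm, one_mul]

theorem good_odd {B n : ℕ} (hB : 2 ≤ B) (h : Good B n) : Odd n ∧ Squarefree n := by
  refine ⟨?_, h.1⟩
  rw [← Nat.not_even_iff_odd]
  intro he
  have := h.2 2 Nat.prime_two he.two_dvd
  omega

/-- the inner sum -/
theorem lnk_inner (X : CData ι) {C : ℝ} (hC0 : 0 ≤ C)
    (hC : ∀ M N Z : ℕ, 1 ≤ Z → ∀ α β : ℕ → ℝ,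
      (∀ m, |α m| ≤ 1) → (∀ n, |β n| ≤ 1) → (∀ m, α m ≠ 0 → Odd m ∧ Squarefree m ∧ Z < m) →
      (∀ n, β n ≠ 0 → Odd n ∧ Squarefree n ∧ Z < n) →
      |∑ m ∈ Icc 1 M, ∑ n ∈ Icc 1 N, α m * β n * ((jacobiSym (m : ℤ) n : ℤ) : ℝ)| ≤
        C * M * N * (Z : ℝ) ^ (-(1 : ℝ) / 6) * (1 + Real.log (M * N)) ^ 2)
    (v0 w0 : Idx ι) (h1 : w0.i ∈ v0.A) (h2 : v0.i ∉ w0.A) (k : ι → ℕ) (U : Finset (Idx ι))
    (Z : ℕ) (hZ : 1 ≤ Z) (hv : v0 ∈ U) (hw : w0 ∈ U) (R : Idx ι → ℕ) (hRv : R v0 = 1)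
    (hRw : R w0 = 1) (hR : ∀ u, 1 ≤ R u) :
    |∑ m ∈ Icc 1 (2 ^ (k w0.i + 1)), ∑ n ∈ Icc 1 (2 ^ (k v0.i + 1)),
      (fun D : Idx ι → ℕ => if (∀ i, 2 ^ (k i) ≤ blk D i ∧ blk D i < 2 ^ (k i + 1)) ∧
        large Z D = U then X.Phi D else 0) (Function.update (Function.update R v0 n) w0 m)| ≤
      C * (Z : ℝ) ^ (-(1 : ℝ) / 6) * (9 * (1 + ((∑ i, k i : ℕ) : ℝ)) ^ 2) *
        ((∏ i, (2 : ℝ) ^ (k i + 1)) * ∏ u, (1 / (R u : ℝ))) := by
  classical
  set K : ℝ := ((∑ i, k i : ℕ) : ℝ) with hK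
  have hK0 : 0 ≤ K := Nat.cast_nonneg _
  have hZp : (0 : ℝ) ≤ (Z : ℝ) ^ (-(1 : ℝ) / 6) := Real.rpow_nonneg (Nat.cast_nonneg _) _
  have hij : v0.i ≠ w0.i := fun h => v0.2 (by
    show v0.i ∈ v0.A
    rw [h]
    exact h1)
  have hne : v0 ≠ w0 := fun h => hij (by rw [h])
  have hRr : ∀ u, (0 : ℝ) < R u := fun u => by exact_mod_cast hR u
  have hrhs : 0 ≤ C * (Z : ℝ) ^ (-(1 : ℝ) / 6) * (9 * (1 + K) ^ 2) *
        ((∏ i, (2 : ℝ) ^ (k i + 1)) * ∏ u, (1 / (R u : ℝ))) := by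
    have h5 : 0 ≤ ∏ u, (1 / (R u : ℝ)) := prod_nonneg fun u _ => by
      have := hRr u
      positivity
    have h6 : 0 ≤ ∏ i, (2 : ℝ) ^ (k i + 1) := prod_nonneg fun u _ => by positivity
    positivity
  have hupd : ∀ m n : ℕ, ∀ u, Function.update (Function.update R v0 n) w0 m u =
      if u = w0 then m else if u = v0 then n else R u := by
    intro m n u
    by_cases hu : u = w0
    · subst hu
      simp
    · rw [Function.update_of_ne hu, if_neg hu]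
      by_cases hu2 : u = v0
      · subst hu2
        simp
      · rw [Function.update_of_ne hu2, if_neg hu2]
  have hblk : ∀ m n : ℕ, ∀ i, blk (Function.update (Function.update R v0 n) w0 m) i =
      (if w0.i = i then m else 1) * ((if v0.i = i then n else 1) * blk R i) := by
    intro m n i
    rw [blk_update _ _ _ (by rw [Function.update_of_ne hne.symm]; exact hRw), blk_update _ _ _ hRv]
  -- the conditions
  by_cases hcR : (∀ i, i ≠ v0.i → i ≠ w0.i → 2 ^ (k i) ≤ blk R i ∧ blk R i < 2 ^ (k i + 1)) ∧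
      ∀ u, u ≠ v0 → u ≠ w0 → (Z < R u ↔ u ∈ U)
  swap
  · have h0 : ∀ m n : ℕ, (fun D : Idx ι → ℕ =>
        if (∀ i, 2 ^ (k i) ≤ blk D i ∧ blk D i < 2 ^ (k i + 1)) ∧
        large Z D = U then X.Phi D else 0) (Function.update (Function.update R v0 n) w0 m) = 0 := by
      intro m n
      refine if_neg fun hc => hcR ⟨?_, ?_⟩
      · intro i hi1 hi2
        have := hc.1 i
        rw [hblk, if_neg hi1.symm, if_neg hi2.symm, one_mul, one_mul] at this
        exact this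
      · intro u hu1 hu2
        have h5 := hc.2
        have h6 : u ∈ large Z (Function.update (Function.update R v0 n) w0 m) ↔ u ∈ U := by
          rw [h5]
        unfold large at h6
        rw [mem_filter, hupd, if_neg hu2, if_neg hu1] at h6
        simpa using h6
    rw [sum_eq_zero fun m _ => sum_eq_zero fun n _ => h0 m n, abs_zero]
    exact hrhs
  obtain ⟨hc1, hc2⟩ := hcR
  obtain ⟨Γ, a, b, hΓ, ha, hb, hga, hgb, hphi⟩ := phi_sep X v0 w0 h1 h2 R
  set P : ℕ := blk R v0.i with hP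
  set Q : ℕ := blk R w0.i with hQ
  have hP1 : 1 ≤ P := Nat.one_le_iff_ne_zero.2 (prod_ne_zero_iff.2 fun u _ => by
    have := hR u
    omega)
  have hQ1 : 1 ≤ Q := Nat.one_le_iff_ne_zero.2 (prod_ne_zero_iff.2 fun u _ => by
    have := hR u
    omega)
  set α : ℕ → ℝ := fun m => if 2 ^ (k w0.i) ≤ m * Q ∧ m * Q < 2 ^ (k w0.i + 1) ∧ Z < m then a m
    else 0 with hα
  set β : ℕ → ℝ := fun n => if 2 ^ (k v0.i) ≤ n * P ∧ n * P < 2 ^ (k v0.i + 1) ∧ Z < n then b n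
    else 0 with hβ
  have hF : ∀ m n : ℕ, (fun D : Idx ι → ℕ =>
        if (∀ i, 2 ^ (k i) ≤ blk D i ∧ blk D i < 2 ^ (k i + 1)) ∧
        large Z D = U then X.Phi D else 0) (Function.update (Function.update R v0 n) w0 m) =
      Γ * (α m * β n * ((jacobiSym (m : ℤ) n : ℤ) : ℝ)) := by
    intro m n
    have hiff : ((∀ i, 2 ^ (k i) ≤ blk (Function.update (Function.update R v0 n) w0 m) i ∧
        blk (Function.update (Function.update R v0 n) w0 m) i < 2 ^ (k i + 1)) ∧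
        large Z (Function.update (Function.update R v0 n) w0 m) = U) ↔
        (2 ^ (k w0.i) ≤ m * Q ∧ m * Q < 2 ^ (k w0.i + 1) ∧ Z < m) ∧
        (2 ^ (k v0.i) ≤ n * P ∧ n * P < 2 ^ (k v0.i + 1) ∧ Z < n) := by
      constructor
      · rintro ⟨h5, h6⟩
        have e1 := h5 w0.i
        rw [hblk, if_pos rfl, if_neg hij, one_mul] at e1
        have e2 := h5 v0.i
        rw [hblk, if_pos rfl, if_neg hij.symm, one_mul] at e2
        have e3 : w0 ∈ large Z (Function.update (Function.update R v0 n) w0 m) := by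
          rw [h6]; exact hw
        have e4 : v0 ∈ large Z (Function.update (Function.update R v0 n) w0 m) := by
          rw [h6]; exact hv
        unfold large at e3 e4
        rw [mem_filter, hupd] at e3 e4
        rw [if_pos rfl] at e3
        rw [if_neg hne, if_pos rfl] at e4
        exact ⟨⟨e1.1, e1.2, e3.2⟩, e2.1, e2.2, e4.2⟩
      · rintro ⟨⟨e1, e2, e3⟩, e4, e5, e6⟩
        refine ⟨fun i => ?_, ?_⟩
        · rw [hblk]
          by_cases hi : w0.i = i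
          · subst hi
            rw [if_pos rfl, if_neg hij, one_mul]
            exact ⟨e1, e2⟩
          · by_cases hi2 : v0.i = i
            · subst hi2
              rw [if_neg hi, if_pos rfl, one_mul]
              exact ⟨e4, e5⟩
            · rw [if_neg hi, if_neg hi2, one_mul, one_mul]
              exact hc1 i (Ne.symm hi2) (Ne.symm hi)
        · ext u
          unfold large
          rw [mem_filter, hupd]
          by_cases hu : u = w0
          · subst hu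
            rw [if_pos rfl]
            exact ⟨fun _ => hw, fun _ => ⟨mem_univ _, e3⟩⟩
          · rw [if_neg hu]
            by_cases hu2 : u = v0
            · subst hu2
              rw [if_pos rfl]
              exact ⟨fun _ => hv, fun _ => ⟨mem_univ _, e6⟩⟩
            · rw [if_neg hu2]
              exact ⟨fun h => (hc2 u hu2 hu).1 h.2, fun h => ⟨mem_univ _, (hc2 u hu2 hu).2 h⟩⟩
    show (if _ then _ else _) = _
    rw [if_congr hiff rfl rfl, hphi m n, hα, hβ]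
    by_cases e1 : 2 ^ (k w0.i) ≤ m * Q ∧ m * Q < 2 ^ (k w0.i + 1) ∧ Z < m
    · by_cases e2 : 2 ^ (k v0.i) ≤ n * P ∧ n * P < 2 ^ (k v0.i + 1) ∧ Z < n
      · rw [if_pos ⟨e1, e2⟩]
        simp only [if_pos e1, if_pos e2]
      · rw [if_neg fun h => e2 h.2]
        simp only [if_neg e2, mul_zero, zero_mul]
    · rw [if_neg fun h => e1 h.1]
      simp only [if_neg e1, mul_zero, zero_mul]
  rw [sum_congr rfl fun m _ => sum_congr rfl fun n _ => hF m n]
  simp_rw [← mul_sum]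
  rw [abs_mul]
  -- restrict the ranges
  set M : ℕ := 2 ^ (k w0.i + 1) / Q with hM
  set N : ℕ := 2 ^ (k v0.i + 1) / P with hN
  have hrM : ∀ f : ℕ → ℝ, ∑ m ∈ Icc 1 (2 ^ (k w0.i + 1)), α m * f m = ∑ m ∈ Icc 1 M, α m * f m := by
    intro f
    symm
    refine sum_subset (Icc_subset_Icc le_rfl (Nat.div_le_self _ _)) fun m hm1 hm2 => ?_
    have : α m = 0 := by
      rw [hα]
      refine if_neg fun hc => hm2 (mem_Icc.2 ⟨(mem_Icc.1 hm1).1, ?_⟩)
      exact (Nat.le_div_iff_mul_le (by omega)).2 hc.2.1.le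
    rw [this, zero_mul]
  have hrN : ∀ f : ℕ → ℝ, ∑ n ∈ Icc 1 (2 ^ (k v0.i + 1)), β n * f n = ∑ n ∈ Icc 1 N, β n * f n := by
    intro f
    symm
    refine sum_subset (Icc_subset_Icc le_rfl (Nat.div_le_self _ _)) fun n hn1 hn2 => ?_
    have : β n = 0 := by
      rw [hβ]
      refine if_neg fun hc => hn2 (mem_Icc.2 ⟨(mem_Icc.1 hn1).1, ?_⟩)
      exact (Nat.le_div_iff_mul_le (by omega)).2 hc.2.1.le
    rw [this, zero_mul]
  have hsum : ∑ m ∈ Icc 1 (2 ^ (k w0.i + 1)), ∑ n ∈ Icc 1 (2 ^ (k v0.i + 1)),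
      α m * β n * ((jacobiSym (m : ℤ) n : ℤ) : ℝ) =
      ∑ m ∈ Icc 1 M, ∑ n ∈ Icc 1 N, α m * β n * ((jacobiSym (m : ℤ) n : ℤ) : ℝ) := by
    simp_rw [mul_assoc, ← mul_sum]
    rw [hrM]
    exact sum_congr rfl fun m _ => by rw [hrN]
  rw [hsum]
  have hbil := hC M N Z hZ α β
    (fun m => by
      rw [hα]
      dsimp only
      split_ifs
      · exact ha m
      · simp)
    (fun n => by
      rw [hβ]
      dsimp only
      split_ifs
      · exact hb n
      · simp)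
    (fun m hm => by
      rw [hα] at hm
      dsimp only at hm
      split_ifs at hm with hc
      · obtain ⟨e1, e2⟩ := good_odd X.two_le (hga m hm)
        exact ⟨e1, e2, hc.2.2⟩
      · exact absurd rfl hm)
    (fun n hn => by
      rw [hβ] at hn
      dsimp only at hn
      split_ifs at hn with hc
      · obtain ⟨e1, e2⟩ := good_odd X.two_le (hgb n hn)
        exact ⟨e1, e2, hc.2.2⟩
      · exact absurd rfl hn)
  -- the numbers
  have hMr : (M : ℝ) ≤ 2 ^ (k w0.i + 1) / Q := by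
    have := Nat.cast_div_le (α := ℝ) (m := 2 ^ (k w0.i + 1)) (n := Q)
    rw [hM]
    push_cast at this
    exact this
  have hNr : (N : ℝ) ≤ 2 ^ (k v0.i + 1) / P := by
    have := Nat.cast_div_le (α := ℝ) (m := 2 ^ (k v0.i + 1)) (n := P)
    rw [hN]
    push_cast at this
    exact this
  have hM2 : M ≤ 2 ^ (k w0.i + 1) := Nat.div_le_self _ _
  have hN2 : N ≤ 2 ^ (k v0.i + 1) := Nat.div_le_self _ _
  have hkk : k v0.i + k w0.i ≤ ∑ i, k i := by
    rw [← sum_pair hij]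
    exact sum_le_sum_of_subset (subset_univ _)
  have hlog : 0 ≤ Real.log ((M : ℝ) * N) ∧ Real.log ((M : ℝ) * N) ≤ K + 2 := by
    rcases Nat.eq_zero_or_pos (M * N) with h0 | h0
    · have : (M : ℝ) * N = 0 := by exact_mod_cast h0
      rw [this, Real.log_zero]
      exact ⟨le_rfl, by linarith⟩
    · have h5 : (1 : ℝ) ≤ (M : ℝ) * N := by exact_mod_cast h0
      refine ⟨Real.log_nonneg h5, ?_⟩
      have h6 : (M : ℝ) * N ≤ 2 ^ (k v0.i + k w0.i + 2) := by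
        have : M * N ≤ 2 ^ (k w0.i + 1) * 2 ^ (k v0.i + 1) := Nat.mul_le_mul hM2 hN2
        rw [← pow_add] at this
        have h7 : k w0.i + 1 + (k v0.i + 1) = k v0.i + k w0.i + 2 := by ring
        rw [h7] at this
        exact_mod_cast this
      have h7 := Real.log_le_log (by linarith) h6
      rw [Real.log_pow] at h7
      have h8 := Real.log_two_lt_d9
      have h9 : ((k v0.i + k w0.i + 2 : ℕ) : ℝ) ≤ K + 2 := by
        rw [hK]
        exact_mod_cast Nat.add_le_add_right hkk 2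
      have h10 : (0 : ℝ) ≤ ((k v0.i + k w0.i + 2 : ℕ) : ℝ) := Nat.cast_nonneg _
      have h11 : 0 < Real.log 2 := Real.log_pos (by norm_num)
      nlinarith
  have hlog2 : (1 + Real.log ((M : ℝ) * N)) ^ 2 ≤ 9 * (1 + K) ^ 2 := by
    have : (1 + Real.log ((M : ℝ) * N)) ^ 2 ≤ (3 * (1 + K)) ^ 2 :=
      pow_le_pow_left₀ (by linarith [hlog.1]) (by linarith [hlog.2]) 2
    linarith [this, (by ring : (3 * (1 + K)) ^ 2 = 9 * (1 + K) ^ 2)]
  have hPr : (0 : ℝ) < P := by exact_mod_cast hP1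
  have hQr : (0 : ℝ) < Q := by exact_mod_cast hQ1
  have hMN : (M : ℝ) * N ≤ (∏ i, (2 : ℝ) ^ (k i + 1)) * ∏ u, (1 / (R u : ℝ)) := by
    have hbl : ∏ u, (1 / (R u : ℝ)) = ∏ i, (1 / (blk R i : ℝ)) := by
      rw [← prod_fiberwise (s := univ) (g := fun u : Idx ι => u.i)]
      refine prod_congr rfl fun i _ => ?_
      unfold blk
      push_cast
      rw [prod_div_distrib, prod_const_one]
    rw [hbl, ← prod_mul_distrib]
    rw [← mul_prod_erase univ _ (mem_univ v0.i),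
      ← mul_prod_erase (univ.erase v0.i) _ (mem_erase.2 ⟨hij.symm, mem_univ w0.i⟩)]
    have hge : (1 : ℝ) ≤ ∏ i ∈ (univ.erase v0.i).erase w0.i, (2 ^ (k i + 1) * (1 / (blk R i : ℝ))) := by
      have : ∏ i ∈ (univ.erase v0.i).erase w0.i, (1 : ℝ) ≤
          ∏ i ∈ (univ.erase v0.i).erase w0.i, (2 ^ (k i + 1) * (1 / (blk R i : ℝ))) := by
        refine prod_le_prod (fun _ _ => zero_le_one) fun i hi => ?_
        rw [mem_erase, mem_erase] at hi
        have h5 := (hc1 i hi.2.1 hi.1).2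
        have h6 : 1 ≤ blk R i := Nat.one_le_iff_ne_zero.2 (prod_ne_zero_iff.2 fun u _ => by
          have := hR u
          omega)
        have h7 : (0 : ℝ) < blk R i := by exact_mod_cast h6
        rw [mul_one_div, le_div_iff₀ h7, one_mul]
        exact_mod_cast h5.le
      rwa [prod_const_one] at this
    have e1 : (0 : ℝ) ≤ 2 ^ (k v0.i + 1) * (1 / (P : ℝ)) := by positivity
    have e2 : (0 : ℝ) ≤ 2 ^ (k w0.i + 1) * (1 / (Q : ℝ)) := by positivity
    calc (M : ℝ) * N ≤ (2 ^ (k w0.i + 1) / Q) * (2 ^ (k v0.i + 1) / P) := by gcongr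
      _ = (2 ^ (k v0.i + 1) * (1 / (P : ℝ))) * ((2 ^ (k w0.i + 1) * (1 / (Q : ℝ))) * 1) := by ring
      _ ≤ _ := by
          refine mul_le_mul_of_nonneg_left ?_ e1
          exact mul_le_mul_of_nonneg_left hge e2
  calc |Γ| * |∑ m ∈ Icc 1 M, ∑ n ∈ Icc 1 N, α m * β n * ((jacobiSym (m : ℤ) n : ℤ) : ℝ)|
      ≤ 1 * (C * M * N * (Z : ℝ) ^ (-(1 : ℝ) / 6) * (1 + Real.log (M * N)) ^ 2) :=
        mul_le_mul hΓ hbil (abs_nonneg _) zero_le_one
    _ = C * (Z : ℝ) ^ (-(1 : ℝ) / 6) * (1 + Real.log (M * N)) ^ 2 * ((M : ℝ) * N) := by ring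
    _ ≤ C * (Z : ℝ) ^ (-(1 : ℝ) / 6) * (9 * (1 + K) ^ 2) * ((M : ℝ) * N) := by
        refine mul_le_mul_of_nonneg_right ?_ (by positivity)
        exact mul_le_mul_of_nonneg_left hlog2 (mul_nonneg hC0 hZp)
    _ ≤ _ := mul_le_mul_of_nonneg_left hMN (by positivity)

theorem harm_le (j : ℕ) : ∑ n ∈ Icc (1 : ℕ) (2 ^ (j + 1)), (1 / ((n : ℕ) : ℝ)) ≤ 2 + j := by
  have h := harmonic_le_one_add_log (2 ^ (j + 1))
  rw [harmonic_eq_sum_Icc] at h
  push_cast at h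
  rw [Real.log_pow] at h
  have h8 := Real.log_two_lt_d9
  have h9 : (0 : ℝ) ≤ ((j + 1 : ℕ) : ℝ) := Nat.cast_nonneg _
  have h10 : ((j + 1 : ℕ) : ℝ) * Real.log 2 ≤ ((j + 1 : ℕ) : ℝ) * 1 :=
    mul_le_mul_of_nonneg_left (by linarith) h9
  simp only [one_div]
  refine h.trans ?_
  push_cast at h10 ⊢
  linarith

theorem lnk_aux (X : CData ι) {C : ℝ} (hC0 : 0 ≤ C)
    (hC : ∀ M N Z : ℕ, 1 ≤ Z → ∀ α β : ℕ → ℝ,
      (∀ m, |α m| ≤ 1) → (∀ n, |β n| ≤ 1) → (∀ m, α m ≠ 0 → Odd m ∧ Squarefree m ∧ Z < m) →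
      (∀ n, β n ≠ 0 → Odd n ∧ Squarefree n ∧ Z < n) →
      |∑ m ∈ Icc 1 M, ∑ n ∈ Icc 1 N, α m * β n * ((jacobiSym (m : ℤ) n : ℤ) : ℝ)| ≤
        C * M * N * (Z : ℝ) ^ (-(1 : ℝ) / 6) * (1 + Real.log (M * N)) ^ 2)
    (v0 w0 : Idx ι) (h1 : w0.i ∈ v0.A) (h2 : v0.i ∉ w0.A) (k : ι → ℕ) (U : Finset (Idx ι))
    (Z : ℕ) (hZ : 1 ≤ Z) (hv : v0 ∈ U) (hw : w0 ∈ U) :
    |∑ D ∈ (vbox k).filter (fun D => large Z D = U), X.Phi D| ≤
      C * (Z : ℝ) ^ (-(1 : ℝ) / 6) * (9 * (1 + ((∑ i, k i : ℕ) : ℝ)) ^ 2) *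
        ((∏ i, (2 : ℝ) ^ (k i + 1)) * (2 * (1 + ((∑ i, k i : ℕ) : ℝ))) ^ Fintype.card (Idx ι)) := by
  classical
  set K : ℝ := ((∑ i, k i : ℕ) : ℝ) with hK
  have hK0 : 0 ≤ K := Nat.cast_nonneg _
  have hZp : (0 : ℝ) ≤ (Z : ℝ) ^ (-(1 : ℝ) / 6) := Real.rpow_nonneg (Nat.cast_nonneg _) _
  have hij : v0.i ≠ w0.i := fun h => v0.2 (by
    show v0.i ∈ v0.A
    rw [h]
    exact h1)
  have hne : v0 ≠ w0 := fun h => hij (by rw [h])
  have e1 : ∑ D ∈ (vbox k).filter (fun D => large Z D = U), X.Phi D =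
      ∑ D ∈ Fintype.piFinset fun v : Idx ι => Finset.Icc 1 (2 ^ (k v.i + 1)),
        if (∀ i, 2 ^ (k i) ≤ blk D i ∧ blk D i < 2 ^ (k i + 1)) ∧
        large Z D = U then X.Phi D else 0 := by
    unfold vbox
    rw [filter_filter, sum_filter]
  rw [e1, split2 _ v0 w0 hne]
  refine (abs_sum_le_sum_abs _ _).trans ?_
  have hstep : ∀ R ∈ Fintype.piFinset (fun u => if u = v0 ∨ u = w0 then ({1} : Finset ℕ) else
      Finset.Icc 1 (2 ^ (k u.i + 1))), |∑ m ∈ Icc 1 (2 ^ (k w0.i + 1)),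
      ∑ n ∈ Icc 1 (2 ^ (k v0.i + 1)),
      (fun D : Idx ι → ℕ => if (∀ i, 2 ^ (k i) ≤ blk D i ∧ blk D i < 2 ^ (k i + 1)) ∧
        large Z D = U then X.Phi D else 0) (Function.update (Function.update R v0 n) w0 m)| ≤
      C * (Z : ℝ) ^ (-(1 : ℝ) / 6) * (9 * (1 + K) ^ 2) *
        ((∏ i, (2 : ℝ) ^ (k i + 1)) * ∏ u, (1 / (R u : ℝ))) := by
    intro R hR
    rw [Fintype.mem_piFinset] at hR
    have hRv : R v0 = 1 := by
      have := hR v0
      simpa using this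
    have hRw : R w0 = 1 := by
      have := hR w0
      simpa using this
    have hR1 : ∀ u, 1 ≤ R u := by
      intro u
      have := hR u
      split_ifs at this with h
      · rw [mem_singleton] at this
        omega
      · exact (mem_Icc.1 this).1
    exact lnk_inner X hC0 hC v0 w0 h1 h2 k U Z hZ hv hw R hRv hRw hR1
  refine (sum_le_sum hstep).trans ?_
  rw [← mul_sum, ← mul_sum]
  refine mul_le_mul_of_nonneg_left ?_ (by positivity)
  refine mul_le_mul_of_nonneg_left ?_ (prod_nonneg fun u _ => by positivity)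
  rw [← prod_univ_sum (fun u => if u = v0 ∨ u = w0 then ({1} : Finset ℕ) else
      Finset.Icc 1 (2 ^ (k u.i + 1))) (fun _ n => 1 / (n : ℝ))]
  have : (2 * (1 + K)) ^ Fintype.card (Idx ι) = ∏ _u : Idx ι, (2 * (1 + K)) := by
    rw [prod_const, card_univ]
  rw [this]
  refine prod_le_prod (fun u _ => sum_nonneg fun n _ => by positivity) fun u _ => ?_
  split_ifs with h
  · rw [sum_singleton]
    push_cast
    linarith
  · refine (harm_le _).trans ?_
    have h5 : k u.i ≤ ∑ i, k i := single_le_sum (fun _ _ => Nat.zero_le _) (mem_univ _)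
    have h6 : ((k u.i : ℕ) : ℝ) ≤ K := by
      rw [hK]
      exact_mod_cast h5
    linarith

theorem lnk (X : CData ι) : ∃ C A : ℝ, 0 ≤ C ∧ 0 ≤ A ∧ ∀ (k : ι → ℕ) (U : Finset (Idx ι))
    (Z : ℕ), 1 ≤ Z → (∃ v ∈ U, ∃ w ∈ U, Linked v w) →
    |∑ D ∈ (vbox k).filter (fun D => large Z D = U), X.Phi D| ≤
      C * 2 ^ (∑ i, k i) * (1 + ((∑ i, k i : ℕ) : ℝ)) ^ A * (Z : ℝ) ^ (-(1 : ℝ) / 6) := by
  obtain ⟨C, hC0, hC⟩ := bil2
  refine ⟨C * 9 * 2 ^ (Fintype.card ι) * 2 ^ (Fintype.card (Idx ι)),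
    ((2 + Fintype.card (Idx ι) : ℕ) : ℝ), by positivity, Nat.cast_nonneg _, ?_⟩
  intro k U Z hZ hvw
  have key : ∃ v0 w0 : Idx ι, v0 ∈ U ∧ w0 ∈ U ∧ w0.i ∈ v0.A ∧ v0.i ∉ w0.A := by
    obtain ⟨v, hv, w, hw, hl⟩ := hvw
    unfold Linked at hl
    by_cases h : w.i ∈ v.A
    · exact ⟨v, w, hv, hw, h, fun h' => hl ⟨fun _ => h', fun _ => h⟩⟩
    · have h' : v.i ∈ w.A := by
        by_contra h''
        exact hl ⟨fun h3 => absurd h3 h, fun h3 => absurd h3 h''⟩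
      exact ⟨w, v, hw, hv, h', h⟩
  obtain ⟨v0, w0, hv, hw, h1, h2⟩ := key
  refine (lnk_aux X hC0 hC v0 w0 h1 h2 k U Z hZ hv hw).trans (le_of_eq ?_)
  have hp : ∏ i, (2 : ℝ) ^ (k i + 1) = 2 ^ (∑ i, k i) * 2 ^ (Fintype.card ι) := by
    rw [prod_pow_eq_pow_sum, sum_add_distrib, pow_add]
    congr 2
    simp
  rw [hp, Real.rpow_natCast, mul_pow]
  ring

end Pool.Agent.SCT
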