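import Pool.Agent.SCT.Defs

/-!
SCT module EXPP: expansion of a product over the prime divisors of a squarefree number.

`∏_{q ∣ n} ∑_w g w q = ∑_{D : W → ℕ, ∏ D_w = n} ∏_w ∏_{q ∣ D_w} g w q` for squarefree `n`.

Proof.  `Finset.prod_univ_sum` (or `Finset.prod_sum`) gives a sum over functions
`a : n.primeFactors → W`; the bijection sends `a` to `D w = ∏_{a q = w} q`; conversely, for
`∏ D w = n` squarefree, every prime `q ∣ n` divides exactly one `D w`, and
`D w = ∏_{q ∣ D w} q`.  (Alternatively: induction on `n` with `Nat.recOnPosPrimePosCoprime` or on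
the set of primes, `Finset.induction_on` for squarefree numbers written as products of sets of
primes.)
-/

set_option linter.dupNamespace false

namespace Pool.Agent.SCT

open Finset

/-- tuples with product `n` -/
def fib {W : Type*} [Fintype W] [DecidableEq W] (n : ℕ) : Finset (W → ℕ) :=
  (Fintype.piFinset fun _ : W => n.divisors).filter (fun D => ∏ w, D w = n)

theorem exp_prod {W : Type*} [Fintype W] [DecidableEq W] (g : W → ℕ → ℝ) (n : ℕ)
    (hn : Squarefree n) :
    ∏ q ∈ n.primeFactors, ∑ w, g w q =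
      ∑ D ∈ (fib n : Finset (W → ℕ)), ∏ w, ∏ q ∈ (D w).primeFactors, g w q := by
  classical
  have hn0 : n ≠ 0 := hn.ne_zero
  -- the sets of primes
  set T : (n.primeFactors → W) → W → Finset ℕ := fun a w =>
    ((univ : Finset n.primeFactors).filter (fun q => a q = w)).map (Function.Embedding.subtype _)
    with hT
  have hTmem : ∀ a w (q : ℕ), q ∈ T a w ↔ ∃ h : q ∈ n.primeFactors, a ⟨q, h⟩ = w := by
    intro a w q
    simp [hT]
  have hTprime : ∀ a w, ∀ q ∈ T a w, q.Prime := by
    intro a w q hq
    obtain ⟨h, -⟩ := (hTmem a w q).1 hq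
    exact Nat.prime_of_mem_primeFactors h
  set D : (n.primeFactors → W) → W → ℕ := fun a w => ∏ q ∈ T a w, q with hD
  have hDpf : ∀ a w, (D a w).primeFactors = T a w := by
    intro a w
    exact Nat.primeFactors_prod (hTprime a w)
  have hprod : ∀ (a : n.primeFactors → W) (f : W → ℕ → ℝ),
      ∏ w, ∏ q ∈ T a w, f w q = ∏ q : n.primeFactors, f (a q) q := by
    intro a f
    rw [← Finset.prod_fiberwise (univ : Finset n.primeFactors) a]
    refine Finset.prod_congr rfl fun w _ => ?_
    rw [hT, Finset.prod_map]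
    refine Finset.prod_congr rfl fun q hq => ?_
    rw [(Finset.mem_filter.1 hq).2]
    rfl
  have hprodN : ∀ (a : n.primeFactors → W), ∏ w, D a w = n := by
    intro a
    have h1 : ∏ w, ∏ q ∈ T a w, q = ∏ q : n.primeFactors, (q : ℕ) := by
      rw [← Finset.prod_fiberwise (univ : Finset n.primeFactors) a]
      refine Finset.prod_congr rfl fun w _ => ?_
      rw [hT, Finset.prod_map]
      rfl
    rw [hD]
    simp only
    rw [h1, Finset.prod_coe_sort n.primeFactors (fun q => q)]
    exact Nat.prod_primeFactors_of_squarefree hn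
  rw [← Finset.prod_coe_sort n.primeFactors (fun q => ∑ w, g w q), Finset.prod_univ_sum]
  refine Finset.sum_bij (fun a _ => D a) ?_ ?_ ?_ ?_
  · intro a _
    rw [fib, Finset.mem_filter, Fintype.mem_piFinset]
    refine ⟨fun w => ?_, hprodN a⟩
    rw [Nat.mem_divisors]
    refine ⟨?_, hn0⟩
    conv_rhs => rw [← hprodN a]
    exact Finset.dvd_prod_of_mem _ (Finset.mem_univ w)
  · intro a _ b _ hab
    funext q
    have h1 : (q : ℕ) ∈ T a (a q) := (hTmem _ _ _).2 ⟨q.2, rfl⟩
    rw [← hDpf, show D a = D b from hab, hDpf] at h1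
    obtain ⟨h2, h3⟩ := (hTmem _ _ _).1 h1
    exact h3.symm
  · intro E hE
    rw [fib, Finset.mem_filter, Fintype.mem_piFinset] at hE
    obtain ⟨hE1, hE2⟩ := hE
    have hex : ∀ q : n.primeFactors, ∃ w, (q : ℕ) ∣ E w := by
      intro q
      have hq : (q : ℕ) ∣ ∏ w, E w := by
        rw [hE2]; exact Nat.dvd_of_mem_primeFactors q.2
      obtain ⟨w, -, hw⟩ := (Prime.dvd_finsetProd_iff
        (Nat.prime_of_mem_primeFactors q.2).prime _).1 hq
      exact ⟨w, hw⟩
    choose a ha using hex
    refine ⟨a, by simp, ?_⟩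
    funext w
    have hsq : Squarefree (E w) := hn.squarefree_of_dvd (Nat.dvd_of_mem_divisors (hE1 w))
    have hTE : T a w = (E w).primeFactors := by
      ext q
      rw [hTmem]
      constructor
      · rintro ⟨h1, h2⟩
        refine Nat.mem_primeFactors.2 ⟨Nat.prime_of_mem_primeFactors h1, ?_, hsq.ne_zero⟩
        have := ha ⟨q, h1⟩
        rw [h2] at this
        exact this
      · intro h0
        obtain ⟨h1, h2, h3⟩ := Nat.mem_primeFactors.1 h0
        have h4 : q ∈ n.primeFactors :=
          Nat.mem_primeFactors.2 ⟨h1, h2.trans (Nat.dvd_of_mem_divisors (hE1 w)), hn0⟩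
        refine ⟨h4, ?_⟩
        by_contra hne
        have h5 : E (a ⟨q, h4⟩) * E w ∣ n := by
          have h7 : E (a ⟨q, h4⟩) * E w ∣ ∏ w, E w := by
            rw [← Finset.prod_pair hne]
            exact Finset.prod_dvd_prod_of_subset _ _ _ (Finset.subset_univ _)
          exact h7.trans (dvd_of_eq hE2)
        have h6 : q * q ∣ n := (mul_dvd_mul (ha ⟨q, h4⟩) h2).trans h5
        have := hn q h6
        exact h1.one_lt.ne' (Nat.isUnit_iff.1 this)
    show ∏ q ∈ T a w, q = E w
    rw [hTE]
    exact Nat.prod_primeFactors_of_squarefree hsq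
  · intro a _
    have h2 : ∀ w, ∏ q ∈ (D a w).primeFactors, g w q = ∏ q ∈ T a w, g w q := by
      intro w; rw [hDpf]
    simp only [h2]
    rw [hprod a g]

end Pool.Agent.SCT
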