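import Pool.Agent.SCT.Defs

/-!
SCT module FOU: Fourier expansion of the indicator function of a set of sign patterns.

* `fou`: for `η : ι → ℤˣ` and `y ∈ P` (so `y i = 1`),
  `∑_{A ⊆ univ \ {i}} ∏_{j ∈ A} (y j * η j) = ∏_{j ≠ i} (1 + y j η j)`
  (`Finset.prod_one_add` / `Finset.prod_add`), which is `2^(m-1)` if `y j = η j` for all `j ≠ i`
  and `0` otherwise; at most one `y ∈ P` agrees with `η` off `i` (because of `y i = 1`).
* `abs_coefP_le`, `card_pat_le`: every product has absolute value one; `y` is determined by its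
  restriction to `ι \ {i}`.
* `abs_gam_le`: product of the bounds; `|jacobiSym| ≤ 1`.
* `gam_nonneg_bound`: `|gam| ≤ 1` (`card ≤ 2^(m-1)`).
-/

set_option linter.dupNamespace false

namespace Pool.Agent.SCT

open Finset

variable {ι : Type} [Fintype ι] [DecidableEq ι]

private lemma fou_unit (u v : ℤˣ) :
    (1 : ℝ) + (((u : ℤˣ) : ℤ) : ℝ) * (((v : ℤˣ) : ℤ) : ℝ) = if v = u then 2 else 0 := by
  rcases Int.units_eq_one_or u with rfl | rfl <;> rcases Int.units_eq_one_or v with rfl | rfl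
  · norm_num
  · have : (-1 : ℤˣ) ≠ 1 := by decide
    rw [if_neg this]; norm_num
  · have : (1 : ℤˣ) ≠ -1 := by decide
    rw [if_neg this]; norm_num
  · norm_num

open Classical in
theorem fou (i : ι) (P : Finset (ι → ℤˣ)) (hP : ∀ y ∈ P, y i = 1) (η : ι → ℤˣ) :
    (if ∃ y ∈ P, ∀ j, j ≠ i → η j = y j then (1 : ℝ) else 0) =
      ∑ A ∈ (univ.erase i).powerset, coefP P A * ∏ j ∈ A, (((η j : ℤˣ) : ℤ) : ℝ) := by
  have h1 : ∑ A ∈ (univ.erase i).powerset, coefP P A * ∏ j ∈ A, (((η j : ℤˣ) : ℤ) : ℝ) =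
      (∑ y ∈ P, ∏ j ∈ univ.erase i, ((1 : ℝ) + (((y j : ℤˣ) : ℤ) : ℝ) * (((η j : ℤˣ) : ℤ) : ℝ))) /
        2 ^ (Fintype.card ι - 1) := by
    unfold coefP
    simp_rw [Finset.prod_one_add]
    rw [Finset.sum_comm, Finset.sum_div]
    refine Finset.sum_congr rfl (fun A _ => ?_)
    rw [div_mul_eq_mul_div, Finset.sum_mul]
    congr 1
    refine Finset.sum_congr rfl (fun y _ => ?_)
    rw [Finset.prod_mul_distrib]
  rw [h1]
  have h2 : ∀ y ∈ P, ∏ j ∈ univ.erase i,
      ((1 : ℝ) + (((y j : ℤˣ) : ℤ) : ℝ) * (((η j : ℤˣ) : ℤ) : ℝ)) =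
      if (∀ j, j ≠ i → η j = y j) then 2 ^ (Fintype.card ι - 1) else 0 := by
    intro y _
    simp_rw [fou_unit]
    by_cases h : ∀ j, j ≠ i → η j = y j
    · rw [if_pos h]
      rw [Finset.prod_congr rfl (g := fun _ => (2 : ℝ))]
      · rw [Finset.prod_const, Finset.card_erase_of_mem (Finset.mem_univ i), Finset.card_univ]
      · intro j hj
        rw [if_pos (h j (Finset.ne_of_mem_erase hj))]
    · rw [if_neg h]
      push Not at h
      obtain ⟨j, hj, hne⟩ := h
      refine Finset.prod_eq_zero (i := j) (Finset.mem_erase.2 ⟨hj, Finset.mem_univ j⟩) ?_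
      rw [if_neg hne]
  rw [Finset.sum_congr rfl h2]
  have h2pos : (2 : ℝ) ^ (Fintype.card ι - 1) ≠ 0 := by positivity
  by_cases hex : ∃ y ∈ P, ∀ j, j ≠ i → η j = y j
  · rw [if_pos hex]
    obtain ⟨y, hy, hyη⟩ := hex
    rw [Finset.sum_eq_single y]
    · rw [if_pos hyη, div_self h2pos]
    · intro z hz hzy
      rw [if_neg]
      intro hz'
      apply hzy
      ext j
      by_cases hj : j = i
      · rw [hj, hP z hz, hP y hy]
      · rw [← hz' j hj, ← hyη j hj]
    · intro h; exact absurd hy h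
  · rw [if_neg hex]
    rw [Finset.sum_eq_zero, zero_div]
    intro y hy
    rw [if_neg]
    intro h
    exact hex ⟨y, hy, h⟩

omit [Fintype ι] [DecidableEq ι] in
private lemma fou_abs_prod (y : ι → ℤˣ) (A : Finset ι) :
    |∏ j ∈ A, (((y j : ℤˣ) : ℤ) : ℝ)| = 1 := by
  rw [Finset.abs_prod]
  refine Finset.prod_eq_one (fun j _ => ?_)
  rcases Int.units_eq_one_or (y j) with h | h <;> rw [h] <;> simp

theorem abs_coefP_le (P : Finset (ι → ℤˣ)) (A : Finset ι) :
    |coefP P A| ≤ (P.card : ℝ) / 2 ^ (Fintype.card ι - 1) := by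
  unfold coefP
  rw [abs_div, abs_of_pos (by positivity : (0 : ℝ) < 2 ^ (Fintype.card ι - 1))]
  refine div_le_div_of_nonneg_right ?_ (by positivity)
  refine (Finset.abs_sum_le_sum_abs _ _).trans (le_of_eq ?_)
  rw [Finset.sum_congr rfl (fun y _ => fou_abs_prod y A)]
  simp

theorem card_pat_le (i : ι) (P : Finset (ι → ℤˣ)) (hP : ∀ y ∈ P, y i = 1) :
    P.card ≤ 2 ^ (Fintype.card ι - 1) := by
  have h1 : P.card ≤ (univ : Finset ({j // j ≠ i} → ℤˣ)).card := by
    refine Finset.card_le_card_of_injOn (fun y j => y j.1) (fun _ _ => Finset.mem_univ _) ?_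
    intro y hy z hz hyz
    ext j
    by_cases hj : j = i
    · rw [hj, hP y hy, hP z hz]
    · have := congrFun hyz ⟨j, hj⟩
      simp only at this
      rw [this]
  refine h1.trans (le_of_eq ?_)
  rw [Finset.card_univ, Fintype.card_fun, Fintype.card_units_int]
  congr 1
  rw [Fintype.card_subtype_compl, Fintype.card_subtype_eq]

theorem abs_gam_le (X : CData ι) (v : Idx ι) (n : ℕ) :
    |X.gam v n| ≤ ∏ q ∈ n.primeFactors, ((X.Pat v.i q).card : ℝ) / 2 ^ (Fintype.card ι - 1) := by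
  have hnn : 0 ≤ ∏ q ∈ n.primeFactors, ((X.Pat v.i q).card : ℝ) / 2 ^ (Fintype.card ι - 1) :=
    Finset.prod_nonneg (fun q _ => by positivity)
  unfold CData.gam
  split_ifs with h
  · rw [abs_mul]
    have h1 : |∏ q ∈ n.primeFactors, coefP (X.Pat v.i q) v.A| ≤
        ∏ q ∈ n.primeFactors, ((X.Pat v.i q).card : ℝ) / 2 ^ (Fintype.card ι - 1) := by
      rw [Finset.abs_prod]
      exact Finset.prod_le_prod (fun q _ => abs_nonneg _) (fun q _ => abs_coefP_le _ _)
    have h2 : |∏ j ∈ v.A, ((jacobiSym (X.c j) n : ℤ) : ℝ)| ≤ 1 := by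
      rw [Finset.abs_prod]
      refine Finset.prod_le_one (fun j _ => abs_nonneg _) (fun j _ => ?_)
      rcases jacobiSym.trichotomy (X.c j) n with h | h | h <;> rw [h] <;> simp
    calc |∏ q ∈ n.primeFactors, coefP (X.Pat v.i q) v.A| *
          |∏ j ∈ v.A, ((jacobiSym (X.c j) n : ℤ) : ℝ)|
        ≤ (∏ q ∈ n.primeFactors, ((X.Pat v.i q).card : ℝ) / 2 ^ (Fintype.card ι - 1)) * 1 :=
          mul_le_mul h1 h2 (abs_nonneg _) hnn
      _ = _ := mul_one _
  · rw [abs_zero]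
    exact hnn

theorem abs_gam_le_one (X : CData ι) (v : Idx ι) (n : ℕ) : |X.gam v n| ≤ 1 := by
  refine (abs_gam_le X v n).trans ?_
  refine Finset.prod_le_one (fun q _ => by positivity) (fun q _ => ?_)
  rw [div_le_one (by positivity)]
  exact_mod_cast card_pat_le v.i (X.Pat v.i q) (X.norm v.i q)

theorem gam_eq_zero (X : CData ι) (v : Idx ι) (n : ℕ) (h : ¬ Good X.B n) : X.gam v n = 0 := by
  unfold CData.gam
  rw [if_neg h]

end Pool.Agent.SCT
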