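import Pool.Agent.SCT.Defs
import Pool.Agent.Helper35.Primes

/-!
SCT module MERT: from Dirichlet series to sums over primes up to `Y`.

Proof.  Put `s = 1 + 1 / log Y` (`≤ 2` because `log Y ≥ 1` for `Y ≥ 3`).  For a prime `q ≤ Y`,
`1/q - q^(-s) = (1 - exp(-(s-1) log q)) / q ≤ (s-1) log q / q`, and
`∑_{q ≤ Y} log q / q ≤ log Y + log 4` (from `∑_{q ≤ Y} ⌊Y/q⌋ log q ≤ log (Y!) ≤ Y log Y` and
`∑_{q ≤ Y} log q ≤ Y log 4`, `Chebyshev.theta_le_log4_mul_x`).  Hence
`∑_{q ≤ Y} g q / q ≤ κ log (log Y) + C0 + G (1 + log 4)` (note `1/(s-1) = log Y`, `1 / log Y ≤ 1`).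
-/

set_option linter.dupNamespace false

namespace Pool.Agent.SCT

open Finset

private lemma sum_log_div_le (Y : ℕ) (hY : 1 ≤ Y) :
    ∑ q ∈ (range (Y + 1)).filter Nat.Prime, Real.log q / q ≤ Real.log Y + 2 := by
  have h := Pool.Agent.Helper35.mertens_upper Y hY
  refine le_trans (le_of_eq ?_) h
  apply Finset.sum_congr _ fun _ _ => rfl
  ext q
  rw [Pool.Agent.Helper35.mem_prm, Finset.mem_filter, Finset.mem_range]
  constructor
  · rintro ⟨h1, h2⟩
    exact ⟨⟨h2.pos, by omega⟩, h2⟩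
  · rintro ⟨⟨h1, h2⟩, h3⟩
    exact ⟨by omega, h3⟩

theorem mertens_of_dirichlet (g : ℕ → ℝ) (G κ C0 : ℝ) (hg0 : ∀ q, 0 ≤ g q) (hgG : ∀ q, g q ≤ G)
    (h : ∀ s : ℝ, 1 < s → s ≤ 2 → ∀ Y : ℕ,
      ∑ q ∈ (range (Y + 1)).filter Nat.Prime, g q * (q : ℝ) ^ (-s) ≤
        κ * Real.log (1 / (s - 1)) + C0) :
    ∃ C1 : ℝ, 0 ≤ C1 ∧ ∀ Y : ℕ, 3 ≤ Y →
      ∑ q ∈ (range (Y + 1)).filter Nat.Prime, g q / q ≤ κ * Real.log (Real.log Y) + C1 := by
  have hG : 0 ≤ G := (hg0 0).trans (hgG 0)
  refine ⟨|C0| + 3 * G, by positivity, ?_⟩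
  intro Y hY
  have hY3 : (3 : ℝ) ≤ Y := by exact_mod_cast hY
  have hY0 : (0 : ℝ) < Y := by linarith
  have hlog : 1 ≤ Real.log Y := by
    rw [Real.le_log_iff_exp_le hY0]
    have := Real.exp_one_lt_d9
    linarith
  have hlog0 : 0 < Real.log Y := by linarith
  set s : ℝ := 1 + 1 / Real.log Y with hs
  have hs1 : 1 < s := by
    have : 0 < 1 / Real.log Y := by positivity
    linarith
  have hs2 : s ≤ 2 := by
    have : 1 / Real.log Y ≤ 1 := by
      rw [div_le_one hlog0]; exact hlog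
    linarith
  have h1 := h s hs1 hs2 Y
  have hs3 : s - 1 = 1 / Real.log Y := by rw [hs]; ring
  have hs4 : 1 / (s - 1) = Real.log Y := by rw [hs3, one_div_one_div]
  rw [hs4] at h1
  have hterm : ∀ q ∈ (range (Y + 1)).filter Nat.Prime,
      g q / q ≤ g q * (q : ℝ) ^ (-s) + G * (1 / Real.log Y) * (Real.log q / q) := by
    intro q hq
    rw [Finset.mem_filter] at hq
    have hq1 : (1 : ℝ) < q := by exact_mod_cast hq.2.one_lt
    have hq0 : (0 : ℝ) < q := by linarith
    have e1 : (q : ℝ) ^ (-s) = (1 / q) * Real.exp (-((s - 1) * Real.log q)) := by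
      rw [Real.rpow_def_of_pos hq0, one_div, ← Real.exp_log hq0, ← Real.exp_neg, ← Real.exp_add,
        Real.log_exp]
      congr 1
      ring
    have e2 : 1 - (s - 1) * Real.log q ≤ Real.exp (-((s - 1) * Real.log q)) := by
      have := Real.add_one_le_exp (-((s - 1) * Real.log q))
      linarith
    have hlq : 0 ≤ Real.log q := Real.log_nonneg hq1.le
    have e3 : g q * ((1 / q) * (1 - (s - 1) * Real.log q)) ≤ g q * (q : ℝ) ^ (-s) := by
      rw [e1]
      apply mul_le_mul_of_nonneg_left _ (hg0 q)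
      exact mul_le_mul_of_nonneg_left e2 (by positivity)
    have e4 : g q * ((s - 1) * Real.log q / q) ≤ G * ((s - 1) * Real.log q / q) := by
      apply mul_le_mul_of_nonneg_right (hgG q)
      apply div_nonneg _ hq0.le
      exact mul_nonneg (by linarith) hlq
    have e5 : g q / q = g q * ((1 / q) * (1 - (s - 1) * Real.log q)) +
        g q * ((s - 1) * Real.log q / q) := by
      field_simp
      ring
    rw [e5, ← hs3]
    have e6 : G * (s - 1) * (Real.log q / q) = G * ((s - 1) * Real.log q / q) := by ring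
    rw [e6]
    linarith
  refine (Finset.sum_le_sum hterm).trans ?_
  rw [Finset.sum_add_distrib, ← Finset.mul_sum]
  have h2 := sum_log_div_le Y (by omega)
  have h3 : G * (1 / Real.log Y) * ∑ q ∈ (range (Y + 1)).filter Nat.Prime, Real.log q / q ≤
      3 * G := by
    calc G * (1 / Real.log Y) * ∑ q ∈ (range (Y + 1)).filter Nat.Prime, Real.log q / q
        ≤ G * (1 / Real.log Y) * (Real.log Y + 2) := by gcongr
      _ = G * (1 + 2 * (1 / Real.log Y)) := by field_simp
      _ ≤ G * 3 := by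
          apply mul_le_mul_of_nonneg_left _ hG
          have : 1 / Real.log Y ≤ 1 := by
            rw [div_le_one hlog0]; exact hlog
          linarith
      _ = 3 * G := by ring
  have h4 := le_abs_self C0
  linarith

end Pool.Agent.SCT
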