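import Pool.Agent.SCT.Defs

/-!
SCT module MUL: sums of nonnegative multiplicative functions supported on squarefree numbers.

Write `F n = ∏_{q ∣ n} g q` for squarefree `n`.
Proof.  `∑_{n ≤ Y} F n log n = ∑_{n ≤ Y} F n ∑_{q ∣ n} log q ≤ ∑_{n' ≤ Y} F n' ∑_{q ≤ Y/n'} G log q
≤ G log 4 * Y ∑_{n' ≤ Y} F n' / n'` (`n = q n'`, `F n = g q F n'`;
`Chebyshev.theta_le_log4_mul_x`), and `∑_{n ≤ Y} F n log (Y/n) ≤ ∑ F n * (Y/n)`.  Adding:
`log Y ∑_{n ≤ Y} F n ≤ (G log 4 + 1) Y ∑_{n ≤ Y} F n / n`, and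
`∑_{n ≤ Y squarefree} F n / n ≤ ∏_{q ≤ Y} (1 + g q / q) ≤ exp (∑_{q ≤ Y} g q / q)`
(`Finset.prod_one_add`, injectivity of `n ↦ n.primeFactors` on squarefree numbers,
`Real.add_one_le_exp`).
-/

set_option linter.dupNamespace false

namespace Pool.Agent.SCT

open Finset

/-- squarefree numbers up to `Y` -/
private def SF (Y : ℕ) : Finset ℕ := (Icc 1 Y).filter Squarefree

/-- primes up to `Y` -/
private def PY (Y : ℕ) : Finset ℕ := (range (Y + 1)).filter Nat.Prime

private noncomputable def FF (g : ℕ → ℝ) (n : ℕ) : ℝ := ∏ q ∈ n.primeFactors, g q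

private lemma FF_nonneg {g : ℕ → ℝ} (hg : ∀ q, 0 ≤ g q) (n : ℕ) : 0 ≤ FF g n :=
  Finset.prod_nonneg fun q _ => hg q

private lemma mem_SF {Y n : ℕ} : n ∈ SF Y ↔ (1 ≤ n ∧ n ≤ Y) ∧ Squarefree n := by
  rw [SF, Finset.mem_filter, Finset.mem_Icc]

private lemma mem_PY {Y q : ℕ} : q ∈ PY Y ↔ q ≤ Y ∧ q.Prime := by
  rw [PY, Finset.mem_filter, Finset.mem_range, Nat.lt_succ_iff]

private lemma FF_mul_prime {g : ℕ → ℝ} {q m : ℕ} (hq : q.Prime) (hm : m ≠ 0) (h : ¬ q ∣ m) :
    FF g (q * m) = g q * FF g m := by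
  unfold FF
  rw [Nat.primeFactors_mul hq.ne_zero hm, hq.primeFactors, Finset.prod_union, Finset.prod_singleton]
  rw [Finset.disjoint_singleton_left]
  intro h2
  exact h (Nat.dvd_of_mem_primeFactors h2)

private lemma log_eq_sum {n : ℕ} (hn : Squarefree n) :
    Real.log n = ∑ q ∈ n.primeFactors, Real.log q := by
  conv_lhs => rw [← Nat.prod_primeFactors_of_squarefree hn]
  rw [Nat.cast_prod, Real.log_prod]
  intro q hq
  have := (Nat.prime_of_mem_primeFactors hq).pos
  positivity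

/-- the sum over `n` divisible by `q` -/
private lemma inner_le {g : ℕ → ℝ} (hg : ∀ q, 0 ≤ g q) {Y q : ℕ} (hq : q.Prime) :
    ∑ n ∈ (SF Y).filter (fun n => q ∣ n), FF g n ≤
      g q * ∑ m ∈ (SF Y).filter (fun m => q * m ≤ Y), FF g m := by
  classical
  set S := ((SF Y).filter (fun m => q * m ≤ Y)).filter (fun m => ¬ q ∣ m) with hS
  have hsub : (SF Y).filter (fun n => q ∣ n) ⊆ S.image (fun m => q * m) := by
    intro n hn
    rw [Finset.mem_filter, mem_SF] at hn
    obtain ⟨⟨⟨h1, h2⟩, h3⟩, m, rfl⟩ := hn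
    have hm0 : m ≠ 0 := by
      rintro rfl
      simp at h1
    have hmq : ¬ q ∣ m := by
      rintro ⟨c, rfl⟩
      have h4 : q * q ∣ q * (q * c) := ⟨c, by ring⟩
      have := h3 q h4
      exact hq.one_lt.ne' (Nat.isUnit_iff.1 this)
    have hmle : m ≤ q * m := Nat.le_mul_of_pos_left _ hq.pos
    rw [Finset.mem_image]
    refine ⟨m, ?_, rfl⟩
    rw [hS, Finset.mem_filter, Finset.mem_filter, mem_SF]
    exact ⟨⟨⟨⟨Nat.one_le_iff_ne_zero.2 hm0, hmle.trans h2⟩, h3.squarefree_of_dvd ⟨q, by ring⟩⟩, h2⟩,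
      hmq⟩
  calc ∑ n ∈ (SF Y).filter (fun n => q ∣ n), FF g n
      ≤ ∑ n ∈ S.image (fun m => q * m), FF g n :=
        Finset.sum_le_sum_of_subset_of_nonneg hsub fun n _ _ => FF_nonneg hg n
    _ = ∑ m ∈ S, FF g (q * m) := by
        apply Finset.sum_image
        intro a _ b _ hab
        exact Nat.eq_of_mul_eq_mul_left hq.pos hab
    _ = ∑ m ∈ S, g q * FF g m := by
        apply Finset.sum_congr rfl
        intro m hm
        rw [hS, Finset.mem_filter, Finset.mem_filter, mem_SF] at hm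
        exact FF_mul_prime hq (by omega) hm.2
    _ = g q * ∑ m ∈ S, FF g m := by rw [Finset.mul_sum]
    _ ≤ g q * ∑ m ∈ (SF Y).filter (fun m => q * m ≤ Y), FF g m := by
        apply mul_le_mul_of_nonneg_left _ (hg q)
        exact Finset.sum_le_sum_of_subset_of_nonneg (Finset.filter_subset _ _)
          fun m _ _ => FF_nonneg hg m

private lemma first_part {g : ℕ → ℝ} {G : ℝ} (hG : 0 ≤ G) (hg : ∀ q, 0 ≤ g q)
    (hgG : ∀ q, g q ≤ G) (Y : ℕ) :
    ∑ n ∈ SF Y, FF g n * Real.log n ≤ G * Real.log 4 * Y * ∑ n ∈ SF Y, FF g n / n := by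
  classical
  have hprimes : ∀ n ∈ SF Y, n.primeFactors = (PY Y).filter (fun q => q ∣ n) := by
    intro n hn
    rw [mem_SF] at hn
    ext q
    rw [Nat.mem_primeFactors, Finset.mem_filter, mem_PY]
    constructor
    · rintro ⟨h1, h2, _⟩
      exact ⟨⟨(Nat.le_of_dvd (by omega) h2).trans hn.1.2, h1⟩, h2⟩
    · rintro ⟨⟨_, h1⟩, h2⟩
      exact ⟨h1, h2, by omega⟩
  calc ∑ n ∈ SF Y, FF g n * Real.log n
      = ∑ n ∈ SF Y, ∑ q ∈ PY Y, if q ∣ n then FF g n * Real.log q else 0 := by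
        apply Finset.sum_congr rfl
        intro n hn
        rw [log_eq_sum (mem_SF.1 hn).2, Finset.mul_sum, hprimes n hn, Finset.sum_filter]
    _ = ∑ q ∈ PY Y, ∑ n ∈ SF Y, if q ∣ n then FF g n * Real.log q else 0 := Finset.sum_comm
    _ = ∑ q ∈ PY Y, Real.log q * ∑ n ∈ (SF Y).filter (fun n => q ∣ n), FF g n := by
        apply Finset.sum_congr rfl
        intro q _
        rw [← Finset.sum_filter, Finset.mul_sum]
        apply Finset.sum_congr rfl
        intro n _
        ring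
    _ ≤ ∑ q ∈ PY Y, Real.log q * (g q * ∑ m ∈ (SF Y).filter (fun m => q * m ≤ Y), FF g m) := by
        apply Finset.sum_le_sum
        intro q hq
        rw [mem_PY] at hq
        apply mul_le_mul_of_nonneg_left (inner_le hg hq.2)
        exact Real.log_nonneg (by exact_mod_cast hq.2.one_lt.le)
    _ ≤ ∑ q ∈ PY Y, ∑ m ∈ SF Y, if q * m ≤ Y then G * (FF g m * Real.log q) else 0 := by
        apply Finset.sum_le_sum
        intro q hq
        rw [mem_PY] at hq
        have hlq : 0 ≤ Real.log q := Real.log_nonneg (by exact_mod_cast hq.2.one_lt.le)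
        rw [← Finset.sum_filter, Finset.mul_sum, Finset.mul_sum]
        apply Finset.sum_le_sum
        intro m _
        have h1 := FF_nonneg hg m
        calc Real.log q * (g q * FF g m) = g q * (FF g m * Real.log q) := by ring
          _ ≤ G * (FF g m * Real.log q) :=
            mul_le_mul_of_nonneg_right (hgG q) (mul_nonneg h1 hlq)
    _ = ∑ m ∈ SF Y, ∑ q ∈ PY Y, if q * m ≤ Y then G * (FF g m * Real.log q) else 0 :=
        Finset.sum_comm
    _ ≤ ∑ m ∈ SF Y, G * Real.log 4 * Y * (FF g m / m) := by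
        apply Finset.sum_le_sum
        intro m hm
        rw [mem_SF] at hm
        have hm0 : (0 : ℝ) < m := by exact_mod_cast hm.1.1
        have h1 := FF_nonneg hg m
        have h2 : ∑ q ∈ (PY Y).filter (fun q => q * m ≤ Y), Real.log q ≤
            Real.log 4 * ((Y : ℝ) / m) := by
          refine le_trans ?_ (Chebyshev.theta_le_log4_mul_x (x := (Y : ℝ) / m) (by positivity))
          rw [Chebyshev.theta]
          apply Finset.sum_le_sum_of_subset_of_nonneg
          · intro q hq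
            rw [Finset.mem_filter, mem_PY] at hq
            rw [Finset.mem_filter, Finset.mem_Ioc]
            refine ⟨⟨hq.1.2.pos, ?_⟩, hq.1.2⟩
            apply Nat.le_floor
            rw [le_div_iff₀ hm0]
            exact_mod_cast hq.2
          · intro q hq _
            rw [Finset.mem_filter, Finset.mem_Ioc] at hq
            exact Real.log_nonneg (by exact_mod_cast hq.1.1)
        rw [← Finset.sum_filter, ← Finset.mul_sum, ← Finset.mul_sum]
        calc G * (FF g m * ∑ q ∈ (PY Y).filter (fun q => q * m ≤ Y), Real.log q)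
            ≤ G * (FF g m * (Real.log 4 * ((Y : ℝ) / m))) := by gcongr
          _ = G * Real.log 4 * Y * (FF g m / m) := by ring
    _ = G * Real.log 4 * Y * ∑ n ∈ SF Y, FF g n / n := by rw [Finset.mul_sum]

private lemma second_part {g : ℕ → ℝ} (hg : ∀ q, 0 ≤ g q) (Y : ℕ) (hY : 1 ≤ Y) :
    ∑ n ∈ SF Y, FF g n * (Real.log Y - Real.log n) ≤ Y * ∑ n ∈ SF Y, FF g n / n := by
  rw [Finset.mul_sum]
  apply Finset.sum_le_sum
  intro n hn
  rw [mem_SF] at hn
  have hn0 : (0 : ℝ) < n := by exact_mod_cast hn.1.1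
  have hY0 : (0 : ℝ) < Y := by exact_mod_cast hY
  have h1 := FF_nonneg hg n
  rw [← Real.log_div hY0.ne' hn0.ne']
  have h2 : Real.log ((Y : ℝ) / n) ≤ (Y : ℝ) / n := by
    have := Real.log_le_sub_one_of_pos (div_pos hY0 hn0)
    linarith
  calc FF g n * Real.log ((Y : ℝ) / n) ≤ FF g n * ((Y : ℝ) / n) :=
        mul_le_mul_of_nonneg_left h2 h1
    _ = Y * (FF g n / n) := by ring

private lemma sum_div_le {g : ℕ → ℝ} (hg : ∀ q, 0 ≤ g q) (Y : ℕ) :
    ∑ n ∈ SF Y, FF g n / n ≤ Real.exp (∑ q ∈ PY Y, g q / q) := by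
  classical
  have h1 : ∑ n ∈ SF Y, FF g n / n ≤ ∏ q ∈ PY Y, (1 + g q / q) := by
    rw [Finset.prod_one_add]
    have h2 : ∀ n ∈ SF Y, FF g n / n = ∏ q ∈ n.primeFactors, (g q / q) := by
      intro n hn
      rw [mem_SF] at hn
      rw [FF, Finset.prod_div_distrib]
      congr 1
      rw [← Nat.cast_prod, Nat.prod_primeFactors_of_squarefree hn.2]
    rw [Finset.sum_congr rfl h2]
    have hinj : Set.InjOn (fun n : ℕ => n.primeFactors) (SF Y : Set ℕ) := by
      intro a ha b hb hab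
      have ha' := (mem_SF.1 (Finset.mem_coe.1 ha)).2
      have hb' := (mem_SF.1 (Finset.mem_coe.1 hb)).2
      rw [← Nat.prod_primeFactors_of_squarefree ha', ← Nat.prod_primeFactors_of_squarefree hb']
      simp only at hab
      rw [hab]
    rw [← Finset.sum_image (f := fun T : Finset ℕ => ∏ q ∈ T, (g q / q)) hinj]
    apply Finset.sum_le_sum_of_subset_of_nonneg
    · intro T hT
      rw [Finset.mem_image] at hT
      obtain ⟨n, hn, rfl⟩ := hT
      rw [mem_SF] at hn
      rw [Finset.mem_powerset]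
      intro q hq
      rw [mem_PY]
      have hqp := Nat.prime_of_mem_primeFactors hq
      have hqd := Nat.dvd_of_mem_primeFactors hq
      exact ⟨(Nat.le_of_dvd (by omega) hqd).trans hn.1.2, hqp⟩
    · intro T _ _
      apply Finset.prod_nonneg
      intro q _
      exact div_nonneg (hg q) (Nat.cast_nonneg q)
  refine h1.trans ?_
  rw [Real.exp_sum]
  apply Finset.prod_le_prod
  · intro q _
    have := div_nonneg (hg q) (Nat.cast_nonneg (α := ℝ) q)
    linarith
  · intro q _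
    have := Real.add_one_le_exp (g q / q)
    linarith

theorem mul_bound (G : ℝ) (hG : 0 ≤ G) : ∃ C : ℝ, 0 ≤ C ∧ ∀ g : ℕ → ℝ,
    (∀ q, 0 ≤ g q) → (∀ q, g q ≤ G) → ∀ Y : ℕ, 2 ≤ Y →
    ∑ n ∈ (Icc 1 Y).filter Squarefree, ∏ q ∈ n.primeFactors, g q ≤
      C * Y / Real.log Y * Real.exp (∑ q ∈ (range (Y + 1)).filter Nat.Prime, g q / q) := by
  have hlog4 : 0 ≤ Real.log 4 := Real.log_nonneg (by norm_num)
  refine ⟨G * Real.log 4 + 1, by positivity, ?_⟩
  intro g hg hgG Y hY
  have hY0 : (0 : ℝ) < Y := by exact_mod_cast (by omega : 0 < Y)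
  have hlogY : 0 < Real.log Y := Real.log_pos (by exact_mod_cast (by omega : 1 < Y))
  have h1 := first_part hG hg hgG Y
  have h2 := second_part hg Y (by omega)
  have h3 := sum_div_le hg Y
  have h4 : (∑ n ∈ SF Y, FF g n) * Real.log Y ≤
      (G * Real.log 4 + 1) * Y * ∑ n ∈ SF Y, FF g n / n := by
    have e : (∑ n ∈ SF Y, FF g n) * Real.log Y =
        ∑ n ∈ SF Y, FF g n * Real.log n + ∑ n ∈ SF Y, FF g n * (Real.log Y - Real.log n) := by
      rw [← Finset.sum_add_distrib, Finset.sum_mul]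
      apply Finset.sum_congr rfl
      intro n _
      ring
    rw [e]
    linarith
  have h5 : (∑ n ∈ SF Y, FF g n) * Real.log Y ≤
      (G * Real.log 4 + 1) * Y * Real.exp (∑ q ∈ PY Y, g q / q) := by
    refine h4.trans ?_
    gcongr
  change ∑ n ∈ SF Y, FF g n ≤ (G * Real.log 4 + 1) * Y / Real.log Y *
    Real.exp (∑ q ∈ PY Y, g q / q)
  rw [div_mul_eq_mul_div, le_div_iff₀ hlogY]
  exact h5

end Pool.Agent.SCT
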