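import Pool.Agent.SCT.Iso
import Pool.Agent.SCT.Fou
import Pool.Agent.SCT.ExpProd
import Pool.Agent.SCT.Mul
import Pool.Agent.SCT.Mert

/-!
SCT module UNL: the contribution of the unlinked sets of large variables.

Notation: `w v q = (Pat v.i q).card / 2^(m-1) ∈ [0, 1]` (`card_pat_le`).
Proof.  (1) Let `g q = ∑_{v ∈ U} w v q`; `0 ≤ g ≤ 2^(m-1)` and by `Den` and `card_unlinked`
`∑_{q ≤ Y} g q q^(-s) ≤ (|U|/2^(m-1)) ((1-δ) log (1/(s-1)) + |C0|) ≤ (1-δ) log (1/(s-1)) + |C0|`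
(`s ≤ 2`, so `log (1/(s-1)) ≥ 0`); by `mertens_of_dirichlet`
`∑_{q ≤ T} g q / q ≤ (1-δ) log log T + C1` for `T ≥ 3`; there are finitely many `U`, take the
maximal `C1`.  By `mul_bound`: `∑_{n ≤ T, squarefree} ∏_{q ∣ n} g q ≤ C T (log T)^(-δ)`, `T ≥ 3`.
(2) `|Phi D| ≤ ∏_v |gam v (D v)|` and `Phi D ≠ 0` implies that `∏ v, D v` is squarefree.
`|gam v n| ≤ ∏_{q ∣ n} w v q` for `v ∈ U` and `≤ 1` for `v ∉ U`.
(3) Split `D` into `D|_U` and `D|_{U^c}`: for fixed `D|_{U^c}` with product `K ≤ Z^|V|`, sum over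
`D|_U` with `n = ∏_{v ∈ U} D v ≤ Y / K`: by `exp_prod` (with `W = U`) the sum of
`∏_{v ∈ U} ∏_{q ∣ D v} w v q` over the `D|_U` with product `n` squarefree is `∏_{q ∣ n} g q`.  So the
inner sum is `≤ C (Y/K) (log (Y/K))^(-δ)`, where `Y / K ≥ Y^(1/2) ` because `K ≤ Z^|V| ≤ Y^(1/2)`
(take `T = ⌊Y/K⌋`; if `T < 3` then `Y` is bounded, `Y ≤ 16`, adjust the constant), hence
`≤ C' (Y/K) (log Y)^(-δ)`.
(4) `∑_{D|_{U^c} ≤ Z} 1/K ≤ (∑_{n ≤ Z} 1/n)^(|V| - |U|) ≤ (1 + log Z)^|V|`.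
-/

set_option linter.dupNamespace false

namespace Pool.Agent.SCT

open Finset

variable {ι : Type} [Fintype ι] [DecidableEq ι]

/-- The weight of a prime in the variable `v`. -/
noncomputable def uw (X : CData ι) (v : Idx ι) (q : ℕ) : ℝ :=
  ((X.Pat v.i q).card : ℝ) / 2 ^ (Fintype.card ι - 1)

theorem uw_nonneg (X : CData ι) (v : Idx ι) (q : ℕ) : 0 ≤ uw X v q := by
  unfold uw; positivity

theorem uw_le_one (X : CData ι) (v : Idx ι) (q : ℕ) : uw X v q ≤ 1 := by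
  unfold uw
  rw [div_le_one (by positivity)]
  exact_mod_cast card_pat_le v.i (X.Pat v.i q) (X.norm v.i q)

theorem unl_series [Nonempty ι] (X : CData ι) (δ C0 : ℝ) (hδ1 : δ ≤ 1)
    (hden : X.Den δ C0) (U : Finset (Idx ι)) (hU : ∀ v ∈ U, ∀ w ∈ U, ¬ Linked v w) :
    ∃ C : ℝ, 0 ≤ C ∧ ∀ T : ℕ, 3 ≤ T →
      ∑ n ∈ (Icc 1 T).filter Squarefree, ∏ q ∈ n.primeFactors, ∑ v ∈ U, uw X v q ≤
        C * T * (Real.log T) ^ (-δ) := by
  have hcard := card_unlinked U hU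
  have hg0 : ∀ q, 0 ≤ ∑ v ∈ U, uw X v q := fun q => sum_nonneg fun v _ => uw_nonneg X v q
  have hgG : ∀ q, ∑ v ∈ U, uw X v q ≤ (U.card : ℝ) := by
    intro q
    calc ∑ v ∈ U, uw X v q ≤ ∑ v ∈ U, (1 : ℝ) := sum_le_sum fun v _ => uw_le_one X v q
      _ = U.card := by simp
  obtain ⟨C1, hC1, h1⟩ := mertens_of_dirichlet (fun q => ∑ v ∈ U, uw X v q) U.card (1 - δ) |C0|
    hg0 hgG (by
      intro s hs hs2 Y
      have e1 : ∑ q ∈ (range (Y + 1)).filter Nat.Prime, (∑ v ∈ U, uw X v q) * (q : ℝ) ^ (-s) =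
          ∑ v ∈ U, (∑ q ∈ (range (Y + 1)).filter Nat.Prime,
            ((X.Pat v.i q).card : ℝ) * (q : ℝ) ^ (-s)) / 2 ^ (Fintype.card ι - 1) := by
        simp_rw [sum_mul]
        rw [sum_comm]
        refine sum_congr rfl fun v _ => ?_
        rw [sum_div]
        refine sum_congr rfl fun q _ => ?_
        unfold uw
        ring
      rw [e1]
      have hlog : 0 ≤ Real.log (1 / (s - 1)) := by
        apply Real.log_nonneg
        rw [le_div_iff₀ (by linarith)]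
        linarith
      have hR : 0 ≤ (1 - δ) * Real.log (1 / (s - 1)) + |C0| := by
        have := mul_nonneg (by linarith : 0 ≤ 1 - δ) hlog
        have := abs_nonneg C0
        linarith
      calc ∑ v ∈ U, (∑ q ∈ (range (Y + 1)).filter Nat.Prime,
            ((X.Pat v.i q).card : ℝ) * (q : ℝ) ^ (-s)) / 2 ^ (Fintype.card ι - 1)
          ≤ ∑ v ∈ U, ((1 - δ) * Real.log (1 / (s - 1)) + |C0|) / 2 ^ (Fintype.card ι - 1) := by
            refine sum_le_sum fun v _ => div_le_div_of_nonneg_right ?_ (by positivity)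
            refine (hden v.i s hs hs2 Y).trans ?_
            have := le_abs_self C0
            linarith
        _ = ((U.card : ℝ) / 2 ^ (Fintype.card ι - 1)) *
            ((1 - δ) * Real.log (1 / (s - 1)) + |C0|) := by
            rw [sum_const, nsmul_eq_mul]
            ring
        _ ≤ 1 * ((1 - δ) * Real.log (1 / (s - 1)) + |C0|) := by
            refine mul_le_mul_of_nonneg_right ?_ hR
            rw [div_le_one (by positivity)]
            exact_mod_cast hcard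
        _ = (1 - δ) * Real.log (1 / (s - 1)) + |C0| := one_mul _)
  obtain ⟨C2, hC2, h2⟩ := mul_bound (U.card : ℝ) (Nat.cast_nonneg _)
  refine ⟨C2 * Real.exp C1, by positivity, fun T hT => ?_⟩
  have hT0 : (0 : ℝ) < T := by exact_mod_cast (by omega : 0 < T)
  have hlogT : 0 < Real.log T := Real.log_pos (by exact_mod_cast (by omega : 1 < T))
  refine (h2 (fun q => ∑ v ∈ U, uw X v q) hg0 hgG T (by omega)).trans ?_
  have h3 := h1 T hT
  calc C2 * T / Real.log T * Real.exp (∑ q ∈ (range (T + 1)).filter Nat.Prime,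
        (∑ v ∈ U, uw X v q) / q)
      ≤ C2 * T / Real.log T * Real.exp ((1 - δ) * Real.log (Real.log T) + C1) := by
        refine mul_le_mul_of_nonneg_left ?_ (by positivity)
        exact Real.exp_le_exp.2 h3
    _ = C2 * Real.exp C1 * T * (Real.log T) ^ (-δ) := by
        rw [Real.exp_add]
        have e1 : Real.exp ((1 - δ) * Real.log (Real.log T)) =
            Real.log T * (Real.log T) ^ (-δ) := by
          rw [Real.rpow_def_of_pos hlogT]
          nth_rewrite 2 [← Real.exp_log hlogT]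
          rw [← Real.exp_add]
          congr 1
          ring
        rw [e1]
        field_simp

theorem unl_inner [Nonempty ι] (X : CData ι) (δ C0 : ℝ) (hδ : 0 < δ) (hδ1 : δ ≤ 1)
    (hden : X.Den δ C0) (U : Finset (Idx ι)) (hU : ∀ v ∈ U, ∀ w ∈ U, ¬ Linked v w) :
    ∃ C : ℝ, 0 ≤ C ∧ ∀ Y K : ℕ, 3 ≤ Y → 1 ≤ K → K * K ≤ Y →
      ∑ n ∈ (Icc 1 (Y / K)).filter Squarefree, ∏ q ∈ n.primeFactors, ∑ v ∈ U, uw X v q ≤
        C * ((Y : ℝ) / K) * (Real.log Y) ^ (-δ) := by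
  obtain ⟨C, hC, h⟩ := unl_series X δ C0 hδ1 hden U hU
  refine ⟨12 * C, by positivity, fun Y K hY hK hKY => ?_⟩
  have hY0 : (0 : ℝ) < Y := by exact_mod_cast (by omega : 0 < Y)
  have hK0 : (0 : ℝ) < K := by exact_mod_cast (by omega : 0 < K)
  set T := Y / K with hT
  have hTK : K ≤ T := by
    rw [hT]; exact (Nat.le_div_iff_mul_le (by omega)).2 hKY
  have hT1 : 1 ≤ T := hK.trans hTK
  have hYT : Y < K * (T + 1) := by rw [hT]; exact Nat.lt_mul_div_succ Y (by omega)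
  have hTYK : (T : ℝ) ≤ Y / K := by
    rw [le_div_iff₀ hK0]
    exact_mod_cast (Nat.div_mul_le_self Y K)
  set T' := max T 3 with hT'
  have hT'3 : 3 ≤ T' := le_max_right _ _
  have hTT' : T ≤ T' := le_max_left _ _
  have hT'T : (T' : ℝ) ≤ 3 * T := by
    have : T' ≤ 3 * T := by
      rw [hT']; exact max_le (by omega) (by omega)
    exact_mod_cast this
  have hpow : Y ≤ T' ^ 4 := by
    have h1 : Y < T * (T + 1) := lt_of_lt_of_le hYT (Nat.mul_le_mul_right _ hTK)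
    have h2 : T * (T + 1) ≤ T' * (T' + 1) := Nat.mul_le_mul hTT' (by omega)
    have h3 : T' + 1 ≤ T' ^ 3 := by
      have : T' ^ 3 = T' * T' * T' := by ring
      rw [this]
      nlinarith
    calc Y ≤ T' * (T' + 1) := by omega
      _ ≤ T' * T' ^ 3 := Nat.mul_le_mul_left _ h3
      _ = T' ^ 4 := by ring
  have hlogY : 0 < Real.log Y := Real.log_pos (by exact_mod_cast (by omega : 1 < Y))
  have hlogT' : Real.log Y / 4 ≤ Real.log T' := by
    have h1 : Real.log Y ≤ Real.log ((T' : ℝ) ^ 4) :=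
      Real.log_le_log hY0 (by exact_mod_cast hpow)
    rw [Real.log_pow] at h1
    push_cast at h1
    linarith
  calc ∑ n ∈ (Icc 1 T).filter Squarefree, ∏ q ∈ n.primeFactors, ∑ v ∈ U, uw X v q
      ≤ ∑ n ∈ (Icc 1 T').filter Squarefree, ∏ q ∈ n.primeFactors, ∑ v ∈ U, uw X v q := by
        refine sum_le_sum_of_subset_of_nonneg ?_ ?_
        · exact filter_subset_filter _ (Icc_subset_Icc_right hTT')
        · intro n _ _
          exact prod_nonneg fun q _ => sum_nonneg fun v _ => uw_nonneg X v q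
    _ ≤ C * T' * (Real.log T') ^ (-δ) := h T' hT'3
    _ ≤ C * (3 * (Y / K)) * (4 * (Real.log Y) ^ (-δ)) := by
        refine mul_le_mul ?_ ?_ (Real.rpow_nonneg (by linarith) _) (by positivity)
        · refine mul_le_mul_of_nonneg_left ?_ hC
          linarith
        · calc (Real.log T') ^ (-δ) ≤ (Real.log Y / 4) ^ (-δ) :=
                Real.rpow_le_rpow_of_nonpos (by positivity) hlogT' (by linarith)
            _ = (Real.log Y) ^ (-δ) * (1 / 4 : ℝ) ^ (-δ) := by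
                rw [← Real.mul_rpow hlogY.le (by norm_num)]
                congr 1
                ring
            _ ≤ (Real.log Y) ^ (-δ) * 4 := by
                refine mul_le_mul_of_nonneg_left ?_ (Real.rpow_nonneg hlogY.le _)
                rw [one_div, Real.inv_rpow (by norm_num), Real.rpow_neg (by norm_num), inv_inv]
                calc (4 : ℝ) ^ δ ≤ (4 : ℝ) ^ (1 : ℝ) :=
                      Real.rpow_le_rpow_of_exponent_le (by norm_num) hδ1
                  _ = 4 := Real.rpow_one 4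
            _ = 4 * (Real.log Y) ^ (-δ) := mul_comm _ _
    _ = 12 * C * ((Y : ℝ) / K) * (Real.log Y) ^ (-δ) := by ring

theorem abs_Ker_le (v w : Idx ι) (a b : ℕ) : |Ker v w a b| ≤ 1 := by
  unfold Ker
  split_ifs with h1 h2
  · rcases jacobiSym.trichotomy (b : ℤ) a with h | h | h <;> rw [h] <;> simp
  · simp
  · simp

open Classical in
theorem unl_phi (X : CData ι) (U : Finset (Idx ι)) (D : Idx ι → ℕ) :
    |X.Phi D| ≤ if Squarefree (∏ v ∈ U, D v) then
      ∏ v ∈ U, ∏ q ∈ (D v).primeFactors, uw X v q else 0 := by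
  have hK : |∏ p ∈ (univ : Finset (Idx ι)).offDiag, Ker p.1 p.2 (D p.1) (D p.2)| ≤ 1 := by
    rw [abs_prod]
    exact prod_le_one (fun _ _ => abs_nonneg _) (fun p _ => abs_Ker_le _ _ _ _)
  split_ifs with hsq
  · unfold CData.Phi
    rw [abs_mul, abs_prod]
    have h1 : ∏ v, |X.gam v (D v)| ≤ ∏ v ∈ U, ∏ q ∈ (D v).primeFactors, uw X v q := by
      rw [← prod_mul_prod_compl U]
      have h2 : ∏ v ∈ U, |X.gam v (D v)| ≤ ∏ v ∈ U, ∏ q ∈ (D v).primeFactors, uw X v q :=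
        prod_le_prod (fun _ _ => abs_nonneg _) (fun v _ => abs_gam_le X v (D v))
      have h3 : ∏ v ∈ Uᶜ, |X.gam v (D v)| ≤ 1 :=
        prod_le_one (fun _ _ => abs_nonneg _) (fun v _ => abs_gam_le_one X v (D v))
      calc (∏ v ∈ U, |X.gam v (D v)|) * ∏ v ∈ Uᶜ, |X.gam v (D v)|
          ≤ (∏ v ∈ U, ∏ q ∈ (D v).primeFactors, uw X v q) * 1 :=
            mul_le_mul h2 h3 (prod_nonneg fun _ _ => abs_nonneg _)
              (prod_nonneg fun v _ => prod_nonneg fun q _ => uw_nonneg X v q)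
        _ = _ := mul_one _
    calc (∏ v, |X.gam v (D v)|) *
          |∏ p ∈ (univ : Finset (Idx ι)).offDiag, Ker p.1 p.2 (D p.1) (D p.2)|
        ≤ (∏ v ∈ U, ∏ q ∈ (D v).primeFactors, uw X v q) * 1 :=
          mul_le_mul h1 hK (abs_nonneg _)
            (prod_nonneg fun v _ => prod_nonneg fun q _ => uw_nonneg X v q)
      _ = _ := mul_one _
  · rw [abs_nonpos_iff]
    by_contra hne
    apply hsq
    unfold CData.Phi at hne
    have hg := left_ne_zero_of_mul hne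
    have hk := right_ne_zero_of_mul hne
    rw [prod_ne_zero_iff] at hg hk
    refine Finset.squarefree_prod_of_pairwise_isCoprime ?_ ?_
    · intro v hv w hw hvw
      have h1 := hk (v, w) (by rw [mem_offDiag]; exact ⟨mem_univ _, mem_univ _, hvw⟩)
      unfold Ker at h1
      by_cases h2 : Nat.Coprime (D v) (D w)
      · exact Nat.coprime_iff_isRelPrime.1 h2
      · exact absurd (if_neg h2) h1
    · intro v _
      have h1 := hg v (mem_univ _)
      by_contra h2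
      exact h1 (gam_eq_zero X v (D v) (fun h3 => h2 h3.1))

theorem unl_fibre (X : CData ι) (U : Finset (Idx ι)) (Y T : ℕ) :
    ∑ A ∈ (Fintype.piFinset fun _ : {v : Idx ι // v ∈ U} => Icc 1 Y).filter
        (fun A => ∏ v, A v ≤ T ∧ Squarefree (∏ v, A v)),
      ∏ v : {v : Idx ι // v ∈ U}, ∏ q ∈ (A v).primeFactors, uw X v.1 q ≤
    ∑ n ∈ (Icc 1 T).filter Squarefree, ∏ q ∈ n.primeFactors, ∑ v ∈ U, uw X v q := by
  have hmaps : ∀ A ∈ (Fintype.piFinset fun _ : {v : Idx ι // v ∈ U} => Icc 1 Y).filter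
      (fun A => ∏ v, A v ≤ T ∧ Squarefree (∏ v, A v)),
      ∏ v, A v ∈ (Icc 1 T).filter Squarefree := by
    intro A hA
    rw [mem_filter] at hA ⊢
    rw [mem_Icc]
    exact ⟨⟨Nat.one_le_iff_ne_zero.2 hA.2.2.ne_zero, hA.2.1⟩, hA.2.2⟩
  rw [← sum_fiberwise_of_maps_to hmaps]
  refine sum_le_sum fun n hn => ?_
  rw [mem_filter, mem_Icc] at hn
  have e1 : ∏ q ∈ n.primeFactors, ∑ v ∈ U, uw X v q =
      ∏ q ∈ n.primeFactors, ∑ w : {v : Idx ι // v ∈ U}, uw X w.1 q := by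
    refine prod_congr rfl fun q _ => ?_
    rw [← sum_coe_sort U (fun v => uw X v q)]
  rw [e1, exp_prod (fun (w : {v : Idx ι // v ∈ U}) q => uw X w.1 q) n hn.2]
  refine sum_le_sum_of_subset_of_nonneg ?_ ?_
  · intro A hA
    rw [mem_filter] at hA
    rw [fib, mem_filter, Fintype.mem_piFinset]
    refine ⟨fun w => ?_, hA.2⟩
    rw [Nat.mem_divisors]
    exact ⟨hA.2 ▸ dvd_prod_of_mem A (mem_univ w), by omega⟩
  · intro A _ _
    exact prod_nonneg fun v _ => prod_nonneg fun q _ => uw_nonneg X v.1 q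

theorem unl_harmonic (W : Type) [Fintype W] [DecidableEq W] (Z : ℕ) :
    ∑ E ∈ (Fintype.piFinset fun _ : W => Icc 1 Z), ∏ v, (1 / (E v : ℝ)) ≤
      (1 + Real.log Z) ^ (Fintype.card W) := by
  rw [sum_prod_piFinset (Icc 1 Z) (fun (_ : W) (n : ℕ) => 1 / (n : ℝ)), prod_const, card_univ]
  refine pow_le_pow_left₀ (sum_nonneg fun n _ => by positivity) ?_ _
  have h1 := harmonic_le_one_add_log Z
  rw [harmonic_eq_sum_Icc] at h1
  push_cast at h1
  simpa [one_div] using h1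

open Classical in
theorem unl_one [Nonempty ι] (X : CData ι) (δ : ℝ) (U : Finset (Idx ι)) (C : ℝ) (hC : 0 ≤ C)
    (h : ∀ Y K : ℕ, 3 ≤ Y → 1 ≤ K → K * K ≤ Y →
      ∑ n ∈ (Icc 1 (Y / K)).filter Squarefree, ∏ q ∈ n.primeFactors, ∑ v ∈ U, uw X v q ≤
        C * ((Y : ℝ) / K) * (Real.log Y) ^ (-δ)) (Y Z : ℕ) (hY : 3 ≤ Y) (hZ : 1 ≤ Z)
    (hZY : ((Z : ℝ) ^ (2 * Fintype.card (Idx ι))) ≤ Y) :
      ∑ D ∈ (Fintype.piFinset fun _ : Idx ι => Icc 1 Y).filter
        (fun D => ∏ v, D v ≤ Y ∧ ∀ v, v ∉ U → D v ≤ Z), |X.Phi D| ≤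
      C * Y * (Real.log Y) ^ (-δ) * (1 + Real.log Z) ^ (Fintype.card (Idx ι)) := by
  have hY0 : (0 : ℝ) < Y := by exact_mod_cast (by omega : 0 < Y)
  have hlogY : 0 < Real.log Y := Real.log_pos (by exact_mod_cast (by omega : 1 < Y))
  have hlogZ : 0 ≤ Real.log Z := Real.log_nonneg (by exact_mod_cast hZ)
  have hR0 : 0 ≤ (Real.log Y) ^ (-δ) := Real.rpow_nonneg hlogY.le _
  set S := (Fintype.piFinset fun _ : Idx ι => Icc 1 Y).filter
        (fun D => ∏ v, D v ≤ Y ∧ ∀ v, v ∉ U → D v ≤ Z) with hS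
  set PE := (Fintype.piFinset fun _ : {v : Idx ι // ¬ v ∈ U} => Icc 1 Z) with hPE
  set PA := (Fintype.piFinset fun _ : {v : Idx ι // v ∈ U} => Icc 1 Y) with hPA
  set hh : ({v : Idx ι // ¬ v ∈ U} → ℕ) × ({v : Idx ι // v ∈ U} → ℕ) → ℝ := fun x =>
    if ∏ v, x.2 v ≤ Y / ∏ v, x.1 v ∧ Squarefree (∏ v, x.2 v) then
      ∏ v : {v : Idx ι // v ∈ U}, ∏ q ∈ (x.2 v).primeFactors, uw X v.1 q else 0 with hhh
  have hh0 : ∀ x, 0 ≤ hh x := by
    intro x
    simp only [hhh]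
    split_ifs
    · exact prod_nonneg fun v _ => prod_nonneg fun q _ => uw_nonneg X v.1 q
    · exact le_refl _
  set φ : (Idx ι → ℕ) → ({v : Idx ι // ¬ v ∈ U} → ℕ) × ({v : Idx ι // v ∈ U} → ℕ) :=
    fun D => (fun v => D v.1, fun v => D v.1) with hφ
  have hφinj : Function.Injective φ := by
    intro D D' hD
    simp only [hφ, Prod.mk.injEq] at hD
    funext v
    by_cases hv : v ∈ U
    · exact congrFun hD.2 ⟨v, hv⟩
    · exact congrFun hD.1 ⟨v, hv⟩
  have hstep1 : ∀ D ∈ S, |X.Phi D| ≤ hh (φ D) := by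
    intro D hD
    rw [hS, mem_filter, Fintype.mem_piFinset] at hD
    refine (unl_phi X U D).trans ?_
    simp only [hhh, hφ]
    have e1 : ∏ v ∈ U, D v = ∏ v : {v : Idx ι // v ∈ U}, D v.1 := (prod_coe_sort U D).symm
    have e2 : ∏ v ∈ U, ∏ q ∈ (D v).primeFactors, uw X v q =
        ∏ v : {v : Idx ι // v ∈ U}, ∏ q ∈ (D v.1).primeFactors, uw X v.1 q :=
      (prod_coe_sort U (fun v => ∏ q ∈ (D v).primeFactors, uw X v q)).symm
    rw [e1, e2]
    have hle : ∏ v : {v : Idx ι // v ∈ U}, D v.1 ≤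
        Y / ∏ v : {v : Idx ι // ¬ v ∈ U}, D v.1 := by
      rw [Nat.le_div_iff_mul_le]
      · have e3 : (∏ v : {v : Idx ι // v ∈ U}, D v.1) * ∏ v : {v : Idx ι // ¬ v ∈ U}, D v.1 =
            ∏ v, D v := by
          rw [← Finset.prod_subtype U (fun _ => Iff.rfl) D,
            ← Finset.prod_subtype Uᶜ (fun _ => mem_compl) D, Finset.prod_mul_prod_compl]
        rw [e3]
        exact hD.2.1
      · exact prod_pos fun v _ => (mem_Icc.1 (hD.1 v.1)).1
    by_cases hsq : Squarefree (∏ v : {v : Idx ι // v ∈ U}, D v.1)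
    · rw [if_pos hsq, if_pos ⟨hle, hsq⟩]
    · rw [if_neg hsq]
      split_ifs
      · exact prod_nonneg fun v _ => prod_nonneg fun q _ => uw_nonneg X v.1 q
      · exact le_refl _
  have hmaps : S.image φ ⊆ PE ×ˢ PA := by
    intro x hx
    rw [mem_image] at hx
    obtain ⟨D, hD, rfl⟩ := hx
    rw [hS, mem_filter, Fintype.mem_piFinset] at hD
    rw [mem_product, hPE, hPA, Fintype.mem_piFinset, Fintype.mem_piFinset]
    refine ⟨fun v => ?_, fun v => ?_⟩
    · rw [mem_Icc]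
      exact ⟨(mem_Icc.1 (hD.1 v.1)).1, hD.2.2 v.1 v.2⟩
    · exact hD.1 v.1
  calc ∑ D ∈ S, |X.Phi D| ≤ ∑ D ∈ S, hh (φ D) := sum_le_sum hstep1
    _ = ∑ x ∈ S.image φ, hh x := (sum_image (fun a _ b _ hab => hφinj hab)).symm
    _ ≤ ∑ x ∈ PE ×ˢ PA, hh x := sum_le_sum_of_subset_of_nonneg hmaps fun x _ _ => hh0 x
    _ = ∑ E ∈ PE, ∑ A ∈ PA, hh (E, A) := sum_product _ _ _
    _ ≤ ∑ E ∈ PE, C * Y * (Real.log Y) ^ (-δ) * ∏ v, (1 / (E v : ℝ)) := by
        refine sum_le_sum fun E hE => ?_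
        rw [hPE, Fintype.mem_piFinset] at hE
        have hE1 : ∀ v, 1 ≤ E v := fun v => (mem_Icc.1 (hE v)).1
        have hE2 : ∀ v, E v ≤ Z := fun v => (mem_Icc.1 (hE v)).2
        have hK1 : 1 ≤ ∏ v, E v := Nat.one_le_iff_ne_zero.2
          (prod_ne_zero_iff.2 fun v _ => by have := hE1 v; omega)
        have hcard : Fintype.card {v : Idx ι // ¬ v ∈ U} ≤ Fintype.card (Idx ι) :=
          Fintype.card_subtype_le _
        have hK2 : ∏ v, E v ≤ Z ^ Fintype.card (Idx ι) := by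
          calc ∏ v, E v ≤ ∏ v : {v : Idx ι // ¬ v ∈ U}, Z :=
                prod_le_prod' fun v _ => hE2 v
            _ = Z ^ Fintype.card {v : Idx ι // ¬ v ∈ U} := by rw [prod_const, card_univ]
            _ ≤ Z ^ Fintype.card (Idx ι) := Nat.pow_le_pow_right hZ hcard
        have hKK : (∏ v, E v) * (∏ v, E v) ≤ Y := by
          have h1 : (∏ v, E v) * (∏ v, E v) ≤ Z ^ (2 * Fintype.card (Idx ι)) := by
            rw [two_mul, pow_add]
            exact Nat.mul_le_mul hK2 hK2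
          have h2 : Z ^ (2 * Fintype.card (Idx ι)) ≤ Y := by exact_mod_cast hZY
          exact h1.trans h2
        have h3 := (unl_fibre X U Y (Y / ∏ v, E v)).trans (h Y (∏ v, E v) hY hK1 hKK)
        rw [sum_filter] at h3
        have e3 : C * Y * (Real.log Y) ^ (-δ) * ∏ v, (1 / (E v : ℝ)) =
            C * ((Y : ℝ) / ((∏ v, E v : ℕ) : ℝ)) * (Real.log Y) ^ (-δ) := by
          rw [prod_div_distrib, prod_const_one]
          push_cast
          ring
        rw [e3]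
        exact h3
    _ = C * Y * (Real.log Y) ^ (-δ) * ∑ E ∈ PE, ∏ v, (1 / (E v : ℝ)) := by rw [mul_sum]
    _ ≤ C * Y * (Real.log Y) ^ (-δ) * (1 + Real.log Z) ^ (Fintype.card (Idx ι)) := by
        refine mul_le_mul_of_nonneg_left ?_ (by positivity)
        refine (unl_harmonic {v : Idx ι // ¬ v ∈ U} Z).trans ?_
        exact pow_le_pow_right₀ (by linarith) (Fintype.card_subtype_le _)

variable [Nonempty ι]

theorem unl (X : CData ι) (δ C0 : ℝ) (hδ : 0 < δ) (hδ1 : δ ≤ 1) (hden : X.Den δ C0) :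
    ∃ C : ℝ, 0 ≤ C ∧ ∀ U : Finset (Idx ι), (∀ v ∈ U, ∀ w ∈ U, ¬ Linked v w) →
      ∀ Y Z : ℕ, 3 ≤ Y → 1 ≤ Z → ((Z : ℝ) ^ (2 * Fintype.card (Idx ι))) ≤ Y →
      ∑ D ∈ (Fintype.piFinset fun _ : Idx ι => Icc 1 Y).filter
        (fun D => ∏ v, D v ≤ Y ∧ ∀ v, v ∉ U → D v ≤ Z), |X.Phi D| ≤
      C * Y * (Real.log Y) ^ (-δ) * (1 + Real.log Z) ^ (Fintype.card (Idx ι)) := by
  classical
  have hex : ∀ U : Finset (Idx ι), ∃ C : ℝ, 0 ≤ C ∧ ((∀ v ∈ U, ∀ w ∈ U, ¬ Linked v w) →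
      ∀ Y K : ℕ, 3 ≤ Y → 1 ≤ K → K * K ≤ Y →
      ∑ n ∈ (Icc 1 (Y / K)).filter Squarefree, ∏ q ∈ n.primeFactors, ∑ v ∈ U, uw X v q ≤
        C * ((Y : ℝ) / K) * (Real.log Y) ^ (-δ)) := by
    intro U
    by_cases hU : ∀ v ∈ U, ∀ w ∈ U, ¬ Linked v w
    · obtain ⟨C, hC, h⟩ := unl_inner X δ C0 hδ hδ1 hden U hU
      exact ⟨C, hC, fun _ => h⟩
    · exact ⟨0, le_refl _, fun h => absurd h hU⟩
  choose C hC h using hex
  refine ⟨∑ U, C U, sum_nonneg fun U _ => hC U, fun U hU Y Z hY hZ hZY => ?_⟩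
  have hlogY : 0 < Real.log Y := Real.log_pos (by exact_mod_cast (by omega : 1 < Y))
  have hlogZ : 0 ≤ Real.log Z := Real.log_nonneg (by exact_mod_cast hZ)
  refine (unl_one X δ U (C U) (hC U) (h U hU) Y Z hY hZ hZY).trans ?_
  have h1 : C U ≤ ∑ U, C U := single_le_sum (fun U _ => hC U) (mem_univ U)
  have h2 : 0 ≤ (Real.log Y) ^ (-δ) := Real.rpow_nonneg hlogY.le _
  gcongr

end Pool.Agent.SCT
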