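import Pool.Agent.SCT.Expand
import Pool.Agent.SCT.Unl
import Pool.Agent.SCT.Lnk

/-!
SCT module COUNT: the counting theorem.

Proof.  Let `m = card ι`, `V = Idx ι`, `η = δ / (4 |V| + 4)`, `Z = ⌈exp ((log N)^η)⌉₊`, `L = Nat.log 2 N`.
(1) A counted `n` has a tuple `D'`, all `D' i ≥ 1`, `∏ D' i = n ≤ N`; with `k i = Nat.log 2 (D' i)`,
`D' ∈ box k`, `2^(∑ k) ≤ N`, so `∑ k ≤ L`; hence the number is
`≤ ∑_{k ∈ Ks} ∑_{D' ∈ box k} [Allowed D']`, `Ks = {k : ι → ℕ | ∑ k ≤ L}` (finite set, at most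
`(L+1)^m` elements: `Fintype.piFinset (fun _ => range (L+1))` filtered), `= ∑_{k ∈ Ks} ∑_{D ∈ vbox k} Phi D` (`expand`).
(2) Split according to `U = large Z D`: `∑_{k} ∑_U ∑_{D ∈ vbox k, large Z D = U} Phi D`.
(3) `U` containing a linked pair: `lnk`; total `≤ (L+1)^m 2^|V| C N (1 + L)^A Z^(-1/6)`, and
`Z^(-1/6) ≤ exp (-(log N)^η / 6)` beats every power of `log N` (`L ≤ 2 log N`).
(4) `U` without linked pair: the boxes `vbox k` are pairwise disjoint (`k i = Nat.log 2 (blk D i)`)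
and for `D ∈ vbox k`, `k ∈ Ks`: `∏ v, D v = ∏ i, blk D i < 2^(∑ (k i + 1)) ≤ 2^m N =: Y`, all
`D v ≤ Y`, `D v ≤ Z` for `v ∉ U`; so the total is at most the sum in `unl` (with `Y = 2^m N`), for `N`
large (`Z^(2|V|) ≤ exp(4 |V| (log N)^η) ≤ Y`), which is
`≤ C Y (log Y)^(-δ) (1 + log Z)^|V| ≤ C' N (log N)^(-δ) (log N)^(2 η |V|) ≤ C' N (log N)^(-δ/2)`.
(5) Small `N`: the number is `≤ N + 1`, adjust the constant.  So `δ' = δ / 2` works.
-/

set_option linter.dupNamespace false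

namespace Pool.Agent.SCT

open Finset

/-! ### The analytic part -/

theorem cnt_ev (a A δ η : ℝ) (hη : 0 < η) : ∀ᶠ x : ℝ in Filter.atTop,
    (3 * x) ^ a * (3 * x) ^ A * Real.exp (-(x ^ η) / 6) ≤ x ^ (-(δ / 2)) := by
  have h1 := tendsto_rpow_mul_exp_neg_mul_atTop_nhds_zero ((a + A + δ / 2) / η) (1 / 6) (by norm_num)
  have h2 := h1.comp (tendsto_rpow_atTop hη)
  have h3 : (0 : ℝ) < (3 ^ (a + A))⁻¹ := by positivity
  have h4 := h2.eventually (gt_mem_nhds h3)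
  filter_upwards [h4, Filter.eventually_gt_atTop (0 : ℝ)] with x hx hx0
  simp only [Function.comp] at hx
  rw [← Real.rpow_mul hx0.le, mul_div_cancel₀ _ hη.ne'] at hx
  rw [← Real.rpow_add (by positivity), Real.mul_rpow (by norm_num) hx0.le]
  have h5 : x ^ (a + A) = x ^ (a + A + δ / 2) * x ^ (-(δ / 2)) := by
    rw [← Real.rpow_add hx0]
    congr 1
    ring
  have h6 : Real.exp (-(x ^ η) / 6) = Real.exp (-(1 / 6) * x ^ η) := by
    congr 1
    ring
  rw [h5, h6]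
  have h7 : (0 : ℝ) < 3 ^ (a + A) := by positivity
  have h8 : 3 ^ (a + A) * (x ^ (a + A + δ / 2) * Real.exp (-(1 / 6) * x ^ η)) ≤ 1 := by
    have := mul_le_mul_of_nonneg_left hx.le h7.le
    rwa [mul_inv_cancel₀ h7.ne'] at this
  have h9 : 0 ≤ x ^ (-(δ / 2)) := by positivity
  calc 3 ^ (a + A) * (x ^ (a + A + δ / 2) * x ^ (-(δ / 2))) * Real.exp (-(1 / 6) * x ^ η)
      = (3 ^ (a + A) * (x ^ (a + A + δ / 2) * Real.exp (-(1 / 6) * x ^ η))) * x ^ (-(δ / 2)) := by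
        ring
    _ ≤ 1 * x ^ (-(δ / 2)) := mul_le_mul_of_nonneg_right h8 h9
    _ = x ^ (-(δ / 2)) := one_mul _

theorem cnt_ev2 (c η : ℝ) (hη1 : η < 1) : ∀ᶠ x : ℝ in Filter.atTop, c * x ^ η ≤ x := by
  have h1 := tendsto_rpow_atTop (sub_pos.mpr hη1)
  filter_upwards [h1.eventually_ge_atTop c, Filter.eventually_gt_atTop (0 : ℝ)] with x hx hx0
  calc c * x ^ η ≤ x ^ (1 - η) * x ^ η := mul_le_mul_of_nonneg_right hx (by positivity)
    _ = x := by
      rw [← Real.rpow_add hx0]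
      simp

theorem cnt_ana (vN m : ℕ) (A δ : ℝ) (hδ : 0 < δ) (hδ1 : δ ≤ 1) (hA : 0 ≤ A) :
    ∃ N0 : ℕ, ∀ N : ℕ, N0 ≤ N → ∃ Z : ℕ, 1 ≤ Z ∧ (Z : ℝ) ^ (2 * vN) ≤ N ∧ 3 ≤ N ∧
      (Real.log N) ^ (-δ) * (1 + Real.log Z) ^ vN ≤ 3 ^ vN * (Real.log N) ^ (-(δ / 2)) ∧
      ((Nat.log 2 N : ℝ) + 1) ^ m * (1 + (Nat.log 2 N : ℝ)) ^ A * (Z : ℝ) ^ (-(1 : ℝ) / 6) ≤
        (Real.log N) ^ (-(δ / 2)) := by
  set η : ℝ := δ / (4 * vN + 4) with hη
  have hv : (0 : ℝ) ≤ vN := Nat.cast_nonneg _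
  have hη0 : 0 < η := by positivity
  have hη1 : η < 1 := by
    rw [hη, div_lt_one (by positivity)]
    linarith
  have hηv : η * vN ≤ δ / 2 := by
    rw [hη, div_mul_eq_mul_div, div_le_div_iff₀ (by positivity) (by norm_num)]
    nlinarith
  have hx := ((cnt_ev (m : ℝ) A δ η hη0).and ((cnt_ev2 (4 * vN) η hη1).and
    (Filter.eventually_ge_atTop (3 : ℝ))))
  have hlog : Filter.Tendsto (fun N : ℕ => Real.log (N : ℝ)) Filter.atTop Filter.atTop :=
    Real.tendsto_log_atTop.comp tendsto_natCast_atTop_atTop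
  obtain ⟨N0, hN0⟩ := Filter.eventually_atTop.mp (hlog.eventually hx)
  refine ⟨max N0 3, fun N hN => ?_⟩
  obtain ⟨h1, h2, h3⟩ := hN0 N (le_trans (le_max_left _ _) hN)
  have hN3 : 3 ≤ N := le_trans (le_max_right _ _) hN
  set x := Real.log (N : ℝ) with hx
  have hx0 : 0 < x := by linarith
  have hN0 : (0 : ℝ) < N := by
    have : (3 : ℝ) ≤ N := by exact_mod_cast hN3
    linarith
  have hxη : 1 ≤ x ^ η := Real.one_le_rpow (by linarith) hη0.le
  refine ⟨⌈Real.exp (x ^ η)⌉₊, ?_, ?_, hN3, ?_, ?_⟩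
  · exact Nat.one_le_iff_ne_zero.mpr (Nat.pos_iff_ne_zero.mp (Nat.ceil_pos.mpr (Real.exp_pos _)))
  all_goals
    have hZ1 : Real.exp (x ^ η) ≤ (⌈Real.exp (x ^ η)⌉₊ : ℝ) := Nat.le_ceil _
    have hZ2 : (⌈Real.exp (x ^ η)⌉₊ : ℝ) ≤ Real.exp (2 * x ^ η) := by
      have h4 : (⌈Real.exp (x ^ η)⌉₊ : ℝ) < Real.exp (x ^ η) + 1 :=
        Nat.ceil_lt_add_one (Real.exp_pos _).le
      have h5 : 1 ≤ Real.exp (x ^ η) - 1 := by
        have := Real.add_one_le_exp (x ^ η)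
        linarith
      have h6 : Real.exp (2 * x ^ η) = Real.exp (x ^ η) * Real.exp (x ^ η) := by
        rw [← Real.exp_add]
        congr 1
        ring
      rw [h6]
      nlinarith
    have hZ0 : (0 : ℝ) < (⌈Real.exp (x ^ η)⌉₊ : ℝ) := lt_of_lt_of_le (Real.exp_pos _) hZ1
    set Z : ℝ := (⌈Real.exp (x ^ η)⌉₊ : ℝ) with hZ
  · calc Z ^ (2 * vN) ≤ (Real.exp (2 * x ^ η)) ^ (2 * vN) := by gcongr
      _ = Real.exp (4 * vN * x ^ η) := by
        rw [← Real.exp_nat_mul]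
        congr 1
        push_cast
        ring
      _ ≤ Real.exp x := Real.exp_le_exp.mpr h2
      _ = N := Real.exp_log hN0
  · have h4 : Real.log Z ≤ 2 * x ^ η := by
      rw [Real.log_le_iff_le_exp hZ0]
      exact hZ2
    have h4' : 0 ≤ Real.log Z := Real.log_nonneg (le_trans (Real.one_le_exp (by positivity)) hZ1)
    have h5 : (1 + Real.log Z) ^ vN ≤ 3 ^ vN * x ^ (δ / 2) := by
      calc (1 + Real.log Z) ^ vN ≤ (3 * x ^ η) ^ vN := by
            gcongr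
            linarith
        _ = 3 ^ vN * x ^ (η * vN) := by
          rw [mul_pow, Real.rpow_mul_natCast hx0.le]
        _ ≤ 3 ^ vN * x ^ (δ / 2) := by
          gcongr
          linarith
    calc x ^ (-δ) * (1 + Real.log Z) ^ vN ≤ x ^ (-δ) * (3 ^ vN * x ^ (δ / 2)) := by gcongr
      _ = 3 ^ vN * (x ^ (-δ) * x ^ (δ / 2)) := by ring
      _ = 3 ^ vN * x ^ (-(δ / 2)) := by
        rw [← Real.rpow_add hx0]
        congr 2
        ring
  · have h4 : (Nat.log 2 N : ℝ) + 1 ≤ 3 * x := by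
      have h5 : (Nat.log 2 N : ℝ) * Real.log 2 ≤ x := by
        have h6 : (2 : ℝ) ^ (Nat.log 2 N) ≤ N := by
          exact_mod_cast Nat.pow_log_le_self 2 (by omega)
        have h7 := Real.log_le_log (by positivity) h6
        rwa [Real.log_pow] at h7
      have h8 := Real.log_two_gt_d9
      have h9 : (0 : ℝ) ≤ (Nat.log 2 N : ℝ) := Nat.cast_nonneg _
      nlinarith
    have h5 : (0 : ℝ) ≤ (Nat.log 2 N : ℝ) := Nat.cast_nonneg _
    have h6 : Z ^ (-(1 : ℝ) / 6) ≤ Real.exp (-(x ^ η) / 6) := by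
      have h7 : Real.exp (-(x ^ η) / 6) = (Real.exp (x ^ η)) ^ (-(1 : ℝ) / 6) := by
        rw [← Real.exp_mul]
        congr 1
        ring
      rw [h7]
      exact Real.rpow_le_rpow_of_nonpos (Real.exp_pos _) hZ1 (by norm_num)
    calc ((Nat.log 2 N : ℝ) + 1) ^ m * (1 + (Nat.log 2 N : ℝ)) ^ A * Z ^ (-(1 : ℝ) / 6)
        ≤ (3 * x) ^ m * (3 * x) ^ A * Real.exp (-(x ^ η) / 6) := by
          have h8 : (1 + (Nat.log 2 N : ℝ)) ^ A ≤ (3 * x) ^ A :=
            Real.rpow_le_rpow (by positivity) (by linarith) hA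
          gcongr
      _ = (3 * x) ^ (m : ℝ) * (3 * x) ^ A * Real.exp (-(x ^ η) / 6) := by
          rw [Real.rpow_natCast]
      _ ≤ x ^ (-(δ / 2)) := h1

/-! ### The counting -/

variable {ι : Type} [Fintype ι] [DecidableEq ι] [Nonempty ι]

/-- the counted numbers -/
def CData.Cnt (X : CData ι) (N : ℕ) : Set ℕ :=
  {n | n ≤ N ∧ ∃ D : ι → ℕ, ∏ i, D i = n ∧ X.Allowed D}

/-- the exponents of the dyadic boxes -/
def cntKs (ι : Type) [Fintype ι] [DecidableEq ι] (L : ℕ) : Finset (ι → ℕ) :=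
  (Fintype.piFinset fun _ => range (L + 1)).filter (fun k => ∑ i, k i ≤ L)

theorem cnt_Ks_card (L : ℕ) : (cntKs ι L).card ≤ (L + 1) ^ Fintype.card ι := by
  refine (Finset.card_filter_le _ _).trans ?_
  rw [Fintype.card_piFinset]
  simp

theorem cnt_mem_Ks {L : ℕ} {k : ι → ℕ} : k ∈ cntKs ι L ↔ ∑ i, k i ≤ L := by
  unfold cntKs
  rw [Finset.mem_filter, Fintype.mem_piFinset]
  constructor
  · exact fun h => h.2
  · intro h
    refine ⟨fun i => ?_, h⟩
    rw [Finset.mem_range]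
    have := Finset.single_le_sum (f := k) (fun j _ => Nat.zero_le _) (Finset.mem_univ i)
    omega

open Classical in
theorem cnt_le (X : CData ι) (N : ℕ) :
    ((X.Cnt N).ncard : ℝ) ≤ ∑ k ∈ cntKs ι (Nat.log 2 N), ∑ D ∈ vbox k, X.Phi D := by
  set S : Finset (ι → ℕ) := (cntKs ι (Nat.log 2 N)).biUnion fun k => (box k).filter X.Allowed with hS
  have h1 : X.Cnt N ⊆ ↑(S.image fun D => ∏ i, D i) := by
    rintro n ⟨hn, D, hD, hA⟩
    have hn0 : n ≠ 0 := by
      rintro rfl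
      exact not_squarefree_zero (hD ▸ hA.1.1)
    have hD0 : ∀ i, D i ≠ 0 := by
      intro i hi
      apply hn0
      rw [← hD]
      exact Finset.prod_eq_zero (Finset.mem_univ i) hi
    rw [Finset.mem_coe, Finset.mem_image]
    refine ⟨D, ?_, hD⟩
    rw [hS, Finset.mem_biUnion]
    refine ⟨fun i => Nat.log 2 (D i), ?_, ?_⟩
    · rw [cnt_mem_Ks]
      apply Nat.le_log_of_pow_le (by norm_num)
      rw [← Finset.prod_pow_eq_pow_sum]
      calc ∏ i, 2 ^ Nat.log 2 (D i) ≤ ∏ i, D i :=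
            Finset.prod_le_prod' fun i _ => Nat.pow_log_le_self 2 (hD0 i)
        _ = n := hD
        _ ≤ N := hn
    · rw [Finset.mem_filter]
      refine ⟨?_, hA⟩
      unfold box
      rw [Fintype.mem_piFinset]
      intro i
      rw [Finset.mem_Ico]
      exact ⟨Nat.pow_log_le_self 2 (hD0 i), Nat.lt_pow_succ_log_self (by norm_num) _⟩
  have h2 : (X.Cnt N).ncard ≤ ∑ k ∈ cntKs ι (Nat.log 2 N), ((box k).filter X.Allowed).card := by
    calc (X.Cnt N).ncard ≤ (↑(S.image fun D => ∏ i, D i) : Set ℕ).ncard :=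
          Set.ncard_le_ncard h1 (Finset.finite_toSet _)
      _ = (S.image fun D => ∏ i, D i).card := Set.ncard_coe_finset _
      _ ≤ S.card := Finset.card_image_le
      _ ≤ _ := Finset.card_biUnion_le
  calc ((X.Cnt N).ncard : ℝ) ≤ ((∑ k ∈ cntKs ι (Nat.log 2 N), ((box k).filter X.Allowed).card : ℕ) : ℝ) := by
        exact_mod_cast h2
    _ = ∑ k ∈ cntKs ι (Nat.log 2 N), ∑ D ∈ vbox k, X.Phi D := by
        push_cast
        refine Finset.sum_congr rfl fun k _ => ?_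
        rw [← expand X k, Finset.card_filter]
        push_cast
        rfl

theorem cnt_vbox_log {k : ι → ℕ} {D : Idx ι → ℕ} (h : D ∈ vbox k) (i : ι) :
    k i = Nat.log 2 (blk D i) := by
  unfold vbox at h
  rw [Finset.mem_filter] at h
  exact ((Nat.log_eq_iff (Or.inr ⟨by norm_num, by
    have := (h.2 i).1
    have h2 : 0 < 2 ^ k i := by positivity
    omega⟩)).mpr (h.2 i)).symm

theorem cnt_prod_blk (D : Idx ι → ℕ) : ∏ i, blk D i = ∏ v, D v := by
  unfold blk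
  exact Finset.prod_fiberwise univ (fun v : Idx ι => v.i) D

theorem cnt_vbox_prod {k : ι → ℕ} {D : Idx ι → ℕ} {N : ℕ} (hN : N ≠ 0) (hk : k ∈ cntKs ι (Nat.log 2 N))
    (h : D ∈ vbox k) : ∏ v, D v ≤ 2 ^ Fintype.card ι * N := by
  have h2 := h
  unfold vbox at h2
  rw [Finset.mem_filter] at h2
  calc ∏ v, D v = ∏ i, blk D i := (cnt_prod_blk D).symm
    _ ≤ ∏ i, 2 ^ (k i + 1) := Finset.prod_le_prod' fun i _ => (h2.2 i).2.le
    _ = 2 ^ Fintype.card ι * 2 ^ (∑ i, k i) := by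
      rw [Finset.prod_pow_eq_pow_sum, Finset.sum_add_distrib]
      simp only [Finset.sum_const, Finset.card_univ, smul_eq_mul, mul_one]
      rw [pow_add, mul_comm]
    _ ≤ 2 ^ Fintype.card ι * 2 ^ (Nat.log 2 N) := by
      gcongr
      · norm_num
      · exact cnt_mem_Ks.mp hk
    _ ≤ 2 ^ Fintype.card ι * N := by
      gcongr
      exact Nat.pow_log_le_self 2 hN

open Classical in
theorem cnt_unl (X : CData ι) (U : Finset (Idx ι)) {N Z : ℕ} (hN : N ≠ 0) :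
    ∑ k ∈ cntKs ι (Nat.log 2 N), ∑ D ∈ (vbox k).filter (fun D => large Z D = U), |X.Phi D| ≤
      ∑ D ∈ (Fintype.piFinset fun _ : Idx ι => Icc 1 (2 ^ Fintype.card ι * N)).filter
        (fun D => ∏ v, D v ≤ 2 ^ Fintype.card ι * N ∧ ∀ v, v ∉ U → D v ≤ Z), |X.Phi D| := by
  rw [← Finset.sum_biUnion]
  · refine Finset.sum_le_sum_of_subset_of_nonneg ?_ fun _ _ _ => abs_nonneg _
    intro D hD
    rw [Finset.mem_biUnion] at hD
    obtain ⟨k, hk, hD⟩ := hD
    rw [Finset.mem_filter] at hD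
    obtain ⟨hD, hU⟩ := hD
    have hpr := cnt_vbox_prod hN hk hD
    have hD1 : ∀ v, 1 ≤ D v := by
      intro v
      unfold vbox at hD
      rw [Finset.mem_filter, Fintype.mem_piFinset] at hD
      exact (Finset.mem_Icc.mp (hD.1 v)).1
    rw [Finset.mem_filter, Fintype.mem_piFinset]
    refine ⟨fun v => ?_, hpr, ?_⟩
    · rw [Finset.mem_Icc]
      refine ⟨hD1 v, le_trans ?_ hpr⟩
      exact Nat.le_of_dvd (Finset.prod_pos fun w _ => hD1 w) (Finset.dvd_prod_of_mem _ (Finset.mem_univ v))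
    · intro v hv
      rw [← hU] at hv
      unfold large at hv
      rw [Finset.mem_filter] at hv
      by_contra hc
      exact hv ⟨Finset.mem_univ v, not_le.mp hc⟩
  · intro k _ k' _ hne
    rw [Function.onFun, Finset.disjoint_left]
    intro D hD hD'
    apply hne
    funext i
    rw [cnt_vbox_log (Finset.mem_filter.mp hD).1 i, cnt_vbox_log (Finset.mem_filter.mp hD').1 i]

theorem count (X : CData ι) (δ C0 : ℝ) (hδ : 0 < δ) (hδ1 : δ ≤ 1) (hden : X.Den δ C0) :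
    ∃ C δ' : ℝ, 0 ≤ C ∧ 0 < δ' ∧ ∀ N : ℕ, 2 ≤ N →
      ((X.Cnt N).ncard : ℝ) ≤ C * N / (Real.log N) ^ δ' := by
  classical
  obtain ⟨C1, hC1, hunl⟩ := unl X δ C0 hδ hδ1 hden
  obtain ⟨C2, A, hC2, hA, hlnk⟩ := lnk X
  obtain ⟨N0, hana⟩ := cnt_ana (Fintype.card (Idx ι)) (Fintype.card ι) A δ hδ hδ1 hA
  set vN := Fintype.card (Idx ι) with hvN
  set m := Fintype.card ι with hm
  -- the bound for large `N`
  have hbig : ∀ N : ℕ, N0 ≤ N → ((X.Cnt N).ncard : ℝ) ≤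
      (2 ^ vN * C2 + 2 ^ vN * (C1 * 2 ^ m * 3 ^ vN)) * N * (Real.log N) ^ (-(δ / 2)) := by
    intro N hN
    obtain ⟨Z, hZ1, hZ2, hN3, ha, hb⟩ := hana N hN
    have hN0 : N ≠ 0 := by omega
    have hNr : (0 : ℝ) < N := by
      have : (3 : ℝ) ≤ N := by exact_mod_cast hN3
      linarith
    set L := Nat.log 2 N with hL
    have hlogN : 0 < Real.log N := Real.log_pos (by
      have : (3 : ℝ) ≤ N := by exact_mod_cast hN3
      linarith)
    have hx0 : 0 ≤ (Real.log N) ^ (-(δ / 2)) := by positivity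
    -- split according to `U`
    have h1 : ∑ k ∈ cntKs ι L, ∑ D ∈ vbox k, X.Phi D =
        ∑ U : Finset (Idx ι), ∑ k ∈ cntKs ι L, ∑ D ∈ (vbox k).filter (fun D => large Z D = U), X.Phi D := by
      rw [Finset.sum_comm]
      refine Finset.sum_congr rfl fun k _ => ?_
      exact (Finset.sum_fiberwise (vbox k) (fun D => large Z D) X.Phi).symm
    have h2 : ∀ U : Finset (Idx ι),
        ∑ k ∈ cntKs ι L, ∑ D ∈ (vbox k).filter (fun D => large Z D = U), X.Phi D ≤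
          (C2 + C1 * 2 ^ m * 3 ^ vN) * N * (Real.log N) ^ (-(δ / 2)) := by
      intro U
      by_cases hU : ∃ v ∈ U, ∃ w ∈ U, Linked v w
      · -- linked
        have h3 : ∀ k ∈ cntKs ι L, ∑ D ∈ (vbox k).filter (fun D => large Z D = U), X.Phi D ≤
            C2 * N * (1 + (L : ℝ)) ^ A * (Z : ℝ) ^ (-(1 : ℝ) / 6) := by
          intro k hk
          have hk2 := cnt_mem_Ks.mp hk
          refine (le_abs_self _).trans ((hlnk k U Z hZ1 hU).trans ?_)
          have h4 : (2 : ℝ) ^ (∑ i, k i) ≤ N := by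
            calc (2 : ℝ) ^ (∑ i, k i) ≤ 2 ^ L := pow_le_pow_right₀ (by norm_num) hk2
              _ ≤ N := by exact_mod_cast Nat.pow_log_le_self 2 hN0
          have h5 : (1 + ((∑ i, k i : ℕ) : ℝ)) ^ A ≤ (1 + (L : ℝ)) ^ A := by
            refine Real.rpow_le_rpow (by positivity) ?_ hA
            have : ((∑ i, k i : ℕ) : ℝ) ≤ L := by exact_mod_cast hk2
            linarith
          gcongr
        calc ∑ k ∈ cntKs ι L, ∑ D ∈ (vbox k).filter (fun D => large Z D = U), X.Phi D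
            ≤ ∑ k ∈ cntKs ι L, C2 * N * (1 + (L : ℝ)) ^ A * (Z : ℝ) ^ (-(1 : ℝ) / 6) :=
              Finset.sum_le_sum h3
          _ = (cntKs ι L).card * (C2 * N * (1 + (L : ℝ)) ^ A * (Z : ℝ) ^ (-(1 : ℝ) / 6)) := by
              rw [Finset.sum_const, nsmul_eq_mul]
          _ ≤ ((L : ℝ) + 1) ^ m * (C2 * N * (1 + (L : ℝ)) ^ A * (Z : ℝ) ^ (-(1 : ℝ) / 6)) := by
              have h6 : ((cntKs ι L).card : ℝ) ≤ ((L : ℝ) + 1) ^ m := by
                exact_mod_cast cnt_Ks_card (ι := ι) L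
              gcongr
          _ = C2 * N * (((L : ℝ) + 1) ^ m * (1 + (L : ℝ)) ^ A * (Z : ℝ) ^ (-(1 : ℝ) / 6)) := by ring
          _ ≤ C2 * N * (Real.log N) ^ (-(δ / 2)) := by gcongr
          _ ≤ (C2 + C1 * 2 ^ m * 3 ^ vN) * N * (Real.log N) ^ (-(δ / 2)) := by
              gcongr
              have : 0 ≤ C1 * 2 ^ m * 3 ^ vN := by positivity
              linarith
      · -- unlinked
        have hU' : ∀ v ∈ U, ∀ w ∈ U, ¬ Linked v w := by
          intro v hv w hw h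
          exact hU ⟨v, hv, w, hw, h⟩
        have hY : N ≤ 2 ^ m * N := Nat.le_mul_of_pos_left _ (by positivity)
        have hYr : (N : ℝ) ≤ ((2 ^ m * N : ℕ) : ℝ) := by exact_mod_cast hY
        have h3 := hunl U hU' (2 ^ m * N) Z (by omega) hZ1 (hZ2.trans hYr)
        have h4 : (Real.log ((2 ^ m * N : ℕ) : ℝ)) ^ (-δ) ≤ (Real.log N) ^ (-δ) :=
          Real.rpow_le_rpow_of_nonpos hlogN (Real.log_le_log hNr hYr) (by linarith)
        have hZlog : 0 ≤ Real.log (Z : ℝ) := Real.log_nonneg (by exact_mod_cast hZ1)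
        calc ∑ k ∈ cntKs ι L, ∑ D ∈ (vbox k).filter (fun D => large Z D = U), X.Phi D
            ≤ ∑ k ∈ cntKs ι L, ∑ D ∈ (vbox k).filter (fun D => large Z D = U), |X.Phi D| :=
              Finset.sum_le_sum fun k _ => Finset.sum_le_sum fun D _ => le_abs_self _
          _ ≤ _ := cnt_unl X U hN0
          _ ≤ _ := h3
          _ ≤ C1 * ((2 ^ m * N : ℕ) : ℝ) * (Real.log N) ^ (-δ) * (1 + Real.log Z) ^ vN := by
              gcongr
          _ = C1 * 2 ^ m * N * ((Real.log N) ^ (-δ) * (1 + Real.log Z) ^ vN) := by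
              push_cast
              ring
          _ ≤ C1 * 2 ^ m * N * (3 ^ vN * (Real.log N) ^ (-(δ / 2))) := by gcongr
          _ = (C1 * 2 ^ m * 3 ^ vN) * N * (Real.log N) ^ (-(δ / 2)) := by ring
          _ ≤ (C2 + C1 * 2 ^ m * 3 ^ vN) * N * (Real.log N) ^ (-(δ / 2)) := by
              gcongr
              linarith
    calc ((X.Cnt N).ncard : ℝ) ≤ ∑ k ∈ cntKs ι L, ∑ D ∈ vbox k, X.Phi D := cnt_le X N
      _ = _ := h1
      _ ≤ ∑ U : Finset (Idx ι), (C2 + C1 * 2 ^ m * 3 ^ vN) * N * (Real.log N) ^ (-(δ / 2)) :=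
        Finset.sum_le_sum fun U _ => h2 U
      _ = (2 ^ vN * C2 + 2 ^ vN * (C1 * 2 ^ m * 3 ^ vN)) * N * (Real.log N) ^ (-(δ / 2)) := by
        rw [Finset.sum_const, Finset.card_univ, Fintype.card_finset, nsmul_eq_mul, ← hvN]
        push_cast
        ring
  -- all `N`
  set C3 : ℝ := 2 ^ vN * C2 + 2 ^ vN * (C1 * 2 ^ m * 3 ^ vN) with hC3
  have hC3' : 0 ≤ C3 := by positivity
  set M : ℝ := (Real.log ((N0 + 2 : ℕ) : ℝ)) ^ (δ / 2) with hM
  have hM0 : 0 ≤ M := by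
    have : 0 ≤ Real.log ((N0 + 2 : ℕ) : ℝ) := Real.log_natCast_nonneg _
    positivity
  refine ⟨C3 + 2 * M, δ / 2, by positivity, by positivity, fun N hN => ?_⟩
  have hNr : (2 : ℝ) ≤ N := by exact_mod_cast hN
  have hlogN : 0 < Real.log N := Real.log_pos (by linarith)
  have hpos : 0 < (Real.log N) ^ (δ / 2) := by positivity
  rw [le_div_iff₀ hpos]
  rcases Nat.lt_or_ge N N0 with h | h
  · have h1 : ((X.Cnt N).ncard : ℝ) ≤ 2 * N := by
      have h2 : X.Cnt N ⊆ ↑(Finset.range (N + 1)) := by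
        rintro n ⟨hn, -⟩
        rw [Finset.mem_coe, Finset.mem_range]
        omega
      have h3 := Set.ncard_le_ncard h2 (Finset.finite_toSet _)
      rw [Set.ncard_coe_finset, Finset.card_range] at h3
      have h4 : ((X.Cnt N).ncard : ℝ) ≤ N + 1 := by exact_mod_cast h3
      linarith
    have h2 : (Real.log N) ^ (δ / 2) ≤ M := by
      rw [hM]
      refine Real.rpow_le_rpow hlogN.le (Real.log_le_log (by linarith) ?_) (by positivity)
      exact_mod_cast (by omega : N ≤ N0 + 2)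
    calc ((X.Cnt N).ncard : ℝ) * (Real.log N) ^ (δ / 2) ≤ (2 * N) * M := by gcongr
      _ ≤ (C3 + 2 * M) * N := by nlinarith
  · have h1 := hbig N h
    have h2 : (Real.log N) ^ (-(δ / 2)) * (Real.log N) ^ (δ / 2) = 1 := by
      rw [← Real.rpow_add hlogN]
      simp
    calc ((X.Cnt N).ncard : ℝ) * (Real.log N) ^ (δ / 2)
        ≤ (C3 * N * (Real.log N) ^ (-(δ / 2))) * (Real.log N) ^ (δ / 2) := by gcongr
      _ = C3 * N * ((Real.log N) ^ (-(δ / 2)) * (Real.log N) ^ (δ / 2)) := by ring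
      _ = C3 * N := by rw [h2, mul_one]
      _ ≤ (C3 + 2 * M) * N := by
        gcongr
        linarith

end Pool.Agent.SCT
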