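import Mathlib
import Pool.Agent.Helper19.Sec.Rat
import Pool.Agent.Helper19.Sec.RK

/-!
SCT = MP_896029_ag: almost all quadratic twists of a hyperelliptic curve without factors of odd
degree have no section.  Definitions.  Overview: /team-store/sct_blueprint.md.
-/

set_option linter.dupNamespace false

namespace Pool.Agent.SCT

open Polynomial Finset

variable {ι : Type}

/-- the indices `(i, A)`, `i ∉ A`, of the expansion -/
abbrev Idx (ι : Type) := {p : ι × Finset ι // p.1 ∉ p.2}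

/-- the first component -/
abbrev Idx.i (v : Idx ι) : ι := v.1.1

/-- the second component -/
abbrev Idx.A (v : Idx ι) : Finset ι := v.1.2

/-- linked indices -/
def Linked (v w : Idx ι) : Prop := ¬ (w.i ∈ v.A ↔ v.i ∈ w.A)

/-- squarefree numbers all of whose prime factors are larger than `B` -/
def Good (B n : ℕ) : Prop := Squarefree n ∧ ∀ q : ℕ, q.Prime → q ∣ n → B < q

/-- data of the counting problem: sets of allowed sign patterns, constants `c j` -/
structure CData (ι : Type) where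
  /-- allowed patterns at a prime assigned to `i` -/
  Pat : ι → ℕ → Finset (ι → ℤˣ)
  norm : ∀ i q, ∀ y ∈ Pat i q, y i = 1
  /-- the constants -/
  c : ι → ℤ
  /-- bound for the bad primes -/
  B : ℕ
  two_le : 2 ≤ B
  hc : ∀ i, ∀ q : ℕ, q.Prime → B < q → ¬ (q : ℤ) ∣ c i

variable [Fintype ι] [DecidableEq ι]

/-- the tuple `D` is good and at every prime divisor `q` of `D i` the vector of the symbols
`(c j * D j / q)`, `j ≠ i`, is an allowed pattern -/
def CData.Allowed (X : CData ι) (D : ι → ℕ) : Prop :=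
  Good X.B (∏ i, D i) ∧ ∀ i, ∀ q : ℕ, q.Prime → q ∣ D i →
    ∃ y ∈ X.Pat i q, ∀ j, j ≠ i → jacobiSym (X.c j * D j) q = ((y j : ℤˣ) : ℤ)

/-- the hypothesis on the average number of patterns -/
def CData.Den (X : CData ι) (δ C : ℝ) : Prop :=
  ∀ i, ∀ s : ℝ, 1 < s → s ≤ 2 → ∀ Y : ℕ,
    ∑ q ∈ (range (Y + 1)).filter Nat.Prime, ((X.Pat i q).card : ℝ) * (q : ℝ) ^ (-s) ≤
      (1 - δ) * Real.log (1 / (s - 1)) + C

/-- Fourier coefficients of the indicator function of a set of patterns -/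
noncomputable def coefP (P : Finset (ι → ℤˣ)) (A : Finset ι) : ℝ :=
  (∑ y ∈ P, ∏ j ∈ A, (((y j : ℤˣ) : ℤ) : ℝ)) / 2 ^ (Fintype.card ι - 1)

open Classical in
/-- the coefficient of the variable `D v` -/
noncomputable def CData.gam (X : CData ι) (v : Idx ι) (n : ℕ) : ℝ :=
  if Good X.B n then (∏ q ∈ n.primeFactors, coefP (X.Pat v.i q) v.A) *
    ∏ j ∈ v.A, ((jacobiSym (X.c j) n : ℤ) : ℝ) else 0

/-- the interaction of the variables `D v = a` and `D w = b` -/
noncomputable def Ker (v w : Idx ι) (a b : ℕ) : ℝ :=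
  if Nat.Coprime a b then (if w.i ∈ v.A then ((jacobiSym b a : ℤ) : ℝ) else 1) else 0

/-- the summand of the expansion -/
noncomputable def CData.Phi (X : CData ι) (D : Idx ι → ℕ) : ℝ :=
  (∏ v, X.gam v (D v)) *
    ∏ p ∈ (univ : Finset (Idx ι)).offDiag, Ker p.1 p.2 (D p.1) (D p.2)

/-- the block product `D_i` -/
def blk (D : Idx ι → ℕ) (i : ι) : ℕ := ∏ v : Idx ι with v.i = i, D v

/-- dyadic boxes -/
def box (k : ι → ℕ) : Finset (ι → ℕ) :=
  Fintype.piFinset fun i => Finset.Ico (2 ^ (k i)) (2 ^ (k i + 1))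

/-- dyadic boxes for the expanded variables -/
def vbox (k : ι → ℕ) : Finset (Idx ι → ℕ) :=
  (Fintype.piFinset fun v : Idx ι => Finset.Icc 1 (2 ^ (k v.i + 1))).filter
    (fun D => ∀ i, 2 ^ (k i) ≤ blk D i ∧ blk D i < 2 ^ (k i + 1))

/-- the indices of the large variables -/
def large (Z : ℕ) (D : Idx ι → ℕ) : Finset (Idx ι) := univ.filter (fun v => Z < D v)

/-- the sign patterns of `(lead(F j) * F j (t))`, `j ≠ i`, at the roots `t` of `F i` modulo `q` -/
def patSet (F : ι → ℤ[X]) (i : ι) (q : ℕ) : Set (ι → ℤˣ) :=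
  {y | ∃ t : ZMod q, ((F i).map (Int.castRingHom (ZMod q))).eval t = 0 ∧
    ∀ j, (j = i → y j = 1) ∧ (j ≠ i → (y j = 1 ↔ IsSquare (((F j).leadingCoeff : ZMod q) *
      ((F j).map (Int.castRingHom (ZMod q))).eval t)))}

/-- the set of patterns as a finite set -/
noncomputable def pat (F : ι → ℤ[X]) (i : ι) (q : ℕ) : Finset (ι → ℤˣ) :=
  (Set.toFinite (patSet F i q)).toFinset

end Pool.Agent.SCT
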