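import Pool.Agent.SCT.Fibre

/-!
SCT module EXPAND: the indicator function of the allowed tuples, summed over a dyadic box, equals
the sum of `Phi` over the box of the expanded variables.

Proof.  Sum `fibre` over `D' ∈ box k` (all entries are `≥ 1`); the fibres of `D ↦ blk D` over
`box k` make up `vbox k`: for `D ∈ vbox k` all `D v ≥ 1` and `D v ∣ blk D v.i`; conversely
`D v ≤ blk D v.i < 2 ^ (k v.i + 1)`, `D v ≥ 1` because `blk D v.i ≥ 1`
(`Finset.sum_sigma'`, `Finset.sum_bij'`, or `Finset.sum_fiberwise_of_maps_to`).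
-/

set_option linter.dupNamespace false

namespace Pool.Agent.SCT

open Finset

variable {ι : Type} [Fintype ι] [DecidableEq ι]

theorem dvd_blk (D : Idx ι → ℕ) (v : Idx ι) : D v ∣ blk D v.i := by
  unfold blk
  exact Finset.dvd_prod_of_mem _ (by simp)

open Classical in
theorem expand (X : CData ι) (k : ι → ℕ) :
    ∑ D' ∈ box k, (if X.Allowed D' then (1 : ℝ) else 0) = ∑ D ∈ vbox k, X.Phi D := by
  have hmaps : ∀ D ∈ (vbox k : Finset (Idx ι → ℕ)), blk D ∈ box k := by
    intro D hD
    rw [vbox, Finset.mem_filter] at hD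
    rw [box, Fintype.mem_piFinset]
    intro i
    rw [Finset.mem_Ico]
    exact hD.2 i
  rw [← Finset.sum_fiberwise_of_maps_to hmaps]
  refine Finset.sum_congr rfl fun D' hD' => ?_
  rw [box, Fintype.mem_piFinset] at hD'
  have hpos : ∀ i, 0 < D' i := by
    intro i
    have := (Finset.mem_Ico.1 (hD' i)).1
    exact lt_of_lt_of_le (by positivity) this
  rw [fibre X D' (fun i => (hpos i).ne')]
  refine Finset.sum_congr ?_ (fun _ _ => rfl)
  ext D
  rw [Finset.mem_filter, Finset.mem_filter, Fintype.mem_piFinset, vbox, Finset.mem_filter,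
    Fintype.mem_piFinset]
  constructor
  · rintro ⟨h1, h2⟩
    have h3 : blk D = D' := funext h2
    subst h3
    refine ⟨⟨fun v => ?_, fun i => Finset.mem_Ico.1 (hD' i)⟩, rfl⟩
    rw [Finset.mem_Icc]
    have h4 : D v ∣ blk D v.i := Nat.dvd_of_mem_divisors (h1 v)
    refine ⟨Nat.pos_of_dvd_of_pos h4 (hpos _), ?_⟩
    exact (Nat.le_of_dvd (hpos _) h4).trans (Finset.mem_Ico.1 (hD' v.i)).2.le
  · rintro ⟨⟨h1, h2⟩, h3⟩
    subst h3
    refine ⟨fun v => ?_, fun i => rfl⟩
    rw [Nat.mem_divisors]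
    exact ⟨dvd_blk D v, (hpos _).ne'⟩

end Pool.Agent.SCT
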