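import Mathlib

/-!
SCT module FAC: factorisation of an integral polynomial.

Proof.  `f = C (content) * primPart`, `primPart` is a product of irreducible elements of `ℤ[X]`
(`UniqueFactorizationMonoid`), all of them primitive of positive degree (a divisor of a primitive
polynomial is primitive; a constant primitive polynomial is a unit), so irreducible over `ℚ`
(`Polynomial.IsPrimitive.Int.irreducible_iff_irreducible_map_cast`).  Index the multiset of the
factors by `Fin n` (`Multiset.toList`, `List.get`), put the unit into the constant.  `∏ F j` is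
separable over `ℚ` because `f` is squarefree over `ℚ` and `ℚ` is perfect
(`PerfectField.separable_iff_squarefree`), and differs from it by a nonzero constant.
-/

set_option linter.dupNamespace false

namespace Pool.Agent.SCT

open Polynomial

theorem exists_factors (f : ℤ[X]) (hsq : Squarefree (f.map (Int.castRingHom ℚ)))
    (h6 : 6 ≤ f.natDegree)
    (heven : ∀ g : ℚ[X], Irreducible g → g ∣ f.map (Int.castRingHom ℚ) → Even g.natDegree) :
    ∃ (n : ℕ) (F : Fin n → ℤ[X]) (c : ℤ), c ≠ 0 ∧ f = C c * ∏ j, F j ∧
      (∀ j, Irreducible ((F j).map (Int.castRingHom ℚ))) ∧ (∀ j, Even (F j).natDegree) ∧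
      6 ≤ (∏ j, F j).natDegree ∧ ((∏ j, F j).map (Int.castRingHom ℚ)).Separable := by
  have hf0 : f ≠ 0 := by
    rintro rfl
    simp at h6
  have hinj : Function.Injective (Int.castRingHom ℚ) := (Int.castRingHom ℚ).injective_int
  have hpp0 : f.primPart ≠ 0 := f.isPrimitive_primPart.ne_zero
  obtain ⟨S, hS, hass⟩ := WfDvdMonoid.exists_factors f.primPart hpp0
  obtain ⟨u, hu⟩ := hass.symm
  -- `primPart * u = S.prod`
  obtain ⟨e, he, heu⟩ := Polynomial.isUnit_iff.1 u⁻¹.isUnit
  have hprod : f.primPart = C e * S.prod := by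
    rw [← hu, heu]
    have : (↑(u⁻¹) : ℤ[X]) * (f.primPart * ↑u) = f.primPart := by
      rw [mul_comm f.primPart, ← mul_assoc, Units.inv_mul, one_mul]
    exact this.symm
  have hSprod : ∏ j : Fin S.toList.length, S.toList[j.1] = S.prod := by
    rw [Fin.prod_univ_getElem, Multiset.prod_toList]
  have hmem : ∀ j : Fin S.toList.length, S.toList[j.1] ∈ S := fun j =>
    Multiset.mem_toList.1 (List.getElem_mem _)
  have hfc : f = C (f.content * e) * ∏ j : Fin S.toList.length, S.toList[j.1] := by
    rw [hSprod]
    conv_lhs => rw [f.eq_C_content_mul_primPart, hprod]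
    rw [C_mul, mul_assoc]
  have hc0 : f.content * e ≠ 0 := mul_ne_zero (by rwa [Ne, content_eq_zero_iff]) he.ne_zero
  have hdvd : ∀ b ∈ S, b ∣ f.primPart := fun b hb =>
    (Multiset.dvd_prod hb).trans hass.dvd
  have hirr : ∀ b ∈ S, Irreducible (b.map (Int.castRingHom ℚ)) := fun b hb =>
    (IsPrimitive.Int.irreducible_iff_irreducible_map_cast
      (isPrimitive_of_dvd f.isPrimitive_primPart (hdvd b hb))).1 (hS b hb)
  refine ⟨S.toList.length, fun j => S.toList[j.1], f.content * e, hc0, hfc,
    fun j => hirr _ (hmem j), fun j => ?_, ?_, ?_⟩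
  · have h1 := heven _ (hirr _ (hmem j)) (Polynomial.map_dvd _
      ((hdvd _ (hmem j)).trans f.primPart_dvd))
    rwa [natDegree_map_eq_of_injective hinj] at h1
  · have h1 : f.natDegree = (∏ j : Fin S.toList.length, S.toList[j.1]).natDegree := by
      conv_lhs => rw [hfc]
      rw [natDegree_C_mul hc0]
    rw [← h1]
    exact h6
  · rw [PerfectField.separable_iff_squarefree]
    refine hsq.squarefree_of_dvd (Polynomial.map_dvd _ ?_)
    exact ⟨C (f.content * e), by conv_lhs => rw [hfc, mul_comm]⟩

end Pool.Agent.SCT
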