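import Pool.Agent.SCT.Fou
import Pool.Agent.SCT.ExpProd

/-!
SCT module FIB: the indicator function of the allowed tuples as a sum over the fibre.

* If `∏ D' i` is not good, the left side is `0`; on the right, `Phi D ≠ 0` forces all `D v` good
  (`gam_eq_zero`) and pairwise coprime (`Ker`), so `∏ v, D v = ∏ i, D' i` would be good.
* If `∏ D' i` is good: for a prime `q ∣ D' i` and `j ≠ i` the integer `c j * D' j` is prime to `q`
  (`X.hc`, coprimality), so `η j := (c j * D' j / q)` is a unit (take the unit `1` for `j = i`); the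
  left side is `∏_i ∏_{q ∣ D' i} [∃ y ∈ Pat i q, ∀ j ≠ i, η j = y j]`, apply `fou` for every factor
  and `exp_prod` with `W = {A : Finset ι // i ∉ A}` for every `i`, then `Finset.prod_univ_sum` and
  the bijection between families of functions `∀ i, {A // i ∉ A} → ℕ` and functions `Idx ι → ℕ`.
  Finally `∏_{q ∣ D v} (c j * D' j / q) = jacobiSym (c j * D' j) (D v)` for squarefree `D v`
  (`jacobiSym.mul_right`, `jacobiSym.mul_left`) `= jacobiSym (c j) (D v) *
  ∏_{w.i = j} jacobiSym (D w) (D v)`, and the product over `v`, `j ∈ v.A`, `w.i = j` is the product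
  over the ordered pairs `(v, w)`, `v ≠ w`, with `w.i ∈ v.A` (`w.i ∈ v.A` implies `v ≠ w`).
The identity was checked numerically.
-/

set_option linter.dupNamespace false

namespace Pool.Agent.SCT

open Finset

theorem jacobi_prod_right (a : ℤ) (S : Finset ℕ) (hS : ∀ q ∈ S, q ≠ 0) :
    jacobiSym a (∏ q ∈ S, q) = ∏ q ∈ S, jacobiSym a q := by
  classical
  induction S using Finset.induction_on with
  | empty => simp
  | insert q S hq ih =>
    rw [Finset.prod_insert hq, Finset.prod_insert hq, jacobiSym.mul_right' a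
      (hS q (Finset.mem_insert_self _ _))
      (Finset.prod_ne_zero_iff.2 fun r hr => hS r (Finset.mem_insert_of_mem hr)),
      ih (fun r hr => hS r (Finset.mem_insert_of_mem hr))]

theorem jacobi_squarefree (a : ℤ) (n : ℕ) (hn : Squarefree n) :
    jacobiSym a n = ∏ q ∈ n.primeFactors, jacobiSym a q := by
  conv_lhs => rw [← Nat.prod_primeFactors_of_squarefree hn]
  exact jacobi_prod_right a _ (fun q hq => (Nat.prime_of_mem_primeFactors hq).ne_zero)

theorem jacobi_prod_left {W : Type*} (S : Finset W) (f : W → ℤ) (n : ℕ) :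
    jacobiSym (∏ w ∈ S, f w) n = ∏ w ∈ S, jacobiSym (f w) n := by
  classical
  induction S using Finset.induction_on with
  | empty => simp [jacobiSym.one_left]
  | insert q S hq ih =>
    rw [Finset.prod_insert hq, Finset.prod_insert hq, jacobiSym.mul_left, ih]

variable {ι : Type} [Fintype ι] [DecidableEq ι]

theorem prod_blk (D : Idx ι → ℕ) : ∏ i, blk D i = ∏ v, D v := by
  unfold blk
  exact Finset.prod_fiberwise (univ : Finset (Idx ι)) (fun v => v.i) D

theorem good_of_dvd {B m n : ℕ} (h : Good B n) (hmn : m ∣ n) : Good B m :=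
  ⟨h.1.squarefree_of_dvd hmn, fun q hq hqm => h.2 q hq (hqm.trans hmn)⟩

theorem good_prod {W : Type*} [DecidableEq W] {B : ℕ} (S : Finset W) (f : W → ℕ)
    (h1 : ∀ w ∈ S, Good B (f w))
    (h2 : ∀ v ∈ S, ∀ w ∈ S, v ≠ w → Nat.Coprime (f v) (f w)) : Good B (∏ w ∈ S, f w) := by
  induction S using Finset.induction_on with
  | empty =>
    refine ⟨by simp, fun q hq hq1 => ?_⟩
    simp only [Finset.prod_empty, Nat.dvd_one] at hq1
    exact absurd hq1 hq.one_lt.ne'
  | insert a S ha ih =>
    rw [Finset.prod_insert ha]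
    have hS := ih (fun w hw => h1 w (Finset.mem_insert_of_mem hw))
      (fun v hv w hw => h2 v (Finset.mem_insert_of_mem hv) w (Finset.mem_insert_of_mem hw))
    have hco : Nat.Coprime (f a) (∏ w ∈ S, f w) := by
      apply Nat.Coprime.prod_right
      intro w hw
      exact h2 a (Finset.mem_insert_self _ _) w (Finset.mem_insert_of_mem hw)
        (fun h => ha (h ▸ hw))
    refine ⟨(Nat.squarefree_mul hco).2 ⟨(h1 a (Finset.mem_insert_self _ _)).1, hS.1⟩, ?_⟩
    intro q hq hqd
    rcases (Nat.Prime.dvd_mul hq).1 hqd with h | h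
    · exact (h1 a (Finset.mem_insert_self _ _)).2 q hq h
    · exact hS.2 q hq h

theorem coprime_of_squarefree_prod {W : Type*} [Fintype W] [DecidableEq W] (f : W → ℕ)
    (h : Squarefree (∏ w, f w)) (v w : W) (hvw : v ≠ w) : Nat.Coprime (f v) (f w) := by
  have h1 : f v * f w ∣ ∏ w, f w := by
    rw [← Finset.prod_pair hvw]
    exact Finset.prod_dvd_prod_of_subset _ _ _ (Finset.subset_univ _)
  exact Nat.coprime_of_squarefree_mul (h.squarefree_of_dvd h1)

/-- the units given by the symbols -/
noncomputable def unt (a : ℤ) (q : ℕ) : ℤˣ := if jacobiSym a q = 1 then 1 else -1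

theorem unt_coe {a : ℤ} {q : ℕ} (h : a.gcd q = 1) : ((unt a q : ℤˣ) : ℤ) = jacobiSym a q := by
  unfold unt
  rcases jacobiSym.eq_one_or_neg_one h with h1 | h1
  · rw [if_pos h1, h1]; rfl
  · rw [if_neg (by rw [h1]; norm_num), h1]; rfl

open Classical in
/-- the term of the expansion for a good tuple -/
theorem phi_eq (X : CData ι) (D : Idx ι → ℕ) (hgood : Good X.B (∏ v, D v)) :
    ∏ v : Idx ι, ∏ q ∈ (D v).primeFactors, (coefP (X.Pat v.i q) v.A *
      ∏ j ∈ v.A, (((unt (X.c j * blk D j) q : ℤˣ) : ℤ) : ℝ)) = X.Phi D := by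
  have hgv : ∀ v, Good X.B (D v) := fun v =>
    good_of_dvd hgood (Finset.dvd_prod_of_mem _ (Finset.mem_univ v))
  have hco : ∀ v w, v ≠ w → Nat.Coprime (D v) (D w) :=
    coprime_of_squarefree_prod D hgood.1
  unfold CData.Phi
  have hgam : ∀ v, X.gam v (D v) = (∏ q ∈ (D v).primeFactors, coefP (X.Pat v.i q) v.A) *
      ∏ j ∈ v.A, ((jacobiSym (X.c j) (D v) : ℤ) : ℝ) := by
    intro v
    rw [CData.gam, if_pos (hgv v)]
  have hker : ∏ p ∈ (univ : Finset (Idx ι)).offDiag, Ker p.1 p.2 (D p.1) (D p.2)
      = ∏ v : Idx ι, ∏ j ∈ v.A, ((jacobiSym (blk D j : ℤ) (D v) : ℤ) : ℝ) := by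
    have h1 : ∏ p ∈ (univ : Finset (Idx ι)).offDiag, Ker p.1 p.2 (D p.1) (D p.2)
        = ∏ p : Idx ι × Idx ι, (if p.2.i ∈ p.1.A then ((jacobiSym (D p.2) (D p.1) : ℤ) : ℝ)
            else 1) := by
      have h2 : ∀ p ∈ (univ : Finset (Idx ι)).offDiag, Ker p.1 p.2 (D p.1) (D p.2)
          = (if p.2.i ∈ p.1.A then ((jacobiSym (D p.2) (D p.1) : ℤ) : ℝ) else 1) := by
        intro p hp
        rw [Finset.mem_offDiag] at hp
        rw [Ker, if_pos (hco _ _ hp.2.2)]
      rw [Finset.prod_congr rfl h2]
      apply Finset.prod_subset (Finset.subset_univ _)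
      intro p _ hp
      rw [Finset.mem_offDiag] at hp
      have h3 : p.1 = p.2 := by
        by_contra h4
        exact hp ⟨Finset.mem_univ _, Finset.mem_univ _, h4⟩
      rw [if_neg]
      rw [← h3]
      exact p.1.2
    rw [h1, Fintype.prod_prod_type]
    refine Finset.prod_congr rfl fun v _ => ?_
    have h5 : ∀ j ∈ v.A, ((jacobiSym (blk D j : ℤ) (D v) : ℤ) : ℝ)
        = ∏ w : Idx ι with w.i = j, ((jacobiSym (D w) (D v) : ℤ) : ℝ) := by
      intro j _
      unfold blk
      push_cast
      rw [jacobi_prod_left]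
      push_cast
      rfl
    rw [Finset.prod_congr rfl h5]
    rw [Finset.prod_ite, Finset.prod_const_one, mul_one]
    rw [← Finset.prod_fiberwise_of_maps_to (s := univ.filter (fun w : Idx ι => w.i ∈ v.A))
      (t := v.A) (g := fun w => w.i) (fun w hw => (Finset.mem_filter.1 hw).2)]
    refine Finset.prod_congr rfl fun j hj => ?_
    refine Finset.prod_congr ?_ (fun _ _ => rfl)
    ext w
    simp only [Finset.mem_filter, Finset.mem_univ, true_and]
    constructor
    · rintro ⟨_, h⟩; exact h
    · intro h; exact ⟨h ▸ hj, h⟩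
  rw [hker, Finset.prod_congr rfl (fun v _ => hgam v), ← Finset.prod_mul_distrib]
  refine Finset.prod_congr rfl fun v _ => ?_
  rw [Finset.prod_mul_distrib, mul_assoc]
  congr 1
  rw [Finset.prod_comm, ← Finset.prod_mul_distrib]
  refine Finset.prod_congr rfl fun j hj => ?_
  have hjv : j ≠ v.i := by
    intro h9
    subst h9
    exact v.2 hj
  have h6 : ∀ q ∈ (D v).primeFactors, (((unt (X.c j * blk D j) q : ℤˣ) : ℤ) : ℝ)
      = ((jacobiSym (X.c j * blk D j) q : ℤ) : ℝ) := by
    intro q hq
    have hqp := Nat.prime_of_mem_primeFactors hq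
    have hqd := Nat.dvd_of_mem_primeFactors hq
    rw [unt_coe]
    rw [Int.gcd_eq_natAbs, Int.natAbs_mul, Int.natAbs_natCast, Int.natAbs_natCast,
      ← Nat.coprime_iff_gcd_eq_one]
    apply Nat.Coprime.symm
    rw [Nat.Prime.coprime_iff_not_dvd hqp]
    intro hcon
    rcases (Nat.Prime.dvd_mul hqp).1 hcon with h | h
    · exact X.hc j q hqp ((hgv v).2 q hqp hqd) (Int.natCast_dvd.2 h)
    · unfold blk at h
      obtain ⟨w, hw, hw2⟩ := (Prime.dvd_finsetProd_iff hqp.prime _).1 h
      have hwv : v ≠ w := by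
        intro h7
        exact hjv (by rw [h7]; exact (Finset.mem_filter.1 hw).2.symm)
      have := hco v w hwv
      exact hqp.one_lt.ne' (Nat.dvd_one.1 (this ▸ Nat.dvd_gcd hqd hw2))
  rw [Finset.prod_congr rfl h6]
  have h8 : ∏ q ∈ (D v).primeFactors, ((jacobiSym (X.c j * blk D j) q : ℤ) : ℝ)
      = ((jacobiSym (X.c j * blk D j) (D v) : ℤ) : ℝ) := by
    rw [jacobi_squarefree _ (D v) (hgv v).1]
    push_cast
    rfl
  rw [h8, jacobiSym.mul_left]
  push_cast
  rfl

open Classical in
theorem fibre (X : CData ι) (D' : ι → ℕ) (h : ∀ i, D' i ≠ 0) :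
    (if X.Allowed D' then (1 : ℝ) else 0) =
      ∑ D ∈ (Fintype.piFinset fun v : Idx ι => (D' v.i).divisors).filter
        (fun D => ∀ i, blk D i = D' i), X.Phi D := by
  by_cases hgood : Good X.B (∏ i, D' i)
  swap
  · rw [if_neg (fun hA => hgood hA.1)]
    symm
    apply Finset.sum_eq_zero
    intro D hD
    rw [Finset.mem_filter] at hD
    by_contra hne
    apply hgood
    have h1 : ∏ i, D' i = ∏ v, D v := by
      rw [← prod_blk]
      exact Finset.prod_congr rfl fun i _ => (hD.2 i).symm
    rw [h1]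
    unfold CData.Phi at hne
    have h2 := left_ne_zero_of_mul hne
    have h3 := right_ne_zero_of_mul hne
    rw [Finset.prod_ne_zero_iff] at h2 h3
    apply good_prod
    · intro v hv
      by_contra h4
      exact h2 v hv (gam_eq_zero X v (D v) h4)
    · intro v _ w _ hvw
      by_contra h4
      apply h3 (v, w) (by simp [hvw])
      rw [Ker, if_neg h4]
  -- the good case
  have hgi : ∀ i, Good X.B (D' i) := fun i =>
    good_of_dvd hgood (Finset.dvd_prod_of_mem _ (Finset.mem_univ i))
  have hcoi : ∀ i j, i ≠ j → Nat.Coprime (D' i) (D' j) :=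
    coprime_of_squarefree_prod D' hgood.1
  -- the indicator function as a product
  have hgcd : ∀ i j : ι, j ≠ i → ∀ q : ℕ, q.Prime → q ∣ D' i →
      (X.c j * D' j).gcd q = 1 := by
    intro i j hji q hq hqd
    rw [Int.gcd_eq_natAbs, Int.natAbs_mul, Int.natAbs_natCast, Int.natAbs_natCast,
      ← Nat.coprime_iff_gcd_eq_one]
    apply Nat.Coprime.symm
    rw [Nat.Prime.coprime_iff_not_dvd hq]
    intro hcon
    rcases (Nat.Prime.dvd_mul hq).1 hcon with h1 | h1
    · exact X.hc j q hq ((hgi i).2 q hq hqd) (Int.natCast_dvd.2 h1)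
    · have := hcoi i j hji.symm
      exact hq.one_lt.ne' (Nat.dvd_one.1 (this ▸ Nat.dvd_gcd hqd h1))
  have hind : (if X.Allowed D' then (1 : ℝ) else 0) =
      ∏ i, ∏ q ∈ (D' i).primeFactors,
        (if ∃ y ∈ X.Pat i q, ∀ j, j ≠ i → unt (X.c j * D' j) q = y j then (1 : ℝ) else 0) := by
    have hloc : ∀ i, ∀ q ∈ (D' i).primeFactors,
        ((∃ y ∈ X.Pat i q, ∀ j, j ≠ i → unt (X.c j * D' j) q = y j) ↔
          (∃ y ∈ X.Pat i q, ∀ j, j ≠ i → jacobiSym (X.c j * D' j) q = ((y j : ℤˣ) : ℤ))) := by
      intro i q hq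
      have hqp := Nat.prime_of_mem_primeFactors hq
      have hqd := Nat.dvd_of_mem_primeFactors hq
      refine exists_congr fun y => and_congr_right fun _ => forall_congr' fun j =>
        imp_congr_right fun hj => ?_
      rw [← unt_coe (hgcd i j hj q hqp hqd), Units.val_inj]
    by_cases hA : X.Allowed D'
    · rw [if_pos hA]
      symm
      apply Finset.prod_eq_one
      intro i _
      apply Finset.prod_eq_one
      intro q hq
      rw [if_pos]
      rw [hloc i q hq]
      exact hA.2 i q (Nat.prime_of_mem_primeFactors hq) (Nat.dvd_of_mem_primeFactors hq)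
    · rw [if_neg hA]
      symm
      have h1 : ¬ ∀ i, ∀ q : ℕ, q.Prime → q ∣ D' i →
          ∃ y ∈ X.Pat i q, ∀ j, j ≠ i → jacobiSym (X.c j * D' j) q = ((y j : ℤˣ) : ℤ) :=
        fun h2 => hA ⟨hgood, h2⟩
      push Not at h1
      obtain ⟨i, q, hq, hqd, h2⟩ := h1
      have hqm : q ∈ (D' i).primeFactors := Nat.mem_primeFactors.2 ⟨hq, hqd, h i⟩
      apply Finset.prod_eq_zero (Finset.mem_univ i)
      apply Finset.prod_eq_zero hqm
      rw [if_neg]
      rw [hloc i q hqm]
      push Not
      exact h2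
  rw [hind]
  -- Fourier expansion
  set g : ∀ i : ι, {A : Finset ι // i ∉ A} → ℕ → ℝ := fun i A q =>
    coefP (X.Pat i q) A.1 * ∏ j ∈ A.1, (((unt (X.c j * D' j) q : ℤˣ) : ℤ) : ℝ) with hg
  have hfou : ∀ i, ∀ q ∈ (D' i).primeFactors,
      (if ∃ y ∈ X.Pat i q, ∀ j, j ≠ i → unt (X.c j * D' j) q = y j then (1 : ℝ) else 0)
        = ∑ A : {A : Finset ι // i ∉ A}, g i A q := by
    intro i q _
    rw [fou i (X.Pat i q) (X.norm i q) (fun j => unt (X.c j * D' j) q)]
    rw [hg]
    rw [Finset.sum_subtype (p := fun A : Finset ι => i ∉ A) ((univ.erase i).powerset)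
      (fun A => by
        rw [Finset.mem_powerset]
        constructor
        · intro h1 h2
          exact Finset.notMem_erase i univ (h1 h2)
        · intro h1 x hx
          rw [Finset.mem_erase]
          exact ⟨fun h2 => h1 (h2 ▸ hx), Finset.mem_univ _⟩)]
  rw [Finset.prod_congr rfl (fun i _ => Finset.prod_congr rfl (hfou i))]
  rw [Finset.prod_congr rfl (fun i _ => exp_prod (g i) (D' i) (hgi i).1)]
  rw [Finset.prod_univ_sum]
  -- the bijection
  refine Finset.sum_bij' (fun E _ => fun v : Idx ι => E v.i ⟨v.A, v.2⟩)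
    (fun D _ => fun i A => D ⟨(i, A.1), A.2⟩) ?_ ?_ ?_ ?_ ?_
  · intro E hE
    rw [Fintype.mem_piFinset] at hE
    rw [Finset.mem_filter, Fintype.mem_piFinset]
    constructor
    · intro v
      have := hE v.i
      rw [fib, Finset.mem_filter, Fintype.mem_piFinset] at this
      exact this.1 _
    · intro i
      have := hE i
      rw [fib, Finset.mem_filter] at this
      conv_rhs => rw [← this.2]
      unfold blk
      refine Finset.prod_bij' (fun v hv => ⟨v.A, by
          have := (Finset.mem_filter.1 hv).2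
          rw [← this]; exact v.2⟩) (fun A _ => ⟨(i, A.1), A.2⟩) ?_ ?_ ?_ ?_ ?_
      · intro v _; exact Finset.mem_univ _
      · intro A _; simp
      · intro v hv
        have := (Finset.mem_filter.1 hv).2
        subst this
        rfl
      · intro A _; rfl
      · intro v hv
        have := (Finset.mem_filter.1 hv).2
        subst this
        rfl
  · intro D hD
    rw [Finset.mem_filter, Fintype.mem_piFinset] at hD
    rw [Fintype.mem_piFinset]
    intro i
    rw [fib, Finset.mem_filter, Fintype.mem_piFinset]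
    constructor
    · intro A
      exact hD.1 ⟨(i, A.1), A.2⟩
    · rw [← hD.2 i]
      unfold blk
      symm
      refine Finset.prod_bij' (fun v hv => ⟨v.A, by
          have := (Finset.mem_filter.1 hv).2
          rw [← this]; exact v.2⟩) (fun A _ => ⟨(i, A.1), A.2⟩) ?_ ?_ ?_ ?_ ?_
      · intro v _; exact Finset.mem_univ _
      · intro A _; simp
      · intro v hv
        have := (Finset.mem_filter.1 hv).2
        subst this
        rfl
      · intro A _; rfl
      · intro v hv
        have := (Finset.mem_filter.1 hv).2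
        subst this
        rfl
  · intro E _; rfl
  · intro D _; rfl
  · intro E hE
    rw [Fintype.mem_piFinset] at hE
    set D : Idx ι → ℕ := fun v : Idx ι => E v.i ⟨v.A, v.2⟩ with hD
    have hblk : ∀ i, blk D i = D' i := by
      intro i
      have := hE i
      rw [fib, Finset.mem_filter] at this
      conv_rhs => rw [← this.2]
      unfold blk
      refine Finset.prod_bij' (fun v hv => ⟨v.A, by
          have := (Finset.mem_filter.1 hv).2
          rw [← this]; exact v.2⟩) (fun A _ => ⟨(i, A.1), A.2⟩) ?_ ?_ ?_ ?_ ?_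
      · intro v _; exact Finset.mem_univ _
      · intro A _; simp
      · intro v hv
        have := (Finset.mem_filter.1 hv).2
        subst this
        rfl
      · intro A _; rfl
      · intro v hv
        have := (Finset.mem_filter.1 hv).2
        subst this
        rfl
    have hgD : Good X.B (∏ v, D v) := by
      rw [← prod_blk, Finset.prod_congr rfl (fun i _ => hblk i)]
      exact hgood
    rw [← phi_eq X D hgD]
    have h1 : ∀ v : Idx ι, ∏ q ∈ (D v).primeFactors, (coefP (X.Pat v.i q) v.A *
        ∏ j ∈ v.A, (((unt (X.c j * blk D j) q : ℤˣ) : ℤ) : ℝ))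
        = ∏ q ∈ (E v.i ⟨v.A, v.2⟩).primeFactors, g v.i ⟨v.A, v.2⟩ q := by
      intro v
      refine Finset.prod_congr rfl fun q _ => ?_
      rw [hg]
      simp only
      congr 1
      refine Finset.prod_congr rfl fun j _ => ?_
      rw [hblk j]
    rw [Finset.prod_congr rfl (fun v _ => h1 v)]
    rw [← Finset.prod_fiberwise (univ : Finset (Idx ι)) (fun v => v.i)]
    refine Finset.prod_congr rfl fun i _ => ?_
    symm
    refine Finset.prod_bij' (fun v hv => ⟨v.A, by
        have := (Finset.mem_filter.1 hv).2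
        rw [← this]; exact v.2⟩) (fun A _ => ⟨(i, A.1), A.2⟩) ?_ ?_ ?_ ?_ ?_
    · intro v _; exact Finset.mem_univ _
    · intro A _; simp
    · intro v hv
      have := (Finset.mem_filter.1 hv).2
      subst this
      rfl
    · intro A _; rfl
    · intro v hv
      have := (Finset.mem_filter.1 hv).2
      subst this
      rfl

end Pool.Agent.SCT
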