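import Pool.Agent.SCT.Defs

/-!
SCT module ISO: a set of pairwise unlinked indices has at most `2^(m-1)` elements.

Proof.  Let `V = (ι → ZMod 2) × (ι → ZMod 2)` with the alternating form
`ω((x,y),(x',y')) = ∑ x_i y'_i + ∑ x'_i y_i` (nondegenerate, `dim V = 2 m`).  Send `v = (i, A)` to
`f v = (Pi.single i 1, indicator of A)`.  Then `ω(f v, f w) = [w.i ∈ v.A] + [v.i ∈ w.A]`, which is
`0` iff `v`, `w` are not linked; `f` is injective.  So the span `W` of `f(U)` is totally isotropic,
`W ≤ W^⊥`, hence `|W|^2 ≤ |V| = 4^m`, `|W| ≤ 2^m` (use `LinearMap.BilinForm` and finrank, or count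
directly: the map `V → Dual W` is surjective with kernel `W^⊥`, so `|W| |W^⊥| = |V|`).  All `f v`
lie in `W_1 = {(x,y) ∈ W : ∑ x_i = 1}`, and `W_1` is empty or a coset of
`W_0 = {∑ x_i = 0}`, so `2 |W_1| ≤ |W| ≤ 2^m`.

Other proofs are welcome (for instance induction on `m`, or a counting argument with characters).
-/

set_option linter.dupNamespace false

namespace Pool.Agent.SCT

open Finset

variable {ι : Type} [Fintype ι] [DecidableEq ι]

/-- the symplectic space -/
abbrev ISOV (ι : Type) := (ι → ZMod 2) × (ι → ZMod 2)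

/-- the symplectic form -/
noncomputable def ISOB (ι : Type) [Fintype ι] : LinearMap.BilinForm (ZMod 2) (ISOV ι) :=
  LinearMap.mk₂ (ZMod 2) (fun p q => ∑ i, (p.1 i * q.2 i + q.1 i * p.2 i))
    (by
      intro a b c
      rw [← Finset.sum_add_distrib]
      refine Finset.sum_congr rfl fun i _ => ?_
      simp only [Prod.fst_add, Prod.snd_add, Pi.add_apply]
      ring)
    (by
      intro a b c
      rw [smul_eq_mul, Finset.mul_sum]
      refine Finset.sum_congr rfl fun i _ => ?_
      simp only [Prod.smul_fst, Prod.smul_snd, Pi.smul_apply, smul_eq_mul]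
      ring)
    (by
      intro a b c
      rw [← Finset.sum_add_distrib]
      refine Finset.sum_congr rfl fun i _ => ?_
      simp only [Prod.fst_add, Prod.snd_add, Pi.add_apply]
      ring)
    (by
      intro a b c
      rw [smul_eq_mul, Finset.mul_sum]
      refine Finset.sum_congr rfl fun i _ => ?_
      simp only [Prod.smul_fst, Prod.smul_snd, Pi.smul_apply, smul_eq_mul]
      ring)

omit [DecidableEq ι] in
lemma ISOB_apply (p q : ISOV ι) : ISOB ι p q = ∑ i, (p.1 i * q.2 i + q.1 i * p.2 i) := rfl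

/-- the vector of an index -/
def ISOf (v : Idx ι) : ISOV ι := (Pi.single v.i 1, fun j => if j ∈ v.A then 1 else 0)

omit [Fintype ι] in
lemma ISOf_inj : Function.Injective (ISOf : Idx ι → ISOV ι) := by
  intro v w h
  have h1 := congrArg Prod.fst h
  have h2 := congrArg Prod.snd h
  simp only [ISOf] at h1 h2
  have h3 : v.i = w.i := by
    have h4 := congrFun h1 v.i
    rw [Pi.single_eq_same] at h4
    by_contra hne
    rw [Pi.single_eq_of_ne hne] at h4
    exact one_ne_zero h4
  have h5 : v.A = w.A := by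
    ext j
    have h6 := congrFun h2 j
    by_cases hv : j ∈ v.A <;> by_cases hw : j ∈ w.A <;> simp only [hv, hw, if_true, if_false] at h6 ⊢
    · exact absurd h6 one_ne_zero
    · exact absurd h6.symm one_ne_zero
  exact Subtype.ext (Prod.ext h3 h5)

lemma ISOB_f (v w : Idx ι) (h : ¬ Linked v w) : ISOB ι (ISOf v) (ISOf w) = 0 := by
  rw [ISOB_apply]
  simp only [ISOf]
  rw [Finset.sum_add_distrib]
  have h1 : ∑ i, (Pi.single v.i (1 : ZMod 2) : ι → ZMod 2) i * (if i ∈ w.A then 1 else 0) =
      if v.i ∈ w.A then 1 else 0 := by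
    rw [Finset.sum_eq_single v.i]
    · rw [Pi.single_eq_same, one_mul]
    · intro b _ hb
      rw [Pi.single_eq_of_ne hb, zero_mul]
    · intro h
      exact absurd (mem_univ _) h
  have h2 : ∑ i, (Pi.single w.i (1 : ZMod 2) : ι → ZMod 2) i * (if i ∈ v.A then 1 else 0) =
      if w.i ∈ v.A then 1 else 0 := by
    rw [Finset.sum_eq_single w.i]
    · rw [Pi.single_eq_same, one_mul]
    · intro b _ hb
      rw [Pi.single_eq_of_ne hb, zero_mul]
    · intro h
      exact absurd (mem_univ _) h
  rw [h1, h2]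
  unfold Linked at h
  rw [not_not] at h
  by_cases hv : v.i ∈ w.A
  · rw [if_pos hv, if_pos (h.2 hv)]
    decide
  · rw [if_neg hv, if_neg (fun h' => hv (h.1 h'))]
    decide

lemma ISOker : LinearMap.ker (ISOB ι) = ⊥ := by
  rw [LinearMap.ker_eq_bot']
  intro p hp
  ext i
  · have h1 := LinearMap.congr_fun hp ((0, Pi.single i 1) : ISOV ι)
    rw [ISOB_apply, LinearMap.zero_apply] at h1
    rw [Finset.sum_eq_single i] at h1
    · simpa using h1
    · intro b _ hb
      simp [Pi.single_eq_of_ne hb]
    · intro h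
      exact absurd (mem_univ _) h
  · have h1 := LinearMap.congr_fun hp ((Pi.single i 1, 0) : ISOV ι)
    rw [ISOB_apply, LinearMap.zero_apply] at h1
    rw [Finset.sum_eq_single i] at h1
    · simpa using h1
    · intro b _ hb
      simp [Pi.single_eq_of_ne hb]
    · intro h
      exact absurd (mem_univ _) h

theorem card_unlinked (U : Finset (Idx ι)) (h : ∀ v ∈ U, ∀ w ∈ U, ¬ Linked v w)
    [Nonempty ι] : U.card ≤ 2 ^ (Fintype.card ι - 1) := by
  rcases U.eq_empty_or_nonempty with h0 | ⟨v0, hv0⟩
  · rw [h0]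
    simp
  set S : Set (ISOV ι) := ISOf '' (U : Set (Idx ι)) with hS
  set W : Submodule (ZMod 2) (ISOV ι) := Submodule.span (ZMod 2) S with hW
  have hiso : ∀ s ∈ W, ∀ t ∈ W, ISOB ι s t = 0 := by
    have h1 : ∀ s ∈ S, W ≤ LinearMap.ker (ISOB ι s) := by
      rintro s ⟨v, hv, rfl⟩
      rw [hW, Submodule.span_le]
      rintro t ⟨w, hw, rfl⟩
      exact ISOB_f v w (h v hv w hw)
    intro s hs t ht
    have h2 : W ≤ LinearMap.ker ((ISOB ι).flip t) := by
      rw [hW, Submodule.span_le]
      intro s' hs'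
      exact h1 s' hs' ht
    exact h2 hs
  have hle : W ≤ (ISOB ι).orthogonal W := by
    intro t ht
    rw [LinearMap.BilinForm.mem_orthogonal_iff]
    intro s hs
    exact hiso s hs t ht
  have hfin := LinearMap.BilinForm.finrank_add_finrank_orthogonal' (B := ISOB ι) W
  have hk : W ⊓ LinearMap.ker (ISOB ι) = ⊥ := by
    rw [ISOker, inf_bot_eq]
  rw [hk, finrank_bot, add_zero] at hfin
  have hV : Module.finrank (ZMod 2) (ISOV ι) = 2 * Fintype.card ι := by
    rw [Module.finrank_prod, Module.finrank_fintype_fun_eq_card]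
    ring
  have hWm : Module.finrank (ZMod 2) W ≤ Fintype.card ι := by
    have h1 := Submodule.finrank_mono hle
    rw [hV] at hfin
    omega
  have hcardW : Nat.card W ≤ 2 ^ Fintype.card ι := by
    rw [Module.natCard_eq_pow_finrank (K := ZMod 2), Nat.card_zmod]
    exact Nat.pow_le_pow_right (by norm_num) hWm
  -- twice as many elements of `W`
  set T : Finset (ISOV ι) := U.image ISOf ∪ U.image (fun v => ISOf v + ISOf v0) with hT
  have hsum : ∀ v : Idx ι, ∑ i, (ISOf v).1 i = 1 := by
    intro v
    simp only [ISOf]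
    rw [Finset.sum_pi_single']
    simp
  have hdisj : Disjoint (U.image ISOf) (U.image (fun v => ISOf v + ISOf v0)) := by
    rw [Finset.disjoint_left]
    intro x hx hx'
    obtain ⟨v, _, rfl⟩ := Finset.mem_image.1 hx
    obtain ⟨w, _, hw⟩ := Finset.mem_image.1 hx'
    have h1 := hsum v
    rw [← hw] at h1
    simp only [Prod.fst_add, Pi.add_apply] at h1
    rw [Finset.sum_add_distrib, hsum, hsum] at h1
    exact absurd h1 (by decide)
  have hTcard : T.card = 2 * U.card := by
    rw [hT, Finset.card_union_of_disjoint hdisj, Finset.card_image_of_injective _ ISOf_inj,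
      Finset.card_image_of_injective]
    · ring
    · intro v w hvw
      exact ISOf_inj (add_right_cancel hvw)
  have hTW : (T : Set (ISOV ι)) ⊆ (W : Set (ISOV ι)) := by
    intro x hx
    have hmem : ∀ v ∈ U, ISOf v ∈ W := fun v hv => Submodule.subset_span ⟨v, hv, rfl⟩
    rw [hT, Finset.mem_coe, Finset.mem_union] at hx
    rcases hx with hx | hx
    · obtain ⟨v, hv, rfl⟩ := Finset.mem_image.1 hx
      exact hmem v hv
    · obtain ⟨v, hv, rfl⟩ := Finset.mem_image.1 hx
      exact W.add_mem (hmem v hv) (hmem v0 hv0)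
  have hle2 : T.card ≤ Nat.card W := by
    have h1 := Set.ncard_le_ncard hTW (Set.toFinite _)
    rw [Set.ncard_coe_finset] at h1
    exact h1
  have hpos : 0 < Fintype.card ι := Fintype.card_pos
  obtain ⟨m, hm⟩ := Nat.exists_eq_succ_of_ne_zero hpos.ne'
  rw [hm] at hcardW ⊢
  rw [Nat.succ_eq_add_one, pow_succ] at hcardW
  simp only [Nat.succ_eq_add_one, Nat.add_sub_cancel]
  omega

end Pool.Agent.SCT
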