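import Pool.Agent.SCT.CntD
import Pool.Agent.SCT.Sqf
import Pool.Agent.SCT.Fac

/-!
SCT module MAIN: almost all quadratic twists have no section.
-/

set_option linter.dupNamespace false

namespace Pool.Agent.SCT

open Polynomial Pool.Agent.Helper36 Pool.Agent.Helper19.Sec

/-- a section of a twist gives a section of the twist by the squarefree part -/
theorem hasSection_of (f g : ℤ[X]) (c d d0 t : ℤ) (hc : c ≠ 0)
    (hf : f = C c * g) (h : c * d = d0 * t ^ 2) (hs : HasSection f d) : HasSection g d0 := by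
  obtain ⟨K, Ω, i1, i2, i3, i4, i5, i6, i7, x, y, hx, hxy, hn⟩ := hs
  refine ⟨K, Ω, i1, i2, i3, i4, i5, i6, i7, x, (t : K) * y / c, hx, ?_, hn⟩
  have hcK : (c : K) ≠ 0 := by
    have : CharZero K := charZero_of_injective_algebraMap (algebraMap ℚ K).injective
    exact_mod_cast hc
  have h1 : (c : K) * d = d0 * t ^ 2 := by exact_mod_cast congrArg (fun z : ℤ => (z : K)) h
  rw [hf, map_mul, aeval_C] at hxy
  have h2 : (c : K) * ((d : K) * y ^ 2) = c * (c * aeval x g) := by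
    rw [hxy]
    rfl
  have h3 : (d0 : K) * t ^ 2 * y ^ 2 = c ^ 2 * aeval x g := by
    rw [← h1]
    linear_combination h2
  field_simp
  linear_combination h3

theorem main (f : ℤ[X]) (hsq : Squarefree (f.map (Int.castRingHom ℚ)))
    (h6 : 6 ≤ f.natDegree)
    (heven : ∀ g : ℚ[X], Irreducible g → g ∣ f.map (Int.castRingHom ℚ) → Even g.natDegree) :
    ∃ C δ : ℝ, 0 < δ ∧ ∀ N : ℕ, 2 ≤ N →
      (Nat.card {d : ℤ // |d| ≤ N ∧ HasSection f d} : ℝ) ≤ C * N / (Real.log N) ^ δ := by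
  obtain ⟨n, F, c, hc, hf, hirr, hev, h6', hsep⟩ := exists_factors f hsq h6 heven
  obtain ⟨C, δ, hC, hδ, hcnt⟩ := cnt_sqfree F hev hirr h6' hsep
  obtain ⟨C', hC', hall⟩ := sqfree_to_all {d : ℤ | Squarefree d ∧ HasSection (∏ j, F j) d} C δ hC hδ
    (by
      intro N hN
      have h1 : {d : ℤ | d ∈ {d : ℤ | Squarefree d ∧ HasSection (∏ j, F j) d} ∧ |d| ≤ N} =
          {d : ℤ | Squarefree d ∧ |d| ≤ N ∧ HasSection (∏ j, F j) d} := by
        ext d
        simp only [Set.mem_ofPred_eq]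
        tauto
      rw [h1]
      exact hcnt N hN) c hc
  refine ⟨C', δ, hδ, fun N hN => ?_⟩
  refine le_trans ?_ (hall N hN)
  have hsub : {d : ℤ | |d| ≤ N ∧ HasSection f d} ⊆ {d : ℤ | d ≠ 0 ∧ |d| ≤ N ∧
      ∃ d0 ∈ {d : ℤ | Squarefree d ∧ HasSection (∏ j, F j) d}, ∃ t : ℤ, c * d = d0 * t ^ 2} := by
    rintro d ⟨hd, hs⟩
    have hd0 : d ≠ 0 := by
      rintro rfl
      obtain ⟨K, Ω, i1, i2, i3, i4, i5, i6, i7, x, y, hx, hxy, hn⟩ := hs
      rw [Int.cast_zero, zero_mul] at hxy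
      have hf0 : f ≠ 0 := by
        rintro rfl
        rw [natDegree_zero] at h6
        omega
      have h2 : aeval x (f.map (Int.castRingHom ℚ)) = 0 := by
        have := aeval_map_algebraMap ℚ x f
        rw [← hxy] at this
        exact this
      have h3 : f.map (Int.castRingHom ℚ) ≠ 0 :=
        (Polynomial.map_ne_zero_iff (Int.cast_injective)).mpr hf0
      exact hx ⟨_, h3, h2⟩
    refine ⟨hd0, hd, ?_⟩
    obtain ⟨d0, t, hdt, hsq0⟩ : ∃ d0 t : ℤ, c * d = d0 * t ^ 2 ∧ Squarefree d0 := by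
      have hcd : c * d ≠ 0 := mul_ne_zero hc hd0
      obtain ⟨a, b, hab, ha⟩ := Nat.sq_mul_squarefree (c * d).natAbs
      refine ⟨(c * d).sign * a, b, ?_, ?_⟩
      · have h4 : c * d = (c * d).sign * ((c * d).natAbs : ℤ) := (Int.sign_mul_natAbs _).symm
        conv_lhs => rw [h4, ← hab]
        push_cast
        ring
      · rw [← Int.squarefree_natAbs, Int.natAbs_mul, Int.natAbs_sign_of_ne_zero hcd, one_mul,
          Int.natAbs_natCast]
        exact ha
    exact ⟨d0, ⟨hsq0, hasSection_of f _ c d d0 t hc hf hdt hs⟩, t, hdt⟩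
  have hfin : {d : ℤ | d ≠ 0 ∧ |d| ≤ N ∧
      ∃ d0 ∈ {d : ℤ | Squarefree d ∧ HasSection (∏ j, F j) d}, ∃ t : ℤ,
        c * d = d0 * t ^ 2}.Finite := by
    refine (Set.finite_Icc (-(N : ℤ)) N).subset ?_
    rintro d ⟨-, hd, -⟩
    exact abs_le.mp hd
  have h5 := Set.ncard_le_ncard hsub hfin
  have h6 : Nat.card {d : ℤ // |d| ≤ N ∧ HasSection f d} =
      {d : ℤ | |d| ≤ N ∧ HasSection f d}.ncard := rfl
  rw [h6]
  exact_mod_cast h5

end Pool.Agent.SCT
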