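import Pool.Agent.SCT.Fou

/-!
SCT module SEP: dependence of `Phi` on two linked variables.

`D = update (update R v0 n) w0 m`, `w0.i ∈ v0.A`, `v0.i ∉ w0.A` (so `v0 ≠ w0`).  Among the factors
of `Phi D`: `gam v0 n` and the `Ker` factors of the ordered pairs `(v0, u)`, `(u, v0)`, `u ≠ v0, w0`,
depend only on `n` (and `R`); `gam w0 m` and the pairs `(w0, u)`, `(u, w0)` only on `m`; the pairs
`(v0, w0)`, `(w0, v0)` give `Ker v0 w0 n m * Ker w0 v0 m n = [n, m coprime] jacobiSym m n`, and this
equals `jacobiSym m n` because the symbol vanishes when `n`, `m` are not coprime and `n ≠ 0`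
(`jacobiSym.eq_zero_iff_not_coprime`; `b n = 0` for `n = 0`, which is not squarefree); all
other factors depend only on `R`.  All factors have absolute value at most one.
-/

set_option linter.dupNamespace false

namespace Pool.Agent.SCT

open Finset

variable {ι : Type} [Fintype ι] [DecidableEq ι]

theorem sep_abs_jac_le (a : ℤ) (b : ℕ) : |((jacobiSym a b : ℤ) : ℝ)| ≤ 1 := by
  rcases jacobiSym.trichotomy a b with h | h | h <;> rw [h] <;> norm_num

theorem abs_Ker_le_one (v w : Idx ι) (a b : ℕ) : |Ker v w a b| ≤ 1 := by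
  unfold Ker
  split_ifs
  · exact sep_abs_jac_le _ _
  · norm_num
  · norm_num

theorem sep_abs_prod_le {α : Type} (s : Finset α) (f : α → ℝ) (h : ∀ x ∈ s, |f x| ≤ 1) :
    |∏ x ∈ s, f x| ≤ 1 := by
  rw [Finset.abs_prod]
  exact Finset.prod_le_one (fun x _ => abs_nonneg _) h

theorem sep_abs_mul_le {a b : ℝ} (ha : |a| ≤ 1) (hb : |b| ≤ 1) : |a * b| ≤ 1 := by
  rw [abs_mul]
  exact mul_le_one₀ ha (abs_nonneg _) hb

theorem abs_Phi_le_one (X : CData ι) (D : Idx ι → ℕ) : |X.Phi D| ≤ 1 := by
  unfold CData.Phi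
  exact sep_abs_mul_le (sep_abs_prod_le _ _ fun v _ => abs_gam_le_one X v _)
    (sep_abs_prod_le _ _ fun p _ => abs_Ker_le_one _ _ _ _)

theorem phi_sep (X : CData ι) (v0 w0 : Idx ι) (h1 : w0.i ∈ v0.A) (h2 : v0.i ∉ w0.A)
    (R : Idx ι → ℕ) : ∃ (Γ : ℝ) (a b : ℕ → ℝ), |Γ| ≤ 1 ∧ (∀ m, |a m| ≤ 1) ∧ (∀ n, |b n| ≤ 1) ∧
      (∀ m, a m ≠ 0 → Good X.B m) ∧ (∀ n, b n ≠ 0 → Good X.B n) ∧
      ∀ m n : ℕ, X.Phi (Function.update (Function.update R v0 n) w0 m) =
        Γ * (a m * b n * ((jacobiSym (m : ℤ) n : ℤ) : ℝ)) := by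
  classical
  have hne : v0 ≠ w0 := by
    rintro rfl
    exact h2 h1
  -- the pairs which do not contain `w0`
  let A : Idx ι × Idx ι → Prop := fun p => p.1 ≠ w0 ∧ p.2 ≠ w0
  let B : Idx ι × Idx ι → Prop := fun p => p.1 ≠ v0 ∧ p.2 ≠ v0
  let O : Finset (Idx ι × Idx ι) := (univ : Finset (Idx ι)).offDiag
  let K : (Idx ι → ℕ) → Idx ι × Idx ι → ℝ := fun D p => Ker p.1 p.2 (D p.1) (D p.2)
  refine ⟨(∏ v ∈ (univ.erase v0).erase w0, X.gam v (R v)) * ∏ p ∈ (O.filter A).filter B, K R p,
    fun m => X.gam w0 m * ∏ p ∈ (O.filter (fun p => ¬ A p)).filter B, K (Function.update R w0 m) p,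
    fun n => X.gam v0 n * ∏ p ∈ (O.filter A).filter (fun p => ¬ B p), K (Function.update R v0 n) p,
    ?_, ?_, ?_, ?_, ?_, ?_⟩
  · exact sep_abs_mul_le (sep_abs_prod_le _ _ fun v _ => abs_gam_le_one X v _)
      (sep_abs_prod_le _ _ fun p _ => abs_Ker_le_one _ _ _ _)
  · intro m
    exact sep_abs_mul_le (abs_gam_le_one X _ _)
      (sep_abs_prod_le _ _ fun p _ => abs_Ker_le_one _ _ _ _)
  · intro n
    exact sep_abs_mul_le (abs_gam_le_one X _ _)
      (sep_abs_prod_le _ _ fun p _ => abs_Ker_le_one _ _ _ _)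
  · intro m hm
    by_contra hg
    apply hm
    simp only [gam_eq_zero X w0 m hg, zero_mul]
  · intro n hn
    by_contra hg
    apply hn
    simp only [gam_eq_zero X v0 n hg, zero_mul]
  · intro m n
    set D : Idx ι → ℕ := Function.update (Function.update R v0 n) w0 m with hD
    have hDw : D w0 = m := by simp [hD]
    have hDv : D v0 = n := by simp [hD, hne]
    have hD1 : ∀ x, x ≠ w0 → D x = Function.update R v0 n x := by
      intro x hx
      simp [hD, hx]
    have hD2 : ∀ x, x ≠ v0 → D x = Function.update R w0 m x := by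
      intro x hx
      by_cases hx2 : x = w0
      · subst hx2
        simp [hD]
      · simp [hD, hx, hx2]
    have hD3 : ∀ x, x ≠ v0 → x ≠ w0 → D x = R x := by
      intro x hx hx2
      simp [hD, hx, hx2]
    -- the product of the `gam`
    have e1 : ∏ v, X.gam v (D v) =
        X.gam v0 n * (X.gam w0 m * ∏ v ∈ (univ.erase v0).erase w0, X.gam v (R v)) := by
      rw [← Finset.mul_prod_erase univ _ (Finset.mem_univ v0),
        ← Finset.mul_prod_erase (univ.erase v0) _ (Finset.mem_erase.mpr ⟨hne.symm, Finset.mem_univ w0⟩),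
        hDv, hDw]
      congr 2
      refine Finset.prod_congr rfl fun v hv => ?_
      rw [Finset.mem_erase, Finset.mem_erase] at hv
      rw [hD3 v hv.2.1 hv.1]
    -- the product of the `Ker`
    have e2 : ∏ p ∈ O, K D p = ((∏ p ∈ (O.filter A).filter B, K R p) *
        ∏ p ∈ (O.filter A).filter (fun p => ¬ B p), K (Function.update R v0 n) p) *
        ((∏ p ∈ (O.filter (fun p => ¬ A p)).filter B, K (Function.update R w0 m) p) *
          (Ker v0 w0 n m * Ker w0 v0 m n)) := by
      rw [← Finset.prod_filter_mul_prod_filter_not O A, ← Finset.prod_filter_mul_prod_filter_not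
        (O.filter A) B, ← Finset.prod_filter_mul_prod_filter_not (O.filter (fun p => ¬ A p)) B]
      congr 1
      · congr 1
        · refine Finset.prod_congr rfl fun p hp => ?_
          rw [Finset.mem_filter, Finset.mem_filter] at hp
          obtain ⟨⟨-, ha⟩, hb⟩ := hp
          show Ker p.1 p.2 (D p.1) (D p.2) = Ker p.1 p.2 (R p.1) (R p.2)
          rw [hD3 _ hb.1 ha.1, hD3 _ hb.2 ha.2]
        · refine Finset.prod_congr rfl fun p hp => ?_
          rw [Finset.mem_filter, Finset.mem_filter] at hp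
          obtain ⟨⟨-, ha⟩, hb⟩ := hp
          show Ker p.1 p.2 (D p.1) (D p.2) = Ker p.1 p.2 _ _
          rw [hD1 _ ha.1, hD1 _ ha.2]
      · congr 1
        · refine Finset.prod_congr rfl fun p hp => ?_
          rw [Finset.mem_filter, Finset.mem_filter] at hp
          obtain ⟨⟨-, ha⟩, hb⟩ := hp
          show Ker p.1 p.2 (D p.1) (D p.2) = Ker p.1 p.2 _ _
          rw [hD2 _ hb.1, hD2 _ hb.2]
        · have e3 : (O.filter (fun p => ¬ A p)).filter (fun p => ¬ B p) = {(v0, w0), (w0, v0)} := by
            ext ⟨x, y⟩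
            simp only [Finset.mem_filter, O, Finset.mem_offDiag, Finset.mem_univ, true_and, A, B,
              Finset.mem_insert, Finset.mem_singleton, Prod.mk.injEq]
            constructor
            · rintro ⟨⟨hxy, ha⟩, hb⟩
              by_cases hx : x = w0
              · subst hx
                right
                refine ⟨rfl, ?_⟩
                by_contra hy
                exact hb ⟨hne.symm, hy⟩
              · by_cases hy : y = w0
                · subst hy
                  left
                  refine ⟨?_, rfl⟩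
                  by_contra hx2
                  exact hb ⟨hx2, hne.symm⟩
                · exact absurd ⟨hx, hy⟩ ha
            · rintro (⟨rfl, rfl⟩ | ⟨rfl, rfl⟩)
              · exact ⟨⟨hne, fun h => h.2 rfl⟩, fun h => h.1 rfl⟩
              · exact ⟨⟨hne.symm, fun h => h.1 rfl⟩, fun h => h.2 rfl⟩
          rw [e3, Finset.prod_pair (by
            intro h
            exact hne (Prod.mk.injEq _ _ _ _ ▸ h).1)]
          show Ker v0 w0 (D v0) (D w0) * Ker w0 v0 (D w0) (D v0) = _
          rw [hDv, hDw]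
    have e4 : X.gam v0 n * (Ker v0 w0 n m * Ker w0 v0 m n) =
        X.gam v0 n * ((jacobiSym (m : ℤ) n : ℤ) : ℝ) := by
      by_cases hg : Good X.B n
      · congr 1
        have hn0 : n ≠ 0 := by
          rintro rfl
          exact not_squarefree_zero hg.1
        unfold Ker
        rw [if_pos h1, if_neg h2]
        by_cases hc : Nat.Coprime n m
        · rw [if_pos hc, if_pos hc.symm, mul_one]
        · rw [if_neg hc, zero_mul]
          haveI : NeZero n := ⟨hn0⟩
          have : jacobiSym (m : ℤ) n = 0 := by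
            rw [jacobiSym.eq_zero_iff_not_coprime]
            intro h
            rw [Int.gcd_natCast_natCast] at h
            exact hc (Nat.Coprime.symm h)
          rw [this]
          norm_num
      · rw [gam_eq_zero X v0 n hg]
        ring
    have e5 : X.Phi D = (∏ v, X.gam v (D v)) * ∏ p ∈ O, K D p := rfl
    rw [e5, e1, e2]
    linear_combination ((∏ v ∈ (univ.erase v0).erase w0, X.gam v (R v)) *
      (∏ p ∈ (O.filter A).filter B, K R p) * X.gam w0 m *
      (∏ p ∈ (O.filter (fun p => ¬ A p)).filter B, K (Function.update R w0 m) p) *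
      ∏ p ∈ (O.filter A).filter (fun p => ¬ B p), K (Function.update R v0 n) p) * e4

end Pool.Agent.SCT
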