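import Pool.Agent.Helper19.Sec.Fixed

/-!
SCT module UEX: square roots in the universal cover.

* `exists_u`.  `X = 1 / (x - ι θ0)`.  `a^2 = X - ι e1` means `((x - θ0) a / κ1)^2 = (x - θ0)(x - θ1)`
  for a constant `κ1` with `κ1^2 = -1/(θ1 - θ0)` (an element of `algebraicClosure k Ω`; all constants
  lie in finite unramified extensions by `unram_adjoin_const`).  Using `sqrt_unram`
  (`Helper19/Sec/Sqrt.lean`, it applies to every given root `r : Ω`) three times and
  `unram_adjoin_const` for `κ1, κ2, κ3`, get a finite unramified `L` containing `x, θ0, a, b, d`.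
  For a place `w` of `L` (trivial on `k`, so also trivial on the nonzero elements algebraic over `k`,
  `Rpm.val_eq_one_of_algebraic`): `(a + b)(a - b) = e2 - e1` has value `1`.  If `w X ≤ 1`, then
  `w a, w b, w d ≤ 1`, so `w (a + b) = w (a + d) = 1`.  If `w X > 1`, then
  `w a = w b = w d =: t > 1` (`w a ^ 2 = w X`), and `max (w (a+b)) (w (a-b)) ≥ t` (`2 a` has value `t`),
  both are `≤ t`, so `w (a + b) ∈ {t, t⁻¹}`, similarly `w (a + d)`.  So
  `w ((a+b)(a+d)) ∈ {1, t^2, t^-2} = {w 1 ^ 2, w a ^ 2, w a⁻¹ ^ 2}`.  Apply `unram_adjoin_root` with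
  `n = 2` and `le_univCover`.
* `exists_sqrt_prod`: pair up the elements of `S` (induction on the cardinality) and use
  `exists_sqrt` for every pair.
-/

set_option linter.dupNamespace false

namespace Pool.Agent.SCT

open Polynomial Pool.Agent.Helper36 Pool.Agent.Helper19.Sec

variable {k K Ω : Type*} [Field k] [Field K] [Field Ω] [Algebra k K] [Algebra K Ω] [Algebra k Ω]
  [IsScalarTower k K Ω] [CharZero k] [Algebra.IsAlgebraic K Ω] [IsAlgClosed Ω]

private lemma uex_step (f : k[X]) (hf : f.Separable) (c : k) (hc : c ≠ 0) (x y : K)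
    (hx : Transcendental k x) (hxy : algebraMap k K c * y ^ 2 = aeval x f)
    (L : IntermediateField K Ω) (h1 : FiniteDimensional K L) (h2 : UnramifiedEverywhere k K L)
    (θ0 θ1 : Ω) (h0 : aeval θ0 f = 0) (h1' : aeval θ1 f = 0) (h01 : θ1 ≠ θ0)
    (hx0 : algebraMap K Ω x - θ0 ≠ 0) (a : Ω)
    (ha : a ^ 2 = 1 / (algebraMap K Ω x - θ0) - 1 / (θ1 - θ0)) :
    ∃ L' : IntermediateField K Ω, L ≤ L' ∧ a ∈ L' ∧ θ0 ∈ L' ∧ θ1 ∈ L' ∧ FiniteDimensional K L' ∧
      UnramifiedEverywhere k K L' := by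
  have hf0 : f ≠ 0 := hf.ne_zero
  have halg0 : IsAlgebraic k θ0 := ⟨f, hf0, h0⟩
  have halg1 : IsAlgebraic k θ1 := ⟨f, hf0, h1'⟩
  have hne : θ1 - θ0 ≠ 0 := sub_ne_zero.2 h01
  obtain ⟨κ, hκ⟩ := IsAlgClosed.exists_pow_nat_eq (-(1 / (θ1 - θ0)) : Ω) (n := 2) (by norm_num)
  have hκ0 : κ ≠ 0 := by
    rintro rfl
    have : -(1 / (θ1 - θ0)) = (0 : Ω) := by rw [← hκ]; ring
    rw [neg_eq_zero, one_div, inv_eq_zero] at this
    exact hne this
  have hκalg : IsAlgebraic k κ := by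
    have h3 : IsAlgebraic k (κ ^ 2) := by
      rw [hκ, one_div]
      exact ((halg1.sub halg0).inv).neg
    exact IsAlgebraic.of_pow (by norm_num) h3
  have hr : ((algebraMap K Ω x - θ0) * a / κ) ^ 2 =
      (algebraMap K Ω x - θ0) * (algebraMap K Ω x - θ1) := by
    rw [div_pow, mul_pow, ha, hκ]
    field_simp
    ring
  obtain ⟨L1, hL1, hr1, hθ0, hθ1, hfin1, hun1⟩ := sqrt_unram f hf c hc x y hx hxy L h1 h2 θ0 θ1
    h0 h1' _ hr
  obtain ⟨L2, hL2, hκ2, hfin2, hun2⟩ := unram_adjoin_const L1 hfin1 hun1 κ hκalg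
  refine ⟨L2, hL1.trans hL2, ?_, hL2 hθ0, hL2 hθ1, hfin2, hun2⟩
  have e : a = (algebraMap K Ω x - θ0) * a / κ * κ / (algebraMap K Ω x - θ0) := by
    field_simp
  rw [e]
  exact L2.div_mem (L2.mul_mem (hL2 hr1) hκ2) (L2.sub_mem (L2.algebraMap_mem x) (hL2 hθ0))

/-- values of `A + B` at a place -/
private lemma uex_val {L Γ : Type*} [Field L] [LinearOrderedCommGroupWithZero Γ]
    (v : Valuation L Γ) {X A B e1 e2 : L} (hA : A ^ 2 = X - e1) (hB : B ^ 2 = X - e2)
    (he1 : v e1 ≤ 1) (he2 : v e2 ≤ 1) (he : v (e2 - e1) = 1) (h2 : v (2 : L) = 1) :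
    (v X ≤ 1 ∧ v (A + B) = 1) ∨ (1 < v X ∧ (v (A + B) = v A ∨ v (A + B) = (v A)⁻¹)) := by
  have hprod : v (A + B) * v (A - B) = 1 := by
    rw [← map_mul, ← he]
    congr 1
    linear_combination hA - hB
  rcases le_or_gt (v X) 1 with hX | hX
  · left
    refine ⟨hX, ?_⟩
    have hA1 : v A ≤ 1 := by
      have h3 : v A ^ 2 ≤ 1 := by
        rw [← map_pow, hA]
        exact (v.map_sub _ _).trans (max_le hX he1)
      exact (pow_le_one_iff two_ne_zero).1 h3
    have hB1 : v B ≤ 1 := by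
      have h3 : v B ^ 2 ≤ 1 := by
        rw [← map_pow, hB]
        exact (v.map_sub _ _).trans (max_le hX he2)
      exact (pow_le_one_iff two_ne_zero).1 h3
    have h4 : v (A + B) ≤ 1 := (v.map_add _ _).trans (max_le hA1 hB1)
    have h5 : v (A - B) ≤ 1 := (v.map_sub _ _).trans (max_le hA1 hB1)
    apply le_antisymm h4
    rw [← hprod]
    exact mul_le_of_le_one_right' h5
  · right
    refine ⟨hX, ?_⟩
    have hA2 : v A ^ 2 = v X := by
      rw [← map_pow, hA, Valuation.map_sub_swap]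
      exact Valuation.map_sub_eq_of_lt_right v (lt_of_le_of_lt he1 hX)
    have hB2 : v B ^ 2 = v X := by
      rw [← map_pow, hB, Valuation.map_sub_swap]
      exact Valuation.map_sub_eq_of_lt_right v (lt_of_le_of_lt he2 hX)
    have hAB : v A = v B := by
      have h3 : v A ^ 2 = v B ^ 2 := hA2.trans hB2.symm
      exact (pow_left_inj₀ zero_le zero_le two_ne_zero).1 h3
    have hplus : v (A + B) ≤ v A := (v.map_add _ _).trans (max_le le_rfl hAB.ge)
    have hminus : v (A - B) ≤ v A := (v.map_sub _ _).trans (max_le le_rfl hAB.ge)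
    have hmax : v A ≤ max (v (A + B)) (v (A - B)) := by
      have h3 : v A = v ((A + B) + (A - B)) := by
        have : (A + B) + (A - B) = 2 * A := by ring
        rw [this, map_mul, h2, one_mul]
      calc v A = v ((A + B) + (A - B)) := h3
        _ ≤ _ := v.map_add _ _
    rcases le_max_iff.1 hmax with h | h
    · left
      exact le_antisymm hplus h
    · right
      have h3 : v (A - B) = v A := le_antisymm hminus h
      rw [h3] at hprod
      exact eq_inv_of_mul_eq_one_left hprod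

theorem exists_u (f : k[X]) (hf : f.Separable) (c : k) (hc : c ≠ 0) (x y : K)
    (hx : Transcendental k x) (hxy : algebraMap k K c * y ^ 2 = aeval x f)
    (θ0 θ1 θ2 θ3 : algebraicClosure k Ω) (h0 : aeval θ0 f = 0) (h1 : aeval θ1 f = 0)
    (h2 : aeval θ2 f = 0) (h3 : aeval θ3 f = 0) (h01 : θ1 ≠ θ0) (h02 : θ2 ≠ θ0) (h03 : θ3 ≠ θ0)
    (h12 : θ1 ≠ θ2) (h13 : θ1 ≠ θ3) (a b d : univCover k K Ω)
    (ha : a ^ 2 = 1 / (algebraMap K (univCover k K Ω) x - incl k K Ω θ0)
      - incl k K Ω (1 / (θ1 - θ0)))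
    (hb : b ^ 2 = 1 / (algebraMap K (univCover k K Ω) x - incl k K Ω θ0)
      - incl k K Ω (1 / (θ2 - θ0)))
    (hd : d ^ 2 = 1 / (algebraMap K (univCover k K Ω) x - incl k K Ω θ0)
      - incl k K Ω (1 / (θ3 - θ0))) :
    ∃ u : univCover k K Ω, u ^ 2 = (a + b) * (a + d) := by
  have hθΩ : ∀ t : algebraicClosure k Ω, aeval t f = 0 → aeval (t : Ω) f = 0 := by
    intro t ht
    have := congrArg (algebraMap (algebraicClosure k Ω) Ω) ht
    rw [← aeval_algebraMap_apply, map_zero] at this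
    exact this
  have hneΩ : ∀ s t : algebraicClosure k Ω, s ≠ t → (s : Ω) ≠ (t : Ω) := fun s t hst h =>
    hst (Subtype.ext h)
  have hx0 : algebraMap K Ω x - (θ0 : Ω) ≠ 0 := by
    intro h
    have h4 : IsAlgebraic k (algebraMap K Ω x) := by
      rw [sub_eq_zero.1 h]
      exact mem_algebraicClosure_iff.mp θ0.2
    exact hx ((isAlgebraic_algebraMap_iff (algebraMap K Ω).injective).mp h4)
  have haΩ : (a : Ω) ^ 2 = 1 / (algebraMap K Ω x - θ0) - 1 / ((θ1 : Ω) - θ0) :=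
    congrArg Subtype.val ha
  have hbΩ : (b : Ω) ^ 2 = 1 / (algebraMap K Ω x - θ0) - 1 / ((θ2 : Ω) - θ0) :=
    congrArg Subtype.val hb
  have hdΩ : (d : Ω) ^ 2 = 1 / (algebraMap K Ω x - θ0) - 1 / ((θ3 : Ω) - θ0) :=
    congrArg Subtype.val hd
  obtain ⟨L1, -, ha1, h01', h11', hfin1, hun1⟩ := uex_step f hf c hc x y hx hxy ⊥
    (bot_unram (k := k)).1 bot_unram.2 (θ0 : Ω) (θ1 : Ω) (hθΩ _ h0) (hθΩ _ h1) (hneΩ _ _ h01) hx0 a haΩ
  obtain ⟨L2, hL2, hb2, -, h22', hfin2, hun2⟩ := uex_step f hf c hc x y hx hxy L1 hfin1 hun1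
    (θ0 : Ω) (θ2 : Ω) (hθΩ _ h0) (hθΩ _ h2) (hneΩ _ _ h02) hx0 b hbΩ
  obtain ⟨L, hL3, hd3, -, h33', hfin, hun⟩ := uex_step f hf c hc x y hx hxy L2 hfin2 hun2
    (θ0 : Ω) (θ3 : Ω) (hθΩ _ h0) (hθΩ _ h3) (hneΩ _ _ h03) hx0 d hdΩ
  -- the elements of `L`
  let A : L := ⟨a, hL3 (hL2 ha1)⟩
  let B : L := ⟨b, hL3 hb2⟩
  let D : L := ⟨d, hd3⟩
  let T0 : L := ⟨θ0, hL3 (hL2 h01')⟩
  let T1 : L := ⟨θ1, hL3 (hL2 h11')⟩
  let T2 : L := ⟨θ2, hL3 h22'⟩
  let T3 : L := ⟨θ3, h33'⟩
  let X : L := 1 / (algebraMap K L x - T0)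
  have hA : A ^ 2 = X - 1 / (T1 - T0) := Subtype.ext haΩ
  have hB : B ^ 2 = X - 1 / (T2 - T0) := Subtype.ext hbΩ
  have hD : D ^ 2 = X - 1 / (T3 - T0) := Subtype.ext hdΩ
  have hne : ∀ (s t : algebraicClosure k Ω) (hs : (s : Ω) ∈ L) (ht : (t : Ω) ∈ L), s ≠ t →
      ((⟨s, hs⟩ : L) - ⟨t, ht⟩) ≠ 0 := by
    intro s t hs ht hst h
    have h' := sub_eq_zero.1 h
    exact hneΩ s t hst (congrArg (fun z : L => (z : Ω)) h')
  have halg : ∀ (s : algebraicClosure k Ω) (hs : (s : Ω) ∈ L), IsAlgebraic k (⟨s, hs⟩ : L) := by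
    intro s hs
    have h4 : IsAlgebraic k (algebraMap L Ω ⟨s, hs⟩) := mem_algebraicClosure_iff.mp s.2
    exact (isAlgebraic_algebraMap_iff (algebraMap L Ω).injective).mp h4
  have n10 : T1 - T0 ≠ 0 := hne _ _ _ _ h01
  have n20 : T2 - T0 ≠ 0 := hne _ _ _ _ h02
  have n30 : T3 - T0 ≠ 0 := hne _ _ _ _ h03
  have a10 : IsAlgebraic k (1 / (T1 - T0)) := by
    rw [one_div]; exact ((halg _ _).sub (halg _ _)).inv
  have a20 : IsAlgebraic k (1 / (T2 - T0)) := by
    rw [one_div]; exact ((halg _ _).sub (halg _ _)).inv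
  have a30 : IsAlgebraic k (1 / (T3 - T0)) := by
    rw [one_div]; exact ((halg _ _).sub (halg _ _)).inv
  have e12 : 1 / (T2 - T0) - 1 / (T1 - T0) ≠ 0 := by
    intro h
    have h4 : (T2 - T0) = (T1 - T0) := by
      have := sub_eq_zero.1 h
      rw [one_div, one_div] at this
      exact inv_injective this
    have h5 : T1 - T2 = 0 := by linear_combination -h4
    exact hne _ _ _ _ h12 h5
  have e13 : 1 / (T3 - T0) - 1 / (T1 - T0) ≠ 0 := by
    intro h
    have h4 : (T3 - T0) = (T1 - T0) := by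
      have := sub_eq_zero.1 h
      rw [one_div, one_div] at this
      exact inv_injective this
    have h5 : T1 - T3 = 0 := by linear_combination -h4
    exact hne _ _ _ _ h13 h5
  have hABne : A + B ≠ 0 := by
    intro h
    apply e12
    linear_combination (A - B) * h - hA + hB
  have hADne : A + D ≠ 0 := by
    intro h
    apply e13
    linear_combination (A - D) * h - hA + hD
  have hchar2 : (2 : L) ≠ 0 := by
    have h1 : CharZero K := charZero_of_injective_algebraMap (algebraMap k K).injective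
    have h2 : CharZero L := charZero_of_injective_algebraMap (algebraMap K L).injective
    exact two_ne_zero
  have hdiv : ∀ v : Valuation L (WithZero (Multiplicative ℤ)), IsPlace k v →
      ∃ h : L, v ((A + B) * (A + D)) = v h ^ 2 := by
    intro v hv
    have hcst : ∀ z : L, IsAlgebraic k z → z ≠ 0 → v z = 1 := fun z hz hz0 =>
      val_eq_one_of_algebraic hv.1 hz hz0
    have hle : ∀ z : L, IsAlgebraic k z → v z ≤ 1 := by
      intro z hz
      by_cases h : z = 0
      · rw [h, map_zero]; exact zero_le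
      · exact (hcst z hz h).le
    have h2v : v (2 : L) = 1 := by
      have h4 : (2 : L) = algebraMap k L 2 := (map_ofNat (algebraMap k L) 2).symm
      rw [h4]
      exact hv.1 2 two_ne_zero
    have v1 := uex_val v hA hB (hle _ a10) (hle _ a20) (hcst _ (a20.sub a10) e12) h2v
    have v2 := uex_val v hA hD (hle _ a10) (hle _ a30) (hcst _ (a30.sub a10) e13) h2v
    rw [map_mul]
    rcases v1 with ⟨hX1, w1⟩ | ⟨hX1, w1⟩
    · rcases v2 with ⟨_, w2⟩ | ⟨hX2, _⟩
      · exact ⟨1, by rw [w1, w2, map_one, one_mul, one_pow]⟩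
      · exact absurd hX1 (not_le.2 hX2)
    · rcases v2 with ⟨hX2, _⟩ | ⟨_, w2⟩
      · exact absurd hX2 (not_le.2 hX1)
      · have hA0 : v A ≠ 0 := by
          intro h
          rcases w1 with w1 | w1
          · rw [h] at w1
            exact hABne ((Valuation.zero_iff v).1 w1)
          · rw [h, inv_zero] at w1
            exact hABne ((Valuation.zero_iff v).1 w1)
        rcases w1 with w1 | w1 <;> rcases w2 with w2 | w2
        · exact ⟨A, by rw [w1, w2, sq]⟩
        · exact ⟨1, by rw [w1, w2, map_one, mul_inv_cancel₀ hA0, one_pow]⟩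
        · exact ⟨1, by rw [w1, w2, map_one, inv_mul_cancel₀ hA0, one_pow]⟩
        · exact ⟨A⁻¹, by rw [w1, w2, map_inv₀, sq]⟩
  obtain ⟨γ, hγ⟩ := IsAlgClosed.exists_pow_nat_eq (((A + B) * (A + D) : L) : Ω) (n := 2)
    (by norm_num)
  obtain ⟨L', hL', hγL, hfin', hun'⟩ := unram_adjoin_root L hfin hun 2 two_ne_zero
    ((A + B) * (A + D)) (mul_ne_zero hABne hADne) hdiv γ hγ
  refine ⟨⟨γ, le_univCover L' hfin' hun' hγL⟩, Subtype.ext ?_⟩
  exact hγ

open Classical in
theorem exists_sqrt_prod (f : k[X]) (hf : f.Separable) (c : k) (hc : c ≠ 0) (x y : K)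
    (hx : Transcendental k x) (hxy : algebraMap k K c * y ^ 2 = aeval x f)
    (S : Finset (algebraicClosure k Ω)) (hS : ∀ θ ∈ S, aeval θ f = 0) (heven : Even S.card) :
    ∃ r : univCover k K Ω,
      r ^ 2 = ∏ θ ∈ S, (algebraMap K (univCover k K Ω) x - incl k K Ω θ) := by
  obtain ⟨n, hn⟩ := heven
  induction n generalizing S with
  | zero =>
    have : S = ∅ := Finset.card_eq_zero.1 (by omega)
    subst this
    exact ⟨1, by simp⟩
  | succ n ih =>
    obtain ⟨θ, hθ⟩ : S.Nonempty := Finset.card_pos.1 (by omega)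
    have hc1 : (S.erase θ).card = n + 1 + (n + 1) - 1 := by rw [Finset.card_erase_of_mem hθ, hn]
    obtain ⟨θ', hθ'⟩ : (S.erase θ).Nonempty := Finset.card_pos.1 (by omega)
    have hc2 : ((S.erase θ).erase θ').card = n + n := by
      rw [Finset.card_erase_of_mem hθ', hc1]
      omega
    obtain ⟨r, hr⟩ := ih ((S.erase θ).erase θ')
      (fun t ht => hS t (Finset.mem_of_mem_erase (Finset.mem_of_mem_erase ht))) hc2
    obtain ⟨s, -, hs, -⟩ := exists_sqrt f hf c hc x y hx hxy ⊥ (bot_unram (k := k)).1 bot_unram.2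
      θ θ' (hS θ hθ) (hS θ' (Finset.mem_of_mem_erase hθ'))
    refine ⟨s * r, ?_⟩
    rw [mul_pow, hs, hr, ← Finset.mul_prod_erase S _ hθ, ← Finset.mul_prod_erase (S.erase θ) _ hθ',
      mul_assoc]

end Pool.Agent.SCT
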