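import Pool.Agent.Helper19.Sec.Val
import Pool.Agent.Helper19.Sec.Four

/-!
SCT module WILD: a wild element.

Let `τ' = φ⁻¹ τ φ` and `σ = τ (τ'^q)⁻¹`.  Claim: `v (σ z - z) < v z` for all `z ≠ 0`.
Proof.  Call `g` *inertial* if `v (g z) = v z` for all `z` and `v (g z - z) < 1` whenever `v z ≤ 1`.
`τ` is inertial (`hl.vτ`, `hl.hτ`), `τ'` is inertial (`v (φ⁻¹ z) = v z` from `hl.vφ`, and
`τ' z - z = φ⁻¹ (τ (φ z) - φ z)`), products and inverses of inertial elements are inertial.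
For inertial `g` and `z ≠ 0` put `t g z = g z / z`, `v (t g z) = 1`; then (with `≈` meaning
`v (a - b) < 1` for elements of value `≤ 1`):
* `t (g g') z ≈ t g z * t g' z` (`g (g' z / z) ≈ g' z / z`);
* if `v z = v w` then `t g z ≈ t g w` (`z / w` is a unit `u`, and `t g z = (g u / u) t g w`);
* `t τ z = φ (τ' w) / φ w`-computation: with `w = φ⁻¹ z`, `τ z = φ (τ' w)`, so
  `t τ z = φ (t τ' w) ≈ (t τ' w)^q` (`hl.hφ`) `≈ (t τ' z)^q ≈ t (τ'^q) z`.
Hence `t σ z ≈ 1`.
`q_odd`: `φ (-1) = -1 ≈ (-1)^q`, and `v 2 = 1`.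
`wild_sign`: if `σ` is wild (the conclusion of `wild`), `z : M` is nonzero, `ι b * z` is fixed by
`ρ σ` for some `b ≠ 0` and `ρ σ z = z` or `ρ σ z = - z`, then `ρ σ z = z` and `σ b = b`:
`ρ σ z = ι (b / σ b) z`, and `σ b = - b` contradicts `v (σ b - b) = v (2 b) = v b`.
-/

set_option linter.dupNamespace false

namespace Pool.Agent.SCT

open Pool.Agent.Helper19.Sec

variable {k E M Γ₀ : Type*} [Field k] [Field E] [Field M] [Algebra k E]
  [LinearOrderedCommGroupWithZero Γ₀]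

/-- preserving the valuation and acting trivially on the residue field -/
def Inert (v : Valuation E Γ₀) (g : E → E) : Prop :=
  (∀ z, v (g z) = v z) ∧ ∀ z, v z ≤ 1 → v (g z - z) < 1

section cong

variable {v : Valuation E Γ₀}

lemma cong_trans {a b c : E} (h1 : v (a - b) < 1) (h2 : v (b - c) < 1) : v (a - c) < 1 := by
  have h : a - c = (a - b) + (b - c) := by ring
  rw [h]
  exact lt_of_le_of_lt (v.map_add _ _) (max_lt h1 h2)

lemma cong_symm {a b : E} (h1 : v (a - b) < 1) : v (b - a) < 1 := by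
  rwa [Valuation.map_sub_swap]

lemma cong_mul {a b c d : E} (ha : v a ≤ 1) (hd : v d ≤ 1) (h1 : v (a - b) < 1)
    (h2 : v (c - d) < 1) : v (a * c - b * d) < 1 := by
  have h : a * c - b * d = a * (c - d) + (a - b) * d := by ring
  rw [h]
  refine lt_of_le_of_lt (v.map_add _ _) (max_lt ?_ ?_)
  · rw [map_mul]
    exact lt_of_le_of_lt (mul_le_of_le_one_left zero_le ha) h2
  · rw [map_mul]
    exact lt_of_le_of_lt (mul_le_of_le_one_right zero_le hd) h1

lemma cong_pow {a b : E} (ha : v a ≤ 1) (hb : v b ≤ 1) (h1 : v (a - b) < 1) (n : ℕ) :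
    v (a ^ n - b ^ n) < 1 := by
  induction n with
  | zero => simp
  | succ n ih =>
    rw [pow_succ, pow_succ]
    refine cong_mul ?_ hb ih h1
    rw [map_pow]
    exact pow_le_one₀ zero_le ha

lemma val_div_self {g : E → E} (hg : ∀ z, v (g z) = v z) {z : E} (hz : z ≠ 0) :
    v (g z / z) = 1 := by
  rw [map_div₀, hg, div_self]
  rwa [Valuation.ne_zero_iff]

lemma inert_quot {g : E ≃+* E} (hg : Inert v g) {z w : E} (hz : z ≠ 0) (hw : w ≠ 0)
    (h : v z = v w) : v (g z / z - g w / w) < 1 := by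
  have hvw : v w ≠ 0 := by rwa [Valuation.ne_zero_iff]
  have hu1 : v (z / w) = 1 := by rw [map_div₀, h, div_self hvw]
  have hu0 : z / w ≠ 0 := div_ne_zero hz hw
  have h1 : g z / z - g w / w = (g (z / w) / (z / w) - 1) * (g w / w) := by
    have hgw : g w ≠ 0 := by simpa using hw
    rw [map_div₀]
    field_simp
  rw [h1, map_mul, val_div_self hg.1 hw, mul_one]
  have h2 : g (z / w) / (z / w) - 1 = (g (z / w) - z / w) / (z / w) := by
    rw [sub_div, div_self hu0]
  rw [h2, map_div₀, hu1, div_one]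
  exact hg.2 _ hu1.le

lemma inert_mul {g g' : E ≃+* E} (hg : Inert v g) (hg' : Inert v g') :
    Inert v (g * g' : E ≃+* E) := by
  refine ⟨fun z => ?_, fun z hz => ?_⟩
  · show v (g (g' z)) = v z
    rw [hg.1, hg'.1]
  · show v (g (g' z) - z) < 1
    exact cong_trans (hg.2 _ (by rw [hg'.1]; exact hz)) (hg'.2 z hz)

lemma inert_one : Inert v (1 : E ≃+* E) := by
  refine ⟨fun z => rfl, fun z _ => ?_⟩
  show v (z - z) < 1
  rw [sub_self, map_zero]
  exact zero_lt_one

lemma inert_pow {g : E ≃+* E} (hg : Inert v g) (n : ℕ) : Inert v (g ^ n : E ≃+* E) := by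
  induction n with
  | zero => rw [pow_zero]; exact inert_one
  | succ n ih => rw [pow_succ]; exact inert_mul ih hg

lemma inert_pow_quot {g : E ≃+* E} (hg : Inert v g) {z : E} (hz : z ≠ 0) (n : ℕ) :
    v ((g ^ n : E ≃+* E) z / z - (g z / z) ^ n) < 1 := by
  induction n with
  | zero =>
    have : ((g ^ 0 : E ≃+* E) z) = z := rfl
    rw [this, pow_zero, div_self hz, sub_self, map_zero]
    exact zero_lt_one
  | succ n ih =>
    have hgz : g z ≠ 0 := by simpa using hz
    have h1 : (g ^ (n + 1) : E ≃+* E) z / z = (g ^ n : E ≃+* E) (g z) / g z * (g z / z) := by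
      have : (g ^ (n + 1) : E ≃+* E) z = (g ^ n : E ≃+* E) (g z) := by rw [pow_succ]; rfl
      rw [this]
      field_simp
    rw [h1, pow_succ]
    refine cong_mul ?_ ?_ ?_ ?_
    · exact (val_div_self (inert_pow hg n).1 hgz).le
    · exact (val_div_self hg.1 hz).le
    · exact cong_trans (inert_quot (inert_pow hg n) hgz hz (hg.1 z)) ih
    · rw [sub_self, map_zero]
      exact zero_lt_one

end cong

theorem q_odd {v : Valuation E Γ₀} {φ τ : E ≃ₐ[k] E} {q : ℕ}
    (hl : IsLoc v (φ : E →+* E) (τ : E →+* E) q) : Odd q := by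
  by_contra hq
  rw [Nat.not_odd_iff_even] at hq
  have h1 := hl.hφ (-1) (by rw [Valuation.map_neg, map_one])
  rw [map_neg, map_one, hq.neg_one_pow] at h1
  have h2 : (-1 - 1 : E) = -2 := by norm_num
  rw [h2, Valuation.map_neg, hl.v2] at h1
  exact lt_irrefl _ h1

lemma inert_conj {v : Valuation E Γ₀} {φ τ : E ≃ₐ[k] E} {q : ℕ}
    (hl : IsLoc v (φ : E →+* E) (τ : E →+* E) q) :
    Inert v ((φ⁻¹ * τ * φ : E ≃ₐ[k] E) : E → E) := by
  have hφ' : ∀ z, v (φ⁻¹ z) = v z := by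
    intro z
    have h1 := hl.vφ (φ⁻¹ z)
    have h2 : (φ : E →+* E) (φ⁻¹ z) = z := φ.apply_symm_apply z
    rw [h2] at h1
    exact h1.symm
  refine ⟨fun z => ?_, fun z hz => ?_⟩
  · show v (φ⁻¹ (τ (φ z))) = v z
    rw [hφ']
    exact (hl.vτ (φ z)).trans (hl.vφ z)
  · have h1 : (φ⁻¹ * τ * φ : E ≃ₐ[k] E) z - z = φ⁻¹ (τ (φ z) - φ z) := by
      rw [map_sub]
      congr 1
      exact (φ.symm_apply_apply z).symm
    rw [h1, hφ']
    exact hl.hτ (φ z) (by
      have := hl.vφ z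
      exact (this.trans_le hz))

/-- the conjugate `φ⁻¹ τ φ` is again an inertia element -/
theorem conj_inertia {v : Valuation E Γ₀} {φ τ : E ≃ₐ[k] E} {q : ℕ}
    (hl : IsLoc v (φ : E →+* E) (τ : E →+* E) q) (z : E) (hz : v z ≤ 1) :
    v ((φ⁻¹ * τ * φ) z - z) < 1 :=
  (inert_conj hl).2 z hz

theorem wild {v : Valuation E Γ₀} {φ τ : E ≃ₐ[k] E} {q : ℕ}
    (hl : IsLoc v (φ : E →+* E) (τ : E →+* E) q) (z : E) (hz : z ≠ 0) :
    v ((τ * ((φ⁻¹ * τ * φ) ^ q)⁻¹) z - z) < v z := by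
  set τ' : E ≃ₐ[k] E := φ⁻¹ * τ * φ with hτ'
  let g : E ≃+* E := τ'.toRingEquiv
  have hg : Inert v g := inert_conj hl
  have hgpow : ∀ n : ℕ, ∀ w : E, (g ^ n : E ≃+* E) w = (τ' ^ n) w := by
    intro n
    induction n with
    | zero => intro w; rfl
    | succ n ih =>
      intro w
      have h1 : (g ^ (n + 1) : E ≃+* E) w = (g ^ n : E ≃+* E) (g w) := by rw [pow_succ]; rfl
      rw [h1, ih, pow_succ]
      rfl
  -- the tame character of `τ`
  have key : ∀ w : E, w ≠ 0 → v (τ w / w - (g ^ q : E ≃+* E) w / w) < 1 := by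
    intro w hw
    have hφ' : v (φ⁻¹ w) = v w := by
      have h1 := hl.vφ (φ⁻¹ w)
      have h2 : (φ : E →+* E) (φ⁻¹ w) = w := φ.apply_symm_apply w
      rw [h2] at h1
      exact h1.symm
    set u := φ⁻¹ w with hu
    have hu0 : u ≠ 0 := by
      rw [← Valuation.ne_zero_iff v, hφ', Valuation.ne_zero_iff]
      exact hw
    have hφu : φ u = w := φ.apply_symm_apply w
    have h1 : τ w / w = φ (τ' u / u) := by
      rw [map_div₀, hφu]
      congr 1
      show τ w = φ (φ⁻¹ (τ (φ u)))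
      rw [hφu]
      exact (φ.apply_symm_apply _).symm
    have h2 : v (τ' u / u) = 1 := val_div_self hg.1 hu0
    have h3 : v (φ (τ' u / u) - (τ' u / u) ^ q) < 1 := hl.hφ _ h2.le
    have h4 : v ((τ' u / u) - (τ' w / w)) < 1 := inert_quot hg hu0 hw hφ'
    have h5 : v ((τ' u / u) ^ q - (τ' w / w) ^ q) < 1 :=
      cong_pow h2.le (val_div_self hg.1 hw).le h4 q
    have h6 := inert_pow_quot hg hw q
    rw [h1]
    exact cong_trans h3 (cong_trans h5 (cong_symm h6))
  -- conclusion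
  set w := ((τ' ^ q)⁻¹) z with hw
  have hzw : (τ' ^ q) w = z := (τ' ^ q).apply_symm_apply z
  have hw0 : w ≠ 0 := by
    intro h0
    rw [h0, map_zero] at hzw
    exact hz hzw.symm
  have h1 := key w hw0
  rw [hgpow, hzw] at h1
  have hvz : v z = v w := by
    rw [← hzw, ← hgpow]
    exact (inert_pow hg q).1 w
  have h2 : (τ * (τ' ^ q)⁻¹) z - z = (τ w / w - z / w) * w := by
    rw [sub_mul, div_mul_cancel₀ _ hw0, div_mul_cancel₀ _ hw0]
    rfl
  rw [h2, map_mul, hvz]
  have hvw : 0 < v w := zero_lt_iff.mpr ((Valuation.ne_zero_iff v).mpr hw0)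
  calc v (τ w / w - z / w) * v w < 1 * v w := by
        exact mul_lt_mul_of_pos_right h1 hvw
    _ = v w := one_mul _

theorem wild_sign (fr : Frame k E M) {v : Valuation E Γ₀} (hv2 : v 2 = 1) {σ : E ≃ₐ[k] E}
    (hσ : ∀ z : E, z ≠ 0 → v (σ z - z) < v z) {z : M} (hz : z ≠ 0) {b : E} (hb : b ≠ 0)
    (hbz : fr.ρ σ (fr.ι b * z) = fr.ι b * z) (hpm : fr.ρ σ z = z ∨ fr.ρ σ z = -z) :
    fr.ρ σ z = z ∧ σ b = b := by
  rw [map_mul, fr.semilin] at hbz
  rcases hpm with h | h
  · refine ⟨h, ?_⟩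
    rw [h] at hbz
    exact fr.ι.injective (mul_right_cancel₀ hz hbz)
  · exfalso
    rw [h] at hbz
    have h1 : fr.ι (σ b) = fr.ι (-b) := by
      apply mul_right_cancel₀ hz
      rw [map_neg]
      linear_combination -hbz
    have h2 : σ b = -b := fr.ι.injective h1
    have h3 := hσ b hb
    rw [h2] at h3
    have h4 : (-b - b : E) = -(2 * b) := by ring
    rw [h4, Valuation.map_neg, map_mul, hv2, one_mul] at h3
    exact lt_irrefl _ h3

end Pool.Agent.SCT
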